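import Mathlib

set_option autoImplicit false

/-!
# Mirrored words in two sequences (MP_0ea415, Littlewood)
-/

namespace Pool.Agent.H2.MC

open Filter

/-- `pq x n` is the partial quotient of index `n + 1` (`n = 0, 1, 2, …`) of the regular continued fraction of
the real number `x`: the integer part of the `(n+1)`-st iterate of `y ↦ 1 / (y - ⌊y⌋)` at `x`. -/
noncomputable def pq (x : ℝ) (n : ℕ) : ℕ := ⌊(fun y : ℝ => (Int.fract y)⁻¹)^[n + 1] x⌋₊

/-- The word of length `n` which the sequence `b` reads from the position `i` on. -/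
def win (b : ℕ → ℕ) (i n : ℕ) : List ℕ := (List.range n).map (fun k => b (i + k))

/-- The mirror image of the word of length `n` which the sequence `a` reads from the position `j` on. -/
def mir (a : ℕ → ℕ) (j n : ℕ) : List ℕ := (win a j n).reverse

/-- The words of length `n` which occur in `b` or whose mirror image occurs in `a`. -/
def Occ (b a : ℕ → ℕ) (n : ℕ) : Set (List ℕ) := {w | (∃ i, win b i n = w) ∨ ∃ j, mir a j n = w}

/-- The words of length `n` which occur infinitely often in `b`, or whose mirror image occurs infinitely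
often in `a`. -/
def Rec (b a : ℕ → ℕ) (n : ℕ) : Set (List ℕ) :=
  {w | (∃ᶠ i in atTop, win b i n = w) ∨ ∃ᶠ j in atTop, mir a j n = w}

/-- The words of length `n` which occur infinitely often in `b`. -/
def RecB (b : ℕ → ℕ) (n : ℕ) : Set (List ℕ) := {w | ∃ᶠ i in atTop, win b i n = w}

/-- The words of length `n` whose mirror image occurs infinitely often in `a`. -/
def RecA (a : ℕ → ℕ) (n : ℕ) : Set (List ℕ) := {w | ∃ᶠ j in atTop, mir a j n = w}

/-- Transient words: those which occur, but not infinitely often. -/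
def Tr (b a : ℕ → ℕ) (n : ℕ) : Set (List ℕ) := Occ b a n \ Rec b a n

/-- Eventually periodic sequences. -/
def EvPer (s : ℕ → ℕ) : Prop := ∃ N p, 0 < p ∧ ∀ n, N ≤ n → s (n + p) = s n

/-- The number `x` is neither rational nor quadratic. -/
def NotQuad (x : ℝ) : Prop := ∀ A B C : ℤ, (A : ℝ) * x ^ 2 + B * x + C = 0 → A = 0 ∧ B = 0 ∧ C = 0

/-- The statement of Littlewood's conjecture for the pair `(α, β)`, with the power gain `q ^ (-c)`. -/
def PowerLittlewood (c α β : ℝ) : Prop :=
  ∀ ε : ℝ, 0 < ε → ∀ N : ℕ, ∃ q : ℕ, N ≤ q ∧ 0 < q ∧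
    (q : ℝ) ^ (1 + c) * |(q : ℝ) * α - (round ((q : ℝ) * α) : ℝ)|
      * |(q : ℝ) * β - (round ((q : ℝ) * β) : ℝ)| < ε

/-- All letters are at most `M`. -/
def Bd (b a : ℕ → ℕ) (M : ℕ) : Prop := (∀ n, b n ≤ M) ∧ ∀ n, a n ≤ M

/-- A finite, factorial, extendable language, given by its sets of words of each length. -/
structure Lang (F : ℕ → Set (List ℕ)) : Prop where
  fin : ∀ n, (F n).Finite
  ne : (F 0).Nonempty
  len : ∀ n, ∀ w ∈ F n, w.length = n
  pre : ∀ (n : ℕ) (w : List ℕ) (e : ℕ), w ++ [e] ∈ F (n + 1) → w ∈ F n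
  suf : ∀ (n : ℕ) (w : List ℕ) (e : ℕ), e :: w ∈ F (n + 1) → w ∈ F n
  exr : ∀ n, ∀ w ∈ F n, ∃ e, w ++ [e] ∈ F (n + 1)
  exl : ∀ n, ∀ w ∈ F n, ∃ e, e :: w ∈ F (n + 1)

end Pool.Agent.H2.MC
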