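import Mathlib
import Pool.Agent.H2.MC.Defs

set_option autoImplicit false

namespace Pool.Agent.H2.MC

open Filter

@[simp] lemma win_length (b : ℕ → ℕ) (i n : ℕ) : (win b i n).length = n := by simp [win]

@[simp] lemma mir_length (a : ℕ → ℕ) (j n : ℕ) : (mir a j n).length = n := by simp [mir]

@[simp] lemma win_zero (b : ℕ → ℕ) (i : ℕ) : win b i 0 = [] := rfl

@[simp] lemma mir_zero (a : ℕ → ℕ) (j : ℕ) : mir a j 0 = [] := rfl

lemma win_getElem (b : ℕ → ℕ) (i n t : ℕ) (h : t < (win b i n).length) : (win b i n)[t] = b (i + t) := by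
  simp [win]

lemma win_succ (b : ℕ → ℕ) (i n : ℕ) : win b i (n + 1) = win b i n ++ [b (i + n)] := by
  simp [win, List.range_succ]

lemma win_succ' (b : ℕ → ℕ) (i n : ℕ) : win b i (n + 1) = b i :: win b (i + 1) n := by
  unfold win
  rw [List.range_succ_eq_map, List.map_cons, List.map_map]
  simp only [Nat.add_zero, List.cons.injEq, true_and]
  apply List.map_congr_left
  intro k _
  simp only [Function.comp, Nat.succ_eq_add_one]
  congr 1
  omega

lemma win_add (b : ℕ → ℕ) (i m n : ℕ) : win b i (m + n) = win b i m ++ win b (i + m) n := by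
  induction n with
  | zero => simp
  | succ n ih => rw [← Nat.add_assoc, win_succ, ih, win_succ, List.append_assoc, Nat.add_assoc]

lemma mir_succ (a : ℕ → ℕ) (j n : ℕ) : mir a j (n + 1) = a (j + n) :: mir a j n := by
  unfold mir; rw [win_succ]; simp

lemma mir_succ' (a : ℕ → ℕ) (j n : ℕ) : mir a j (n + 1) = mir a (j + 1) n ++ [a j] := by
  unfold mir; rw [win_succ']; simp

lemma mir_add (a : ℕ → ℕ) (j m n : ℕ) : mir a j (m + n) = mir a (j + m) n ++ mir a j m := by
  unfold mir; rw [win_add]; simp

lemma win_take (b : ℕ → ℕ) (i : ℕ) {m n : ℕ} (h : m ≤ n) : (win b i n).take m = win b i m := by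
  obtain ⟨k, rfl⟩ := Nat.exists_eq_add_of_le h
  rw [win_add]
  have : (win b i m).length = m := win_length b i m
  rw [List.take_append_of_le_length (by rw [this]), List.take_of_length_le (by rw [this])]

lemma win_drop (b : ℕ → ℕ) (i : ℕ) {m n : ℕ} (h : m ≤ n) : (win b i n).drop m = win b (i + m) (n - m) := by
  obtain ⟨k, rfl⟩ := Nat.exists_eq_add_of_le h
  rw [win_add]
  have h1 : (win b i m).length = m := win_length b i m
  rw [List.drop_append_of_le_length (by rw [h1]), List.drop_of_length_le (by rw [h1]), List.nil_append]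
  congr 1
  omega

/-- The last `m` letters of the mirrored word of length `n`. -/
lemma mir_drop (a : ℕ → ℕ) (j : ℕ) {m n : ℕ} (h : m ≤ n) : (mir a j n).drop (n - m) = mir a j m := by
  obtain ⟨k, rfl⟩ := Nat.exists_eq_add_of_le h
  rw [mir_add]
  have h1 : (mir a (j + m) k).length = k := mir_length _ _ _
  have h2 : m + k - m = k := by omega
  rw [h2, List.drop_append_of_le_length (by rw [h1]), List.drop_of_length_le (by rw [h1]), List.nil_append]

/-- The first `n - m` letters of the mirrored word of length `n`. -/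
lemma mir_take (a : ℕ → ℕ) (j : ℕ) {m n : ℕ} (h : m ≤ n) : (mir a j n).take (n - m) = mir a (j + m) (n - m) := by
  obtain ⟨k, rfl⟩ := Nat.exists_eq_add_of_le h
  rw [mir_add]
  have h1 : (mir a (j + m) k).length = k := mir_length _ _ _
  have h2 : m + k - m = k := by omega
  rw [h2, List.take_append_of_le_length (by rw [h1]), List.take_of_length_le (by rw [h1])]

lemma win_eq_iff (b b' : ℕ → ℕ) (i i' n : ℕ) : win b i n = win b' i' n ↔ ∀ t < n, b (i + t) = b' (i' + t) := by
  constructor
  · intro h t ht
    have h1 : t < (win b i n).length := by rw [win_length]; exact ht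
    have h2 : t < (win b' i' n).length := by rw [win_length]; exact ht
    rw [← win_getElem b i n t h1, ← win_getElem b' i' n t h2]
    simp only [h]
  · intro h
    unfold win
    apply List.map_congr_left
    intro k hk
    exact h k (List.mem_range.mp hk)

lemma win_eq_mir_iff (b a : ℕ → ℕ) (i j n : ℕ) :
    win b i n = mir a j n ↔ ∀ t < n, b (i + t) = a (j + (n - 1 - t)) := by
  have hm : mir a j n = win (fun t => a (j + (n - 1 - t))) 0 n := by
    apply List.ext_getElem
    · simp
    · intro t h1 h2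
      unfold mir
      rw [List.getElem_reverse, win_getElem, win_getElem, win_length, Nat.zero_add]
  rw [hm, win_eq_iff]
  simp

/-- A word which occurs in `b` can be extended on the right by the next letter. -/
lemma win_ext_right (b : ℕ → ℕ) (i n : ℕ) : win b i n ++ [b (i + n)] = win b i (n + 1) := (win_succ b i n).symm

lemma append_singleton_inj {u v : List ℕ} {e f : ℕ} : u ++ [e] = v ++ [f] ↔ u = v ∧ e = f := by
  constructor
  · intro h
    have h1 : u.length = v.length := by
      have := congrArg List.length h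
      simpa using this
    have h2 := List.append_inj h h1
    exact ⟨h2.1, by simpa using h2.2⟩
  · rintro ⟨rfl, rfl⟩; rfl

lemma mem_Rec_iff (b a : ℕ → ℕ) (n : ℕ) (w : List ℕ) : w ∈ Rec b a n ↔ w ∈ RecB b n ∨ w ∈ RecA a n := Iff.rfl

lemma Rec_eq_union (b a : ℕ → ℕ) (n : ℕ) : Rec b a n = RecB b n ∪ RecA a n := rfl

lemma RecA_iff (a : ℕ → ℕ) (n : ℕ) (w : List ℕ) : w ∈ RecA a n ↔ w.reverse ∈ RecB a n := by
  unfold RecA RecB mir
  simp only [Set.mem_setOf_eq]
  apply frequently_congr
  filter_upwards with j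
  constructor
  · intro h; rw [← h, List.reverse_reverse]
  · intro h; rw [h, List.reverse_reverse]

lemma RecB_length {b : ℕ → ℕ} {n : ℕ} {w : List ℕ} (h : w ∈ RecB b n) : w.length = n := by
  obtain ⟨i, hi⟩ := h.exists
  rw [← hi, win_length]

lemma RecA_length {a : ℕ → ℕ} {n : ℕ} {w : List ℕ} (h : w ∈ RecA a n) : w.length = n := by
  obtain ⟨i, hi⟩ := h.exists
  rw [← hi, mir_length]

lemma Rec_length {b a : ℕ → ℕ} {n : ℕ} {w : List ℕ} (h : w ∈ Rec b a n) : w.length = n := by
  rcases h with h | h
  · exact RecB_length h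
  · exact RecA_length h

lemma Occ_length {b a : ℕ → ℕ} {n : ℕ} {w : List ℕ} (h : w ∈ Occ b a n) : w.length = n := by
  rcases h with ⟨i, rfl⟩ | ⟨j, rfl⟩
  · exact win_length _ _ _
  · exact mir_length _ _ _

lemma Rec_subset_Occ (b a : ℕ → ℕ) (n : ℕ) : Rec b a n ⊆ Occ b a n := by
  rintro w (h | h)
  · exact Or.inl h.exists
  · exact Or.inr h.exists

end Pool.Agent.H2.MC
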