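import Mathlib
import Pool.Agent.H2.MC.Words

set_option autoImplicit false

/-!
# Module LangA (150 lines): finite factorial extendable languages

`F : ℕ → Set (List ℕ)` with `Lang F` (see Defs): `F n` is a finite set of words of length `n`, closed under
prefixes and suffixes, every word extends on both sides.

PROOFS.
* `card_mono`: the map `F (n+1) → F n`, `w ↦ w.dropLast` is surjective (`exr`), `Set.ncard` of a surjective
  image (`Set.ncard_le_ncard_of_surjOn` or `Set.ncard_image_le`; e.g. `F n ⊆ List.dropLast '' F (n+1)`).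
* `right_special`: if no word has two right extensions then `w ↦ w.dropLast` is injective on `F (n+1)`
  (every `v ∈ F (n+1)` is `w ++ [e]` as its length is `n+1`: `List.dropLast_append_getLast` or
  `List.eq_nil_or_concat`), so `ncard F (n+1) ≤ ncard F n`.
  `left_special` the same with `List.tail`.
* `uniq_right`: Let `R ++ [e1], R ++ [e2] ∈ F (n+1)`, `e1 ≠ e2`, and suppose `w ≠ R` has two right extensions
  `e ≠ e'`. The map `dropLast` is surjective from `F (n+1) \ {R ++ [e2], w ++ [e']}` onto `F n`, hence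
  `ncard F n ≤ ncard F (n+1) - 2`: contradiction. `uniq_left` the same with `e :: w` and `tail`.
* `two_right`: three different extensions of `R` : remove `R++[e2], R++[e3]`, same argument.
* `card_ext`: `F (n+1)` is the disjoint union of the fibres of `dropLast`: one point over every `w ≠ R` (`exr`, `hu`), and
  `{e | R ++ [e] ∈ F (n+1)}` over `R`.
* `take_mem`, `drop_mem`: induction on the number of letters removed (`pre`, `suf`).
* `extend_right`, `extend_left`: induction on `k`.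
-/

namespace Pool.Agent.H2.MC

variable {F : ℕ → Set (List ℕ)}

/-- The abstract situation: `A` lies over `B` by removing a letter. -/
private structure Over (A B : Set (List ℕ)) (g : List ℕ → ℕ → List ℕ) (f : List ℕ → List ℕ) : Prop where
  fA : A.Finite
  fB : B.Finite
  fg : ∀ w e, f (g w e) = w
  inj : ∀ w e e', g w e = g w e' → e = e'
  form : ∀ v ∈ A, ∃ w e, v = g w e
  pre : ∀ w e, g w e ∈ A → w ∈ B
  ex : ∀ w ∈ B, ∃ e, g w e ∈ A

private lemma Over.card_le {A B : Set (List ℕ)} {g : List ℕ → ℕ → List ℕ} {f : List ℕ → List ℕ}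
    (h : Over A B g f) : B.ncard ≤ A.ncard := by
  have hsub : B ⊆ f '' A := by
    intro w hw
    obtain ⟨e, he⟩ := h.ex w hw
    exact ⟨g w e, he, h.fg w e⟩
  exact (Set.ncard_le_ncard hsub (h.fA.image f)).trans (Set.ncard_image_le h.fA)

private lemma Over.special {A B : Set (List ℕ)} {g : List ℕ → ℕ → List ℕ} {f : List ℕ → List ℕ}
    (h : Over A B g f) (hc : B.ncard < A.ncard) :
    ∃ (w : List ℕ) (e e' : ℕ), e ≠ e' ∧ g w e ∈ A ∧ g w e' ∈ A := by
  by_contra hcon
  push Not at hcon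
  have hinj : Set.InjOn f A := by
    intro v hv v' hv' hvv
    obtain ⟨w, e, rfl⟩ := h.form v hv
    obtain ⟨w', e', rfl⟩ := h.form v' hv'
    rw [h.fg, h.fg] at hvv
    subst hvv
    by_contra hne
    have hee : e ≠ e' := by
      rintro rfl
      exact hne rfl
    exact hcon w e e' hee hv hv'
  have hsub : f '' A ⊆ B := by
    rintro w ⟨v, hv, rfl⟩
    obtain ⟨w, e, rfl⟩ := h.form v hv
    rw [h.fg]
    exact h.pre w e hv
  have h1 := Set.ncard_le_ncard hsub h.fB
  rw [Set.ncard_image_of_injOn hinj] at h1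
  omega

/-- Removing two points from `A` which are not needed to cover `B`. -/
private lemma Over.remove_two {A B : Set (List ℕ)} {g : List ℕ → ℕ → List ℕ} {f : List ℕ → List ℕ}
    (h : Over A B g f) {x y : List ℕ} (hx : x ∈ A) (hy : y ∈ A) (hxy : x ≠ y)
    (hcov : ∀ w ∈ B, ∃ v ∈ A, v ≠ x ∧ v ≠ y ∧ f v = w) : B.ncard + 2 ≤ A.ncard := by
  have hsub : B ⊆ f '' (A \ {x, y}) := by
    intro w hw
    obtain ⟨v, hv, h1, h2, h3⟩ := hcov w hw
    refine ⟨v, ⟨hv, ?_⟩, h3⟩
    intro hmem
    rcases hmem with h4 | h4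
    · exact h1 h4
    · exact h2 h4
  have hfin : (A \ {x, y}).Finite := h.fA.subset Set.diff_subset
  have h1 : B.ncard ≤ (A \ {x, y}).ncard :=
    (Set.ncard_le_ncard hsub (hfin.image f)).trans (Set.ncard_image_le hfin)
  have h2 : ({x, y} : Set (List ℕ)) ⊆ A := by
    intro v hv
    rcases hv with rfl | hv
    · exact hx
    · rw [Set.mem_singleton_iff] at hv
      rw [hv]; exact hy
  have h3 := Set.ncard_diff_add_ncard_of_subset h2 h.fA
  rw [Set.ncard_pair hxy] at h3
  omega

private lemma Over.uniq {A B : Set (List ℕ)} {g : List ℕ → ℕ → List ℕ} {f : List ℕ → List ℕ}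
    (h : Over A B g f) (hc : A.ncard ≤ B.ncard + 1) {R : List ℕ} {e1 e2 : ℕ} (he : e1 ≠ e2)
    (h1 : g R e1 ∈ A) (h2 : g R e2 ∈ A) :
    ∀ (w : List ℕ) (e e' : ℕ), w ≠ R → g w e ∈ A → g w e' ∈ A → e = e' := by
  intro w e e' hw hwe hwe'
  by_contra hne
  have hxy : g R e2 ≠ g w e' := by
    intro hh
    have := congrArg f hh
    rw [h.fg, h.fg] at this
    exact hw this.symm
  have key : ∀ u ∈ B, ∃ v ∈ A, v ≠ g R e2 ∧ v ≠ g w e' ∧ f v = u := by
    intro u hu
    by_cases huR : u = R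
    · subst huR
      refine ⟨g u e1, h1, ?_, ?_, h.fg _ _⟩
      · intro hh
        exact he (h.inj _ _ _ hh)
      · intro hh
        have := congrArg f hh
        rw [h.fg, h.fg] at this
        exact hw this.symm
    · by_cases huw : u = w
      · subst huw
        refine ⟨g u e, hwe, ?_, ?_, h.fg _ _⟩
        · intro hh
          have := congrArg f hh
          rw [h.fg, h.fg] at this
          exact hw this
        · intro hh
          exact hne (h.inj _ _ _ hh)
      · obtain ⟨x, hx⟩ := h.ex u hu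
        refine ⟨g u x, hx, ?_, ?_, h.fg _ _⟩
        · intro hh
          have := congrArg f hh
          rw [h.fg, h.fg] at this
          exact huR this
        · intro hh
          have := congrArg f hh
          rw [h.fg, h.fg] at this
          exact huw this
  have := h.remove_two h2 hwe' hxy key
  omega

private lemma Over.two {A B : Set (List ℕ)} {g : List ℕ → ℕ → List ℕ} {f : List ℕ → List ℕ}
    (h : Over A B g f) (hc : A.ncard ≤ B.ncard + 1) {R : List ℕ} {e1 e2 e3 : ℕ}
    (h1 : g R e1 ∈ A) (h2 : g R e2 ∈ A) (h3 : g R e3 ∈ A) : e1 = e2 ∨ e1 = e3 ∨ e2 = e3 := by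
  by_contra hcon
  push Not at hcon
  obtain ⟨h12, h13, h23⟩ := hcon
  have hxy : g R e2 ≠ g R e3 := fun hh => h23 (h.inj _ _ _ hh)
  have key : ∀ u ∈ B, ∃ v ∈ A, v ≠ g R e2 ∧ v ≠ g R e3 ∧ f v = u := by
    intro u hu
    by_cases huR : u = R
    · subst huR
      exact ⟨g u e1, h1, fun hh => h12 (h.inj _ _ _ hh), fun hh => h13 (h.inj _ _ _ hh), h.fg _ _⟩
    · obtain ⟨x, hx⟩ := h.ex u hu
      refine ⟨g u x, hx, ?_, ?_, h.fg _ _⟩
      · intro hh
        have := congrArg f hh
        rw [h.fg, h.fg] at this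
        exact huR this
      · intro hh
        have := congrArg f hh
        rw [h.fg, h.fg] at this
        exact huR this
  have := h.remove_two h2 h3 hxy key
  omega

private lemma Over.card_ext {A B : Set (List ℕ)} {g : List ℕ → ℕ → List ℕ} {f : List ℕ → List ℕ}
    (h : Over A B g f) {R : List ℕ} (hR : R ∈ B)
    (hu : ∀ (w : List ℕ) (e e' : ℕ), w ≠ R → g w e ∈ A → g w e' ∈ A → e = e') :
    A.ncard + 1 = B.ncard + {e : ℕ | g R e ∈ A}.ncard := by
  classical
  have hsplit : A = (A ∩ {v | f v = R}) ∪ (A ∩ {v | f v ≠ R}) := by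
    ext v
    constructor
    · intro hv
      by_cases hvR : f v = R
      · exact Or.inl ⟨hv, hvR⟩
      · exact Or.inr ⟨hv, hvR⟩
    · rintro (hv | hv)
      · exact hv.1
      · exact hv.1
  have hdisj : Disjoint (A ∩ {v | f v = R}) (A ∩ {v | f v ≠ R}) := by
    rw [Set.disjoint_left]
    rintro v ⟨_, h1⟩ ⟨_, h2⟩
    exact h2 h1
  have hf1 : (A ∩ {v | f v = R}).Finite := h.fA.subset Set.inter_subset_left
  have hf2 : (A ∩ {v | f v ≠ R}).Finite := h.fA.subset Set.inter_subset_left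
  have hcardA : A.ncard = (A ∩ {v | f v = R}).ncard + (A ∩ {v | f v ≠ R}).ncard := by
    conv_lhs => rw [hsplit]
    exact Set.ncard_union_eq hdisj hf1 hf2
  have hc1 : (A ∩ {v | f v = R}).ncard = {e : ℕ | g R e ∈ A}.ncard := by
    have himg : A ∩ {v | f v = R} = (fun e => g R e) '' {e : ℕ | g R e ∈ A} := by
      ext v
      constructor
      · rintro ⟨hv, hvR⟩
        obtain ⟨w, e, rfl⟩ := h.form v hv
        rw [Set.mem_setOf_eq, h.fg] at hvR
        subst hvR
        exact ⟨e, hv, rfl⟩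
      · rintro ⟨e, he, rfl⟩
        exact ⟨he, h.fg _ _⟩
    rw [himg]
    exact Set.ncard_image_of_injective _ (fun e e' hee => h.inj _ _ _ hee)
  have hc2 : (A ∩ {v | f v ≠ R}).ncard = (B \ {R}).ncard := by
    have himg : B \ {R} = f '' (A ∩ {v | f v ≠ R}) := by
      ext w
      constructor
      · rintro ⟨hw, hwR⟩
        obtain ⟨e, he⟩ := h.ex w hw
        refine ⟨g w e, ⟨he, ?_⟩, h.fg _ _⟩
        rw [Set.mem_setOf_eq, h.fg]
        exact hwR
      · rintro ⟨v, ⟨hv, hvR⟩, rfl⟩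
        obtain ⟨w, e, rfl⟩ := h.form v hv
        rw [Set.mem_setOf_eq, h.fg] at hvR
        rw [h.fg]
        exact ⟨h.pre w e hv, hvR⟩
    rw [himg]
    refine (Set.ncard_image_of_injOn ?_).symm
    rintro v ⟨hv, hvR⟩ v' ⟨hv', hvR'⟩ hvv
    obtain ⟨w, e, rfl⟩ := h.form v hv
    obtain ⟨w', e', rfl⟩ := h.form v' hv'
    rw [h.fg, h.fg] at hvv
    subst hvv
    rw [Set.mem_setOf_eq, h.fg] at hvR
    rw [hu w e e' hvR hv hv']
  have hc3 : (B \ {R}).ncard + 1 = B.ncard := Set.ncard_diff_singleton_add_one hR h.fB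
  omega

private lemma over_right (hF : Lang F) (n : ℕ) :
    Over (F (n + 1)) (F n) (fun w e => w ++ [e]) List.dropLast where
  fA := hF.fin _
  fB := hF.fin _
  fg := fun w e => by simp
  inj := fun w e e' h => (append_singleton_inj.mp h).2
  form := fun v hv => by
    have hl := hF.len _ v hv
    have hne : v ≠ [] := by
      rintro rfl
      simp at hl
    exact ⟨v.dropLast, v.getLast hne, (List.dropLast_append_getLast hne).symm⟩
  pre := fun w e h => hF.pre n w e h
  ex := fun w hw => hF.exr n w hw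

private lemma over_left (hF : Lang F) (n : ℕ) :
    Over (F (n + 1)) (F n) (fun w e => e :: w) List.tail where
  fA := hF.fin _
  fB := hF.fin _
  fg := fun w e => rfl
  inj := fun w e e' h => by
    simpa using h
  form := fun v hv => by
    have hl := hF.len _ v hv
    cases v with
    | nil => simp at hl
    | cons e w => exact ⟨w, e, rfl⟩
  pre := fun w e h => hF.suf n w e h
  ex := fun w hw => hF.exl n w hw

lemma Lang.nonempty (hF : Lang F) (n : ℕ) : (F n).Nonempty := by
  induction n with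
  | zero => exact hF.ne
  | succ n ih =>
    obtain ⟨w, hw⟩ := ih
    obtain ⟨e, he⟩ := hF.exr n w hw
    exact ⟨_, he⟩

lemma Lang.card_mono (hF : Lang F) (n : ℕ) : (F n).ncard ≤ (F (n + 1)).ncard :=
  (over_right hF n).card_le

lemma Lang.right_special (hF : Lang F) (n : ℕ) (h : (F n).ncard < (F (n + 1)).ncard) :
    ∃ (w : List ℕ) (e e' : ℕ), e ≠ e' ∧ w ++ [e] ∈ F (n + 1) ∧ w ++ [e'] ∈ F (n + 1) :=
  (over_right hF n).special h

lemma Lang.left_special (hF : Lang F) (n : ℕ) (h : (F n).ncard < (F (n + 1)).ncard) :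
    ∃ (w : List ℕ) (e e' : ℕ), e ≠ e' ∧ e :: w ∈ F (n + 1) ∧ e' :: w ∈ F (n + 1) :=
  (over_left hF n).special h

lemma Lang.uniq_right (hF : Lang F) (n : ℕ) (h : (F (n + 1)).ncard ≤ (F n).ncard + 1) {R : List ℕ} {e1 e2 : ℕ}
    (he : e1 ≠ e2) (h1 : R ++ [e1] ∈ F (n + 1)) (h2 : R ++ [e2] ∈ F (n + 1)) :
    ∀ (w : List ℕ) (e e' : ℕ), w ≠ R → w ++ [e] ∈ F (n + 1) → w ++ [e'] ∈ F (n + 1) → e = e' :=
  (over_right hF n).uniq h he h1 h2

lemma Lang.uniq_left (hF : Lang F) (n : ℕ) (h : (F (n + 1)).ncard ≤ (F n).ncard + 1) {R : List ℕ} {e1 e2 : ℕ}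
    (he : e1 ≠ e2) (h1 : e1 :: R ∈ F (n + 1)) (h2 : e2 :: R ∈ F (n + 1)) :
    ∀ (w : List ℕ) (e e' : ℕ), w ≠ R → e :: w ∈ F (n + 1) → e' :: w ∈ F (n + 1) → e = e' :=
  (over_left hF n).uniq h he h1 h2

lemma Lang.two_right (hF : Lang F) (n : ℕ) (h : (F (n + 1)).ncard ≤ (F n).ncard + 1) {R : List ℕ}
    {e1 e2 e3 : ℕ} (h1 : R ++ [e1] ∈ F (n + 1)) (h2 : R ++ [e2] ∈ F (n + 1)) (h3 : R ++ [e3] ∈ F (n + 1)) :
    e1 = e2 ∨ e1 = e3 ∨ e2 = e3 :=
  (over_right hF n).two h h1 h2 h3

lemma Lang.card_ext (hF : Lang F) (n : ℕ) {R : List ℕ} (hR : R ∈ F n)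
    (hu : ∀ (w : List ℕ) (e e' : ℕ), w ≠ R → w ++ [e] ∈ F (n + 1) → w ++ [e'] ∈ F (n + 1) → e = e') :
    (F (n + 1)).ncard + 1 = (F n).ncard + {e : ℕ | R ++ [e] ∈ F (n + 1)}.ncard :=
  (over_right hF n).card_ext hR hu

lemma Lang.take_mem (hF : Lang F) {m k : ℕ} {w : List ℕ} (hw : w ∈ F (m + k)) : w.take m ∈ F m := by
  induction k generalizing w with
  | zero =>
    have hl := hF.len _ w hw
    rw [List.take_of_length_le (by omega)]
    exact hw
  | succ k ih =>
    obtain ⟨v, e, rfl⟩ := (over_right hF (m + k)).form w hw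
    have h1 : v ∈ F (m + k) := hF.pre _ _ _ hw
    have hl := hF.len _ v h1
    have h2 := ih h1
    show (v ++ [e]).take m ∈ F m
    rw [List.take_append_of_le_length (by omega)]
    exact h2

lemma Lang.drop_mem (hF : Lang F) {m k : ℕ} {w : List ℕ} (hw : w ∈ F (m + k)) : w.drop m ∈ F k := by
  induction m generalizing w with
  | zero =>
    rw [List.drop_zero]
    rw [Nat.zero_add] at hw
    exact hw
  | succ m ih =>
    have hidx : m + 1 + k = (m + k) + 1 := by omega
    rw [hidx] at hw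
    obtain ⟨v, e, rfl⟩ := (over_left hF (m + k)).form w hw
    have h1 : v ∈ F (m + k) := hF.suf _ _ _ hw
    show (e :: v).drop (m + 1) ∈ F k
    rw [List.drop_succ_cons]
    exact ih h1

lemma Lang.extend_right (hF : Lang F) {m : ℕ} {w : List ℕ} (hw : w ∈ F m) (k : ℕ) :
    ∃ v : List ℕ, v.length = k ∧ w ++ v ∈ F (m + k) := by
  induction k with
  | zero => exact ⟨[], rfl, by simpa using hw⟩
  | succ k ih =>
    obtain ⟨v, hv, hmem⟩ := ih
    obtain ⟨e, he⟩ := hF.exr _ _ hmem
    refine ⟨v ++ [e], by simp [hv], ?_⟩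
    rw [← List.append_assoc, ← Nat.add_assoc]
    exact he

lemma Lang.extend_left (hF : Lang F) {m : ℕ} {w : List ℕ} (hw : w ∈ F m) (k : ℕ) :
    ∃ v : List ℕ, v.length = k ∧ v ++ w ∈ F (k + m) := by
  induction k with
  | zero => exact ⟨[], rfl, by simpa using hw⟩
  | succ k ih =>
    obtain ⟨v, hv, hmem⟩ := ih
    obtain ⟨e, he⟩ := hF.exl _ _ hmem
    refine ⟨e :: v, by simp [hv], ?_⟩
    have hidx : k + 1 + m = (k + m) + 1 := by omega
    rw [hidx, List.cons_append]
    exact he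

end Pool.Agent.H2.MC
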