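import Mathlib
import Pool.Agent.H2.MC.LangA

set_option autoImplicit false

/-!
# Module Ev (170 lines): the recurrent words of a bounded sequence form a language

PROOFS.
* `Occ_finite`: all words of `Occ b a n` are lists of length `n` with letters `≤ M`: a finite set
  (`List.finite_length_eq` needs a finite type; use e.g. the image of `Fin n → Fin (M+1)` under
  `fun g => List.ofFn (fun k => (g k : ℕ))`, or induction on `n`).
* `bd_of_Occ_finite`: `n ≥ 1`; the letters `b i` are heads of words of the finite set `Occ b a n`, and `a j` is the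
  head of `mir a (j - (n-1))`.. simplest: the last letter of `mir a j n` is `a j`; so all letters lie in a finite
  set of numbers, hence bounded (`Set.Finite.bddAbove` for the union of `List.toFinset`s).
* `ev_RecB`: for each of the finitely many words `w` of `Occ b b n` which are not in `RecB b n` there is `N_w` with
  `win b i n ≠ w` for `i ≥ N_w`; take the maximum (`Set.Finite` and `Filter.eventually_all_finite`).
  `ev_RecA` by `RecA_iff` (`mir a j n = (win a j n).reverse`).
* `lang_RecB`: `fin`: subset of `Occ b b n`. `ne`: `[]`. `pre`, `suf`: `win_succ`, `win_succ'` and frequently.mono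
  (for `suf` the occurrence moves from `i` to `i+1`: `Filter.frequently_atTop`). `exr`: `w` occurs infinitely often,
  the next letter is `≤ M`, so by the pigeonhole principle one letter occurs infinitely often after `w`
  (`Filter.frequently_or_distrib`/ finite union: if for every `e ≤ M` only finitely many occurrences are followed by
  `e` then there are only finitely many occurrences). `exl`: same with the letter before (occurrences `i ≥ 1`).
* `lang_RecA`: from `lang_RecB` for `a`, by `RecA_iff` (reversing words exchanges left and right).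
* `lang_Rec`: the union of two languages is a language.
-/

namespace Pool.Agent.H2.MC

open Filter

private lemma words_finite (M n : ℕ) : {w : List ℕ | w.length = n ∧ ∀ x ∈ w, x ≤ M}.Finite := by
  induction n with
  | zero =>
    refine (Set.finite_singleton ([] : List ℕ)).subset ?_
    rintro w ⟨hw, _⟩
    exact List.length_eq_zero_iff.mp hw
  | succ n ih =>
    have hfin : ((fun p : ℕ × List ℕ => p.1 :: p.2) ''
        ((Set.Iic M) ×ˢ {w : List ℕ | w.length = n ∧ ∀ x ∈ w, x ≤ M})).Finite :=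
      ((Set.finite_Iic M).prod ih).image _
    refine hfin.subset ?_
    rintro w ⟨hw, hM⟩
    cases w with
    | nil => simp at hw
    | cons e v =>
      refine ⟨(e, v), ⟨?_, ?_, ?_⟩, rfl⟩
      · exact hM e (by simp)
      · simpa using hw
      · intro x hx
        exact hM x (by simp [hx])

private lemma mem_win {b : ℕ → ℕ} {i n x : ℕ} (h : x ∈ win b i n) : ∃ k < n, b (i + k) = x := by
  unfold win at h
  rw [List.mem_map] at h
  obtain ⟨k, hk, rfl⟩ := h
  exact ⟨k, List.mem_range.mp hk, rfl⟩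

lemma Occ_finite {b a : ℕ → ℕ} {M : ℕ} (h : Bd b a M) (n : ℕ) : (Occ b a n).Finite := by
  refine (words_finite M n).subset ?_
  rintro w (⟨i, rfl⟩ | ⟨j, rfl⟩)
  · refine ⟨win_length _ _ _, ?_⟩
    intro x hx
    obtain ⟨k, _, rfl⟩ := mem_win hx
    exact h.1 _
  · refine ⟨mir_length _ _ _, ?_⟩
    intro x hx
    unfold mir at hx
    rw [List.mem_reverse] at hx
    obtain ⟨k, _, rfl⟩ := mem_win hx
    exact h.2 _

lemma bd_of_Occ_finite {b a : ℕ → ℕ} {n : ℕ} (hn : 0 < n) (h : (Occ b a n).Finite) : ∃ M, Bd b a M := by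
  have hS : (⋃ w ∈ Occ b a n, {x : ℕ | x ∈ w}).Finite :=
    h.biUnion (fun w _ => w.finite_toSet)
  obtain ⟨M, hM⟩ := hS.bddAbove
  obtain ⟨m, rfl⟩ : ∃ m, n = m + 1 := ⟨n - 1, by omega⟩
  refine ⟨M, ?_, ?_⟩
  · intro i
    apply hM
    rw [Set.mem_iUnion₂]
    refine ⟨win b i (m + 1), Or.inl ⟨i, rfl⟩, ?_⟩
    show b i ∈ win b i (m + 1)
    rw [win_succ']
    simp
  · intro j
    apply hM
    rw [Set.mem_iUnion₂]
    refine ⟨mir a j (m + 1), Or.inr ⟨j, rfl⟩, ?_⟩
    show a j ∈ mir a j (m + 1)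
    rw [mir_succ']
    simp

lemma ev_RecB {b : ℕ → ℕ} {M : ℕ} (h : ∀ n, b n ≤ M) (n : ℕ) : ∃ N, ∀ i, N ≤ i → win b i n ∈ RecB b n := by
  have hfin : (Occ b b n \ RecB b n).Finite := (Occ_finite ⟨h, h⟩ n).subset Set.diff_subset
  have hall : ∀ᶠ i in atTop, ∀ w ∈ Occ b b n \ RecB b n, win b i n ≠ w := by
    rw [Filter.eventually_all_finite hfin]
    rintro w ⟨_, hw⟩
    exact Filter.not_frequently.mp hw
  obtain ⟨N, hN⟩ := Filter.eventually_atTop.mp hall
  refine ⟨N, fun i hi => ?_⟩
  by_contra hcon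
  exact hN i hi (win b i n) ⟨Or.inl ⟨i, rfl⟩, hcon⟩ rfl

lemma ev_RecA {a : ℕ → ℕ} {M : ℕ} (h : ∀ n, a n ≤ M) (n : ℕ) : ∃ N, ∀ j, N ≤ j → mir a j n ∈ RecA a n := by
  obtain ⟨N, hN⟩ := ev_RecB h n
  refine ⟨N, fun j hj => ?_⟩
  rw [RecA_iff]
  unfold mir
  rw [List.reverse_reverse]
  exact hN j hj

/-- The pigeonhole principle for frequently occurring events. -/
private lemma freq_pigeon {P : ℕ → Prop} {g : ℕ → ℕ} {M : ℕ} (hg : ∀ i, g i ≤ M)
    (h : ∃ᶠ i in atTop, P i) : ∃ e, ∃ᶠ i in atTop, P i ∧ g i = e := by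
  by_contra hcon
  have hcon' : ∀ e, ¬ ∃ᶠ i in atTop, P i ∧ g i = e := fun e he => hcon ⟨e, he⟩
  have hall : ∀ᶠ i in atTop, ∀ e ∈ Set.Iic M, ¬ (P i ∧ g i = e) := by
    rw [Filter.eventually_all_finite (Set.finite_Iic M)]
    intro e _
    exact Filter.not_frequently.mp (hcon' e)
  exact h (hall.mono (fun i hi hP => hi (g i) (hg i) ⟨hP, rfl⟩))

lemma lang_RecB {b : ℕ → ℕ} {M : ℕ} (h : ∀ n, b n ≤ M) : Lang (RecB b) where
  fin := fun n => (Occ_finite ⟨h, h⟩ n).subset (fun w hw => Or.inl hw.exists)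
  ne := ⟨[], Filter.Frequently.of_forall (fun i => rfl)⟩
  len := fun n w hw => RecB_length hw
  pre := fun n w e hw => by
    refine Filter.Frequently.mono hw (fun i hi => ?_)
    rw [win_succ] at hi
    exact (append_singleton_inj.mp hi).1
  suf := fun n w e hw => by
    have hw' : ∃ᶠ i in atTop, win b i (n + 1) = e :: w := hw
    rw [Filter.frequently_atTop] at hw'
    show ∃ᶠ i in atTop, win b i n = w
    rw [Filter.frequently_atTop]
    intro N
    obtain ⟨i, hi, hwi⟩ := hw' N
    rw [win_succ'] at hwi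
    refine ⟨i + 1, by omega, ?_⟩
    exact (List.cons.inj hwi).2
  exr := fun n w hw => by
    obtain ⟨e, he⟩ := freq_pigeon (g := fun i => b (i + n)) (fun i => h _) hw
    refine ⟨e, he.mono (fun i hi => ?_)⟩
    rw [win_succ, hi.1]
    rw [hi.2]
  exl := fun n w hw => by
    have hw' : ∃ᶠ i in atTop, win b i n = w := hw
    have hw2 : ∃ᶠ i in atTop, win b (i + 1) n = w := by
      rw [Filter.frequently_atTop] at hw' ⊢
      intro N
      obtain ⟨i, hi, hwi⟩ := hw' (N + 1)
      refine ⟨i - 1, by omega, ?_⟩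
      rw [show i - 1 + 1 = i by omega]
      exact hwi
    obtain ⟨e, he⟩ := freq_pigeon (g := fun i => b i) (fun i => h _) hw2
    refine ⟨e, he.mono (fun i hi => ?_)⟩
    rw [win_succ', hi.1]
    rw [hi.2]

lemma lang_RecA {a : ℕ → ℕ} {M : ℕ} (h : ∀ n, a n ≤ M) : Lang (RecA a) := by
  have hL := lang_RecB h
  refine ⟨?_, ?_, ?_, ?_, ?_, ?_, ?_⟩
  · intro n
    have : RecA a n = List.reverse ⁻¹' (RecB a n) := by
      ext w
      exact RecA_iff a n w
    rw [this]
    exact (hL.fin n).preimage (List.reverse_injective.injOn)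
  · exact ⟨[], Filter.Frequently.of_forall (fun j => rfl)⟩
  · intro n w hw
    exact RecA_length hw
  · intro n w e hw
    rw [RecA_iff] at hw ⊢
    rw [List.reverse_append] at hw
    exact hL.suf n w.reverse e hw
  · intro n w e hw
    rw [RecA_iff] at hw ⊢
    rw [List.reverse_cons] at hw
    exact hL.pre n w.reverse e hw
  · intro n w hw
    rw [RecA_iff] at hw
    obtain ⟨e, he⟩ := hL.exl n _ hw
    refine ⟨e, ?_⟩
    rw [RecA_iff, List.reverse_append]
    exact he
  · intro n w hw
    rw [RecA_iff] at hw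
    obtain ⟨e, he⟩ := hL.exr n _ hw
    refine ⟨e, ?_⟩
    rw [RecA_iff, List.reverse_cons]
    exact he

lemma lang_Rec {b a : ℕ → ℕ} {M : ℕ} (h : Bd b a M) : Lang (Rec b a) := by
  have hB := lang_RecB h.1
  have hA := lang_RecA h.2
  refine ⟨?_, ?_, ?_, ?_, ?_, ?_, ?_⟩
  · intro n
    rw [Rec_eq_union]
    exact (hB.fin n).union (hA.fin n)
  · obtain ⟨w, hw⟩ := hB.ne
    exact ⟨w, Or.inl hw⟩
  · intro n w hw
    exact Rec_length hw
  · rintro n w e (hw | hw)
    · exact Or.inl (hB.pre n w e hw)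
    · exact Or.inr (hA.pre n w e hw)
  · rintro n w e (hw | hw)
    · exact Or.inl (hB.suf n w e hw)
    · exact Or.inr (hA.suf n w e hw)
  · rintro n w (hw | hw)
    · obtain ⟨e, he⟩ := hB.exr n w hw
      exact ⟨e, Or.inl he⟩
    · obtain ⟨e, he⟩ := hA.exr n w hw
      exact ⟨e, Or.inr he⟩
  · rintro n w (hw | hw)
    · obtain ⟨e, he⟩ := hB.exl n w hw
      exact ⟨e, Or.inl he⟩
    · obtain ⟨e, he⟩ := hA.exl n w hw
      exact ⟨e, Or.inr he⟩

end Pool.Agent.H2.MC
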