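import Mathlib
import Pool.Agent.H2.MC.Ev

set_option autoImplicit false

/-!
# Module EvP (110 lines): Morse–Hedlund

PROOFS.
* `evPer_of_card`: if `ncard (RecB b (n+1)) ≤ ncard (RecB b n)` then by `Lang.card_mono` there is equality and the
  surjection `dropLast : RecB b (n+1) → RecB b n` between finite sets of the same size is injective: every
  `w ∈ RecB b n` has exactly one right extension. Take `N` with `win b i (n+1) ∈ RecB b (n+1)` for `i ≥ N`
  (`ev_RecB`). Then for `i, i' ≥ N` with `win b i n = win b i' n` one has `b (i+n) = b (i'+n)` hence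
  `win b (i+1) n = win b (i'+1) n`; by induction `win b (i+t) n = win b (i'+t) n` and `b (i+n+t) = b (i'+n+t)` for all
  `t`. By the pigeonhole principle there are `N ≤ i < i'` with `win b i n = win b i' n` (finite set). So `b` is
  eventually periodic with period `i' - i` from the position `i + n` on.
* `evPer_of_cardA`: `RecA a n` is the image of `RecB a n` under `List.reverse` (`RecA_iff`), so the two have the same
  `ncard` and the first statement applies to `a`.
-/

namespace Pool.Agent.H2.MC

open Filter

private lemma evPer_aux {b : ℕ → ℕ} {n N : ℕ}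
    (hdet : ∀ i i', N ≤ i → N ≤ i' → win b i n = win b i' n → b (i + n) = b (i' + n))
    {i i' : ℕ} (hi : N ≤ i) (hi' : N ≤ i') (h : win b i n = win b i' n) :
    ∀ t, win b (i + t) n = win b (i' + t) n := by
  intro t
  induction t with
  | zero => exact h
  | succ t ih =>
    have hb := hdet (i + t) (i' + t) (by omega) (by omega) ih
    have h1 : win b (i + t) (n + 1) = win b (i' + t) (n + 1) := by
      rw [win_succ, win_succ, ih, hb]
    rw [win_succ', win_succ'] at h1
    have h2 := (List.cons.inj h1).2
    rw [← Nat.add_assoc, ← Nat.add_assoc]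
    exact h2

lemma evPer_of_card {b : ℕ → ℕ} {M : ℕ} (h : ∀ n, b n ≤ M) (n : ℕ)
    (hc : (RecB b (n + 1)).ncard ≤ (RecB b n).ncard) : EvPer b := by
  have hL := lang_RecB h
  have hfA : (RecB b (n + 1)).Finite := hL.fin (n + 1)
  have himg : RecB b n ⊆ List.dropLast '' RecB b (n + 1) := by
    intro w hw
    obtain ⟨e, he⟩ := hL.exr n w hw
    exact ⟨w ++ [e], he, by simp⟩
  have hcard : (List.dropLast '' RecB b (n + 1)).ncard = (RecB b (n + 1)).ncard := by
    apply le_antisymm
    · exact Set.ncard_image_le hfA
    · exact hc.trans (Set.ncard_le_ncard himg (hfA.image _))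
  have hinj : Set.InjOn List.dropLast (RecB b (n + 1)) := Set.injOn_of_ncard_image_eq hcard hfA
  obtain ⟨N, hN⟩ := ev_RecB h (n + 1)
  have hdet : ∀ i i', N ≤ i → N ≤ i' → win b i n = win b i' n → b (i + n) = b (i' + n) := by
    intro i i' hi hi' hw
    have h1 : List.dropLast (win b i (n + 1)) = List.dropLast (win b i' (n + 1)) := by
      rw [win_succ, win_succ, List.dropLast_concat, List.dropLast_concat]
      exact hw
    have h2 := hinj (hN i hi) (hN i' hi') h1
    rw [win_succ, win_succ] at h2
    exact (append_singleton_inj.mp h2).2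
  have hfO : (Occ b b n).Finite := Occ_finite ⟨h, h⟩ n
  have hinf : (Set.Ici N).Infinite := Set.Ici_infinite N
  have hmaps : Set.MapsTo (fun i => win b i n) (Set.Ici N) (Occ b b n) := by
    intro i _
    exact Or.inl ⟨i, rfl⟩
  obtain ⟨x, hx, y, hy, hxy, hwxy⟩ := hinf.exists_ne_map_eq_of_mapsTo hmaps hfO
  have key : ∀ i i' : ℕ, N ≤ i → N ≤ i' → i < i' → win b i n = win b i' n → EvPer b := by
    intro i i' hi hi' hlt hw
    have hall := evPer_aux hdet hi hi' hw
    refine ⟨i + n, i' - i, by omega, ?_⟩
    intro m hm
    obtain ⟨t, rfl⟩ : ∃ t, m = i + t + n := ⟨m - (i + n), by omega⟩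
    have h3 := hdet (i + t) (i' + t) (by omega) (by omega) (hall t)
    rw [show i + t + n + (i' - i) = i' + t + n by omega]
    exact h3.symm
  rcases Nat.lt_or_gt_of_ne hxy with hlt | hlt
  · exact key x y hx hy hlt hwxy
  · exact key y x hy hx hlt hwxy.symm

lemma evPer_of_cardA {a : ℕ → ℕ} {M : ℕ} (h : ∀ n, a n ≤ M) (n : ℕ)
    (hc : (RecA a (n + 1)).ncard ≤ (RecA a n).ncard) : EvPer a := by
  have hEq : ∀ m, (RecA a m).ncard = (RecB a m).ncard := by
    intro m
    have h1 : RecA a m = List.reverse '' RecB a m := by
      ext w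
      rw [RecA_iff]
      constructor
      · intro hw
        exact ⟨w.reverse, hw, List.reverse_reverse w⟩
      · rintro ⟨v, hv, rfl⟩
        rw [List.reverse_reverse]
        exact hv
    rw [h1]
    exact Set.ncard_image_of_injective _ List.reverse_injective
  rw [hEq, hEq] at hc
  exact evPer_of_card h n hc

end Pool.Agent.H2.MC
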