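import Mathlib
import Pool.Agent.H2.MC.Words

set_option autoImplicit false

namespace Pool.Agent.H2.MC

/-- The state of the two sequences at a scale `n` of slope one: `R` is the only recurrent word of length `n` with
more than one right extension, and beyond the positions `i0`, `j0` all words of length `n + 1` are recurrent. -/
structure St (b a : ℕ → ℕ) (n i0 j0 : ℕ) (R : List ℕ) : Prop where
  mem : R ∈ Rec b a n
  uniq : ∀ (w : List ℕ) (e e' : ℕ), w ≠ R → w ++ [e] ∈ Rec b a (n + 1) → w ++ [e'] ∈ Rec b a (n + 1) → e = e'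
  card : (Rec b a (n + 1)).ncard ≤ (Rec b a n).ncard + 1
  tb : ∀ i, i0 ≤ i → win b i (n + 1) ∈ Rec b a (n + 1)
  ta : ∀ j, j0 ≤ j → mir a j (n + 1) ∈ Rec b a (n + 1)

end Pool.Agent.H2.MC
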