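import Mathlib
import Pool.Agent.H2.MC.St
import Pool.Agent.H2.MC.LangA

set_option autoImplicit false

/-!
# Module Arc (220 lines): mirrored words at a bispecial scale

SETTING. `St b a n i0 j0 R`; words `w ≠ R` also have at most one left extension in `Rec b a (n+1)` (`ul`), every
`w ∈ Rec b a n` occurs infinitely often in `b` (`hw`). Windows: `B p = win b p n`.

DETERMINISM. (F) If `p, p' ≥ i0`, `B p = B p'` and `B (p+t') ≠ R` for `t' < t` then `B (p+t) = B (p'+t)`. (Induction on `t`;
step: `B (p+t) = B (p'+t) = w ≠ R`, `win b (p+t) (n+1) = w ++ [b (p+t+n)]` and `win b (p'+t) (n+1) = w ++ [b (p'+t+n)]` are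
in `Rec b a (n+1)` by `tb`, so the letters agree by `uniq`; drop the first letter.)
(B) If `p, p' ≥ i0 + t`, `B p = B p'` and `B (p-t') ≠ R` for `t' < t` then `B (p-t) = B (p'-t)` (same with `ul`,
`win b (p-1) (n+1) = b (p-1) :: B p`).
(M) If `Y ≥ i0 + t`, `mir a j0 n = B Y`, `B (Y-t') ≠ R` for `t' < t`, then `mir a (j0+t) n = B (Y-t)` (step:
`mir a (j0+t) (n+1) = a (j0+t+n) :: mir a (j0+t) n ∈ Rec` by `ta` and `win b (Y-t-1) (n+1) = b (Y-t-1) :: B (Y-t) ∈ Rec`, same
word `≠ R`, so by `ul` the two words of length `n+1` agree; drop the last letter: `mir_succ'`, `win_succ`).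
Both `arc_fwd`, `arc_bwd`, `arc_mir` are stated below.

PROOF OF `arc`. `x = win b i0 n`, `y = mir a j0 n` are in `Rec b a n` (prefix of `win b i0 (n+1)`, suffix of `mir a j0 (n+1)`).
Choose an occurrence `r0 ≥ i0` of `R`, an occurrence `Y ≥ r0` of `y`; let `Y - g` be the last occurrence of `R` in `[r0, Y]`
and `Y + g'` the first occurrence of `R` at or after `Y`. So `B (Y-g) = R = B (Y+g')`, `B p ≠ R` for `Y-g < p < Y+g'`,
`p ≠ Y` or `y ≠ R`; if `y = R` then `g = g' = 0`. By (M) `mir a (j0+g) n = R`.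
For an occurrence `X ≥ r0` of `x` define `f', f` in the same way. By (F) (for `i0` and `X`) `win b (i0+f) n = R`.
OPTION 1: `(i, j, l) = (i0+f, j0+g, n)`: both words are `R`. Cost `i+j+(n-l) = i0+j0+f+g`.
OPTION 2: `(i, j, l) = (i0, j0, n-(f'+g'))`, if `f'+g' ≤ n`: `win b i0 l = x.take l`; `x.take (n-f') = R.drop f'` (both are
`win b X (n-f')`: `x = win b X n`, `R = win b (X-f') n`), `R.take (n-g') = y.drop g'` (both are `win b (Y+g') (n-g')`),
so `x.take l = (R.drop f').take l = (R.take (n-g')).drop f' = y.drop (g'+f') = y.drop (n-l) = mir a j0 l` (`mir_drop`).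
Cost `i0+j0+f'+g'`. If `f'+g' > n` use `(i0, j0, 0)`: cost `i0+j0+n ≤ i0+j0+f'+g'`.
CASE A: `x` occurs at some `X` with `Y-g ≤ X ≤ Y+g'`. Put `s = X-(Y-g)`, `X = Y-g+s`.
 A0: `x = R`: then `f = f' = 0`, options 1, 2 cost `g` and `g'` (plus `i0+j0`), and `g+g' ≤ N` (`N = ncard (Rec b a n)`) by (D).
 A1: `x ≠ R`, so `0 < s < g+g'`, `f' = s`, `f = g+g'-s`. If `s ≤ g`: OPTION 3: `(i0+(g-s), j0, n)`: by (F) `win b (i0+(g-s)) n
 = B (X+(g-s)) = B Y = y = mir a j0 n`; cost `g-s`, option 2 costs `s+g'`: the sum is `g+g' ≤ N`. If `s ≥ g`: OPTION 4: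
 `(i0, j0, n-(s-g))` (or `l = 0` if `s-g > n`): `x.take (n-δ) = y.drop δ` with `δ = s-g`, as `x = B (Y+δ)`, `y = B Y`;
 cost `δ = s-g`, option 1 costs `f+g = 2g+g'-s`: the sum is `g+g' ≤ N`.
CASE B: `x` does not occur at the positions `Y-g, ..., Y+g'`. Then `x ≠ R`, `f, f' ≥ 1`. Options 1 and 2: the sum of the costs
 is `f+g+f'+g'` and by (D') `(g+g') + (f+f'-1) ≤ N`, so the smaller cost is `≤ (N+1)/2`. (If `y = R` then `g = g' = 0`,
 and (D') is used with `s` in the empty range; then `f + f' ≤ N` by (D) for `x`.)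
(D) the words `B p`, `Y-g ≤ p < Y+g'` are pairwise different elements of `Rec b a n`: if `B p = B p'`, `p < p'`, by (F) with
 `t = Y+g'-p'` (`B (p'+t') ≠ R` for `t' < t` as `Y-g < p'+t' < Y+g'`): `B (p+t) = B (Y+g') = R`, but `Y-g < p+t < Y+g'`.
(D') the words `B p`, `Y-g ≤ p < Y+g'`, and `B p'`, `X-f' < p' < X+f` are all different: inside each family by (D); if
 `B p = B p'` then it is `≠ R`; with `D = X+f-p'`, `s' = p'-(X-f')` by (F) and (B) `B (p+t) = B (p'+t)` for `-s' ≤ t ≤ D` as
 long as `p + t` stays in `[Y-g, Y+g']`; as `R` is met for the first time at the same time on both sides, both arcs are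
 equal: `Y+g'-p = D`, `p-(Y-g) = s'`; so `x = B X = B (X-p'+p)` occurs in `[Y-g, Y+g']`, contradiction.
 (Simplest: if `X ≥ p'`, `t = X-p'`: `B (p'+t') ≠ R` for `t' < t`, so by (F) `B (p+t) = B X = x` and `B (p+t') = B (p'+t') ≠ R` for
 `t' ≤ t`, hence `p+t < Y+g'` by induction (the position `Y+g'` is never reached); so `x` occurs in `[Y-g, Y+g']`.
 If `X < p'`: the same with (B), `t = p'-X`; the position `Y-g ≥ r0 ≥ i0` is never passed.)
-/

namespace Pool.Agent.H2.MC

open Filter

lemma arc_fwd {b a : ℕ → ℕ} {n i0 j0 : ℕ} {R : List ℕ} (hs : St b a n i0 j0 R) {p p' : ℕ} (hp : i0 ≤ p)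
    (hp' : i0 ≤ p') (t : ℕ) (he : win b p n = win b p' n) (hR : ∀ t' < t, win b (p + t') n ≠ R) :
    win b (p + t) n = win b (p' + t) n := by
  induction t with
  | zero => simpa using he
  | succ t ih =>
    have ih' := ih (fun t' ht' => hR t' (by omega))
    have hne := hR t (by omega)
    have h1 := hs.tb (p + t) (by omega)
    have h2 := hs.tb (p' + t) (by omega)
    rw [win_succ] at h1 h2
    rw [← ih'] at h2
    have h3 := hs.uniq _ _ _ hne h1 h2
    have h4 : win b (p + t) (n + 1) = win b (p' + t) (n + 1) := by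
      rw [win_succ, win_succ, ih', h3]
    rw [win_succ', win_succ'] at h4
    have h5 := (List.cons.inj h4).2
    rw [show p + (t + 1) = p + t + 1 by omega, show p' + (t + 1) = p' + t + 1 by omega]
    exact h5

lemma arc_bwd {b a : ℕ → ℕ} {n i0 j0 : ℕ} {R : List ℕ} (hs : St b a n i0 j0 R)
    (ul : ∀ (w : List ℕ) (e e' : ℕ), w ≠ R → e :: w ∈ Rec b a (n + 1) → e' :: w ∈ Rec b a (n + 1) → e = e')
    {p p' : ℕ} (t : ℕ) (hp : i0 + t ≤ p) (hp' : i0 + t ≤ p') (he : win b p n = win b p' n)
    (hR : ∀ t' < t, win b (p - t') n ≠ R) : win b (p - t) n = win b (p' - t) n := by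
  induction t with
  | zero => simpa using he
  | succ t ih =>
    have ih' := ih (by omega) (by omega) (fun t' ht' => hR t' (by omega))
    have hne := hR t (by omega)
    have h1 := hs.tb (p - (t + 1)) (by omega)
    have h2 := hs.tb (p' - (t + 1)) (by omega)
    rw [win_succ', show p - (t + 1) + 1 = p - t by omega] at h1
    rw [win_succ', show p' - (t + 1) + 1 = p' - t by omega, ← ih'] at h2
    have h3 := ul _ _ _ hne h1 h2
    have h4 : win b (p - (t + 1)) (n + 1) = win b (p' - (t + 1)) (n + 1) := by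
      rw [win_succ', win_succ', show p - (t + 1) + 1 = p - t by omega,
        show p' - (t + 1) + 1 = p' - t by omega, ih', h3]
    rw [win_succ, win_succ] at h4
    exact (append_singleton_inj.mp h4).1

lemma arc_mir {b a : ℕ → ℕ} {n i0 j0 : ℕ} {R : List ℕ} (hs : St b a n i0 j0 R)
    (ul : ∀ (w : List ℕ) (e e' : ℕ), w ≠ R → e :: w ∈ Rec b a (n + 1) → e' :: w ∈ Rec b a (n + 1) → e = e')
    {Y : ℕ} (t : ℕ) (hY : i0 + t ≤ Y) (he : mir a j0 n = win b Y n)
    (hR : ∀ t' < t, win b (Y - t') n ≠ R) : mir a (j0 + t) n = win b (Y - t) n := by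
  induction t with
  | zero => simpa using he
  | succ t ih =>
    have ih' := ih (by omega) (fun t' ht' => hR t' (by omega))
    have hne := hR t (by omega)
    have h1 := hs.ta (j0 + t) (by omega)
    have h2 := hs.tb (Y - (t + 1)) (by omega)
    rw [mir_succ, ih'] at h1
    rw [win_succ', show Y - (t + 1) + 1 = Y - t by omega] at h2
    have h3 := ul _ _ _ hne h1 h2
    have h4 : mir a (j0 + t) (n + 1) = win b (Y - (t + 1)) (n + 1) := by
      rw [mir_succ, win_succ', show Y - (t + 1) + 1 = Y - t by omega, ih', h3]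
    rw [mir_succ', win_succ] at h4
    rw [show j0 + (t + 1) = j0 + t + 1 by omega]
    exact (append_singleton_inj.mp h4).1

/-- The arc around a position. -/
lemma arc_ex {b : ℕ → ℕ} {n r0 : ℕ} {R : List ℕ} (h0 : win b r0 n = R)
    (hf : ∃ᶠ i in atTop, win b i n = R) (Y : ℕ) (hY : r0 ≤ Y) :
    ∃ L U : ℕ, r0 ≤ L ∧ L ≤ Y ∧ Y ≤ U ∧ win b L n = R ∧ win b U n = R ∧
      (∀ p, L < p → p ≤ Y → win b p n ≠ R) ∧ (∀ p, Y ≤ p → p < U → win b p n ≠ R) := by
  classical
  have hex : ∃ p, Y ≤ p ∧ win b p n = R := by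
    obtain ⟨p, hp, hpR⟩ := (frequently_atTop.mp hf) Y
    exact ⟨p, hp, hpR⟩
  refine ⟨Nat.findGreatest (fun p => win b p n = R) Y, Nat.find hex, ?_, ?_, ?_, ?_, ?_, ?_, ?_⟩
  · exact Nat.le_findGreatest hY h0
  · exact Nat.findGreatest_le Y
  · exact (Nat.find_spec hex).1
  · exact Nat.findGreatest_spec (P := fun p => win b p n = R) hY h0
  · exact (Nat.find_spec hex).2
  · intro p h1 h2
    exact Nat.findGreatest_is_greatest h1 h2
  · intro p h1 h2 h3
    exact Nat.find_min hex h2 ⟨h1, h3⟩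

/-- Words inside one arc are different. -/
lemma arc_inj {b a : ℕ → ℕ} {n i0 j0 : ℕ} {R : List ℕ} (hs : St b a n i0 j0 R) {L U : ℕ} (hL : i0 ≤ L)
    (hU : win b U n = R) (hR : ∀ p, L < p → p < U → win b p n ≠ R) :
    Set.InjOn (fun p => win b p n) (Finset.Ico L U : Finset ℕ) := by
  have key : ∀ p p', L ≤ p → p < p' → p' < U → win b p n = win b p' n → False := by
    intro p p' h1 h2 h3 h4
    have h5 := arc_fwd hs (p := p') (p' := p) (by omega) (by omega) (U - p') h4.symm
      (fun t' ht' => hR _ (by omega) (by omega))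
    rw [show p' + (U - p') = U by omega, hU] at h5
    exact hR (p + (U - p')) (by omega) (by omega) h5.symm
  intro p hp p' hp' h
  simp only [Finset.coe_Ico, Set.mem_Ico] at hp hp'
  simp only at h
  rcases Nat.lt_trichotomy p p' with h1 | h1 | h1
  · exact (key p p' hp.1 h1 hp'.2 h).elim
  · exact h1
  · exact (key p' p hp'.1 h1 hp.2 h.symm).elim

lemma arc_opt1 {b a : ℕ → ℕ} {n i0 j0 : ℕ} {R : List ℕ} (hs : St b a n i0 j0 R)
    (ul : ∀ (w : List ℕ) (e e' : ℕ), w ≠ R → e :: w ∈ Rec b a (n + 1) → e' :: w ∈ Rec b a (n + 1) → e = e')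
    {X U' L Y : ℕ} (hX : i0 ≤ X) (hxX : win b X n = win b i0 n) (hXU : X ≤ U') (hU' : win b U' n = R)
    (hR1 : ∀ p, X ≤ p → p < U' → win b p n ≠ R) (hL : i0 ≤ L) (hLY : L ≤ Y) (hLR : win b L n = R)
    (hyY : win b Y n = mir a j0 n) (hR2 : ∀ p, L < p → p ≤ Y → win b p n ≠ R) :
    win b (i0 + (U' - X)) n = mir a (j0 + (Y - L)) n := by
  have h1 := arc_fwd hs (p := X) (p' := i0) hX le_rfl (U' - X) hxX
    (fun t' ht' => hR1 _ (by omega) (by omega))
  rw [show X + (U' - X) = U' by omega, hU'] at h1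
  have h2 := arc_mir hs ul (Y := Y) (Y - L) (by omega) hyY.symm
    (fun t' ht' => hR2 _ (by omega) (by omega))
  rw [show Y - (Y - L) = L by omega, hLR] at h2
  rw [← h1, h2]

lemma arc_opt2 {b a : ℕ → ℕ} {n i0 j0 : ℕ} {R : List ℕ}
    {X L' U Y : ℕ} (hxX : win b X n = win b i0 n) (hLX : L' ≤ X) (hL' : win b L' n = R)
    (hYU : Y ≤ U) (hUR : win b U n = R) (hyY : win b Y n = mir a j0 n) :
    win b i0 (n - ((X - L') + (U - Y))) = mir a j0 (n - ((X - L') + (U - Y))) := by
  rw [win_eq_mir_iff]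
  intro t ht
  have h1 := (win_eq_iff b b X i0 n).mp hxX t (by omega)
  have h2 := (win_eq_iff b b L' U n).mp (hL'.trans hUR.symm) ((X - L') + t) (by omega)
  have h3 := (win_eq_mir_iff b a Y j0 n).mp hyY ((U - Y) + ((X - L') + t)) (by omega)
  rw [← h1, show X + t = L' + ((X - L') + t) by omega, h2,
    show U + ((X - L') + t) = Y + ((U - Y) + ((X - L') + t)) by omega, h3]
  congr 1
  omega

/-- The finer form of `arc`. -/
lemma arc_fine {b a : ℕ → ℕ} (hF : Lang (Rec b a)) {n i0 j0 : ℕ} {R : List ℕ} (hs : St b a n i0 j0 R)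
    (ul : ∀ (w : List ℕ) (e e' : ℕ), w ≠ R → e :: w ∈ Rec b a (n + 1) → e' :: w ∈ Rec b a (n + 1) → e = e')
    (hw : ∀ w ∈ Rec b a n, ∃ᶠ i in atTop, win b i n = w) :
    ∃ d T i j : ℕ, T ≤ (Rec b a n).ncard + 1 ∧ win b i0 (n - d) = mir a j0 (n - d) ∧ win b i n = mir a j n ∧
      i + j + d ≤ i0 + j0 + T := by
  classical
  have hmem : ∀ p, i0 ≤ p → win b p n ∈ Rec b a n := by
    intro p hp
    have h := hs.tb p hp
    rw [win_succ] at h
    exact hF.pre _ _ _ h
  have hymem : mir a j0 n ∈ Rec b a n := by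
    have h := hs.ta j0 le_rfl
    rw [mir_succ] at h
    exact hF.suf _ _ _ h
  have hxmem := hmem i0 le_rfl
  have hRf := hw R hs.mem
  set FS : Finset (List ℕ) := (hF.fin n).toFinset with hFS
  have hcard : (Rec b a n).ncard = FS.card := Set.ncard_eq_toFinset_card _ (hF.fin n)
  have hFmem : ∀ p, i0 ≤ p → win b p n ∈ FS := by
    intro p hp
    rw [hFS, Set.Finite.mem_toFinset]
    exact hmem p hp
  obtain ⟨r0, hr0, hr0R⟩ := (frequently_atTop.mp hRf) i0
  obtain ⟨Y, hY, hyY⟩ := (frequently_atTop.mp (hw _ hymem)) r0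
  obtain ⟨L, U, hrL, hLY, hYU, hLR, hUR, hR1, hR2⟩ := arc_ex hr0R hRf Y hY
  have hRin : ∀ p, L < p → p < U → win b p n ≠ R := by
    intro p h1 h2
    rcases le_total p Y with h | h
    · exact hR1 p h1 h
    · exact hR2 p h h2
  have hinj := arc_inj hs (L := L) (U := U) (by omega) hUR hRin
  have hsub : (Finset.Ico L U).image (fun p => win b p n) ⊆ FS := by
    intro w hw'
    rw [Finset.mem_image] at hw'
    obtain ⟨p, hp, rfl⟩ := hw'
    rw [Finset.mem_Ico] at hp
    exact hFmem p (by omega)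
  have hD : U - L ≤ FS.card := by
    have h := Finset.card_le_card hsub
    rw [Finset.card_image_of_injOn hinj, Nat.card_Ico] at h
    exact h
  by_cases hA : ∃ X, L ≤ X ∧ X ≤ U ∧ win b X n = win b i0 n
  · obtain ⟨X, hLX, hXU, hxX⟩ := hA
    by_cases hxR : win b i0 n = R
    · -- A0
      have o1 := arc_opt1 hs ul (X := L) (U' := L) (L := L) (Y := Y) (by omega) (hLR.trans hxR.symm) le_rfl hLR
        (fun p h1 h2 => by omega) (by omega) hLY hLR hyY hR1
      have o2 := arc_opt2 (a := a) (i0 := i0) (j0 := j0) (X := L) (L' := L) (U := U) (Y := Y)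
        (hLR.trans hxR.symm) le_rfl hLR hYU hUR hyY
      exact ⟨_, U - L, i0 + (L - L), j0 + (Y - L), by omega, o2, o1, by omega⟩
    · have hXL : L ≠ X := by
        rintro rfl
        exact hxR (hxX.symm.trans hLR)
      have hXU' : X ≠ U := by
        rintro rfl
        exact hxR (hxX.symm.trans hUR)
      rcases le_total X Y with hXY | hXY
      · -- option 3 and option 2
        have o2 := arc_opt2 (a := a) (i0 := i0) (j0 := j0) (X := X) (L' := L) (U := U) (Y := Y)
          hxX hLX hLR hYU hUR hyY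
        have o3 := arc_fwd hs (p := X) (p' := i0) (by omega) le_rfl (Y - X) hxX
          (fun t' ht' => hRin _ (by omega) (by omega))
        rw [show X + (Y - X) = Y by omega, hyY] at o3
        exact ⟨_, U - L, i0 + (Y - X), j0, by omega, o2, o3.symm, by omega⟩
      · -- option 4 and option 1
        have o1 := arc_opt1 hs ul (X := X) (U' := U) (L := L) (Y := Y) (by omega) hxX hXU hUR
          (fun p h1 h2 => hRin p (by omega) h2) (by omega) hLY hLR hyY hR1
        have o4 : win b i0 (n - (X - Y)) = mir a j0 (n - (X - Y)) := by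
          rw [win_eq_mir_iff]
          intro t ht
          have h1 := (win_eq_iff b b X i0 n).mp hxX t (by omega)
          have h3 := (win_eq_mir_iff b a Y j0 n).mp hyY ((X - Y) + t) (by omega)
          rw [← h1, show X + t = Y + ((X - Y) + t) by omega, h3]
          congr 1
          omega
        exact ⟨X - Y, U - L, i0 + (U - X), j0 + (Y - L), by omega, o4, o1, by omega⟩
  · -- case B
    have hxR : win b i0 n ≠ R := fun h => hA ⟨L, le_rfl, by omega, hLR.trans h.symm⟩
    obtain ⟨X, hX, hxX⟩ := (frequently_atTop.mp (hw _ hxmem)) r0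
    obtain ⟨L', U', hrL', hLX', hXU', hLR', hUR', hR1', hR2'⟩ := arc_ex hr0R hRf X hX
    have hRin' : ∀ p, L' < p → p < U' → win b p n ≠ R := by
      intro p h1 h2
      rcases le_total p X with h | h
      · exact hR1' p h1 h
      · exact hR2' p h h2
    have hXL : L' ≠ X := by
      rintro rfl
      exact hxR (hxX.symm.trans hLR')
    have hXU2 : X ≠ U' := by
      rintro rfl
      exact hxR (hxX.symm.trans hUR')
    have hinj' := arc_inj hs (L := L') (U := U') (by omega) hUR' hRin'
    have hsub' : (Finset.Ico (L' + 1) U').image (fun p => win b p n) ⊆ FS := by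
      intro w hw'
      rw [Finset.mem_image] at hw'
      obtain ⟨p, hp, rfl⟩ := hw'
      rw [Finset.mem_Ico] at hp
      exact hFmem p (by omega)
    have hdisj : Disjoint ((Finset.Ico L U).image (fun p => win b p n))
        ((Finset.Ico (L' + 1) U').image (fun p => win b p n)) := by
      rw [Finset.disjoint_left]
      intro w h1 h2
      rw [Finset.mem_image] at h1 h2
      obtain ⟨p, hp, rfl⟩ := h1
      obtain ⟨p', hp', he⟩ := h2
      rw [Finset.mem_Ico] at hp hp'
      have hne' : win b p' n ≠ R := hRin' p' (by omega) (by omega)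
      have hpL : L ≠ p := by
        rintro rfl
        exact hne' (he.trans hLR)
      rcases le_total p' X with hc | hc
      · have hlt : p + (X - p') < U := by
          by_contra hcon
          have h5 := arc_fwd hs (p := p') (p' := p) (by omega) (by omega) (U - p) he
            (fun t' ht' => hRin' _ (by omega) (by omega))
          rw [show p + (U - p) = U by omega, hUR] at h5
          exact hRin' (p' + (U - p)) (by omega) (by omega) h5
        have h6 := arc_fwd hs (p := p') (p' := p) (by omega) (by omega) (X - p') he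
          (fun t' ht' => hRin' _ (by omega) (by omega))
        rw [show p' + (X - p') = X by omega, hxX] at h6
        exact hA ⟨p + (X - p'), by omega, by omega, h6.symm⟩
      · have hlt : p' - X < p - L := by
          by_contra hcon
          have h5 := arc_bwd hs ul (p := p') (p' := p) (p - L) (by omega) (by omega) he
            (fun t' ht' => hRin' _ (by omega) (by omega))
          rw [show p - (p - L) = L by omega, hLR] at h5
          exact hRin' (p' - (p - L)) (by omega) (by omega) h5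
        have h6 := arc_bwd hs ul (p := p') (p' := p) (p' - X) (by omega) (by omega) he
          (fun t' ht' => hRin' _ (by omega) (by omega))
        rw [show p' - (p' - X) = X by omega, hxX] at h6
        exact hA ⟨p - (p' - X), by omega, by omega, h6.symm⟩
    have hD' : (U - L) + (U' - (L' + 1)) ≤ FS.card := by
      have h := Finset.card_le_card (Finset.union_subset hsub hsub')
      rw [Finset.card_union_of_disjoint hdisj, Finset.card_image_of_injOn hinj,
        Finset.card_image_of_injOn (hinj'.mono (by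
          intro q hq
          simp only [Finset.coe_Ico, Set.mem_Ico] at hq ⊢
          omega)), Nat.card_Ico, Nat.card_Ico] at h
      exact h
    have o1 := arc_opt1 hs ul (X := X) (U' := U') (L := L) (Y := Y) (by omega) hxX hXU' hUR'
      hR2' (by omega) hLY hLR hyY hR1
    have o2 := arc_opt2 (a := a) (i0 := i0) (j0 := j0) (X := X) (L' := L') (U := U) (Y := Y)
      hxX hLX' hLR' hYU hUR hyY
    exact ⟨_, (U - L) + (U' - L'), i0 + (U' - X), j0 + (Y - L), by omega, o2, o1, by omega⟩

lemma arc {b a : ℕ → ℕ} (hF : Lang (Rec b a)) {n i0 j0 : ℕ} {R : List ℕ} (hs : St b a n i0 j0 R)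
    (ul : ∀ (w : List ℕ) (e e' : ℕ), w ≠ R → e :: w ∈ Rec b a (n + 1) → e' :: w ∈ Rec b a (n + 1) → e = e')
    (hw : ∀ w ∈ Rec b a n, ∃ᶠ i in atTop, win b i n = w) :
    ∃ i j l : ℕ, l ≤ n ∧ win b i l = mir a j l ∧
      2 * (i + j + (n - l)) ≤ 2 * (i0 + j0) + (Rec b a n).ncard + 1 := by
  obtain ⟨d, T, i, j, hT, h1, h2, h3⟩ := arc_fine hF hs ul hw
  rcases le_total (2 * d) T with h | h
  · exact ⟨i0, j0, n - d, by omega, h1, by omega⟩
  · exact ⟨i, j, n, le_rfl, h2, by omega⟩

end Pool.Agent.H2.MC
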