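import Mathlib
import Pool.Agent.H2.MC.St
import Pool.Agent.H2.MC.Ev

set_option autoImplicit false

/-!
# Module Climb (170 lines): going up to a bispecial word

`St b a n i0 j0 R` is defined in St.lean. `Rec b a` is a `Lang` (`lang_Rec`).

`climb`: let `R` have exactly one left extension: there is `y` with `y :: R ∈ Rec b a (n+1)` (`Lang.exl`) and it is the
only one (`hl`). Claim `St b a (n+1) i0 j0 (y :: R)`:
* `uniq`: let `u ≠ y :: R`, `u ++ [e], u ++ [e'] ∈ Rec b a (n+2)`. `u` has length `n+1`, `u = x :: w`, `w ∈ Rec b a n`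
  (as `u ∈ Rec b a (n+1)`). `w ++ [e], w ++ [e'] ∈ Rec b a (n+1)` (`Lang.suf`). If `w ≠ R` then `e = e'` by `uniq`. If `w = R`
  then `x :: R ∈ Rec b a (n+1)`, so `x = y`, contradiction.
* `card`: the map `dropLast : Rec b a (n+2) → Rec b a (n+1)`: all fibres over `u ≠ y :: R` are single points by `uniq`;
  the fibre over `y :: R` injects (by `v ↦ v.tail`) into the fibre of `dropLast : Rec b a (n+1) → Rec b a n` over `R`.
  In detail: by `Lang.card_ext` (for `n+1`, `y :: R`, and for `n`, `R`) `ncard Rec (n+2) + 1 = ncard Rec (n+1) +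
  ncard {e | (y :: R) ++ [e] ∈ Rec (n+2)}`, `ncard Rec (n+1) + 1 = ncard Rec n + ncard {e | R ++ [e] ∈ Rec (n+1)}`, the
  first set of letters is contained in the second (`suf`; the second is finite, it injects into `Rec (n+1)`), whose
  `ncard` is `≤ 2` by the old `card`.
* `tb`: `i ≥ i0`; `win b i (n+2) = u ++ [e]`, `u = win b i (n+1) ∈ Rec b a (n+1)`, `e = b (i+n+1)`; put `w = win b (i+1) n`, so
  `u = b i :: w` and `w ++ [e] = win b (i+1) (n+1) ∈ Rec b a (n+1)`. If `w ≠ R`: `u` has a right extension `u ++ [e']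
  ∈ Rec b a (n+2)` (`exr`), its suffix `w ++ [e'] ∈ Rec b a (n+1)`, so `e' = e` by `uniq`. If `w = R`: `w ++ [e]` has a left
  extension `y' :: (R ++ [e]) ∈ Rec b a (n+2)` (`exl`), its prefix `y' :: R ∈ Rec b a (n+1)`, and `b i :: R = u ∈ Rec`, so
  `y' = b i` by `hl`; hence `u ++ [e] = b i :: (R ++ [e]) ∈ Rec b a (n+2)`.
* `ta`: the same for `mir a j (n+2) = a (j+n+1) :: mir a j (n+1)`, `mir a j (n+1) = mir a (j+1) n ++ [a j]` (here
  `w = mir a (j+1) n`, `u = mir a (j+1) (n+1) = a (j+n+1) :: w`, `e = a j`, `w ++ [e] = mir a j (n+1)`).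

`climb_end`: suppose that the statement is false. Then by `climb` and induction on `t` (statement `Q t`): there is `C`
with `C.length = t`, `St b a (m+t) i0 j0 (C ++ R)`, and for all `i ≥ i0`: `win b (i+t) m = R → win b i (m+t) = C ++ R`.
(`Q 0`: `C = []`. `Q t → Q (t+1)`: `C ++ R` does not have two left extensions (otherwise the conclusion of `climb_end` holds
with `n = m + t`; the bound on `ncard (Rec b a (m+t))` follows from `card` of the states, put it into `Q t`), so `climb`
gives `y` and the state for `y :: (C ++ R)`; if `i ≥ i0` and `win b (i+t+1) m = R` then `win b (i+1) (m+t) = C ++ R` by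
induction, and `win b i (m+t+1) = b i :: win b (i+1) (m+t) ∈ Rec b a (m+t+1)` (`tb`, prefix), so `b i = y`.)
Now `R` is followed infinitely often in `b` by `e1` and infinitely often by `e2`, `e1 ≠ e2`. Take an occurrence `i ≥ i0`
of `R` followed by `e1` (`b (i+m) = e1`) and let `i+g`, `g ≥ 1`, be the next occurrence of `R`; take an occurrence
`i' ≥ i0` of `R` followed by `e2` and let `i'+g'` be the next occurrence. By `Q g`: `win b i (m+g) = C ++ R`, by `Q g'`
`win b i' (m+g') = C' ++ R`. If `g = g'`: by `Q g` (same `C`) `win b i (m+g) = win b i' (m+g)`, compare the letters at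
the index `m < m+g`: `e1 = e2`, contradiction. If `g < g'`: `win b (i'+g') m = R` and `i'+g'-g ≥ i0`, so `Q g` gives
`win b (i'+g'-g) (m+g) = C ++ R = win b i (m+g)`, whose first `m` letters are `win b i m = R`: so `R` occurs at
`i'+g'-g`, strictly between `i'` and `i'+g'`, contradiction. The case `g' < g` is symmetric.
-/

namespace Pool.Agent.H2.MC

open Filter

private lemma climb_fin {F : ℕ → Set (List ℕ)} (hF : Lang F) (n : ℕ) (R : List ℕ) :
    {e : ℕ | R ++ [e] ∈ F (n + 1)}.Finite := by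
  have h1 : {e : ℕ | R ++ [e] ∈ F (n + 1)} = (fun e : ℕ => R ++ [e]) ⁻¹' F (n + 1) := rfl
  rw [h1]
  refine (hF.fin (n + 1)).preimage ?_
  intro e _ e' _ he
  exact (append_singleton_inj.1 he).2

lemma climb {b a : ℕ → ℕ} {M : ℕ} (h : Bd b a M) {n i0 j0 : ℕ} {R : List ℕ} (hs : St b a n i0 j0 R)
    (hl : ∀ e e' : ℕ, e :: R ∈ Rec b a (n + 1) → e' :: R ∈ Rec b a (n + 1) → e = e') :
    ∃ y, y :: R ∈ Rec b a (n + 1) ∧ St b a (n + 1) i0 j0 (y :: R) := by
  have hF := lang_Rec h
  obtain ⟨y, hy⟩ := hF.exl n R hs.mem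
  have huniq : ∀ (w : List ℕ) (e e' : ℕ), w ≠ y :: R → w ++ [e] ∈ Rec b a (n + 1 + 1) →
      w ++ [e'] ∈ Rec b a (n + 1 + 1) → e = e' := by
    intro w e e' hw he he'
    have hlen := hF.len _ _ he
    rw [List.length_append, List.length_singleton] at hlen
    cases w with
    | nil =>
      simp only [List.length_nil] at hlen
      omega
    | cons x w' =>
      have h1 : w' ++ [e] ∈ Rec b a (n + 1) := hF.suf (n + 1) (w' ++ [e]) x he
      have h2 : w' ++ [e'] ∈ Rec b a (n + 1) := hF.suf (n + 1) (w' ++ [e']) x he'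
      by_cases hw' : w' = R
      · subst hw'
        have h3 : x :: w' ∈ Rec b a (n + 1) := hF.pre (n + 1) (x :: w') e he
        exact absurd (congrArg (fun z => z :: w') (hl x y h3 hy)) hw
      · exact hs.uniq w' e e' hw' h1 h2
  have hglue : ∀ (x : ℕ) (w : List ℕ) (e : ℕ), x :: w ∈ Rec b a (n + 1) →
      w ++ [e] ∈ Rec b a (n + 1) → x :: (w ++ [e]) ∈ Rec b a (n + 1 + 1) := by
    intro x w e hx he
    by_cases hw : w = R
    · subst hw
      obtain ⟨y', hy'⟩ := hF.exl (n + 1) (w ++ [e]) he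
      have h1 : y' :: w ∈ Rec b a (n + 1) := hF.pre (n + 1) (y' :: w) e hy'
      have h2 := hl y' x h1 hx
      rw [← h2]
      exact hy'
    · obtain ⟨e', he'⟩ := hF.exr (n + 1) (x :: w) hx
      have h1 : w ++ [e'] ∈ Rec b a (n + 1) := hF.suf (n + 1) (w ++ [e']) x he'
      have h2 := hs.uniq w e e' hw he h1
      rw [h2]
      exact he'
  refine ⟨y, hy, hy, huniq, ?_, ?_, ?_⟩
  · have h1 := hF.card_ext (n + 1) hy huniq
    have h2 := hF.card_ext n hs.mem hs.uniq
    have h3 : {e : ℕ | (y :: R) ++ [e] ∈ Rec b a (n + 1 + 1)}.ncard ≤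
        {e : ℕ | R ++ [e] ∈ Rec b a (n + 1)}.ncard := by
      refine Set.ncard_le_ncard ?_ (climb_fin hF n R)
      intro e he
      exact hF.suf (n + 1) (R ++ [e]) y he
    have h4 := hs.card
    omega
  · intro i hi
    rw [win_succ', win_succ]
    refine hglue (b i) (win b (i + 1) n) (b (i + 1 + n)) ?_ ?_
    · rw [← win_succ']
      exact hs.tb i hi
    · rw [← win_succ]
      exact hs.tb (i + 1) (by omega)
  · intro j hj
    rw [mir_succ, mir_succ']
    refine hglue (a (j + (n + 1))) (mir a (j + 1) n) (a j) ?_ ?_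
    · have h1 : j + (n + 1) = j + 1 + n := by omega
      rw [h1, ← mir_succ]
      exact hs.ta (j + 1) (by omega)
    · rw [← mir_succ']
      exact hs.ta j hj

/-- the decisive comparison of two return times -/
private lemma climb_key {b : ℕ → ℕ} {m i0 : ℕ} {R : List ℕ}
    (hQ : ∀ t : ℕ, ∃ C : List ℕ, ∀ i, i0 ≤ i → win b (i + t) m = R → win b i (m + t) = C ++ R)
    {i i' g g' : ℕ} (hi : i0 ≤ i) (hi' : i0 ≤ i') (h1 : win b i m = R) (h2 : win b (i + g) m = R)
    (h2' : win b (i' + g') m = R) (hmin : ∀ s, 0 < s → s < g' → win b (i' + s) m ≠ R)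
    (hg : 0 < g) (hgg : g < g') : False := by
  obtain ⟨C, hC⟩ := hQ g
  have h3 := hC i hi h2
  have e : i' + (g' - g) + g = i' + g' := by omega
  have h4 := hC (i' + (g' - g)) (by omega) (by rw [e]; exact h2')
  have h5 : win b (i' + (g' - g)) m = win b i m := by
    rw [← win_take b (i' + (g' - g)) (Nat.le_add_right m g), ← win_take b i (Nat.le_add_right m g),
      h3, h4]
  exact hmin (g' - g) (by omega) (by omega) (h5.trans h1)

/-- an occurrence with its next occurrence -/
private lemma climb_next {b : ℕ → ℕ} {m i0 : ℕ} {R : List ℕ} {e : ℕ}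
    (h : R ++ [e] ∈ RecB b (m + 1)) :
    ∃ i g, i0 ≤ i ∧ win b i m = R ∧ b (i + m) = e ∧ 0 < g ∧ win b (i + g) m = R ∧
      ∀ s, 0 < s → s < g → win b (i + s) m ≠ R := by
  classical
  have h0 : ∃ᶠ i in atTop, win b i (m + 1) = R ++ [e] := h
  have h1 := Filter.frequently_atTop.1 h0
  obtain ⟨i, hi, hw⟩ := h1 i0
  rw [win_succ] at hw
  obtain ⟨hw1, hw2⟩ := append_singleton_inj.1 hw
  have hex : ∃ g, 0 < g ∧ win b (i + g) m = R := by
    obtain ⟨i', hi', hw'⟩ := h1 (i + 1)
    rw [win_succ] at hw'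
    refine ⟨i' - i, by omega, ?_⟩
    have : i + (i' - i) = i' := by omega
    rw [this]
    exact (append_singleton_inj.1 hw').1
  refine ⟨i, Nat.find hex, hi, hw1, hw2, (Nat.find_spec hex).1, (Nat.find_spec hex).2, ?_⟩
  intro s hs hs' hws
  exact Nat.find_min hex hs' ⟨hs, hws⟩

lemma climb_end {b a : ℕ → ℕ} {M : ℕ} (h : Bd b a M) {m i0 j0 : ℕ} {R : List ℕ} (hs : St b a m i0 j0 R)
    {e1 e2 : ℕ} (he : e1 ≠ e2) (h1 : R ++ [e1] ∈ RecB b (m + 1)) (h2 : R ++ [e2] ∈ RecB b (m + 1)) :
    ∃ (n : ℕ) (R' : List ℕ) (y y' : ℕ), m ≤ n ∧ St b a n i0 j0 R' ∧ y ≠ y' ∧ y :: R' ∈ Rec b a (n + 1) ∧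
      y' :: R' ∈ Rec b a (n + 1) ∧ (Rec b a n).ncard ≤ (Rec b a m).ncard + (n - m) := by
  by_contra hcon
  have hQ : ∀ t : ℕ, ∃ C : List ℕ, St b a (m + t) i0 j0 (C ++ R) ∧
      (Rec b a (m + t)).ncard ≤ (Rec b a m).ncard + t ∧
      ∀ i, i0 ≤ i → win b (i + t) m = R → win b i (m + t) = C ++ R := by
    intro t
    induction t with
    | zero => exact ⟨[], hs, le_rfl, fun i _ hw => hw⟩
    | succ t ih =>
      obtain ⟨C, hst, hcard, hC⟩ := ih
      have hl : ∀ e e' : ℕ, e :: (C ++ R) ∈ Rec b a (m + t + 1) →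
          e' :: (C ++ R) ∈ Rec b a (m + t + 1) → e = e' := by
        intro e e' hee hee'
        by_contra hne
        refine hcon ⟨m + t, C ++ R, e, e', Nat.le_add_right m t, hst, hne, hee, hee', ?_⟩
        have : m + t - m = t := by omega
        rw [this]
        exact hcard
      obtain ⟨y, hy, hst'⟩ := climb h hst hl
      refine ⟨y :: C, hst', ?_, ?_⟩
      · have h3 := hst.card
        have h4 : (Rec b a (m + (t + 1))).ncard ≤ (Rec b a (m + t)).ncard + 1 := h3
        omega
      · intro i hi hw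
        have e : i + (t + 1) = i + 1 + t := by omega
        rw [e] at hw
        have h3 := hC (i + 1) (by omega) hw
        have h4 : win b i (m + t + 1) = b i :: (C ++ R) := by
          rw [win_succ', h3]
        have h5 := hst.tb i hi
        rw [h4] at h5
        have h6 := hl (b i) y h5 hy
        show win b i (m + t + 1) = y :: (C ++ R)
        rw [h4, h6]
  have hQ' : ∀ t : ℕ, ∃ C : List ℕ, ∀ i, i0 ≤ i → win b (i + t) m = R →
      win b i (m + t) = C ++ R := fun t => by
    obtain ⟨C, -, -, hC⟩ := hQ t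
    exact ⟨C, hC⟩
  obtain ⟨i, g, hi, hw, hb, hg, hwg, hmin⟩ := climb_next (i0 := i0) h1
  obtain ⟨i', g', hi', hw', hb', hg', hwg', hmin'⟩ := climb_next (i0 := i0) h2
  rcases Nat.lt_trichotomy g g' with hlt | heq | hgt
  · exact climb_key hQ' hi hi' hw hwg hwg' hmin' hg hlt
  · subst heq
    obtain ⟨C, hC⟩ := hQ' g
    have h3 := (hC i hi hwg).trans (hC i' hi' hwg').symm
    have h4 := (win_eq_iff b b i i' (m + g)).1 h3 m (by omega)
    exact he (hb.symm.trans (h4.trans hb'))
  · exact climb_key hQ' hi' hi hw' hwg' hwg hmin hg' hgt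

end Pool.Agent.H2.MC
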