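import Mathlib
import Pool.Agent.H2.MC.Ev

set_option autoImplicit false

/-!
# Module Tran (170 lines): transient words

Write `T n = Tr b a n` (words which occur in `b` or mirrored in `a`, but not infinitely often in `b` nor mirrored
infinitely often in `a`). A word of `T n` occurs in `b` or mirrored in `a`, and only finitely often.

THE INJECTION `f : T n → T (n+1)`. For `w ∈ T n` which occurs in `b` choose an occurrence, `win b i n = w`, and put
`f w = win b i (n+1)` (prefix `w`); for `w ∈ T n` which does not occur in `b` choose `mir a j n = w` and put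
`f w = mir a j (n+1)` (suffix `w`: `mir_succ`). `f w ∈ T (n+1)`: it occurs, and it is not in `Rec` since `Rec` is closed
under prefixes and suffixes (`lang_Rec`). `f` is injective: two words of the first kind: the prefixes agree; two of
the second kind: the suffixes agree; if `w` is of the first and `w'` of the second kind and `f w = f w'`, then
`w'` is the suffix of `win b i (n+1)`, `w' = win b (i+1) n` occurs in `b`, contradiction. Hence `tr_mono`.

If `ncard T (n+1) ≤ ncard T n` then `f` is onto (finite sets). THREE CONSEQUENCES: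
(K1) if `win b i n ∈ T n` then `win b i (n+1) = f (win b i n)`; in particular if moreover `win b i' n = win b i n` then
     `win b i' (n+1) = win b i (n+1)`. Proof: `v = win b i (n+1)` is in `T (n+1)` as its prefix is not in `Rec`; `v = f w`;
     if `w` is of the first kind, `w` = prefix of `v` = `win b i n`; otherwise `w` = suffix of `v` = `win b (i+1) n`
     occurs in `b`, contradiction.
(K2) if `win b i n ∈ Rec b a n` then `win b i (n+1) ∈ Rec b a (n+1)`. Proof: otherwise it is in `T (n+1)`, `= f w`; first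
     kind: `w = win b i n ∈ Rec`, contradiction; second kind: `w = win b (i+1) n` occurs in `b`, contradiction.
(K3) no word of `T n` occurs both in `b` and mirrored in `a`. Proof: let `w = mir a j n ∈ T n` occur in `b`. For
     large `j'` `mir a j' n ∈ Rec` (`ev_RecA`), so there is a largest `j' ≥ j` such that `mir a j' n ∈ T n` and
     `mir a j' n` occurs in `b`... precisely: let `P j'` be `mir a j' n ∈ T n ∧ ∃ i, win b i n = mir a j' n`; `P j`, not `P j'`
     for large `j'`: so there is `j' ≥ j` with `P j'` and not `P (j'+1)`. `v = mir a j' (n+1)` has suffix `mir a j' n`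
     (`mir_succ`) so `v ∈ T (n+1)`, and prefix `mir a (j'+1) n` (`mir_succ'`). `v = f w'`: first kind: `w'` is the
     prefix, it is in `T n` and occurs in `b`, so `P (j'+1)`, contradiction; second kind: `w' = mir a j' n` does not
     occur in `b`, contradiction.

`transient_b`: by (K2) once `win b i n ∈ Rec b a n` then `win b i (n+1) ∈ Rec b a (n+1)`, hence its suffix
`win b (i+1) n ∈ Rec b a n`, and so on. Let `i0` be the first `i` with `win b i n ∈ Rec b a n` (exists by `ev_RecB`).
For `i < i0` `win b i n ∈ T n`. They are pairwise different: if `win b i n = win b i' n`, `i < i' < i0`, then by (K1) and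
induction `win b (i+t) n = win b (i'+t) n` for `t ≤ i0 - i'` (as long as the word is in `T n`), and for `t = i0 - i'` the
right side is in `Rec`, the left side is in `T n`, contradiction.

`transient_a`: apply `transient_b` to `(a, b)`: `Occ a b n`, `Rec a b n`, `Tr a b n` are the images of `Occ b a n`, ...
under `List.reverse` (state this as a lemma `w.reverse ∈ Tr a b n ↔ w ∈ Tr b a n`), `win a j n = (mir a j n).reverse`.
`transient`: the sets `{win b i n : i < i0}` and `{mir a j n : j < j0}` have `i0` and `j0` elements, are contained in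
`T n` and disjoint by (K3).
-/

namespace Pool.Agent.H2.MC

open Filter

open Classical in
/-- the injection of the transient words of length `n` into those of length `n + 1` -/
private noncomputable def ff (b a : ℕ → ℕ) (n : ℕ) (w : List ℕ) : List ℕ :=
  if h : ∃ i, win b i n = w then win b h.choose (n + 1)
  else if h' : ∃ j, mir a j n = w then mir a h'.choose (n + 1) else []

private lemma ff1 {b a : ℕ → ℕ} {n : ℕ} {w : List ℕ} (h : ∃ i, win b i n = w) :
    ∃ i, win b i n = w ∧ ff b a n w = win b i (n + 1) := by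
  refine ⟨h.choose, h.choose_spec, ?_⟩
  unfold ff
  rw [dif_pos h]

private lemma ff2 {b a : ℕ → ℕ} {n : ℕ} {w : List ℕ} (h : ¬ ∃ i, win b i n = w)
    (h' : ∃ j, mir a j n = w) : ∃ j, mir a j n = w ∧ ff b a n w = mir a j (n + 1) := by
  refine ⟨h'.choose, h'.choose_spec, ?_⟩
  unfold ff
  rw [dif_neg h, dif_pos h']

private lemma win_tr {b a : ℕ → ℕ} {M : ℕ} (h : Bd b a M) {n i : ℕ} (hw : win b i n ∉ Rec b a n) :
    win b i (n + 1) ∈ Tr b a (n + 1) := by
  refine ⟨Or.inl ⟨i, rfl⟩, fun hr => hw ?_⟩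
  rw [win_succ] at hr
  exact (lang_Rec h).pre _ _ _ hr

private lemma mir_tr {b a : ℕ → ℕ} {M : ℕ} (h : Bd b a M) {n j : ℕ} (hw : mir a j n ∉ Rec b a n) :
    mir a j (n + 1) ∈ Tr b a (n + 1) := by
  refine ⟨Or.inr ⟨j, rfl⟩, fun hr => hw ?_⟩
  rw [mir_succ] at hr
  exact (lang_Rec h).suf _ _ _ hr

private lemma win_pre {b b' : ℕ → ℕ} {i i' n : ℕ} (h : win b i (n + 1) = win b' i' (n + 1)) :
    win b i n = win b' i' n := by
  rw [win_succ, win_succ] at h
  exact (append_singleton_inj.mp h).1

private lemma win_suf {b b' : ℕ → ℕ} {i i' n : ℕ} (h : win b i (n + 1) = win b' i' (n + 1)) :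
    win b (i + 1) n = win b' (i' + 1) n := by
  rw [win_succ', win_succ'] at h
  exact (List.cons.inj h).2

private lemma mir_suf {a a' : ℕ → ℕ} {j j' n : ℕ} (h : mir a j (n + 1) = mir a' j' (n + 1)) :
    mir a j n = mir a' j' n := by
  rw [mir_succ, mir_succ] at h
  exact (List.cons.inj h).2

private lemma wm_suf {b a : ℕ → ℕ} {i j n : ℕ} (h : win b i (n + 1) = mir a j (n + 1)) :
    win b (i + 1) n = mir a j n := by
  rw [win_succ', mir_succ] at h
  exact (List.cons.inj h).2

private lemma wm_pre {b a : ℕ → ℕ} {i j n : ℕ} (h : win b i (n + 1) = mir a j (n + 1)) :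
    win b i n = mir a (j + 1) n := by
  rw [win_succ, mir_succ'] at h
  exact (append_singleton_inj.mp h).1

private lemma ff_mem {b a : ℕ → ℕ} {M : ℕ} (h : Bd b a M) {n : ℕ} {w : List ℕ} (hw : w ∈ Tr b a n) :
    ff b a n w ∈ Tr b a (n + 1) := by
  by_cases h1 : ∃ i, win b i n = w
  · obtain ⟨i, hi, hf⟩ := ff1 (a := a) h1
    rw [hf]
    exact win_tr h (by rw [hi]; exact hw.2)
  · have h2 : ∃ j, mir a j n = w := by
      rcases hw.1 with h3 | h3
      · exact absurd h3 h1
      · exact h3
    obtain ⟨j, hj, hf⟩ := ff2 h1 h2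
    rw [hf]
    exact mir_tr h (by rw [hj]; exact hw.2)

private lemma ff_inj {b a : ℕ → ℕ} {n : ℕ} : Set.InjOn (ff b a n) (Tr b a n) := by
  intro w hw w' hw' he
  by_cases h1 : ∃ i, win b i n = w
  · obtain ⟨i, hi, hf⟩ := ff1 (a := a) h1
    by_cases h1' : ∃ i, win b i n = w'
    · obtain ⟨i', hi', hf'⟩ := ff1 (a := a) h1'
      rw [hf, hf'] at he
      rw [← hi, ← hi']
      exact win_pre he
    · have h2' : ∃ j, mir a j n = w' := by
        rcases hw'.1 with h3 | h3
        · exact absurd h3 h1'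
        · exact h3
      obtain ⟨j, hj, hf'⟩ := ff2 h1' h2'
      rw [hf, hf'] at he
      exact absurd ⟨i + 1, (wm_suf he).trans hj⟩ h1'
  · have h2 : ∃ j, mir a j n = w := by
      rcases hw.1 with h3 | h3
      · exact absurd h3 h1
      · exact h3
    obtain ⟨j, hj, hf⟩ := ff2 h1 h2
    by_cases h1' : ∃ i, win b i n = w'
    · obtain ⟨i', hi', hf'⟩ := ff1 (a := a) h1'
      rw [hf, hf'] at he
      exact absurd ⟨i' + 1, (wm_suf he.symm).trans hj⟩ h1
    · have h2' : ∃ j, mir a j n = w' := by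
        rcases hw'.1 with h3 | h3
        · exact absurd h3 h1'
        · exact h3
      obtain ⟨j', hj', hf'⟩ := ff2 h1' h2'
      rw [hf, hf'] at he
      rw [← hj, ← hj']
      exact mir_suf he

private lemma tr_fin {b a : ℕ → ℕ} {M : ℕ} (h : Bd b a M) (n : ℕ) : (Tr b a n).Finite :=
  (Occ_finite h n).subset Set.sdiff_subset

lemma tr_mono {b a : ℕ → ℕ} {M : ℕ} (h : Bd b a M) (n : ℕ) : (Tr b a n).ncard ≤ (Tr b a (n + 1)).ncard :=
  Set.ncard_le_ncard_of_injOn (ff b a n) (fun _ hw => ff_mem h hw) ff_inj (tr_fin h (n + 1))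

private lemma ff_surj {b a : ℕ → ℕ} {M : ℕ} (h : Bd b a M) {n : ℕ}
    (hc : (Tr b a (n + 1)).ncard ≤ (Tr b a n).ncard) {v : List ℕ} (hv : v ∈ Tr b a (n + 1)) :
    ∃ w ∈ Tr b a n, ((∃ i, win b i n = w ∧ v = win b i (n + 1)) ∨
      ((¬ ∃ i, win b i n = w) ∧ ∃ j, mir a j n = w ∧ v = mir a j (n + 1))) ∧ v = ff b a n w := by
  have hsub : ff b a n '' Tr b a n ⊆ Tr b a (n + 1) := by
    rintro _ ⟨u, hu, rfl⟩
    exact ff_mem h hu
  have hs : ff b a n '' Tr b a n = Tr b a (n + 1) :=
    Set.eq_of_subset_of_ncard_le hsub (by rw [Set.InjOn.ncard_image ff_inj]; exact hc) (tr_fin h (n + 1))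
  rw [← hs] at hv
  obtain ⟨w, hw, he⟩ := hv
  refine ⟨w, hw, ?_, he.symm⟩
  by_cases h1 : ∃ i, win b i n = w
  · obtain ⟨i, hi, hf⟩ := ff1 (a := a) h1
    exact Or.inl ⟨i, hi, by rw [← he, hf]⟩
  · have h2 : ∃ j, mir a j n = w := by
      rcases hw.1 with h3 | h3
      · exact absurd h3 h1
      · exact h3
    obtain ⟨j, hj, hf⟩ := ff2 h1 h2
    exact Or.inr ⟨h1, j, hj, by rw [← he, hf]⟩

private lemma k1' {b a : ℕ → ℕ} {M : ℕ} (h : Bd b a M) {n : ℕ}
    (hc : (Tr b a (n + 1)).ncard ≤ (Tr b a n).ncard) {i : ℕ} (hi : win b i n ∉ Rec b a n) :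
    win b i (n + 1) = ff b a n (win b i n) := by
  obtain ⟨w, hw, h1, h2⟩ := ff_surj h hc (win_tr h hi)
  rcases h1 with ⟨i', h3, h4⟩ | ⟨h3, j, h4, h5⟩
  · have h5 : win b i n = w := (win_pre h4).trans h3
    rw [h5]
    exact h2
  · exact absurd ⟨i + 1, (wm_suf h5).trans h4⟩ h3

private lemma k2 {b a : ℕ → ℕ} {M : ℕ} (h : Bd b a M) {n : ℕ}
    (hc : (Tr b a (n + 1)).ncard ≤ (Tr b a n).ncard) {i : ℕ} (hi : win b i n ∈ Rec b a n) :
    win b i (n + 1) ∈ Rec b a (n + 1) := by
  by_contra hcon
  obtain ⟨w, hw, h1, h2⟩ := ff_surj h hc (v := win b i (n + 1)) ⟨Or.inl ⟨i, rfl⟩, hcon⟩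
  rcases h1 with ⟨i', h3, h4⟩ | ⟨h3, j, h4, h5⟩
  · have h5 : win b i n = w := (win_pre h4).trans h3
    rw [h5] at hi
    exact hw.2 hi
  · exact absurd ⟨i + 1, (wm_suf h5).trans h4⟩ h3

private lemma k3 {b a : ℕ → ℕ} {M : ℕ} (h : Bd b a M) {n : ℕ}
    (hc : (Tr b a (n + 1)).ncard ≤ (Tr b a n).ncard) {i j : ℕ} (hj : mir a j n ∉ Rec b a n)
    (he : win b i n = mir a j n) : False := by
  have hP : ∀ t : ℕ, mir a (j + t) n ∉ Rec b a n ∧ ∃ i, win b i n = mir a (j + t) n := by
    intro t
    induction t with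
    | zero => exact ⟨hj, i, he⟩
    | succ t ih =>
      obtain ⟨h1, i1, h2⟩ := ih
      obtain ⟨w, hw, h3, h4⟩ := ff_surj h hc (mir_tr h h1)
      rcases h3 with ⟨i', h5, h6⟩ | ⟨h5, j', h6, h7⟩
      · have h8 : win b i' n = mir a (j + t + 1) n := wm_pre h6.symm
        have h9 : mir a (j + t + 1) n = w := h8.symm.trans h5
        have h10 : j + (t + 1) = j + t + 1 := by omega
        rw [h10]
        refine ⟨?_, i', h8⟩
        rw [h9]
        exact hw.2
      · exfalso
        apply h5
        refine ⟨i1, ?_⟩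
        rw [h2, ← h6]
        exact mir_suf h7
  obtain ⟨N, hN⟩ := ev_RecA h.2 n
  exact (hP N).1 (Or.inr (hN (j + N) (by omega)))

private lemma tb {b a : ℕ → ℕ} {M : ℕ} (h : Bd b a M) {n : ℕ}
    (hc : (Tr b a (n + 1)).ncard ≤ (Tr b a n).ncard) :
    ∃ i0 : ℕ, (∀ i, i0 ≤ i → win b i (n + 1) ∈ Rec b a (n + 1)) ∧
      (∀ i, i < i0 → win b i n ∉ Rec b a n) ∧ Set.InjOn (fun i => win b i n) (Set.Iio i0) := by
  classical
  have hex : ∃ i, win b i n ∈ Rec b a n := by
    obtain ⟨N, hN⟩ := ev_RecB h.1 n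
    exact ⟨N, Or.inl (hN N le_rfl)⟩
  have hge : ∀ t, win b (Nat.find hex + t) n ∈ Rec b a n := by
    intro t
    induction t with
    | zero => exact Nat.find_spec hex
    | succ t ih =>
      have h1 := k2 h hc ih
      rw [win_succ'] at h1
      have h2 := (lang_Rec h).suf _ _ _ h1
      exact h2
  have hlt : ∀ i, i < Nat.find hex → win b i n ∉ Rec b a n := fun i hi => Nat.find_min hex hi
  have hne : ∀ i i', i < i' → i' < Nat.find hex → win b i n ≠ win b i' n := by
    intro i i' h1 h2 he
    have hind : ∀ t, i' + t ≤ Nat.find hex → win b (i + t) n = win b (i' + t) n := by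
      intro t
      induction t with
      | zero => intro _; exact he
      | succ t ih =>
        intro h3
        have h4 := ih (by omega)
        have h5 : win b (i' + t) n ∉ Rec b a n := hlt _ (by omega)
        have h6 : win b (i + t) n ∉ Rec b a n := by rw [h4]; exact h5
        have h7 := k1' h hc h5
        have h8 := k1' h hc h6
        rw [h4, ← h7] at h8
        exact win_suf h8
    have h9 := hind (Nat.find hex - i') (by omega)
    have h10 : i' + (Nat.find hex - i') = Nat.find hex + 0 := by omega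
    rw [h10] at h9
    have h11 : win b (i + (Nat.find hex - i')) n ∉ Rec b a n := hlt _ (by omega)
    rw [h9] at h11
    exact h11 (hge 0)
  refine ⟨Nat.find hex, ?_, hlt, ?_⟩
  · intro i hi
    obtain ⟨t, rfl⟩ := Nat.exists_eq_add_of_le hi
    exact k2 h hc (hge t)
  · intro i hi i' hi' he
    have h1 : i < Nat.find hex := hi
    have h2 : i' < Nat.find hex := hi'
    rcases lt_trichotomy i i' with h3 | h3 | h3
    · exact absurd he (hne i i' h3 h2)
    · exact h3
    · exact absurd he.symm (hne i' i h3 h1)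

private lemma occ_rev (b a : ℕ → ℕ) (n : ℕ) (w : List ℕ) : w.reverse ∈ Occ a b n ↔ w ∈ Occ b a n := by
  constructor
  · rintro (⟨i, hi⟩ | ⟨j, hj⟩)
    · refine Or.inr ⟨i, ?_⟩
      unfold mir
      rw [hi, List.reverse_reverse]
    · refine Or.inl ⟨j, ?_⟩
      unfold mir at hj
      exact List.reverse_injective hj
  · rintro (⟨i, hi⟩ | ⟨j, hj⟩)
    · refine Or.inr ⟨i, ?_⟩
      unfold mir
      rw [hi]
    · refine Or.inl ⟨j, ?_⟩
      unfold mir at hj
      rw [← hj, List.reverse_reverse]

private lemma rec_rev (b a : ℕ → ℕ) (n : ℕ) (w : List ℕ) : w.reverse ∈ Rec a b n ↔ w ∈ Rec b a n := by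
  constructor
  · rintro (h | h)
    · refine Or.inr (h.mono fun i hi => ?_)
      unfold mir
      rw [hi, List.reverse_reverse]
    · refine Or.inl (h.mono fun j hj => ?_)
      unfold mir at hj
      exact List.reverse_injective hj
  · rintro (h | h)
    · refine Or.inr (h.mono fun i hi => ?_)
      unfold mir
      rw [hi]
    · refine Or.inl (h.mono fun j hj => ?_)
      unfold mir at hj
      rw [← hj, List.reverse_reverse]

private lemma tr_rev (b a : ℕ → ℕ) (n : ℕ) : Tr a b n = List.reverse '' Tr b a n := by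
  ext w
  constructor
  · intro hw
    refine ⟨w.reverse, ?_, List.reverse_reverse w⟩
    have h1 : w.reverse.reverse ∈ Occ a b n := by rw [List.reverse_reverse]; exact hw.1
    refine ⟨(occ_rev b a n _).mp h1, fun h2 => hw.2 ?_⟩
    have h3 := (rec_rev b a n _).mpr h2
    rw [List.reverse_reverse] at h3
    exact h3
  · rintro ⟨u, hu, rfl⟩
    exact ⟨(occ_rev b a n u).mpr hu.1, fun h2 => hu.2 ((rec_rev b a n u).mp h2)⟩

private lemma tr_rev_card (b a : ℕ → ℕ) (n : ℕ) : (Tr a b n).ncard = (Tr b a n).ncard := by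
  rw [tr_rev, Set.ncard_image_of_injective _ List.reverse_injective]

lemma transient {b a : ℕ → ℕ} {M : ℕ} (h : Bd b a M) (n : ℕ)
    (hc : (Tr b a (n + 1)).ncard ≤ (Tr b a n).ncard) :
    ∃ i0 j0 : ℕ, i0 + j0 ≤ (Tr b a n).ncard ∧ (∀ i, i0 ≤ i → win b i (n + 1) ∈ Rec b a (n + 1)) ∧
      ∀ j, j0 ≤ j → mir a j (n + 1) ∈ Rec b a (n + 1) := by
  classical
  obtain ⟨i0, hi1, hi2, hi3⟩ := tb h hc
  have h' : Bd a b M := ⟨h.2, h.1⟩
  have hc' : (Tr a b (n + 1)).ncard ≤ (Tr a b n).ncard := by
    rw [tr_rev_card b a, tr_rev_card b a]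
    exact hc
  obtain ⟨j0, hj1, hj2, hj3⟩ := tb h' hc'
  refine ⟨i0, j0, ?_, hi1, ?_⟩
  · have hj2' : ∀ j, j < j0 → mir a j n ∉ Rec b a n := by
      intro j hj hr
      apply hj2 j hj
      have h1 := (rec_rev b a n _).mpr hr
      unfold mir at h1
      rw [List.reverse_reverse] at h1
      exact h1
    have hj3' : Set.InjOn (fun j => mir a j n) (Set.Iio j0) := by
      intro j hj j' hj' he
      apply hj3 hj hj'
      have h1 : mir a j n = mir a j' n := he
      unfold mir at h1
      exact List.reverse_injective h1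
    have hA : ((fun i => win b i n) '' (Set.Iio i0)).ncard = i0 := by
      rw [Set.InjOn.ncard_image hi3, Set.ncard_eq_toFinset_card']
      simp
    have hB : ((fun j => mir a j n) '' (Set.Iio j0)).ncard = j0 := by
      rw [Set.InjOn.ncard_image hj3', Set.ncard_eq_toFinset_card']
      simp
    have hdis : Disjoint ((fun i => win b i n) '' (Set.Iio i0)) ((fun j => mir a j n) '' (Set.Iio j0)) := by
      rw [Set.disjoint_left]
      rintro w ⟨i, _, hi⟩ ⟨j, hj, hw⟩
      have h1 : win b i n = w := hi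
      have h2 : mir a j n = w := hw
      exact k3 h hc (hj2' j hj) (h1.trans h2.symm)
    have hsub : ((fun i => win b i n) '' (Set.Iio i0)) ∪ ((fun j => mir a j n) '' (Set.Iio j0)) ⊆ Tr b a n := by
      rintro w (⟨i, hi, hw⟩ | ⟨j, hj, hw⟩)
      · have h1 : win b i n = w := hw
        rw [← h1]
        exact ⟨Or.inl ⟨i, rfl⟩, hi2 i hi⟩
      · have h1 : mir a j n = w := hw
        rw [← h1]
        exact ⟨Or.inr ⟨j, rfl⟩, hj2' j hj⟩
    have hU := Set.ncard_le_ncard hsub (tr_fin h n)
    rw [Set.ncard_union_eq hdis ((Set.finite_Iio i0).image _) ((Set.finite_Iio j0).image _), hA, hB] at hU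
    exact hU
  · intro j hj
    have h1 := hj1 j hj
    rw [← List.reverse_reverse (win a j (n + 1)), rec_rev] at h1
    exact h1

end Pool.Agent.H2.MC
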