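import Mathlib
import Pool.Agent.H2.MC.EvP

set_option autoImplicit false

/-!
# Module Uni (130 lines): at a scale of slope one the two sequences have the same recurrent words

Assume `b`, `a` bounded, not eventually periodic, and `ncard (Rec b a (n+1)) ≤ ncard (Rec b a n) + 1`.

PROOF. By `evPer_of_card` and `Lang.right_special` there are `R` and `e1 ≠ e2` with `R ++ [e1], R ++ [e2] ∈ RecB b (n+1)`,
and likewise `R'`, `e1' ≠ e2'` with `R' ++ [e1'], R' ++ [e2'] ∈ RecA a (n+1)`. All four are in `Rec b a (n+1)`, so by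
`Lang.uniq_right` (for `Rec b a`) `R' = R`, and by `Lang.two_right` every `e` with `R ++ [e] ∈ Rec b a (n+1)` is `e1` or `e2`
(three pairwise different extensions are impossible), in particular `{e1', e2'} = {e1, e2}`: all right extensions of
`R` in `Rec` are in `RecB` and in `RecA`. This is `uni_special`.

`uni`: claim `RecA a (n+1) ⊆ RecB b (n+1)`. Let `v ∈ RecA a (n+1)`. Take `N` with `mir a t (n+1) ∈ Rec b a (n+1)` for
`t ≥ N` (`ev_RecA`), `j ≥ N` with `mir a j (n+1) = v` and then `j' > j` with `mir a j' n = R` (`R ∈ RecA a n` as a prefix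
of `R ++ [e1'] ∈ RecA a (n+1)`). We show by downward induction on `t` from `j' - 1` to `j` that
`mir a t (n+1) ∈ RecB b (n+1)`: its prefix is `p = mir a (t+1) n` (`mir_succ'`: `mir a t (n+1) = mir a (t+1) n ++ [a t]`);
`p ∈ RecB b n`: for `t = j'-1` it is `R ∈ RecB b n`, otherwise it is the suffix of `mir a (t+1) (n+1) ∈ RecB b (n+1)`
(`mir_succ`). If `p = R` then `mir a t (n+1) = R ++ [a t] ∈ Rec b a (n+1)` so it is in `RecB b (n+1)` by `uni_special`. If
`p ≠ R`: `p` has a right extension `p ++ [e] ∈ RecB b (n+1)` (`lang_RecB.exr`), and `p ++ [a t] ∈ Rec b a (n+1)`, so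
`e = a t` by `Lang.uniq_right`.
`RecB b (n+1) ⊆ RecA a (n+1)`: the same with `win b t (n+1) = win b t n ++ [b (t+n)]`: go up from an occurrence
`i' ≥ N` of `R` to an occurrence `i > i'` of `v`.
Since `Rec = RecB ∪ RecA`, both are equal to `Rec b a (n+1)`.
`recEq`: if there are infinitely many such `n` then for every `m`: take such an `n ≥ m`; `w ∈ Rec b a m` is a prefix
of some `w ++ v ∈ Rec b a (n+1)` (`Lang.extend_right`), which is in `RecB b (n+1)` and in `RecA a (n+1)`, hence `w` is in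
`RecB b m` and in `RecA a m` (`Lang.take_mem`).
-/

namespace Pool.Agent.H2.MC

open Filter

lemma uni_special {b a : ℕ → ℕ} {M : ℕ} (h : Bd b a M) (hb : ¬ EvPer b) (ha : ¬ EvPer a) (n : ℕ)
    (hc : (Rec b a (n + 1)).ncard ≤ (Rec b a n).ncard + 1) :
    ∃ (R : List ℕ) (e1 e2 : ℕ), e1 ≠ e2 ∧ R ++ [e1] ∈ RecB b (n + 1) ∧ R ++ [e2] ∈ RecB b (n + 1) ∧
      ∀ e, R ++ [e] ∈ Rec b a (n + 1) → R ++ [e] ∈ RecB b (n + 1) ∧ R ++ [e] ∈ RecA a (n + 1) := by
  have hB : (RecB b n).ncard < (RecB b (n + 1)).ncard := by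
    by_contra hcon
    exact hb (evPer_of_card h.1 n (not_lt.1 hcon))
  have hA : (RecA a n).ncard < (RecA a (n + 1)).ncard := by
    by_contra hcon
    exact ha (evPer_of_cardA h.2 n (not_lt.1 hcon))
  obtain ⟨R, e1, e2, he, h1, h2⟩ := (lang_RecB h.1).right_special n hB
  obtain ⟨R', e1', e2', he', h1', h2'⟩ := (lang_RecA h.2).right_special n hA
  have hL := lang_Rec h
  have hRR : R' = R := by
    by_contra hne
    exact he' (hL.uniq_right n hc he (Or.inl h1) (Or.inl h2) R' e1' e2' hne (Or.inr h1') (Or.inr h2'))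
  subst hRR
  refine ⟨R', e1, e2, he, h1, h2, fun e hm => ⟨?_, ?_⟩⟩
  · rcases hL.two_right n hc (Or.inl h1) (Or.inl h2) hm with h3 | h3 | h3
    · exact absurd h3 he
    · rw [← h3]; exact h1
    · rw [← h3]; exact h2
  · rcases hL.two_right n hc (Or.inr h1') (Or.inr h2') hm with h3 | h3 | h3
    · exact absurd h3 he'
    · rw [← h3]; exact h1'
    · rw [← h3]; exact h2'

lemma uni {b a : ℕ → ℕ} {M : ℕ} (h : Bd b a M) (hb : ¬ EvPer b) (ha : ¬ EvPer a) (n : ℕ)
    (hc : (Rec b a (n + 1)).ncard ≤ (Rec b a n).ncard + 1) :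
    RecB b (n + 1) = Rec b a (n + 1) ∧ RecA a (n + 1) = Rec b a (n + 1) := by
  obtain ⟨R, e1, e2, he, h1, h2, hR⟩ := uni_special h hb ha n hc
  have hL := lang_Rec h
  have hLB := lang_RecB h.1
  have hLA := lang_RecA h.2
  have huq := hL.uniq_right n hc he (Or.inl h1) (Or.inl h2)
  have hRA : R ∈ RecA a n := hLA.pre n R e1 (hR e1 (Or.inl h1)).2
  have hRB : R ∈ RecB b n := hLB.pre n R e1 h1
  have c1 : RecA a (n + 1) ⊆ RecB b (n + 1) := by
    intro v hv
    obtain ⟨N, hN⟩ := ev_RecA h.2 (n + 1)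
    obtain ⟨j, hj, hjv⟩ := (frequently_atTop.1 hv) N
    obtain ⟨j', hj', hjR⟩ := (frequently_atTop.1 hRA) (j + 1)
    have key : ∀ s t : ℕ, t + s + 1 = j' → N ≤ t → mir a t (n + 1) ∈ RecB b (n + 1) := by
      intro s
      induction s with
      | zero =>
        intro t ht hNt
        have h3 : mir a t (n + 1) ∈ RecA a (n + 1) := hN t hNt
        have h4 : mir a (t + 1) n = R := by rw [← hjR]; congr 1
        rw [mir_succ', h4] at h3 ⊢
        exact (hR _ (Or.inr h3)).1
      | succ s ih =>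
        intro t ht hNt
        have h3 : mir a t (n + 1) ∈ RecA a (n + 1) := hN t hNt
        have h5 := ih (t + 1) (by omega) (by omega)
        rw [mir_succ] at h5
        have h6 := hLB.suf n _ _ h5
        rw [mir_succ'] at h3 ⊢
        by_cases hp : mir a (t + 1) n = R
        · rw [hp] at h3 ⊢
          exact (hR _ (Or.inr h3)).1
        · obtain ⟨e, hee⟩ := hLB.exr n _ h6
          rw [← huq _ e (a t) hp (Or.inl hee) (Or.inr h3)]
          exact hee
    have h7 := key (j' - 1 - j) j (by omega) hj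
    rwa [hjv] at h7
  have c2 : RecB b (n + 1) ⊆ RecA a (n + 1) := by
    intro v hv
    obtain ⟨N, hN⟩ := ev_RecB h.1 (n + 1)
    obtain ⟨i', hi', hiR⟩ := (frequently_atTop.1 hRB) N
    obtain ⟨i, hi, hiv⟩ := (frequently_atTop.1 hv) i'
    have key : ∀ s : ℕ, win b (i' + s) (n + 1) ∈ RecA a (n + 1) := by
      intro s
      induction s with
      | zero =>
        have h3 : win b (i' + 0) (n + 1) ∈ RecB b (n + 1) := hN _ (by omega)
        have e00 : i' + 0 = i' := rfl
        rw [e00, win_succ, hiR] at h3 ⊢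
        exact (hR _ (Or.inl h3)).2
      | succ s ih =>
        have h3 : win b (i' + (s + 1)) (n + 1) ∈ RecB b (n + 1) := hN _ (by omega)
        rw [win_succ'] at ih
        have h6 := hLA.suf n _ _ ih
        have e0 : i' + s + 1 = i' + (s + 1) := by omega
        rw [e0] at h6
        rw [win_succ] at h3 ⊢
        by_cases hp : win b (i' + (s + 1)) n = R
        · rw [hp] at h3 ⊢
          exact (hR _ (Or.inl h3)).2
        · obtain ⟨e, hee⟩ := hLA.exr n _ h6
          rw [← huq _ e _ hp (Or.inr hee) (Or.inl h3)]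
          exact hee
    have h7 := key (i - i')
    have e1 : i' + (i - i') = i := by omega
    rwa [e1, hiv] at h7
  rw [Rec_eq_union]
  exact ⟨(Set.union_eq_self_of_subset_right c1).symm, (Set.union_eq_self_of_subset_left c2).symm⟩

lemma recEq {b a : ℕ → ℕ} {M : ℕ} (h : Bd b a M) (hb : ¬ EvPer b) (ha : ¬ EvPer a)
    (hc : ∃ᶠ n in atTop, (Rec b a (n + 1)).ncard ≤ (Rec b a n).ncard + 1) (m : ℕ) :
    RecB b m = Rec b a m ∧ RecA a m = Rec b a m := by
  obtain ⟨n, hn, hcn⟩ := (frequently_atTop.1 hc) m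
  obtain ⟨u1, u2⟩ := uni h hb ha n hcn
  have hL := lang_Rec h
  obtain ⟨k, hk⟩ : ∃ k, n + 1 = m + k := ⟨n + 1 - m, by omega⟩
  rw [hk] at u1 u2
  have htk : ∀ w v : List ℕ, w ∈ Rec b a m → (w ++ v).take m = w := by
    intro w v hw
    have hlen := hL.len m w hw
    rw [List.take_append_of_le_length (by rw [hlen]), List.take_of_length_le (by rw [hlen])]
  constructor
  · apply Set.Subset.antisymm
    · exact fun w hw => Or.inl hw
    · intro w hw
      obtain ⟨v, -, hv⟩ := hL.extend_right hw k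
      rw [← u1] at hv
      have h8 := (lang_RecB h.1).take_mem hv
      rwa [htk w v hw] at h8
  · apply Set.Subset.antisymm
    · exact fun w hw => Or.inr hw
    · intro w hw
      obtain ⟨v, -, hv⟩ := hL.extend_right hw k
      rw [← u2] at hv
      have h8 := (lang_RecA h.2).take_mem hv
      rwa [htk w v hw] at h8

end Pool.Agent.H2.MC
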