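import Mathlib
import Pool.Agent.H2.MC.Uni
import Pool.Agent.H2.MC.Tran
import Pool.Agent.H2.MC.Climb
import Pool.Agent.H2.MC.Arc

set_option autoImplicit false

/-!
# Module Comb (150 lines): the combinatorial theorem

Put `W n = ncard (Rec b a n) + 2 * ncard (Tr b a n)`. As `Occ` is the disjoint union of `Rec` and `Tr` (finite sets, `Occ_finite`),
`W n = 2 * ncard (Occ b a n) - ncard (Rec b a n)`.

`good_scale`: if `W n ≤ κ n` for infinitely many `n` and `κ < 2` then for infinitely many `m`: `W (m+1) ≤ W m + 1` and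
`W m ≤ κ m + 1`. PROOF (`W : ℕ → ℕ` arbitrary). Given `M0`; take `n` with `W n ≤ κ n`, `n` so large that `(2-κ) n > 2 M0 + 2`
(and `n ≥ M0`). Let `m < n` be the largest `m < n` with `W (m+1) ≤ W m + 1`: it exists, otherwise `W n ≥ W 0 + 2 n ≥ 2n > κ n`
(for `n ≥ 1`). Then `W (m'+1) ≥ W m' + 2` for `m < m' < n`, so `W n ≥ W (m+1) + 2 (n-m-1)`, `W (m+1) ≤ κ n - 2 (n-m-1)
= 2 (m+1) - (2-κ) n`. Also `W (m+1) ≥ 0` gives `2 (m+1) ≥ (2-κ) n > 2 M0 + 2`, so `m > M0`. We need `W m ≤ W (m+1)` (hypothesis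
`hmono`; true by `tr_mono` and `Lang.card_mono`) hence `W m ≤ 2 m + 2 - (2-κ) n ≤ 2 m + 2 - (2-κ)(m+1) = κ m + κ`, so
`W m ≤ κ m + 2`. (We only claim `W m ≤ κ m + 2`.)

`scale_one`: at such an `m` (`W (m+1) ≤ W m + 1`): `ncard Tr (m+1) ≥ ncard Tr m` (`tr_mono`), `ncard Rec (m+1) ≥ ncard Rec m + 1`
(`uni`-free argument: if `ncard Rec (m+1) ≤ ncard Rec m`, then `Rec` has no word with two right extensions, but `RecB b`
has one by `evPer_of_card` and `Lang.right_special`, contradiction: `two distinct extensions in RecB ⊆ Rec`, and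
then the surjection dropLast is not injective, so `ncard Rec (m+1) > ncard Rec m`). So `ncard Tr (m+1) = ncard Tr m` and
`ncard Rec (m+1) = ncard Rec m + 1`.

`comb`: for such `m`: `uni_special` gives `R, e1, e2`, `transient` gives `i0, j0` with `i0 + j0 ≤ ncard (Tr b a m)`; so
`St b a m i0 j0 R` (`uniq` by `Lang.uniq_right`). `climb_end` gives `n ≥ m`, `R'`, and `Lang.uniq_left` gives `ul`; `recEq` gives
`hw`. `arc` gives `i, j, l` with `2 (i+j+(n-l)) ≤ 2 (i0+j0) + ncard (Rec b a n) + 1 ≤ 2 ncard (Tr b a m) + ncard (Rec b a m) +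
(n-m) + 1 = W m + (n-m) + 1 ≤ κ m + 3 + (n-m) ≤ κ n + 3` if `κ ≥ 1`. Indeed `κ ≥ 1`: `ncard (Rec b a n) ≥ n + 1` for all `n`
by the slope, and `W n ≤ κ n` for some `n ≥ 1` gives `κ ≥ 1`.
-/

namespace Pool.Agent.H2.MC

open Filter

lemma good_scale {W : ℕ → ℕ} (hmono : ∀ n, W n ≤ W (n + 1)) {κ : ℝ} (hκ : κ < 2)
    (h : ∃ᶠ n : ℕ in atTop, (W n : ℝ) ≤ κ * n) :
    ∃ᶠ m : ℕ in atTop, W (m + 1) ≤ W m + 1 ∧ (W m : ℝ) ≤ κ * m + 2 := by
  rw [frequently_atTop]
  intro M0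
  by_contra hcon
  push Not at hcon
  have hk : 0 < 2 - κ := by linarith
  obtain ⟨n, hn, hWn⟩ := frequently_atTop.1 h (M0 + (⌈(2 * (M0 : ℝ)) / (2 - κ)⌉₊ + 1))
  have hnM : M0 ≤ n := by omega
  have hn1 : (2 * (M0 : ℝ)) / (2 - κ) < n := by
    have h1 : (2 * (M0 : ℝ)) / (2 - κ) ≤ (⌈(2 * (M0 : ℝ)) / (2 - κ)⌉₊ : ℝ) := Nat.le_ceil _
    have h2 : ((M0 + (⌈(2 * (M0 : ℝ)) / (2 - κ)⌉₊ + 1) : ℕ) : ℝ) ≤ (n : ℝ) := by exact_mod_cast hn
    push_cast at h2
    have h3 : (0 : ℝ) ≤ M0 := Nat.cast_nonneg _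
    linarith
  rw [div_lt_iff₀ hk] at hn1
  have key : ∀ t : ℕ, M0 + t ≤ n → (W (n - t) : ℝ) ≤ κ * n - 2 * t := by
    intro t
    induction t with
    | zero =>
      intro _
      simpa using hWn
    | succ t ih =>
      intro ht
      have ih1 := ih (by omega)
      have hj : n - t = (n - (t + 1)) + 1 := by omega
      rw [hj] at ih1
      have hmon := hmono (n - (t + 1))
      by_cases hs : W (n - (t + 1) + 1) ≤ W (n - (t + 1)) + 1
      · exfalso
        have h1 := hcon (n - (t + 1)) (by omega) hs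
        have h2 : (W (n - (t + 1)) : ℝ) ≤ W (n - (t + 1) + 1) := by exact_mod_cast hmon
        have h3 : ((n - (t + 1) : ℕ) : ℝ) = (n : ℝ) - (t + 1) := by
          rw [Nat.cast_sub (by omega)]
          push_cast
          ring
        rw [h3] at h1
        have h4 : (0 : ℝ) ≤ t := Nat.cast_nonneg _
        have h5 : κ * n - 2 * t ≤ κ * ((n : ℝ) - (t + 1)) + 2 := by
          have h6 : κ * (t : ℝ) ≤ 2 * t := mul_le_mul_of_nonneg_right hκ.le h4
          nlinarith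
        linarith
      · have h1 : (W (n - (t + 1)) : ℝ) + 2 ≤ W (n - (t + 1) + 1) := by
          have : W (n - (t + 1)) + 2 ≤ W (n - (t + 1) + 1) := by omega
          exact_mod_cast this
        push_cast
        linarith
  have h1 := key (n - M0) (by omega)
  have h2 : ((n - M0 : ℕ) : ℝ) = (n : ℝ) - M0 := Nat.cast_sub hnM
  rw [h2] at h1
  have h3 : (0 : ℝ) ≤ W (n - (n - M0)) := Nat.cast_nonneg _
  nlinarith

lemma rec_slope {b a : ℕ → ℕ} {M : ℕ} (h : Bd b a M) (hb : ¬ EvPer b) (n : ℕ) :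
    (Rec b a n).ncard + 1 ≤ (Rec b a (n + 1)).ncard := by
  have hF := lang_Rec h
  have hB := lang_RecB h.1
  have hlt : (RecB b n).ncard < (RecB b (n + 1)).ncard := by
    by_contra hcon
    exact hb (evPer_of_card h.1 n (not_lt.1 hcon))
  obtain ⟨w, e, e', he, h1, h2⟩ := hB.right_special n hlt
  have h1' : w ++ [e] ∈ Rec b a (n + 1) := Or.inl h1
  have h2' : w ++ [e'] ∈ Rec b a (n + 1) := Or.inl h2
  have hsub : Rec b a n ⊆ List.dropLast '' (Rec b a (n + 1) \ {w ++ [e]}) := by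
    intro u hu
    obtain ⟨f, hf⟩ := hF.exr n u hu
    by_cases hc : u ++ [f] = w ++ [e]
    · obtain ⟨huw, _⟩ := append_singleton_inj.1 hc
      refine ⟨w ++ [e'], ⟨h2', ?_⟩, ?_⟩
      · intro hm
        have hm' : w ++ [e'] = w ++ [e] := hm
        exact he (append_singleton_inj.1 hm').2.symm
      · rw [huw]
        simp
    · refine ⟨u ++ [f], ⟨hf, hc⟩, ?_⟩
      simp
  have hfin : (Rec b a (n + 1) \ {w ++ [e]}).Finite := (hF.fin (n + 1)).subset Set.sdiff_subset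
  have h3 : (Rec b a n).ncard ≤ (Rec b a (n + 1) \ {w ++ [e]}).ncard :=
    (Set.ncard_le_ncard hsub (hfin.image _)).trans (Set.ncard_image_le hfin)
  have h4 : (Rec b a (n + 1) \ {w ++ [e]}).ncard + 1 = (Rec b a (n + 1)).ncard :=
    Set.ncard_sdiff_singleton_add_one h1' (hF.fin (n + 1))
  omega

lemma occ_card {b a : ℕ → ℕ} {M : ℕ} (h : Bd b a M) (n : ℕ) :
    (Occ b a n).ncard = (Rec b a n).ncard + (Tr b a n).ncard := by
  have h1 := Set.ncard_sdiff_add_ncard_of_subset (Rec_subset_Occ b a n) (Occ_finite h n)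
  unfold Tr
  omega

/-- The frequent scales of slope one. -/
lemma freq_slope {b a : ℕ → ℕ} {M : ℕ} (h : Bd b a M) (hb : ¬ EvPer b) {κ : ℝ} (hκ : κ < 2)
    (hc : ∃ᶠ n : ℕ in atTop, 2 * ((Occ b a n).ncard : ℝ) ≤ κ * n + (Rec b a n).ncard) :
    ∃ᶠ m : ℕ in atTop, (Rec b a (m + 1)).ncard ≤ (Rec b a m).ncard + 1 ∧
      (Tr b a (m + 1)).ncard ≤ (Tr b a m).ncard ∧
      ((Rec b a m).ncard : ℝ) + 2 * (Tr b a m).ncard ≤ κ * m + 2 := by
  have hF := lang_Rec h
  have hmono : ∀ n, (Rec b a n).ncard + 2 * (Tr b a n).ncard ≤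
      (Rec b a (n + 1)).ncard + 2 * (Tr b a (n + 1)).ncard := by
    intro n
    have h1 := hF.card_mono n
    have h2 := tr_mono h n
    omega
  have hW : ∃ᶠ n : ℕ in atTop,
      (((fun n => (Rec b a n).ncard + 2 * (Tr b a n).ncard) n : ℕ) : ℝ) ≤ κ * n := by
    apply hc.mono
    intro n hn
    have h1 := occ_card h n
    rw [h1] at hn
    push_cast at hn ⊢
    linarith
  apply (good_scale (W := fun n => (Rec b a n).ncard + 2 * (Tr b a n).ncard) hmono hκ hW).mono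
  rintro m ⟨h1, h2⟩
  have h3 := rec_slope h hb m
  have h4 := tr_mono h m
  refine ⟨by omega, by omega, ?_⟩
  push_cast at h2
  exact h2

theorem comb {b a : ℕ → ℕ} {M : ℕ} (h : Bd b a M) (hb : ¬ EvPer b) (ha : ¬ EvPer a) {κ : ℝ} (hκ : κ < 2)
    (hc : ∃ᶠ n : ℕ in atTop, 2 * ((Occ b a n).ncard : ℝ) ≤ κ * n + (Rec b a n).ncard) :
    ∃ᶠ n : ℕ in atTop, ∃ i j l : ℕ, l ≤ n ∧ win b i l = mir a j l ∧
      2 * ((i : ℝ) + j + ((n : ℝ) - l)) ≤ κ * n + 3 := by
  have hF := lang_Rec h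
  have hfs := freq_slope h hb hκ hc
  have hrec := recEq h hb ha (hfs.mono fun m hm => hm.1)
  have hlow : ∀ n, n ≤ (Rec b a n).ncard := by
    intro n
    induction n with
    | zero => exact Nat.zero_le _
    | succ n ih =>
      have h1 := rec_slope h hb n
      omega
  have hk1 : 1 ≤ κ := by
    obtain ⟨n, hn, hn2⟩ := frequently_atTop.1 hc 1
    have h1 := occ_card h n
    rw [h1] at hn2
    push_cast at hn2
    have h2 : (n : ℝ) ≤ (Rec b a n).ncard := by exact_mod_cast hlow n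
    have h3 : (0 : ℝ) ≤ (Tr b a n).ncard := Nat.cast_nonneg _
    have h4 : (1 : ℝ) ≤ n := by exact_mod_cast hn
    by_contra hcon
    have h5 : κ < 1 := not_le.1 hcon
    have h6 : κ * n < 1 * n := mul_lt_mul_of_pos_right h5 (by linarith)
    linarith
  rw [frequently_atTop]
  intro N0
  obtain ⟨m, hm, h1, h2, h3⟩ := frequently_atTop.1 hfs N0
  obtain ⟨R, e1, e2, he, hR1, hR2, _⟩ := uni_special h hb ha m h1
  obtain ⟨i0, j0, hij, tb, ta⟩ := transient h m h2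
  have hs : St b a m i0 j0 R :=
    ⟨hF.pre m R e1 (Or.inl hR1), hF.uniq_right m h1 he (Or.inl hR1) (Or.inl hR2), h1, tb, ta⟩
  obtain ⟨n, R', y, y', hmn, hs', hy, hy1, hy2, hcard⟩ := climb_end h hs he hR1 hR2
  have ul := hF.uniq_left n hs'.card hy hy1 hy2
  have hw : ∀ w ∈ Rec b a n, ∃ᶠ i in atTop, win b i n = w := by
    intro w hw
    rw [← (hrec n).1] at hw
    exact hw
  obtain ⟨i, j, l, hl, hwm, hcost⟩ := arc hF hs' ul hw
  refine ⟨n, le_trans hm hmn, i, j, l, hl, hwm, ?_⟩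
  have h4 : 2 * (i + j + (n - l)) ≤ 2 * (Tr b a m).ncard + (Rec b a m).ncard + (n - m) + 1 := by
    omega
  have h5 : ((2 * (i + j + (n - l)) : ℕ) : ℝ) ≤
      ((2 * (Tr b a m).ncard + (Rec b a m).ncard + (n - m) + 1 : ℕ) : ℝ) := by exact_mod_cast h4
  push_cast [Nat.cast_sub hl, Nat.cast_sub hmn] at h5
  have h6 : (0 : ℝ) ≤ (n : ℝ) - m := by
    have : (m : ℝ) ≤ n := by exact_mod_cast hmn
    linarith
  have h7 : (1 : ℝ) * ((n : ℝ) - m) ≤ κ * ((n : ℝ) - m) := mul_le_mul_of_nonneg_right hk1 h6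
  nlinarith

end Pool.Agent.H2.MC
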