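import Mathlib
import Pool.Agent.H2.MC.Comb

set_option autoImplicit false

/-!
# Module CombF (110 lines): the combinatorial theorem, fine form

`arc_fine` is proved in Arc.lean by helper95. `freq_slope_w` is the generalisation of `freq_slope` to a weight `w ≥ 2`.

`freq_slope_w`: put `W n = ncard (Rec b a n) + w * ncard (Tr b a n)` (real). By `rec_slope` `Rec` grows by at least 1 at every step
and `Tr` does not decrease (`tr_mono`), so if `W (m+1) < W m + 2` then `Rec` grows by exactly 1 and `Tr` does not grow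
(otherwise the growth is at least `2` or at least `1 + w ≥ 3`). Given `M0` take `n` with `W n ≤ κ n`, `(2-κ) n > 2 M0 + 2`, `n ≥ M0`,
`n ≥ 1`, and the largest `m < n` with `W (m+1) < W m + 2` (exists, otherwise `W n ≥ 2 n > κ n`). Then `W n ≥ W (m+1) + 2 (n-m-1)`, so
`W (m+1) ≤ 2 (m+1) - (2-κ) n`. It is `≥ 0`, so `m + 1 > M0 + 1`; and `W m ≤ W (m+1) ≤ 2 (m+1) - (2-κ)(m+1) = κ (m+1) ≤ κ m + 2`.

`comb_fine`: as `comb` in Comb.lean: for `m` from `freq_slope_w` take `R, e1, e2` from `uni_special`, `i0, j0` from `transient`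
(`i0 + j0 ≤ k := ncard (Tr b a m)`), the state, `climb_end`, `Lang.uniq_left`, `recEq`, and then `arc_fine` instead of `arc`:
`T ≤ ncard (Rec b a n) + 1 ≤ ncard (Rec b a m) + (n-m) + 1`, so `T + w k ≤ κ m + 2 + (n-m) + 1 ≤ κ n + 3` as `κ ≥ 1`
(`κ ≥ 1` since `ncard (Rec b a n) ≥ n` for all `n`, `rec_slope`).
-/

namespace Pool.Agent.H2.MC

open Filter

lemma good_scale_real {W : ℕ → ℝ} (hmono : ∀ n, W n ≤ W (n + 1)) (h0 : ∀ n, 0 ≤ W n) {κ : ℝ} (hκ : κ < 2)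
    (h : ∃ᶠ n : ℕ in atTop, W n ≤ κ * n) :
    ∃ᶠ m : ℕ in atTop, W (m + 1) < W m + 2 ∧ W m ≤ κ * m + 2 := by
  rw [frequently_atTop]
  intro M0
  by_contra hcon
  push Not at hcon
  have hk : 0 < 2 - κ := by linarith
  obtain ⟨n, hn, hWn⟩ := frequently_atTop.1 h (M0 + (⌈(2 * (M0 : ℝ)) / (2 - κ)⌉₊ + 1))
  have hnM : M0 ≤ n := by omega
  have hn1 : (2 * (M0 : ℝ)) / (2 - κ) < n := by
    have h1 : (2 * (M0 : ℝ)) / (2 - κ) ≤ (⌈(2 * (M0 : ℝ)) / (2 - κ)⌉₊ : ℝ) := Nat.le_ceil _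
    have h2 : ((M0 + (⌈(2 * (M0 : ℝ)) / (2 - κ)⌉₊ + 1) : ℕ) : ℝ) ≤ (n : ℝ) := by exact_mod_cast hn
    push_cast at h2
    have h3 : (0 : ℝ) ≤ M0 := Nat.cast_nonneg _
    linarith
  rw [div_lt_iff₀ hk] at hn1
  have key : ∀ t : ℕ, M0 + t ≤ n → W (n - t) ≤ κ * n - 2 * t := by
    intro t
    induction t with
    | zero =>
      intro _
      simpa using hWn
    | succ t ih =>
      intro ht
      have ih1 := ih (by omega)
      have hj : n - t = (n - (t + 1)) + 1 := by omega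
      rw [hj] at ih1
      have hmon := hmono (n - (t + 1))
      by_cases hs : W (n - (t + 1) + 1) < W (n - (t + 1)) + 2
      · exfalso
        have h1 := hcon (n - (t + 1)) (by omega) hs
        have h3 : ((n - (t + 1) : ℕ) : ℝ) = (n : ℝ) - (t + 1) := by
          rw [Nat.cast_sub (by omega)]
          push_cast
          ring
        rw [h3] at h1
        have h4 : (0 : ℝ) ≤ t := Nat.cast_nonneg _
        have h5 : κ * n - 2 * t ≤ κ * ((n : ℝ) - (t + 1)) + 2 := by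
          have h6 : κ * (t : ℝ) ≤ 2 * t := mul_le_mul_of_nonneg_right hκ.le h4
          nlinarith
        linarith
      · rw [not_lt] at hs
        push_cast
        linarith
  have h1 := key (n - M0) (by omega)
  have h2 : ((n - M0 : ℕ) : ℝ) = (n : ℝ) - M0 := Nat.cast_sub hnM
  rw [h2] at h1
  have h3 : (0 : ℝ) ≤ W (n - (n - M0)) := h0 _
  nlinarith

lemma freq_slope_w {b a : ℕ → ℕ} {M : ℕ} (h : Bd b a M) (hb : ¬ EvPer b) {κ w : ℝ} (hκ : κ < 2) (hw : 2 ≤ w)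
    (hc : ∃ᶠ n : ℕ in atTop, ((Rec b a n).ncard : ℝ) + w * (Tr b a n).ncard ≤ κ * n) :
    ∃ᶠ m : ℕ in atTop, (Rec b a (m + 1)).ncard ≤ (Rec b a m).ncard + 1 ∧
      (Tr b a (m + 1)).ncard ≤ (Tr b a m).ncard ∧
      ((Rec b a m).ncard : ℝ) + w * (Tr b a m).ncard ≤ κ * m + 2 := by
  have hw0 : 0 ≤ w := by linarith
  have hmono : ∀ n, ((Rec b a n).ncard : ℝ) + w * (Tr b a n).ncard ≤
      ((Rec b a (n + 1)).ncard : ℝ) + w * (Tr b a (n + 1)).ncard := by
    intro n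
    have h1 : ((Rec b a n).ncard : ℝ) ≤ ((Rec b a (n + 1)).ncard : ℝ) := by
      exact_mod_cast (lang_Rec h).card_mono n
    have h2 : ((Tr b a n).ncard : ℝ) ≤ ((Tr b a (n + 1)).ncard : ℝ) := by
      exact_mod_cast tr_mono h n
    have h3 := mul_le_mul_of_nonneg_left h2 hw0
    linarith
  apply (good_scale_real (W := fun n => ((Rec b a n).ncard : ℝ) + w * (Tr b a n).ncard) hmono
    (fun n => by positivity) hκ hc).mono
  rintro m ⟨h1, h2⟩
  have h3 : ((Rec b a m).ncard : ℝ) + 1 ≤ ((Rec b a (m + 1)).ncard : ℝ) := by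
    exact_mod_cast rec_slope h hb m
  have h4 : ((Tr b a m).ncard : ℝ) ≤ ((Tr b a (m + 1)).ncard : ℝ) := by
    exact_mod_cast tr_mono h m
  refine ⟨?_, ?_, h2⟩
  · by_contra hcon
    have h5 : ((Rec b a m).ncard : ℝ) + 2 ≤ ((Rec b a (m + 1)).ncard : ℝ) := by
      have : (Rec b a m).ncard + 2 ≤ (Rec b a (m + 1)).ncard := by omega
      exact_mod_cast this
    have h6 := mul_le_mul_of_nonneg_left h4 hw0
    linarith
  · by_contra hcon
    have h5 : ((Tr b a m).ncard : ℝ) + 1 ≤ ((Tr b a (m + 1)).ncard : ℝ) := by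
      have : (Tr b a m).ncard + 1 ≤ (Tr b a (m + 1)).ncard := by omega
      exact_mod_cast this
    have h6 := mul_le_mul_of_nonneg_left h5 hw0
    nlinarith

theorem comb_fine {b a : ℕ → ℕ} {M : ℕ} (h : Bd b a M) (hb : ¬ EvPer b) (ha : ¬ EvPer a) {κ w : ℝ} (hκ : κ < 2)
    (hw : 2 ≤ w) (hc : ∃ᶠ n : ℕ in atTop, ((Rec b a n).ncard : ℝ) + w * (Tr b a n).ncard ≤ κ * n) :
    ∃ᶠ n : ℕ in atTop, ∃ k d T i0 j0 i j : ℕ, (T : ℝ) + w * k ≤ κ * n + 3 ∧ i0 + j0 ≤ k ∧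
      win b i0 (n - d) = mir a j0 (n - d) ∧ win b i n = mir a j n ∧ i + j + d ≤ i0 + j0 + T := by
  have hF := lang_Rec h
  have hfs := freq_slope_w h hb hκ hw hc
  have hrec := recEq h hb ha (hfs.mono fun m hm => hm.1)
  have hlow : ∀ n, n ≤ (Rec b a n).ncard := by
    intro n
    induction n with
    | zero => exact Nat.zero_le _
    | succ n ih =>
      have h1 := rec_slope h hb n
      omega
  have hk1 : 1 ≤ κ := by
    obtain ⟨n, hn, hn2⟩ := frequently_atTop.1 hc 1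
    have h2 : (n : ℝ) ≤ (Rec b a n).ncard := by exact_mod_cast hlow n
    have h3 : (0 : ℝ) ≤ w * (Tr b a n).ncard := by positivity
    have h4 : (1 : ℝ) ≤ n := by exact_mod_cast hn
    by_contra hcon
    have h5 : κ < 1 := not_le.1 hcon
    have h6 : κ * n < 1 * n := mul_lt_mul_of_pos_right h5 (by linarith)
    linarith
  rw [frequently_atTop]
  intro N0
  obtain ⟨m, hm, h1, h2, h3⟩ := frequently_atTop.1 hfs N0
  obtain ⟨R, e1, e2, he, hR1, hR2, _⟩ := uni_special h hb ha m h1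
  obtain ⟨i0, j0, hij, tb, ta⟩ := transient h m h2
  have hs : St b a m i0 j0 R :=
    ⟨hF.pre m R e1 (Or.inl hR1), hF.uniq_right m h1 he (Or.inl hR1) (Or.inl hR2), h1, tb, ta⟩
  obtain ⟨n, R', y, y', hmn, hs', hy, hy1, hy2, hcard⟩ := climb_end h hs he hR1 hR2
  have ul := hF.uniq_left n hs'.card hy hy1 hy2
  have hw' : ∀ w ∈ Rec b a n, ∃ᶠ i in atTop, win b i n = w := by
    intro w hw
    rw [← (hrec n).1] at hw
    exact hw
  obtain ⟨d, T, i, j, hT, hw0, hw1, hcost⟩ := arc_fine hF hs' ul hw'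
  refine ⟨n, le_trans hm hmn, (Tr b a m).ncard, d, T, i0, j0, i, j, ?_, hij, hw0, hw1, hcost⟩
  have h4 : T ≤ (Rec b a m).ncard + (n - m) + 1 := by omega
  have h5 : (T : ℝ) ≤ (((Rec b a m).ncard + (n - m) + 1 : ℕ) : ℝ) := by exact_mod_cast h4
  push_cast [Nat.cast_sub hmn] at h5
  have h6 : (0 : ℝ) ≤ (n : ℝ) - m := by
    have : (m : ℝ) ≤ n := by exact_mod_cast hmn
    linarith
  have h7 : (1 : ℝ) * ((n : ℝ) - m) ≤ κ * ((n : ℝ) - m) := mul_le_mul_of_nonneg_right hk1 h6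
  nlinarith

end Pool.Agent.H2.MC
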