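import Mathlib
import Pool.Agent.H2.MC.Words
import Pool.Agent.H2.Sturm.Core

set_option autoImplicit false

/-!
# Module DioA (110 lines): a mirrored word gives a good denominator

`Sturm.cfDigit x n = ⌊cq x n⌋` (integer), `pq x n = ⌊cq x (n+1)⌋₊`, and `cq x (n+1) = (fract ..)⁻¹ ≥ 0`.

`cfDigit_pq`: `⌊y⌋ = ⌊y⌋₊` for `y ≥ 0` (`Int.natCast_floor_eq_floor` / `natCast_floor_eq_intFloor`); unfold `cfDigit`, `pq`; the
`(n+1)`-st iterate is `(Int.fract (iterate n))⁻¹ ≥ 0` (`Function.iterate_succ_apply'`).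

`mirror`: Use `Sturm.block` (file H2/Sturm/Core.lean) with `k := i`, `l := 0`, `u := win (pq α) i l`, `v := win (pq β) 0 j`.
The states: for `α` at the index `i + 1`: by `Sturm.word_rel` (file H2/Sturm/CF.lean; `m := 1`, word `win (pq α) 0 i`):
`(c10 ξ + c11) cq α 1 = c00 ξ + c01`, `ξ = cq α (1+i)`, `cab = cfMat (win (pq α) 0 i) a b`, and `α · cq α 1 = ⌊α⌋ cq α 1 + 1`
(`Sturm.cq_rel` with `n = 0`), so `(a1 ξ + a2) α = A ξ + B` with `a1 = c00`, `a2 = c01`, `A = ⌊α⌋ c00 + c10`,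
`B = ⌊α⌋ c01 + c11`: indeed `α (c00 ξ + c01) = α cq α 1 (c10 ξ + c11) = (⌊α⌋ cq α 1 + 1)(c10 ξ + c11) = ⌊α⌋ (c00 ξ + c01) +
(c10 ξ + c11)`. `(A a2 - B a1)^2 = 1` by `Sturm.det_cfMat`. `a1 = siz (win (pq α) 0 i)`, `a2 ≤ a1` by `Sturm.cfMat_ineq`.
For `β` at the index `1`: `c1 = 1`, `c2 = 0`, `A' = ⌊β⌋`, `B' = 1` (`Sturm.cq_rel` with `n = 0`).
The hypothesis `hdβ` of `block`: `(v ++ u.reverse)[t] = pq β t`: by `hm`, `u.reverse = win (pq β) j l` (as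
`mir a j l = (win a j l).reverse`), so `v ++ u.reverse = win (pq β) 0 (j + l)` (`win_add`).
Conclusion of `block`: `q, b1`, `1 ≤ b1 ≤ 2 siz v`, `siz u ≤ q ≤ 4 a1 b1 siz u`, `‖qα‖ ≤ 2 b1/(a1 siz u)`, `‖qβ‖ ≤ 2 a1/(b1 siz u)`;
multiply: `q ‖qα‖ ‖qβ‖ ≤ 4 a1 b1 siz u · 4/(siz u)^2 = 16 a1 b1 / siz u ≤ 32 a1 siz v / siz u`.
-/

namespace Pool.Agent.H2.MC

open Pool.Agent.H2.Sturm

lemma cfDigit_pq (x : ℝ) (n : ℕ) : cfDigit x (n + 1) = (pq x n : ℤ) := by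
  rw [cfDigit_eq]
  have h : pq x n = ⌊cq x (n + 1)⌋₊ := rfl
  rw [h]
  have h0 : 0 ≤ cq x (n + 1) := by
    rw [cq_succ]
    exact inv_nonneg.mpr (Int.fract_nonneg _)
  exact (Int.natCast_floor_eq_floor h0).symm

lemma win_pos {b : ℕ → ℕ} (hb : ∀ n, 0 < b n) (i n : ℕ) : ∀ x ∈ win b i n, 0 < x := by
  intro x hx
  unfold win at hx
  rw [List.mem_map] at hx
  obtain ⟨k, -, rfl⟩ := hx
  exact hb _

lemma mirror {α β : ℝ} (hα : ∀ n, 0 < pq α n) (hβ : ∀ n, 0 < pq β n) {i j l : ℕ}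
    (hm : win (pq α) i l = mir (pq β) j l) :
    ∃ q : ℕ, siz (win (pq α) i l) ≤ q ∧
      q ≤ 8 * (siz (win (pq α) 0 i) * siz (win (pq β) 0 j) * siz (win (pq α) i l)) ∧
      (q : ℝ) * nd (q * α) * nd (q * β) ≤
        32 * (siz (win (pq α) 0 i) : ℝ) * siz (win (pq β) 0 j) / siz (win (pq α) i l) := by
  have hposA : ∀ t, 0 < cfDigit α (i + 1 + t) := by
    intro t
    have e : i + 1 + t = (i + t) + 1 := by omega
    rw [e, cfDigit_pq]
    exact_mod_cast hα _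
  have hposA1 : ∀ t, 0 < cfDigit α (1 + t) := by
    intro t
    have e : 1 + t = t + 1 := by omega
    rw [e, cfDigit_pq]
    exact_mod_cast hα _
  have hposB : ∀ t, 0 < cfDigit β (0 + 1 + t) := by
    intro t
    have e : 0 + 1 + t = t + 1 := by omega
    rw [e, cfDigit_pq]
    exact_mod_cast hβ _
  set u := win (pq α) i l with hu
  set v := win (pq β) 0 j with hv
  set w := win (pq α) 0 i with hw
  have hur : u.reverse = win (pq β) j l := by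
    rw [hm, mir, List.reverse_reverse]
  have hvu : v ++ u.reverse = win (pq β) 0 (j + l) := by
    rw [hur, win_add, Nat.zero_add]
  have hdA : ∀ (t : ℕ) (ht : t < u.length), cfDigit α (i + 1 + t) = ((u[t] : ℕ) : ℤ) := by
    intro t ht
    have e : i + 1 + t = (i + t) + 1 := by omega
    rw [e, cfDigit_pq, win_getElem]
  have hdW : ∀ (t : ℕ) (ht : t < w.length), cfDigit α (1 + t) = ((w[t] : ℕ) : ℤ) := by
    intro t ht
    have e : 1 + t = (0 + t) + 1 := by omega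
    rw [e, cfDigit_pq, win_getElem]
  have hdB : ∀ (t : ℕ) (ht : t < (v ++ u.reverse).length),
      cfDigit β (0 + 1 + t) = (((v ++ u.reverse)[t] : ℕ) : ℤ) := by
    intro t ht
    have e : 0 + 1 + t = (0 + t) + 1 := by omega
    rw [e, cfDigit_pq]
    simp only [hvu]
    rw [win_getElem]
  have hrw := word_rel hposA1 w 1 hdW
  have hwl : w.length = i := win_length _ _ _
  rw [hwl, Nat.add_comm 1 i] at hrw
  have hr0 := cq_rel hposA1 0
  rw [cq_zero, Nat.zero_add] at hr0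
  have hdet := det_cfMat w
  obtain ⟨w1, w2, w3, w4, w5⟩ := cfMat_ineq w (win_pos hα 0 i)
  have hrelA : (((cfMat w 0 0 : ℕ) : ℝ) * cq α (i + 1) + (cfMat w 0 1 : ℕ)) * α
      = ((cfDigit α 0 * cfMat w 0 0 + cfMat w 1 0 : ℤ) : ℝ) * cq α (i + 1)
        + ((cfDigit α 0 * cfMat w 0 1 + cfMat w 1 1 : ℤ) : ℝ) := by
    push_cast
    linear_combination ((cfMat w 1 0 : ℝ) * cq α (i + 1) + cfMat w 1 1) * hr0
      - (α - cfDigit α 0) * hrw
  have hdetA : ((cfDigit α 0 * cfMat w 0 0 + cfMat w 1 0) * ((cfMat w 0 1 : ℕ) : ℤ)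
      - (cfDigit α 0 * cfMat w 0 1 + cfMat w 1 1) * ((cfMat w 0 0 : ℕ) : ℤ)) ^ 2 = 1 := by
    have e : (cfDigit α 0 * cfMat w 0 0 + cfMat w 1 0) * ((cfMat w 0 1 : ℕ) : ℤ)
      - (cfDigit α 0 * cfMat w 0 1 + cfMat w 1 1) * ((cfMat w 0 0 : ℕ) : ℤ)
      = -((cfMat w 0 0 : ℤ) * cfMat w 1 1 - cfMat w 0 1 * cfMat w 1 0) := by ring
    rw [e, neg_sq]; exact hdet
  have hrB := cq_rel hposB 0
  rw [cq_zero, Nat.zero_add] at hrB
  have hrelB : (((1 : ℕ) : ℝ) * cq β (0 + 1) + ((0 : ℕ) : ℝ)) * β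
      = ((cfDigit β 0 : ℤ) : ℝ) * cq β (0 + 1) + ((1 : ℤ) : ℝ) := by
    rw [Nat.zero_add]
    push_cast
    linear_combination hrB
  have hdetB : (cfDigit β 0 * ((0 : ℕ) : ℤ) - 1 * ((1 : ℕ) : ℤ)) ^ 2 = 1 := by norm_num
  obtain ⟨q, b1, hb1, hb1v, hq1, hq2, hq3, hq4⟩ := block (k := i) (l := 0) hposA hposB u v
    (win_pos hα i l) (win_pos hβ 0 j) hdA hdB hdetA w1 w2 hrelA hdetB (le_refl 1) (Nat.zero_le 1) hrelB
  have hsu : 1 ≤ siz u := siz_pos (win_pos hα i l)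
  have hsw : siz w = cfMat w 0 0 := rfl
  rw [← hsw] at hq2 hq3 hq4 w1
  rw [one_mul] at hb1v
  refine ⟨q, hq1, ?_, ?_⟩
  · refine hq2.trans ?_
    have h1 : siz w * b1 * siz u ≤ siz w * (2 * siz v) * siz u :=
      Nat.mul_le_mul_right _ (Nat.mul_le_mul_left _ hb1v)
    calc 4 * (siz w * b1 * siz u) ≤ 4 * (siz w * (2 * siz v) * siz u) := Nat.mul_le_mul_left _ h1
      _ = _ := by ring
  · have hsu' : (0 : ℝ) < siz u := by exact_mod_cast hsu
    have hsw' : (0 : ℝ) < siz w := by exact_mod_cast w1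
    have hb1' : (0 : ℝ) < b1 := by exact_mod_cast hb1
    have hq2' : (q : ℝ) ≤ 4 * (siz w * b1 * siz u) := by exact_mod_cast hq2
    have hb1v' : (b1 : ℝ) ≤ 2 * siz v := by exact_mod_cast hb1v
    have hn1 : 0 ≤ nd ((q : ℝ) * α) := abs_nonneg _
    have hn2 : 0 ≤ nd ((q : ℝ) * β) := abs_nonneg _
    have hq0 : (0 : ℝ) ≤ q := Nat.cast_nonneg _
    have key : (q : ℝ) * nd (q * α) * nd (q * β) ≤
        4 * (siz w * b1 * siz u) * (2 * b1 / (siz w * siz u)) * (2 * siz w / (b1 * siz u)) := by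
      apply mul_le_mul (mul_le_mul hq2' hq3 hn1 (by positivity)) hq4 hn2 (by positivity)
    refine key.trans ?_
    have e : 4 * ((siz w : ℝ) * b1 * siz u) * (2 * b1 / (siz w * siz u)) * (2 * siz w / (b1 * siz u))
        = 16 * siz w * b1 / siz u := by
      field_simp
      ring
    rw [e, div_le_div_iff_of_pos_right hsu']
    nlinarith

end Pool.Agent.H2.MC
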