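import Mathlib
import Pool.Agent.H2.MC.DioA

set_option autoImplicit false

/-!
# Module Quad (120 lines): numbers which are neither rational nor quadratic

`NotQuad x`: no nontrivial integer polynomial of degree `≤ 2` vanishes at `x`.

`pq_pos`: with `T y = (fract y)⁻¹`, `cq x n = T^[n] x` (H2/Sturm/CF.lean). `x` is irrational (else `(0, B, C)` is a relation).
`cq x n` is irrational for all `n` (`Irrational.sub_intCast`, inverse: `irrational_inv_iff`; `Int.fract y = y - ⌊y⌋`), so
`fract (cq x n) ∈ (0,1)`, `cq x (n+1) > 1` and `pq x n = ⌊cq x (n+1)⌋₊ ≥ 1`.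

`not_evPer`: suppose `pq x (n+p) = pq x n` for `n ≥ N`, `p > 0`. Let `y = cq x (N+1)`, `z = cq x (N+1+p)`: all their later digits
agree: `cfDigit y m = cfDigit z m` for all `m`. Claim `y = z`: two numbers `> 1` with the same digits `d_0, d_1, ... ≥ 1`:
by `Sturm.word_rel` for the word `u` of the first `m` digits `y = (c00 ξ + c01)/(c10 ξ + c11)`, `z = (c00 ζ + c01)/(c10 ζ + c11)`,
`ξ, ζ > 1`, so `|y - z| = |det| |ξ - ζ| / ((c10 ξ + c11)(c10 ζ + c11)) ≤ 1/c10` .. (`|ξ-ζ| ≤ max ξ ζ`), and `c10 = siz (u.tail)`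
tends to infinity. (Alternative: the maps `y ↦ d + 1/y` contract: `|y - z| = |1/y' - 1/z'| = |y'-z'|/(y'z')`, and twice applied
the factor is `≤ 1/4·...`: `y' z' · y'' z'' ≥ ...`: as `y' y'' = d y'' + 1 ≥ 2` and `z' z'' ≥ 2` the distance is multiplied by
at most `1/4` in two steps, and all distances `|y^(m) - z^(m)| < 1` as they have the same integer part. So `|y-z| ≤ 4^{-m}` for all
`m`: `y = z`.) Then by `word_rel` with the word `w = win (pq x) N p`: `(c10 y + c11) y = c00 y + c01`: `y` is a root of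
`c10 Y² + (c11 - c00) Y - c01`, `c10 ≥ 1` (`p ≥ 1`: `c10 = siz (w.tail) ≥ 1`: `cfMat_cons_10`). By `Sturm.state_exists`:
`(C y + D) x = A y + B` with `A D - B C = ±1`, integers. So `y (C x - A) = B - D x`, and `C x - A ≠ 0` as `x` is irrational (`C ≥ 1`).
Multiply the equation by `(C x - A)²`: `c10 (B - D x)² + (c11 - c00)(B - D x)(C x - A) - c01 (C x - A)² = 0`: an integer quadratic
relation for `x`; by `NotQuad` all three coefficients vanish; so the polynomial identity holds for every real `X` in place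
of `x`; for rational `X` close to...: for any real `Y` with `C Y + D ≠ 0` put `X = (A Y + B)/(C Y + D)`; then `B - D X = -(±1) Y/(CY+D)·..`
and the identity gives `c10 Y² + (c11 - c00) Y - c01 = 0` for all `Y > 0`: contradiction with `c10 ≥ 1` (take two or three
values of `Y`, e.g. large ones). Or compute: the coefficients are `c10 D² - (c11-c00) C D - c01 C²`,
`-2 c10 B D + (c11-c00)(A D + B C) + 2 c01 A C`, `c10 B² - (c11-c00) A B - c01 A²`; if all vanish then
`c10 (A D - B C)² = A² · (first) + A C · (second) + C² · (third) = 0`, so `c10 = 0`: check with `ring`.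
-/

namespace Pool.Agent.H2.MC

open Filter Pool.Agent.H2.Sturm

private lemma nq_irr {x : ℝ} (hx : NotQuad x) : Irrational x := by
  rintro ⟨q, hq⟩
  have hd : (q.den : ℝ) ≠ 0 := by exact_mod_cast q.den_ne_zero
  have h1 : ((0 : ℤ) : ℝ) * x ^ 2 + ((q.den : ℤ) : ℝ) * x + ((-q.num : ℤ) : ℝ) = 0 := by
    rw [← hq]
    have h2 : (q : ℝ) * (q.den : ℝ) = (q.num : ℝ) := by exact_mod_cast Rat.mul_den_eq_num q
    push_cast
    linear_combination h2
  have h3 := (hx 0 q.den (-q.num) h1).2.1
  exact q.den_ne_zero (by exact_mod_cast h3)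

private lemma nq_cq_irr {x : ℝ} (hx : NotQuad x) (n : ℕ) : Irrational (cq x n) := by
  induction n with
  | zero =>
    rw [cq_zero]
    exact nq_irr hx
  | succ n ih =>
    rw [cq_succ, irrational_inv_iff]
    have h1 : Int.fract (cq x n) = cq x n - (⌊cq x n⌋ : ℤ) := rfl
    rw [h1]
    exact ih.sub_intCast _

lemma pq_pos {x : ℝ} (hx : NotQuad x) (n : ℕ) : 0 < pq x n := by
  have h1 : pq x n = ⌊cq x (n + 1)⌋₊ := rfl
  rw [h1, Nat.floor_pos, cq_succ]
  have hf : Irrational (Int.fract (cq x n)) := by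
    have h2 : Int.fract (cq x n) = cq x n - (⌊cq x n⌋ : ℤ) := rfl
    rw [h2]
    exact (nq_cq_irr hx n).sub_intCast _
  have h0 : 0 < Int.fract (cq x n) := lt_of_le_of_ne (Int.fract_nonneg _) hf.ne_zero.symm
  exact (one_le_inv₀ h0).mpr (Int.fract_lt_one _).le

private lemma nq_contr (y z d : ℕ → ℝ) (hd : ∀ m, 1 ≤ d m) (hy : ∀ m, 1 < y m) (hz : ∀ m, 1 < z m)
    (h1 : ∀ m, |y m - z m| ≤ 1) (ry : ∀ m, y m * y (m + 1) = d m * y (m + 1) + 1)
    (rz : ∀ m, z m * z (m + 1) = d m * z (m + 1) + 1) : y 0 = z 0 := by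
  have key : ∀ m, (y m - z m) * (y (m + 1) * z (m + 1)) = z (m + 1) - y (m + 1) := by
    intro m
    linear_combination z (m + 1) * ry m - y (m + 1) * rz m
  have prod2 : ∀ m, 2 ≤ y (m + 1) * y (m + 1 + 1) ∧ 2 ≤ z (m + 1) * z (m + 1 + 1) := by
    intro m
    rw [ry, rz]
    have e1 := hd (m + 1)
    have e2 := hy (m + 1 + 1)
    have e3 := hz (m + 1 + 1)
    constructor <;> nlinarith
  have step : ∀ m, |y m - z m| ≤ (1 / 4) * |y (m + 1 + 1) - z (m + 1 + 1)| := by
    intro m
    have e1 : (y m - z m) * ((y (m + 1) * y (m + 1 + 1)) * (z (m + 1) * z (m + 1 + 1))) =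
        y (m + 1 + 1) - z (m + 1 + 1) := by
      have e2 := key m
      have e3 := key (m + 1)
      linear_combination (y (m + 1 + 1) * z (m + 1 + 1)) * e2 - e3
    have e4 : 4 ≤ (y (m + 1) * y (m + 1 + 1)) * (z (m + 1) * z (m + 1 + 1)) := by
      have e5 := prod2 m
      nlinarith [mul_le_mul e5.1 e5.2 (by norm_num) (by linarith [e5.1])]
    have e6 : |y m - z m| * ((y (m + 1) * y (m + 1 + 1)) * (z (m + 1) * z (m + 1 + 1))) =
        |y (m + 1 + 1) - z (m + 1 + 1)| := by
      rw [← e1, abs_mul, abs_of_pos (a := (y (m + 1) * y (m + 1 + 1)) * (z (m + 1) * z (m + 1 + 1)))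
        (by linarith)]
    have e7 := mul_le_mul_of_nonneg_left e4 (abs_nonneg (y m - z m))
    linarith
  have pow : ∀ k m, |y m - z m| ≤ (1 / 4 : ℝ) ^ k := by
    intro k
    induction k with
    | zero =>
      intro m
      rw [pow_zero]
      exact h1 m
    | succ k ih =>
      intro m
      have e1 := step m
      have e2 := ih (m + 1 + 1)
      rw [pow_succ]
      linarith
  have h0 : |y 0 - z 0| ≤ 0 :=
    ge_of_tendsto' (tendsto_pow_atTop_nhds_zero_of_lt_one (r := (1 / 4 : ℝ)) (by norm_num)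
      (by norm_num)) (fun k => pow k 0)
  have h2 : y 0 - z 0 = 0 := abs_eq_zero.1 (le_antisymm h0 (abs_nonneg _))
  linarith

lemma not_evPer {x : ℝ} (hx : NotQuad x) : ¬ EvPer (pq x) := by
  rintro ⟨N, p, hp, hper⟩
  have hpos : ∀ i, 0 < cfDigit x (1 + i) := by
    intro i
    rw [Nat.add_comm 1 i, cfDigit_pq]
    exact_mod_cast pq_pos hx i
  have hdig : ∀ m, cfDigit x (N + 1 + m) = (pq x (N + m) : ℤ) := by
    intro m
    rw [← cfDigit_pq, show N + m + 1 = N + 1 + m by omega]
  have hyz : cq x (N + 1) = cq x (N + 1 + p) := by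
    have h1 := nq_contr (fun m => cq x (N + 1 + m)) (fun m => cq x (N + 1 + p + m))
      (fun m => (pq x (N + m) : ℝ)) (fun m => by exact_mod_cast pq_pos hx (N + m))
      (fun m => by
        have e := one_lt_cq hpos (N + m)
        rw [show N + m + 1 = N + 1 + m by omega] at e
        exact e)
      (fun m => by
        have e := one_lt_cq hpos (N + p + m)
        rw [show N + p + m + 1 = N + 1 + p + m by omega] at e
        exact e)
      (fun m => by
        have e1 : ⌊cq x (N + 1 + m)⌋ = (pq x (N + m) : ℤ) := by rw [← cfDigit_eq, hdig]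
        have e2 : ⌊cq x (N + 1 + p + m)⌋ = (pq x (N + m) : ℤ) := by
          rw [← cfDigit_eq, show N + 1 + p + m = N + 1 + (m + p) by omega, hdig,
            show N + (m + p) = N + m + p by omega, hper (N + m) (by omega)]
        have e3 := Int.floor_eq_iff.1 e1
        have e4 := Int.floor_eq_iff.1 e2
        rw [abs_le]
        constructor <;> linarith [e3.1, e3.2, e4.1, e4.2])
      (fun m => by
        have e := cq_rel hpos (N + 1 + m)
        rw [hdig] at e
        exact_mod_cast e)
      (fun m => by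
        have e := cq_rel hpos (N + 1 + p + m)
        rw [show N + 1 + p + m = N + 1 + (m + p) by omega, hdig,
            show N + (m + p) = N + m + p by omega, hper (N + m) (by omega),
            show N + 1 + (m + p) = N + 1 + p + m by omega] at e
        exact_mod_cast e)
    exact h1
  have hw := word_rel hpos (win (pq x) N p) (N + 1) (by
    intro i hi
    rw [win_getElem, hdig])
  rw [win_length, ← hyz] at hw
  obtain ⟨A, B, C, D, hdet, hC, hDC, hst⟩ := state_exists hpos N
  have hc10 : 1 ≤ cfMat (win (pq x) N p) 1 0 := by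
    obtain ⟨r, rfl⟩ := Nat.exists_eq_succ_of_ne_zero hp.ne'
    rw [Nat.succ_eq_add_one, win_succ', cfMat_cons_10]
    refine (cfMat_ineq _ ?_).1
    intro a ha
    unfold win at ha
    rw [List.mem_map] at ha
    obtain ⟨k, -, rfl⟩ := ha
    exact pq_pos hx _
  generalize cfMat (win (pq x) N p) 1 0 = c10 at *
  generalize cfMat (win (pq x) N p) 0 0 = c00 at *
  generalize cfMat (win (pq x) N p) 0 1 = c01 at *
  generalize cfMat (win (pq x) N p) 1 1 = c11 at *
  generalize cq x (N + 1) = y at *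
  have hy1 : y * ((C : ℝ) * x - A) = B - D * x := by linear_combination hst
  have hquad : (c10 : ℝ) * (B - D * x) ^ 2 + ((c11 : ℝ) - c00) * ((B - D * x) * (C * x - A)) -
      c01 * (C * x - A) ^ 2 = 0 := by
    rw [← hy1]
    linear_combination ((C : ℝ) * x - A) ^ 2 * hw
  have h3 := hx (c10 * D ^ 2 - (c11 - c00) * (D * C) - c01 * C ^ 2)
    (-2 * c10 * B * D + (c11 - c00) * (B * C + A * D) + 2 * c01 * A * C)
    (c10 * B ^ 2 - (c11 - c00) * (A * B) - c01 * A ^ 2) (by
      push_cast
      linear_combination hquad)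
  obtain ⟨e1, e2, e3⟩ := h3
  have h4 : (c10 : ℤ) * (A * D - B * C) ^ 2 = 0 := by
    linear_combination A ^ 2 * e1 + A * C * e2 + C ^ 2 * e3
  rw [hdet, mul_one] at h4
  omega

end Pool.Agent.H2.MC
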