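import Mathlib
import Pool.Agent.H2.MC.DioA

set_option autoImplicit false

/-!
# Module DioF (150 lines): the power gain, fine form

PROOF. `|q α - round (q α)| = nd (q α)` by definition. `w = 2/(1-c)`. Put `s = log siz`. For a mirrored word of length `l` at the
positions `(i, j)`, `mirror` gives `q` with `q ≥ siz (win α i l) ≥ 2^(l/2)` (`Sturm.siz_growth`) and
`log (q^c · q nd nd) ≤ log 32 + c log 8 + (1+c) (s(win α 0 i) + s(win β 0 j)) - (1-c) s(win α i l)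
 ≤ C1 + (1+c)((lam+ε)(i+j) + 2C) - (1-c)((lam-ε) l - C) ≤ C2 + lam ((1+c)(i+j) - (1-c) l) + 2 ε (i+j+l)`     (*)
(bound products by `exp`: `siz = exp s`). Choose `η > 0` so small that `(2-η)/(1+c) - η/(1-c) > κ` (possible as `κ < 2/(1+c)`).
Let `n` be large, `k, d, T, i0, j0, i, j` from `h`; `k0 = i0+j0 ≤ k`, `l = n - d` (natural subtraction), so `d ≥ n - l`. All lengths
`i0+j0+l`, `i+j+n` are `≤ (κ+2) n + 3`.. (`T ≤ κ n + 3`, `k ≤ (κ n + 3)/w ≤ κ n + 3`, `i+j ≤ k0+T`).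
CASE 1: `(1+c) k0 - (1-c) l ≤ -η n`: use `(i0, j0, l)`: (*) is `≤ C2 - lam η n + 2 ε (3 n + ..)`, → `-∞` if `ε` was chosen small
(`ε ≤ lam η / 100`, `κ ≤ 2`), and `l ≥ η n / (1-c) → ∞`, so `q ≥ N`.
CASE 2: otherwise `l < ((1+c) k0 + η n)/(1-c)`. Claim `(1+c)(i+j) - (1-c) n ≤ -η n`: since `i+j ≤ k0 + T - d ≤ k0 + T - n + l`,
`(1+c)(i+j) - (1-c) n ≤ (1+c)(k0+T+l) - 2 n`, and `k0 + T + l ≤ T + k0 (1 + (1+c)/(1-c)) + η n/(1-c) = T + (2/(1-c)) k0 + η n/(1-c)
≤ κ n + 3 + η n/(1-c) ≤ (2-η) n/(1+c)` for large `n`. So (*) for `(i, j, n)` is `≤ C2 - lam η n + 2 ε (3n+..) → -∞`; `q ≥ 2^(n/2)`.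
Finally `q^(1+c) = q * q^c` (`Real.rpow_add`), choose `n` so large that the bound is `< log ε'` for the given `ε'`.
-/

namespace Pool.Agent.H2.MC

open Filter Pool.Agent.H2.Sturm

lemma core_fine {α β : ℝ} (hα : ∀ n, 0 < pq α n) (hβ : ∀ n, 0 < pq β n) {lam c ε1 C : ℝ}
    (hc0 : 0 ≤ c) (hc1 : c < 1) (hε1 : 0 ≤ ε1)
    (hC : ∀ i n : ℕ, |Real.log (siz (win (pq α) i n)) - lam * n| ≤ ε1 * n + C ∧
      |Real.log (siz (win (pq β) i n)) - lam * n| ≤ ε1 * n + C)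
    {i j l N : ℕ} (hm : win (pq α) i l = mir (pq β) j l) (hlN : 2 * N ≤ l) {ε0 : ℝ} (hε0 : 0 < ε0)
    (hlt : c * Real.log 8 + Real.log 32 + 2 * (1 + c) * C + (1 - c) * C
      + lam * ((1 + c) * ((i : ℝ) + j) - (1 - c) * l) + 2 * ε1 * ((i : ℝ) + j + l) < Real.log ε0) :
    ∃ q : ℕ, N ≤ q ∧ 0 < q ∧
    (q : ℝ) ^ (1 + c) * |(q : ℝ) * α - (round ((q : ℝ) * α) : ℝ)|
      * |(q : ℝ) * β - (round ((q : ℝ) * β) : ℝ)| < ε0 := by
  obtain ⟨q, hq1, hq2, hq3⟩ := mirror hα hβ hm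
  have hi0 := Nat.cast_nonneg (α := ℝ) i
  have hj0 := Nat.cast_nonneg (α := ℝ) j
  have hl0 := Nat.cast_nonneg (α := ℝ) l
  have hA1 : 1 ≤ siz (win (pq α) i l) := siz_pos (win_pos hα i l)
  have hB1 : 1 ≤ siz (win (pq α) 0 i) := siz_pos (win_pos hα 0 i)
  have hD1 : 1 ≤ siz (win (pq β) 0 j) := siz_pos (win_pos hβ 0 j)
  have hgrow := siz_growth (win (pq α) i l) (win_pos hα i l)
  rw [win_length] at hgrow
  have ha := abs_le.mp (hC i l).1
  have hb := abs_le.mp (hC 0 i).1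
  have hd := abs_le.mp (hC 0 j).2
  have hA : (0 : ℝ) < siz (win (pq α) i l) := by exact_mod_cast hA1
  have hB : (0 : ℝ) < siz (win (pq α) 0 i) := by exact_mod_cast hB1
  have hD : (0 : ℝ) < siz (win (pq β) 0 j) := by exact_mod_cast hD1
  have hq2' : (q : ℝ) ≤ 8 * ((siz (win (pq α) 0 i) : ℝ) * siz (win (pq β) 0 j) * siz (win (pq α) i l)) := by
    exact_mod_cast hq2
  have hqN : N < q := by
    have h3 : N ≤ l / 2 := by omega
    calc N < 2 ^ N := Nat.lt_two_pow_self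
      _ ≤ 2 ^ (l / 2) := Nat.pow_le_pow_right (by norm_num) h3
      _ ≤ siz (win (pq α) i l) := hgrow
      _ ≤ q := hq1
  have hqpos : 0 < q := by omega
  refine ⟨q, hqN.le, hqpos, ?_⟩
  set A : ℝ := (siz (win (pq α) i l) : ℝ) with hAd
  set B : ℝ := (siz (win (pq α) 0 i) : ℝ) with hBd
  set D : ℝ := (siz (win (pq β) 0 j) : ℝ) with hDd
  have hq0' : (0 : ℝ) < q := by exact_mod_cast hqpos
  have hnd1 : 0 ≤ nd ((q : ℝ) * α) := abs_nonneg _
  have hnd2 : 0 ≤ nd ((q : ℝ) * β) := abs_nonneg _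
  have e1 : (8 * (B * D * A)) ^ c * (32 * B * D / A) =
      Real.exp (c * (Real.log 8 + (Real.log B + Real.log D + Real.log A))
        + (Real.log 32 + Real.log B + Real.log D - Real.log A)) := by
    rw [Real.exp_add]
    congr 1
    · rw [Real.rpow_def_of_pos (by positivity)]
      congr 1
      rw [Real.log_mul (by norm_num) (by positivity), Real.log_mul (by positivity) hA.ne',
        Real.log_mul hB.ne' hD.ne']
      ring
    · rw [← Real.exp_log (show (0 : ℝ) < 32 * B * D / A by positivity)]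
      congr 1
      rw [Real.log_div (by positivity) hA.ne', Real.log_mul (by positivity) hD.ne',
        Real.log_mul (by norm_num) hB.ne']
  have hmain : (q : ℝ) ^ (1 + c) * nd ((q : ℝ) * α) * nd ((q : ℝ) * β)
      ≤ (8 * (B * D * A)) ^ c * (32 * B * D / A) := by
    have h4 : (q : ℝ) ^ (1 + c) = q * (q : ℝ) ^ c := by
      rw [Real.rpow_add hq0', Real.rpow_one]
    have h5 : (q : ℝ) ^ c ≤ (8 * (B * D * A)) ^ c := Real.rpow_le_rpow hq0'.le hq2' hc0
    have h6 : (0 : ℝ) ≤ (q : ℝ) ^ c := Real.rpow_nonneg hq0'.le _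
    calc (q : ℝ) ^ (1 + c) * nd ((q : ℝ) * α) * nd ((q : ℝ) * β)
        = (q : ℝ) ^ c * ((q : ℝ) * nd ((q : ℝ) * α) * nd ((q : ℝ) * β)) := by rw [h4]; ring
      _ ≤ (8 * (B * D * A)) ^ c * (32 * B * D / A) :=
          mul_le_mul h5 hq3 (by positivity) (by positivity)
  have hexp : c * (Real.log 8 + (Real.log B + Real.log D + Real.log A))
        + (Real.log 32 + Real.log B + Real.log D - Real.log A) < Real.log ε0 := by
    have s1 : (1 + c) * (Real.log B + Real.log D)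
        ≤ (1 + c) * ((lam + ε1) * ((i : ℝ) + j) + 2 * C) :=
      mul_le_mul_of_nonneg_left (by linarith [hb.2, hd.2]) (by linarith)
    have s2 : (1 - c) * -Real.log A ≤ (1 - c) * (-(lam - ε1) * l + C) :=
      mul_le_mul_of_nonneg_left (by linarith [ha.1]) (by linarith)
    have s3 : ε1 * ((1 + c) * ((i : ℝ) + j) + (1 - c) * l) ≤ ε1 * (2 * ((i : ℝ) + j + l)) := by
      apply mul_le_mul_of_nonneg_left _ hε1
      nlinarith
    nlinarith
  calc (q : ℝ) ^ (1 + c) * |(q : ℝ) * α - (round ((q : ℝ) * α) : ℝ)|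
      * |(q : ℝ) * β - (round ((q : ℝ) * β) : ℝ)|
      = (q : ℝ) ^ (1 + c) * nd ((q : ℝ) * α) * nd ((q : ℝ) * β) := rfl
    _ ≤ _ := hmain
    _ = _ := e1
    _ < Real.exp (Real.log ε0) := Real.exp_lt_exp.mpr hexp
    _ = ε0 := Real.exp_log hε0

lemma final_fine {α β : ℝ} (hα : ∀ n, 0 < pq α n) (hβ : ∀ n, 0 < pq β n) {lam : ℝ} (hlam : 0 < lam)
    (hr : ∀ ε : ℝ, 0 < ε → ∃ C : ℝ, ∀ i n : ℕ, |Real.log (siz (win (pq α) i n)) - lam * n| ≤ ε * n + C ∧
      |Real.log (siz (win (pq β) i n)) - lam * n| ≤ ε * n + C)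
    {c κ : ℝ} (hc0 : 0 ≤ c) (hc1 : c < 1) (hκ : κ < 2 / (1 + c))
    (h : ∃ᶠ n : ℕ in atTop, ∃ k d T i0 j0 i j : ℕ, (T : ℝ) + 2 / (1 - c) * k ≤ κ * n + 3 ∧ i0 + j0 ≤ k ∧
      win (pq α) i0 (n - d) = mir (pq β) j0 (n - d) ∧ win (pq α) i n = mir (pq β) j n ∧
      i + j + d ≤ i0 + j0 + T) :
    PowerLittlewood c α β := by
  intro ε0 hε0 N
  have h1c : 0 < 1 - c := by linarith
  have h1c' : 0 < 1 + c := by linarith
  have hκ2 : κ * (1 + c) < 2 := by rwa [lt_div_iff₀ h1c'] at hκ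
  have hκlt : κ < 2 := by
    refine hκ.trans_le ?_
    rw [div_le_iff₀ h1c']
    linarith
  set η : ℝ := (1 - c) * (2 - κ * (1 + c)) / 4 with hη
  have hη0 : 0 < η := by
    rw [hη]
    have : 0 < (1 - c) * (2 - κ * (1 + c)) := mul_pos h1c (by linarith)
    linarith
  set ε1 : ℝ := lam * η / 12 with hε1
  have hε1pos : 0 < ε1 := by positivity
  obtain ⟨C, hC⟩ := hr ε1 hε1pos
  set C2 : ℝ := c * Real.log 8 + Real.log 32 + 2 * (1 + c) * C + (1 - c) * C with hC2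
  have hle : 0 < lam * η := by positivity
  obtain ⟨n0, hn0⟩ := exists_nat_gt (max (max ((2 * N : ℝ) / η) (3 / η)) (max (2 * (C2 + lam * η / 2 - Real.log ε0) / (lam * η)) (2 * N)))
  have hn1 : 2 * (N : ℝ) < n0 * η := by
    have := ((le_max_left _ _).trans (le_max_left _ _)).trans_lt hn0
    rwa [div_lt_iff₀ hη0] at this
  have hn2 : 3 < n0 * η := by
    have := ((le_max_right _ _).trans (le_max_left _ _)).trans_lt hn0
    rwa [div_lt_iff₀ hη0] at this
  have hn3 : 2 * (C2 + lam * η / 2 - Real.log ε0) < n0 * (lam * η) := by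
    have := ((le_max_left _ _).trans (le_max_right _ _)).trans_lt hn0
    rwa [div_lt_iff₀ hle] at this
  have hn4 : 2 * (N : ℝ) < n0 := ((le_max_right _ _).trans (le_max_right _ _)).trans_lt hn0
  obtain ⟨n, ⟨k, d, T, i0, j0, i, j, h1, h2, h3, h4, h5⟩, hn⟩ :=
    (h.and_eventually (eventually_ge_atTop n0)).exists
  have hnn : (n0 : ℝ) ≤ n := by exact_mod_cast hn
  have hN0 := Nat.cast_nonneg (α := ℝ) n
  have hT0 := Nat.cast_nonneg (α := ℝ) T
  have hk0 := Nat.cast_nonneg (α := ℝ) k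
  have h2' : (i0 : ℝ) + j0 ≤ k := by exact_mod_cast h2
  have h5' : (i : ℝ) + j + d ≤ i0 + j0 + T := by exact_mod_cast h5
  obtain ⟨l, hl⟩ : ∃ l, l = n - d := ⟨_, rfl⟩
  rw [← hl] at h3
  have hld : (n : ℝ) - l ≤ d := by
    have : n ≤ d + l := by omega
    have : (n : ℝ) ≤ d + l := by exact_mod_cast this
    linarith
  have hln : (l : ℝ) ≤ n := by
    have : l ≤ n := by omega
    exact_mod_cast this
  have hl0 := Nat.cast_nonneg (α := ℝ) l
  -- `(1 - c) T + 2 k ≤ (1 - c) (κ n + 3)`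
  have h1' : (1 - c) * T + 2 * k ≤ (1 - c) * (κ * n + 3) := by
    have := mul_le_mul_of_nonneg_left h1 h1c.le
    have e : (1 - c) * ((T : ℝ) + 2 / (1 - c) * k) = (1 - c) * T + 2 * k := by
      field_simp
    linarith
  have hkT : (T : ℝ) + k ≤ κ * n + 3 := by
    have h6 : (k : ℝ) ≤ 2 / (1 - c) * k := by
      have : (1 : ℝ) ≤ 2 / (1 - c) := by
        rw [le_div_iff₀ h1c]
        linarith
      nlinarith
    linarith
  have hκn : κ * n ≤ 2 * n := mul_le_mul_of_nonneg_right hκlt.le hN0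
  have hnη : (n0 : ℝ) * η ≤ n * η := mul_le_mul_of_nonneg_right hnn hη0.le
  have hnlη : (n0 : ℝ) * (lam * η) ≤ n * (lam * η) := mul_le_mul_of_nonneg_right hnn hle.le
  by_cases hcase : (1 + c) * ((i0 : ℝ) + j0) - (1 - c) * l ≤ -(η * n)
  · refine core_fine hα hβ hc0 hc1 hε1pos.le hC h3 (N := N) ?_ hε0 ?_
    · have h6 : 2 * (N : ℝ) ≤ l := by
        have h7 : 0 ≤ (1 + c) * ((i0 : ℝ) + j0) := by positivity
        have h8 : (1 - c) * (l : ℝ) ≤ l := by nlinarith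
        linarith
      exact_mod_cast h6
    · have h6 := mul_le_mul_of_nonneg_left hcase hlam.le
      have h7 : 2 * ε1 * ((i0 : ℝ) + j0 + l) ≤ 2 * ε1 * (3 * n + 3) :=
        mul_le_mul_of_nonneg_left (by linarith) (by positivity)
      have h8 : 2 * ε1 * (3 * n + 3) = lam * η * n / 2 + lam * η / 2 := by rw [hε1]; ring
      rw [← hC2]
      linarith
  · push Not at hcase
    have hX : (1 + c) * ((i : ℝ) + j) - (1 - c) * n ≤ -(η * n) := by
      have g1 : (1 + c) * ((i : ℝ) + j) - (1 - c) * n ≤ (1 + c) * ((k : ℝ) + T + l) - 2 * n := by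
        have : (i : ℝ) + j ≤ k + T - n + l := by linarith
        nlinarith
      have g1' : (1 + c) * ((i : ℝ) + j) - (1 - c) * n ≤ (1 + c) * (((i0 : ℝ) + j0) + T + l) - 2 * n := by
        have : (i : ℝ) + j ≤ (i0 + j0) + T - n + l := by linarith
        nlinarith
      have g2 : (1 - c) * ((1 + c) * (((i0 : ℝ) + j0) + T + l) - 2 * n)
          ≤ (1 + c) * (2 * ((i0 : ℝ) + j0) + (1 - c) * T + η * n) - 2 * (1 - c) * n := by
        have : (1 - c) * (l : ℝ) ≤ (1 + c) * ((i0 : ℝ) + j0) + η * n := by linarith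
        have := mul_le_mul_of_nonneg_left this h1c'.le
        nlinarith
      have g3 : (1 + c) * (2 * ((i0 : ℝ) + j0) + (1 - c) * T + η * n)
          ≤ (1 + c) * ((1 - c) * (κ * n + 3) + η * n) := by
        apply mul_le_mul_of_nonneg_left _ h1c'.le
        linarith
      have g4 : (1 + c) * ((1 - c) * (κ * n + 3) + η * n) - 2 * (1 - c) * n
          = -(4 * η) * n + (1 + c) * η * n + 3 * (1 + c) * (1 - c) := by
        rw [hη]; ring
      have g5 : -(4 * η) * n + (1 + c) * η * n + 3 * (1 + c) * (1 - c) ≤ (1 - c) * -(η * n) := by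
        have g6 : (0 : ℝ) ≤ n * η - 3 := by linarith
        have g7 : 0 ≤ (1 + c) * (1 - c) := by positivity
        nlinarith [mul_nonneg h1c'.le g6, mul_nonneg g7 g6, mul_nonneg h1c.le g6]
      have g8 : (1 - c) * ((1 + c) * ((i : ℝ) + j) - (1 - c) * n) ≤ (1 - c) * -(η * n) := by
        have := mul_le_mul_of_nonneg_left g1' h1c.le
        linarith
      exact le_of_mul_le_mul_left g8 h1c
    refine core_fine hα hβ hc0 hc1 hε1pos.le hC h4 (N := N) ?_ hε0 ?_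
    · have h6 : 2 * (N : ℝ) ≤ n := by linarith
      exact_mod_cast h6
    · have h6 := mul_le_mul_of_nonneg_left hX hlam.le
      have h7 : 2 * ε1 * ((i : ℝ) + j + n) ≤ 2 * ε1 * (3 * n + 3) :=
        mul_le_mul_of_nonneg_left (by linarith) (by positivity)
      have h8 : 2 * ε1 * (3 * n + 3) = lam * η * n / 2 + lam * η / 2 := by rw [hε1]; ring
      rw [← hC2]
      linarith

end Pool.Agent.H2.MC
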