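import Mathlib
import Pool.Agent.H2.MC.LangA

set_option autoImplicit false

/-!
# Module RatA (150 lines): upper and lower growth rates of an almost additive weight on a language

`F` a language (`Lang F`), `f : List ℕ → ℝ` with `f ≥ 0`, `f u + f v ≤ f (u ++ v) ≤ f u + f v + D`.

PROOFS. Every word `w ∈ F (q n1 + r)` is a concatenation of `q` words of `F n1` and one word of `F r` (`Lang.take_mem`,
`Lang.drop_mem`, induction on `q`); so if `f u ≤ A` for all `u ∈ F n1` then `f w ≤ q (A + D) + B_r` where `B_r` bounds `f` on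
the finite set `F r`, and if `A' ≤ f u` on `F n1` then `q A' ≤ f w`.
* `upper`: `M n = max of f on F n` (finite, nonempty: `Set.Finite.exists_maximal..`/`Set.exists_max_image`),
  `L = inf over n ≥ 1 of (M n + D) / n` (bounded below by `0`). First claim: `f w = M n ≥ L n - D` for a maximiser `w`
  (`n ≥ 1`; for `n = 0` `f [] ≥ 0 ≥ -D`). Second claim: choose `n1 ≥ 1` with `(M n1 + D) / n1 < L + ε`; `n = q n1 + r`,
  `r < n1`: `f w ≤ q (M n1 + D) + B ≤ q n1 (L+ε) + B ≤ (L+ε) n + B`, `B = ` maximum of `M r`, `r < n1` (`L ≥ 0`).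
* `lower`: `m n = min of f on F n`, `l = sup over n ≥ 1 of (m n) / n`, bounded above by `M 1 + D` as
  `m n ≤ f w ≤ n (M 1 + D)`. First claim: `f w = m n ≤ l n` (`n ≥ 1`; for `n = 0`: `f [] + f [] ≤ f []` gives `f [] ≤ 0`).
  Second claim: `l ≥ 0`; if `l - ε ≤ 0` trivial with `C = 0` (`f ≥ 0`); otherwise choose `n1` with `m n1 / n1 > l - ε`:
  `f w ≥ q m n1 ≥ q n1 (l-ε) ≥ (n - n1)(l-ε)`, `C = n1 (l-ε)`.
-/

namespace Pool.Agent.H2.MC

private lemma mul_ub {F : ℕ → Set (List ℕ)} (hF : Lang F) {f : List ℕ → ℝ} {D : ℝ}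
    (h2 : ∀ u v, f (u ++ v) ≤ f u + f v + D) {n1 r : ℕ} {A B : ℝ} (hA : ∀ u ∈ F n1, f u ≤ A)
    (hB : ∀ u ∈ F r, f u ≤ B) (q : ℕ) : ∀ w ∈ F (n1 * q + r), f w ≤ q * (A + D) + B := by
  induction q with
  | zero =>
    intro w hw
    rw [Nat.mul_zero, Nat.zero_add] at hw
    have := hB w hw
    simpa using this
  | succ q ih =>
    intro w hw
    have e : n1 * (q + 1) + r = n1 + (n1 * q + r) := by ring
    rw [e] at hw
    have h3 := hA _ (hF.take_mem hw)
    have h4 := ih _ (hF.drop_mem hw)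
    have h5 := h2 (w.take n1) (w.drop n1)
    rw [List.take_append_drop] at h5
    push_cast
    linarith

private lemma mul_lb {F : ℕ → Set (List ℕ)} (hF : Lang F) {f : List ℕ → ℝ}
    (h0 : ∀ u, 0 ≤ f u) (h1 : ∀ u v, f u + f v ≤ f (u ++ v)) {n1 r : ℕ} {A : ℝ}
    (hA : ∀ u ∈ F n1, A ≤ f u) (q : ℕ) : ∀ w ∈ F (n1 * q + r), q * A ≤ f w := by
  induction q with
  | zero =>
    intro w _
    simpa using h0 w
  | succ q ih =>
    intro w hw
    have e : n1 * (q + 1) + r = n1 + (n1 * q + r) := by ring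
    rw [e] at hw
    have h3 := hA _ (hF.take_mem hw)
    have h4 := ih _ (hF.drop_mem hw)
    have h5 := h1 (w.take n1) (w.drop n1)
    rw [List.take_append_drop] at h5
    push_cast
    linarith

lemma upper {F : ℕ → Set (List ℕ)} (hF : Lang F) {f : List ℕ → ℝ} {D : ℝ} (hD : 0 ≤ D) (h0 : ∀ u, 0 ≤ f u)
    (h2 : ∀ u v, f (u ++ v) ≤ f u + f v + D) :
    ∃ L : ℝ, 0 ≤ L ∧ (∀ n, ∃ w ∈ F n, L * n - D ≤ f w) ∧
      ∀ ε : ℝ, 0 < ε → ∃ C : ℝ, ∀ n, ∀ w ∈ F n, f w ≤ (L + ε) * n + C := by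
  have hmax : ∀ n, ∃ w ∈ F n, ∀ u ∈ F n, f u ≤ f w := fun n =>
    Set.exists_max_image (F n) f (hF.fin n) (hF.nonempty n)
  choose W hW hWm using hmax
  set g : ℕ → ℝ := fun k => (f (W (k + 1)) + D) / ((k + 1 : ℕ) : ℝ) with hg
  have hpos : ∀ k : ℕ, (0 : ℝ) < ((k + 1 : ℕ) : ℝ) := fun k => by positivity
  have hgn : ∀ k, 0 ≤ g k := fun k => div_nonneg (add_nonneg (h0 _) hD) (hpos k).le
  have hbdd : BddBelow (Set.range g) := ⟨0, by rintro _ ⟨k, rfl⟩; exact hgn k⟩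
  have hL0 : 0 ≤ ⨅ k, g k := le_ciInf hgn
  refine ⟨⨅ k, g k, hL0, ?_, ?_⟩
  · intro n
    refine ⟨W n, hW n, ?_⟩
    cases n with
    | zero =>
      have := h0 (W 0)
      simp only [Nat.cast_zero, mul_zero, zero_sub]
      linarith
    | succ k =>
      have h3 : (⨅ k, g k) ≤ g k := ciInf_le hbdd k
      have h4 : (⨅ k, g k) * ((k + 1 : ℕ) : ℝ) ≤ f (W (k + 1)) + D := by
        rw [← le_div_iff₀ (hpos k)]
        exact h3
      linarith
  · intro ε hε
    obtain ⟨k, hk⟩ := exists_lt_of_ciInf_lt (show (⨅ k, g k) < (⨅ k, g k) + ε by linarith)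
    set L := ⨅ k, g k with hLdef
    have hk' : f (W (k + 1)) + D < (L + ε) * ((k + 1 : ℕ) : ℝ) := by
      rw [← div_lt_iff₀ (hpos k)]
      exact hk
    refine ⟨∑ r ∈ Finset.range (k + 1), f (W r), fun n w hw => ?_⟩
    have hr : n % (k + 1) < k + 1 := Nat.mod_lt _ (Nat.succ_pos k)
    have hB : ∀ u ∈ F (n % (k + 1)), f u ≤ ∑ r ∈ Finset.range (k + 1), f (W r) := by
      intro u hu
      refine (hWm _ u hu).trans ?_
      exact Finset.single_le_sum (f := fun r => f (W r)) (fun i _ => h0 _)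
        (Finset.mem_range.2 hr)
    have hn : (k + 1) * (n / (k + 1)) + n % (k + 1) = n := Nat.div_add_mod n (k + 1)
    have h5 := mul_ub hF h2 (hWm (k + 1)) hB (n / (k + 1)) w (by rw [hn]; exact hw)
    have h6 : ((n / (k + 1) : ℕ) : ℝ) * (f (W (k + 1)) + D) ≤ (L + ε) * n := by
      calc ((n / (k + 1) : ℕ) : ℝ) * (f (W (k + 1)) + D)
          ≤ ((n / (k + 1) : ℕ) : ℝ) * ((L + ε) * ((k + 1 : ℕ) : ℝ)) :=
            mul_le_mul_of_nonneg_left hk'.le (Nat.cast_nonneg _)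
        _ = (L + ε) * (((k + 1) * (n / (k + 1)) : ℕ) : ℝ) := by push_cast; ring
        _ ≤ (L + ε) * n := by
            refine mul_le_mul_of_nonneg_left ?_ (by linarith)
            exact_mod_cast Nat.mul_div_le n (k + 1)
    linarith

lemma lower {F : ℕ → Set (List ℕ)} (hF : Lang F) {f : List ℕ → ℝ} {D : ℝ} (hD : 0 ≤ D) (h0 : ∀ u, 0 ≤ f u)
    (h1 : ∀ u v, f u + f v ≤ f (u ++ v)) (h2 : ∀ u v, f (u ++ v) ≤ f u + f v + D) :
    ∃ l : ℝ, 0 ≤ l ∧ (∀ n, ∃ w ∈ F n, f w ≤ l * n) ∧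
      ∀ ε : ℝ, 0 < ε → ∃ C : ℝ, ∀ n, ∀ w ∈ F n, (l - ε) * n - C ≤ f w := by
  have hmax : ∀ n, ∃ w ∈ F n, ∀ u ∈ F n, f u ≤ f w := fun n =>
    Set.exists_max_image (F n) f (hF.fin n) (hF.nonempty n)
  choose W hW hWm using hmax
  have hmin : ∀ n, ∃ w ∈ F n, ∀ u ∈ F n, f w ≤ f u := fun n =>
    Set.exists_min_image (F n) f (hF.fin n) (hF.nonempty n)
  choose V hV hVm using hmin
  set g : ℕ → ℝ := fun k => f (V (k + 1)) / ((k + 1 : ℕ) : ℝ) with hg
  have hpos : ∀ k : ℕ, (0 : ℝ) < ((k + 1 : ℕ) : ℝ) := fun k => by positivity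
  have hbdd : BddAbove (Set.range g) := by
    refine ⟨f (W 1) + D + f (W 0), ?_⟩
    rintro _ ⟨k, rfl⟩
    rw [hg]
    simp only
    rw [div_le_iff₀ (hpos k)]
    have h3 := mul_ub (r := 0) hF h2 (hWm 1) (hWm 0) (k + 1) (V (k + 1))
      (by rw [Nat.one_mul]; exact hV (k + 1))
    have h4 : f (W 0) ≤ f (W 0) * ((k + 1 : ℕ) : ℝ) := by
      refine le_mul_of_one_le_right (h0 _) ?_
      exact_mod_cast Nat.succ_le_succ (Nat.zero_le k)
    nlinarith
  have hl0 : 0 ≤ ⨆ k, g k := by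
    refine le_trans ?_ (le_ciSup hbdd 0)
    exact div_nonneg (h0 _) (hpos 0).le
  refine ⟨⨆ k, g k, hl0, ?_, ?_⟩
  · intro n
    refine ⟨V n, hV n, ?_⟩
    cases n with
    | zero =>
      have h3 : V 0 = [] := List.length_eq_zero_iff.1 (hF.len 0 _ (hV 0))
      have h4 := h1 [] []
      rw [List.append_nil] at h4
      rw [h3]
      simp only [Nat.cast_zero, mul_zero]
      linarith
    | succ k =>
      have h3 : g k ≤ ⨆ k, g k := le_ciSup hbdd k
      rw [← div_le_iff₀ (hpos k)]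
      exact h3
  · intro ε hε
    by_cases hle : (⨆ k, g k) - ε ≤ 0
    · refine ⟨0, fun n w _ => ?_⟩
      have h3 := mul_nonpos_of_nonpos_of_nonneg hle (Nat.cast_nonneg (α := ℝ) n)
      have := h0 w
      linarith
    · push Not at hle
      obtain ⟨k, hk⟩ := exists_lt_of_lt_ciSup (show (⨆ k, g k) - ε < ⨆ k, g k by linarith)
      set l := ⨆ k, g k with hldef
      have hk' : (l - ε) * ((k + 1 : ℕ) : ℝ) < f (V (k + 1)) := by
        rw [← lt_div_iff₀ (hpos k)]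
        exact hk
      refine ⟨((k + 1 : ℕ) : ℝ) * (l - ε), fun n w hw => ?_⟩
      have hr : n % (k + 1) < k + 1 := Nat.mod_lt _ (Nat.succ_pos k)
      have hn : (k + 1) * (n / (k + 1)) + n % (k + 1) = n := Nat.div_add_mod n (k + 1)
      have h5 := mul_lb (r := n % (k + 1)) hF h0 h1 (hVm (k + 1)) (n / (k + 1)) w
        (by rw [hn]; exact hw)
      have h6 : (l - ε) * n - ((k + 1 : ℕ) : ℝ) * (l - ε) ≤
          ((n / (k + 1) : ℕ) : ℝ) * f (V (k + 1)) := by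
        calc (l - ε) * n - ((k + 1 : ℕ) : ℝ) * (l - ε)
            ≤ (l - ε) * (((k + 1) * (n / (k + 1)) : ℕ) : ℝ) := by
              have h7 : (n : ℝ) ≤ (((k + 1) * (n / (k + 1)) : ℕ) : ℝ) + ((k + 1 : ℕ) : ℝ) := by
                have : n ≤ (k + 1) * (n / (k + 1)) + (k + 1) := by omega
                exact_mod_cast this
              have h8 := mul_le_mul_of_nonneg_left h7 hle.le
              linarith
          _ = ((n / (k + 1) : ℕ) : ℝ) * ((l - ε) * ((k + 1 : ℕ) : ℝ)) := by push_cast; ring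
          _ ≤ ((n / (k + 1) : ℕ) : ℝ) * f (V (k + 1)) :=
              mul_le_mul_of_nonneg_left hk'.le (Nat.cast_nonneg _)
      linarith

end Pool.Agent.H2.MC
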