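import Mathlib
import Pool.Agent.H2.MC.LangA

set_option autoImplicit false

/-!
# Module RatB (130 lines): counting windows between two words without a long common factor

`F` a language, `b` a sequence such that all late windows are in `F` (`hev`) and every word of `F` occurs infinitely
often in `b` (`hrec`).

`dist_count`: For a word `z` of length `n` let `d z` be the least `s ≤ n` with `z.take (n-s) = h.drop s` (`s = n` always
works). `d h = 0`. By `hno`, `d l ≥ N1`. Take `N` with `win b i n ∈ F n` for `i ≥ N`, an occurrence `i1 ≥ N` of `h` and an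
occurrence `i2 ≥ i1` of `l`. Along the windows `z_i = win b i n` one has `d z_{i+1} ≤ d z_i + 1`: if `s = d z_i < n` then
`z_{i+1}.take (n-(s+1)) = (z_i.take (n-s)).drop 1 = (h.drop s).drop 1 = h.drop (s+1)` (use `win_take`, `win_drop`). So every
value `s < N1` is attained by some `z_i`, `i1 ≤ i ≤ i2` (discrete intermediate values: induction; e.g. take the least
`i ≥ i1` with `d z_i ≥ s`; then `d z_i = s`). These `N1` words are different (different `d`) and lie in the set.

`two_count`: the two sets `{z ∈ F n | ∃ s < N1, z.take (n-s) = h.drop s}` and the same for `l` have at least `N1` elements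
each by `dist_count` (the hypothesis `hno` of `dist_count` holds: if `l.take (n-s) = h.drop s`, `s < N1`, then this is a
common factor of `h` and `l` of length `n-s > n-N1`), and they are disjoint: if `z.take (n-s) = h.drop s` and
`z.take (n-s') = l.drop s'`, then `z.take (n - max s s')` is a common factor of `h` and `l`, of length `> n - N1`.
-/

namespace Pool.Agent.H2.MC

open Filter

lemma dist_count {F : ℕ → Set (List ℕ)} (hF : Lang F) {b : ℕ → ℕ}
    (hrec : ∀ n, ∀ w ∈ F n, ∃ᶠ i in atTop, win b i n = w) (hev : ∀ n, ∃ N, ∀ i, N ≤ i → win b i n ∈ F n)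
    {n N1 : ℕ} (hN : N1 ≤ n) {h l : List ℕ} (hh : h ∈ F n) (hl : l ∈ F n)
    (hno : ∀ s < N1, l.take (n - s) ≠ h.drop s) :
    N1 ≤ {z ∈ F n | ∃ s < N1, z.take (n - s) = h.drop s}.ncard := by
  classical
  have hlen : h.length = n := hF.len n h hh
  have hQn : ∀ z : List ℕ, ∃ s, z.take (n - s) = h.drop s := by
    intro z
    refine ⟨n, ?_⟩
    rw [Nat.sub_self, List.take_zero, List.drop_of_length_le (le_of_eq hlen)]
  obtain ⟨d, hd⟩ : ∃ d : List ℕ → ℕ, d = fun z => Nat.find (hQn z) := ⟨_, rfl⟩
  have hd1 : ∀ z, z.take (n - d z) = h.drop (d z) := by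
    intro z
    rw [hd]
    exact Nat.find_spec (hQn z)
  have hd2 : ∀ z s, z.take (n - s) = h.drop s → d z ≤ s := by
    intro z s hs
    rw [hd]
    exact Nat.find_min' (hQn z) hs
  have hdn : ∀ z, d z ≤ n := by
    intro z
    apply hd2
    rw [Nat.sub_self, List.take_zero, List.drop_of_length_le (le_of_eq hlen)]
  have hstep : ∀ i, d (win b (i + 1) n) ≤ d (win b i n) + 1 := by
    intro i
    rcases Nat.lt_or_ge (d (win b i n)) n with hlt | hge
    · apply hd2
      have h1 := hd1 (win b i n)
      rw [win_take b i (Nat.sub_le _ _)] at h1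
      rw [win_take b (i + 1) (Nat.sub_le _ _), ← List.drop_drop, ← h1]
      rw [win_drop b i (by omega : 1 ≤ n - d (win b i n))]
      congr 1
    · exact (hdn _).trans (by omega)
  obtain ⟨N, hN'⟩ := hev n
  obtain ⟨i1, hi1, hw1⟩ := (frequently_atTop.mp (hrec n h hh)) N
  obtain ⟨i2, hi2, hw2⟩ := (frequently_atTop.mp (hrec n l hl)) i1
  have hd0 : d (win b i1 n) = 0 := by
    have : d (win b i1 n) ≤ 0 := by
      apply hd2
      rw [hw1, Nat.sub_zero, List.drop_zero, List.take_of_length_le (le_of_eq hlen)]
    omega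
  have hdl : N1 ≤ d (win b i2 n) := by
    by_contra hcon
    have h1 := hd1 (win b i2 n)
    rw [hw2] at h1 hcon
    exact hno _ (by omega) h1
  have key : ∀ s, s < N1 → ∃ i, i1 ≤ i ∧ d (win b i n) = s := by
    intro s hs
    have hex : ∃ k, s ≤ d (win b (i1 + k) n) := by
      refine ⟨i2 - i1, ?_⟩
      have : i1 + (i2 - i1) = i2 := by omega
      rw [this]
      omega
    have hspec := Nat.find_spec hex
    have hmin := fun m hm => Nat.find_min (H := hex) (m := m) hm
    obtain ⟨k, hk⟩ : ∃ k, k = Nat.find hex := ⟨_, rfl⟩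
    rw [← hk] at hspec hmin
    refine ⟨i1 + k, by omega, ?_⟩
    cases k with
    | zero =>
      rw [Nat.add_zero] at hspec ⊢
      omega
    | succ k =>
      have h1 := hmin k (by omega)
      have h2 := hstep (i1 + k)
      rw [Nat.add_assoc] at h2
      omega
  choose! f hf1 hf2 using key
  have hsub : (fun s => win b (f s) n) '' (↑(Finset.range N1) : Set ℕ) ⊆
      {z ∈ F n | ∃ s < N1, z.take (n - s) = h.drop s} := by
    rintro z ⟨s, hs, rfl⟩
    rw [Finset.mem_coe, Finset.mem_range] at hs
    refine ⟨hN' _ (hi1.trans (hf1 s hs)), s, hs, ?_⟩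
    have h1 := hd1 (win b (f s) n)
    rw [hf2 s hs] at h1
    exact h1
  have hinj : Set.InjOn (fun s => win b (f s) n) (↑(Finset.range N1) : Set ℕ) := by
    intro s hs t ht hst
    rw [Finset.mem_coe, Finset.mem_range] at hs ht
    have h1 := congrArg d hst
    simp only at h1
    rw [hf2 s hs, hf2 t ht] at h1
    exact h1
  have hfin : {z ∈ F n | ∃ s < N1, z.take (n - s) = h.drop s}.Finite :=
    (hF.fin n).subset (Set.sep_subset _ _)
  have hc := Set.ncard_le_ncard hsub hfin
  rw [hinj.ncard_image, Set.ncard_coe_finset, Finset.card_range] at hc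
  exact hc

lemma two_count {F : ℕ → Set (List ℕ)} (hF : Lang F) {b : ℕ → ℕ}
    (hrec : ∀ n, ∀ w ∈ F n, ∃ᶠ i in atTop, win b i n = w) (hev : ∀ n, ∃ N, ∀ i, N ≤ i → win b i n ∈ F n)
    {n N1 : ℕ} (hN : N1 ≤ n) {h l : List ℕ} (hh : h ∈ F n) (hl : l ∈ F n)
    (hno : ∀ u : List ℕ, u <:+: h → u <:+: l → u.length + N1 ≤ n) :
    2 * N1 ≤ (F n).ncard := by
  have hlenh : h.length = n := hF.len n h hh
  have hlenl : l.length = n := hF.len n l hl
  have h1 := dist_count hF hrec hev hN hh hl (by
    intro s hs heq
    have h2 := hno (h.drop s) (List.drop_suffix s h).isInfix (by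
      rw [← heq]
      exact (List.take_prefix _ _).isInfix)
    rw [List.length_drop, hlenh] at h2
    omega)
  have h2 := dist_count hF hrec hev hN hl hh (by
    intro s hs heq
    have h2 := hno (l.drop s) (by
      rw [← heq]
      exact (List.take_prefix _ _).isInfix) (List.drop_suffix s l).isInfix
    rw [List.length_drop, hlenl] at h2
    omega)
  have hdisj : Disjoint {z ∈ F n | ∃ s < N1, z.take (n - s) = h.drop s}
      {z ∈ F n | ∃ s < N1, z.take (n - s) = l.drop s} := by
    rw [Set.disjoint_left]
    rintro z ⟨hz, s, hs, hzs⟩ ⟨_, t, ht, hzt⟩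
    have hlenz : z.length = n := hF.len n z hz
    have h3 := hno (z.take (n - max s t)) (by
      have hp : z.take (n - max s t) <+: z.take (n - s) := by
        apply List.take_prefix_take_left
        omega
      rw [hzs] at hp
      exact hp.isInfix.trans (List.drop_suffix s h).isInfix) (by
      have hp : z.take (n - max s t) <+: z.take (n - t) := by
        apply List.take_prefix_take_left
        omega
      rw [hzt] at hp
      exact hp.isInfix.trans (List.drop_suffix t l).isInfix)
    rw [List.length_take, hlenz] at h3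
    omega
  have hf1 : {z ∈ F n | ∃ s < N1, z.take (n - s) = h.drop s}.Finite :=
    (hF.fin n).subset (Set.sep_subset _ _)
  have hf2 : {z ∈ F n | ∃ s < N1, z.take (n - s) = l.drop s}.Finite :=
    (hF.fin n).subset (Set.sep_subset _ _)
  have h3 := Set.ncard_union_eq hdisj hf1 hf2
  have h4 := Set.ncard_le_ncard (Set.union_subset (Set.sep_subset (F n) _) (Set.sep_subset (F n) _) :
    {z ∈ F n | ∃ s < N1, z.take (n - s) = h.drop s} ∪ {z ∈ F n | ∃ s < N1, z.take (n - s) = l.drop s} ⊆ F n)
    (hF.fin n)
  omega

end Pool.Agent.H2.MC
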