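import Mathlib
import Pool.Agent.H2.MC.RatA
import Pool.Agent.H2.MC.RatB

set_option autoImplicit false

/-!
# Module RatC (110 lines): the growth rate is unique (Boshernitzan's argument)

PROOF. `L` from `upper`, `l` from `lower`. Claim `L ≤ l`. Suppose `l < L`. Put `θ = (2-κ)/4 > 0` (`κ ≥ 0` may be assumed, or use
`θ = min ((2-κ)/4) (1/2)`), `ε = (L-l) θ / 8`. For `n` with `ncard (F n) ≤ κ n` take `h ∈ F n` with `L n - D ≤ f h` and
`w ∈ F n` with `f w ≤ l n`. Let `u` be a factor of `h`, `h = h1 ++ u ++ h3`: `f u ≥ f h - f h1 - f h3 - 2D ≥ L n - 3D -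
(L+ε)(n - |u|) - 2C ≥ L |u| - ε n - (3D+2C)` (`h1, h3` are in `F |h1|`, `F |h3|`). If `u` is also a factor of `w = w1 ++ u ++
w3`: `f u ≤ f w - f w1 - f w3 ≤ l n - (l-ε)(n-|u|) + 2C' ≤ l |u| + ε n + 2C'`. So `(L-l)|u| ≤ 2 ε n + C''`, i.e.
`|u| ≤ θ n / 4 + C''/(L-l)`, which is `≤ θ n / 2` for large `n`. Put `N1 = n - ⌊θ n / 2⌋ ...`: choose `N1 ≤ n` natural with
`(1-θ) n ≤ N1` and `|u| + N1 ≤ n` for all such `u` (e.g. `N1 = n - ⌈θ n / 2⌉`, `n` large). `two_count`: `2 N1 ≤ ncard (F n) ≤ κ n`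
so `2 (1-θ) n ≤ κ n`, `2 - 2θ ≤ κ`, but `2θ ≤ (2-κ)/2 < 2-κ`: contradiction (for `n ≥ 1`).
Then with `lam = L`: for `ε > 0` use the second claims of `upper`, `lower` with `ε`: `f w ≤ (L+ε) n + C` and
`f w ≥ (l-ε) n - C' ≥ (L-ε) n - C'`.
-/

namespace Pool.Agent.H2.MC

open Filter

private lemma rate_split {F : ℕ → Set (List ℕ)} (hF : Lang F) {n : ℕ} {h h1 u h3 : List ℕ}
    (hh : h ∈ F n) (e : h1 ++ u ++ h3 = h) :
    h1 ∈ F h1.length ∧ h3 ∈ F h3.length ∧ h1.length + u.length + h3.length = n := by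
  have hlen := hF.len n h hh
  rw [← e, List.length_append, List.length_append] at hlen
  refine ⟨?_, ?_, hlen⟩
  · have h2 : h ∈ F (h1.length + (u.length + h3.length)) := by
      rw [← Nat.add_assoc, hlen]
      exact hh
    have h4 := hF.take_mem h2
    rw [← e, List.append_assoc, List.take_left] at h4
    exact h4
  · have h2 : h ∈ F ((h1.length + u.length) + h3.length) := by
      rw [hlen]
      exact hh
    have h4 := hF.drop_mem h2
    rw [← e, ← List.length_append, List.drop_left] at h4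
    exact h4

theorem rate {F : ℕ → Set (List ℕ)} (hF : Lang F) {b : ℕ → ℕ}
    (hrec : ∀ n, ∀ w ∈ F n, ∃ᶠ i in atTop, win b i n = w) (hev : ∀ n, ∃ N, ∀ i, N ≤ i → win b i n ∈ F n)
    {κ : ℝ} (hκ : κ < 2) (hc : ∃ᶠ n : ℕ in atTop, ((F n).ncard : ℝ) ≤ κ * n)
    {f : List ℕ → ℝ} {D : ℝ} (hD : 0 ≤ D) (h0 : ∀ u, 0 ≤ f u)
    (h1 : ∀ u v, f u + f v ≤ f (u ++ v)) (h2 : ∀ u v, f (u ++ v) ≤ f u + f v + D) :
    ∃ lam : ℝ, 0 ≤ lam ∧ ∀ ε : ℝ, 0 < ε → ∃ C : ℝ, ∀ n, ∀ w ∈ F n, |f w - lam * n| ≤ ε * n + C := by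
  obtain ⟨L, hL0, hL1, hL2⟩ := upper hF hD h0 h2
  obtain ⟨l, hl0, hl1, hl2⟩ := lower hF hD h0 h1 h2
  have hLl : L ≤ l := by
    by_contra hcon
    push Not at hcon
    have hLl0 : 0 < L - l := by linarith
    obtain ⟨θ, hθ⟩ : ∃ θ : ℝ, θ = min ((2 - κ) / 4) (1 / 2) := ⟨_, rfl⟩
    have hθ0 : 0 < θ := by
      rw [hθ]
      exact lt_min (by linarith) (by norm_num)
    have hθ1 : θ ≤ (2 - κ) / 4 := by
      rw [hθ]
      exact min_le_left _ _
    have hθ2 : θ ≤ 1 / 2 := by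
      rw [hθ]
      exact min_le_right _ _
    obtain ⟨ε, hε⟩ : ∃ ε : ℝ, ε = (L - l) * θ / 8 := ⟨_, rfl⟩
    have hε0 : 0 < ε := by
      rw [hε]
      positivity
    obtain ⟨C, hC⟩ := hL2 ε hε0
    obtain ⟨C', hC'⟩ := hl2 ε hε0
    obtain ⟨K, hK⟩ : ∃ K : ℝ, K = 3 * D + 2 * C + 2 * C' := ⟨_, rfl⟩
    -- a large `n` with few words
    have hlarge : ∀ᶠ n : ℕ in atTop, 4 * |K| / (θ * (L - l)) ≤ (n : ℝ) ∧
        8 / (2 - κ) < (n : ℝ) ∧ (2 : ℝ) ≤ n := by
      have e1 := (tendsto_natCast_atTop_atTop (R := ℝ)).eventually_ge_atTop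
        (4 * |K| / (θ * (L - l)))
      have e2 := (tendsto_natCast_atTop_atTop (R := ℝ)).eventually_gt_atTop (8 / (2 - κ))
      have e3 := (tendsto_natCast_atTop_atTop (R := ℝ)).eventually_ge_atTop (2 : ℝ)
      filter_upwards [e1, e2, e3] with n g1 g2 g3
      exact ⟨g1, g2, g3⟩
    obtain ⟨n, hn, hn1, hn2, hn3⟩ := (hc.and_eventually hlarge).exists
    obtain ⟨h, hh, hhL⟩ := hL1 n
    obtain ⟨w, hw, hwl⟩ := hl1 n
    have hn0 : (0 : ℝ) < n := by linarith
    -- common factors are short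
    have hshort : ∀ u : List ℕ, u <:+: h → u <:+: w → (u.length : ℝ) ≤ θ * n / 2 := by
      intro u hu hu'
      obtain ⟨a1, a3, ea⟩ := hu
      obtain ⟨b1, b3, eb⟩ := hu'
      obtain ⟨ma1, ma3, la⟩ := rate_split hF hh ea
      obtain ⟨mb1, mb3, lb⟩ := rate_split hF hw eb
      have la' : (a1.length : ℝ) + u.length + a3.length = n := by exact_mod_cast la
      have lb' : (b1.length : ℝ) + u.length + b3.length = n := by exact_mod_cast lb
      have f1 : f h ≤ f a1 + f u + D + f a3 + D := by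
        have g1 := h2 (a1 ++ u) a3
        have g2 := h2 a1 u
        rw [ea] at g1
        linarith
      have f2 := hC _ a1 ma1
      have f3 := hC _ a3 ma3
      have f4 : f b1 + f u + f b3 ≤ f w := by
        have g1 := h1 (b1 ++ u) b3
        have g2 := h1 b1 u
        rw [eb] at g1
        linarith
      have f5 := hC' _ b1 mb1
      have f6 := hC' _ b3 mb3
      have hu0 : (0 : ℝ) ≤ u.length := by positivity
      have s1 : L * u.length - ε * n - 3 * D - 2 * C ≤ f u := by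
        have g1 : (L + ε) * a1.length + (L + ε) * a3.length = (L + ε) * (n - u.length) := by
          rw [← la']
          ring
        have g2 : 0 ≤ ε * u.length := by positivity
        nlinarith
      have s2 : f u ≤ l * u.length + ε * n + 2 * C' := by
        have g1 : (l - ε) * b1.length + (l - ε) * b3.length = (l - ε) * (n - u.length) := by
          rw [← lb']
          ring
        have g2 : 0 ≤ ε * u.length := by positivity
        nlinarith
      have s3 : (L - l) * u.length ≤ 2 * ε * n + K := by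
        rw [hK]
        linarith
      have s4 : 4 * |K| ≤ n * (θ * (L - l)) := by
        rwa [div_le_iff₀ (by positivity)] at hn1
      have s5 : K ≤ |K| := le_abs_self K
      have s6 : (L - l) * u.length ≤ (L - l) * (θ * n / 2) := by
        rw [hε] at s3
        nlinarith
      exact le_of_mul_le_mul_left s6 hLl0
    obtain ⟨m, hm⟩ : ∃ m : ℕ, m = ⌈θ * n / 2⌉₊ := ⟨_, rfl⟩
    have hm1 : (m : ℝ) < θ * n / 2 + 1 := by
      rw [hm]
      exact Nat.ceil_lt_add_one (by positivity)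
    have hm2 : θ * n / 2 ≤ (m : ℝ) := by
      rw [hm]
      exact Nat.le_ceil _
    have hmn : m ≤ n := by
      have g1 : (m : ℝ) < n + 1 := by nlinarith
      have g2 : m < n + 1 := by exact_mod_cast g1
      omega
    have htwo := two_count hF hrec hev (n := n) (N1 := n - m) (Nat.sub_le _ _) hh hw (by
      intro u hu hu'
      have g1 := hshort u hu hu'
      have g2 : (u.length : ℝ) ≤ (m : ℝ) := g1.trans hm2
      have g3 : u.length ≤ m := by exact_mod_cast g2
      omega)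
    have htwo' : 2 * ((n : ℝ) - m) ≤ ((F n).ncard : ℝ) := by
      have g1 : ((2 * (n - m) : ℕ) : ℝ) ≤ ((F n).ncard : ℝ) := by exact_mod_cast htwo
      rw [Nat.cast_mul, Nat.cast_sub hmn] at g1
      push_cast at g1
      exact g1
    have h3 : 2 * ((n : ℝ) - m) ≤ κ * n := htwo'.trans hn
    have h4 : 8 < n * (2 - κ) := by
      rwa [div_lt_iff₀ (by linarith)] at hn2
    nlinarith [mul_le_mul_of_nonneg_right hθ1 hn0.le]
  refine ⟨L, hL0, fun ε hε => ?_⟩
  obtain ⟨C1, hC1⟩ := hL2 ε hε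
  obtain ⟨C2, hC2⟩ := hl2 ε hε
  refine ⟨max C1 C2, fun n w hw => ?_⟩
  have g1 := hC1 n w hw
  have g2 := hC2 n w hw
  have g3 : L * (n : ℝ) ≤ l * n := mul_le_mul_of_nonneg_right hLl (Nat.cast_nonneg n)
  have g4 := le_max_left C1 C2
  have g5 := le_max_right C1 C2
  rw [abs_le]
  constructor
  · linarith
  · linarith

end Pool.Agent.H2.MC
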