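import Mathlib

set_option autoImplicit false

/-!
# Module RatD (100 lines): from late windows to all windows (Mathlib only)

`x i n` is the weight of the window `[i, i+n)`; it is almost additive. If the late windows of every fixed length have the
rate `lam` (`hl`), then all windows have the rate `lam`.

PROOF. `x i n ≤ n (B + D)` for all `i, n` by induction (`x i 0 ≤ 0` follows from `h1` with `m = n = 0`: `x i 0 + x i 0 ≤ x i 0`).
Given `ε`, let `C` be the constant of `hl` for `ε/4`, choose `N0 ≥ 1` with `(C + D) / N0 ≤ ε/4`, and `I` with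
`|x i N0 - lam N0| ≤ ε/4 N0 + C ≤ ε/2 N0` for `i ≥ I`. For a window `[i, i+n)`: if `n < I + N0` both `x i n` and `lam n` are bounded
by a constant. In general write `n = n0 + q N0 + r`, `n0 = min n (I - i)` (natural subtraction), `r < N0`. By `h1`, `h2`
(induction on `q`): `Σ + 0 ≤ x i n ≤ x i n0 + Σ + x (..) r + (q+1) D` where `Σ` is the sum of the `q` blocks `x (..) N0`, all
starting at positions `≥ I`. So `|Σ - lam q N0| ≤ q (ε/2) N0`, and `q D ≤ (ε/4) q N0`, `q N0 ≤ n`, and `lam n - lam q N0 = lam (n0 + r) ≤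
lam (I + N0)`, `x i n0 + x (..) r ≤ (I + N0)(B + D)`.
-/

namespace Pool.Agent.H2.MC

private lemma rate_all_lin {x : ℕ → ℕ → ℝ} {D B : ℝ} (h0 : ∀ i n, 0 ≤ x i n)
    (h1 : ∀ i m n, x i m + x (i + m) n ≤ x i (m + n)) (h2 : ∀ i m n, x i (m + n) ≤ x i m + x (i + m) n + D)
    (hB : ∀ i, x i 1 ≤ B) : (∀ i, x i 0 = 0) ∧ ∀ i n, x i n ≤ n * (B + D) := by
  have hz : ∀ i, x i 0 = 0 := by
    intro i
    have h := h1 i 0 0
    simp only [Nat.add_zero] at h
    have := h0 i 0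
    linarith
  refine ⟨hz, ?_⟩
  intro i n
  induction n with
  | zero => rw [hz]; simp
  | succ n ih =>
    have h := h2 i n 1
    have h' := hB (i + n)
    push_cast
    linarith

private lemma rate_all_blocks {x : ℕ → ℕ → ℝ} {D lam e : ℝ} {N0 I : ℕ}
    (hz : ∀ i, x i 0 = 0)
    (h1 : ∀ i m n, x i m + x (i + m) n ≤ x i (m + n)) (h2 : ∀ i m n, x i (m + n) ≤ x i m + x (i + m) n + D)
    (hb : ∀ i, I ≤ i → |x i N0 - lam * N0| ≤ e) (q : ℕ) (j : ℕ) (hj : I ≤ j) :
    lam * (q * N0) - q * e ≤ x j (q * N0) ∧ x j (q * N0) ≤ lam * (q * N0) + q * e + q * D := by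
  induction q with
  | zero => simp [hz]
  | succ q ih =>
    have hb' := abs_le.mp (hb (j + q * N0) (le_trans hj (Nat.le_add_right _ _)))
    have a1 := h1 j (q * N0) N0
    have a2 := h2 j (q * N0) N0
    have hq : (q + 1) * N0 = q * N0 + N0 := by ring
    rw [hq]
    push_cast
    constructor
    · nlinarith [ih.1, hb'.1]
    · nlinarith [ih.2, hb'.2]

lemma rate_all {x : ℕ → ℕ → ℝ} {D B lam : ℝ} (hD : 0 ≤ D) (hlam : 0 ≤ lam) (h0 : ∀ i n, 0 ≤ x i n)
    (h1 : ∀ i m n, x i m + x (i + m) n ≤ x i (m + n)) (h2 : ∀ i m n, x i (m + n) ≤ x i m + x (i + m) n + D)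
    (hB : ∀ i, x i 1 ≤ B)
    (hl : ∀ ε : ℝ, 0 < ε → ∃ C : ℝ, ∀ n : ℕ, ∃ I : ℕ, ∀ i, I ≤ i → |x i n - lam * n| ≤ ε * n + C) :
    ∀ ε : ℝ, 0 < ε → ∃ C : ℝ, ∀ i n : ℕ, |x i n - lam * n| ≤ ε * n + C := by
  intro ε hε
  obtain ⟨hz, hlin⟩ := rate_all_lin h0 h1 h2 hB
  have hB0 : 0 ≤ B := le_trans (h0 0 1) (hB 0)
  obtain ⟨C, hC⟩ := hl (ε / 4) (by positivity)
  have hC0 : 0 ≤ C := by
    obtain ⟨I, hI⟩ := hC 0
    have h := hI I le_rfl
    rw [hz] at h
    simp only [Nat.cast_zero, mul_zero, sub_zero, abs_zero, zero_add] at h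
    exact h
  obtain ⟨N0, hN0⟩ := exists_nat_gt ((C + D) / (ε / 4))
  have hN0r : C + D ≤ ε / 4 * N0 := by
    rw [div_lt_iff₀ (by positivity)] at hN0
    linarith
  have hN0pos : 0 < N0 := by
    rcases Nat.eq_zero_or_pos N0 with h | h
    · rw [h] at hN0
      have : 0 ≤ (C + D) / (ε / 4) := by positivity
      simp only [Nat.cast_zero] at hN0
      linarith
    · exact h
  obtain ⟨I, hI⟩ := hC N0
  have hblock : ∀ i, I ≤ i → |x i N0 - lam * N0| ≤ ε / 2 * N0 := by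
    intro i hi
    have h := hI i hi
    linarith
  refine ⟨(I + N0) * (B + D) + 2 * D + lam * (I + N0), ?_⟩
  intro i n
  obtain ⟨n0, m, hnm, hn0I, hm⟩ : ∃ n0 m : ℕ, n = n0 + m ∧ n0 ≤ I ∧ (0 < m → I ≤ i + n0) := by
    refine ⟨min n (I - i), n - min n (I - i), by omega, by omega, fun h => by omega⟩
  obtain ⟨q, r, hqr, hr, hq⟩ : ∃ q r : ℕ, m = q * N0 + r ∧ r < N0 ∧ (0 < q → 0 < m) := by
    refine ⟨m / N0, m % N0, ?_, Nat.mod_lt _ hN0pos, ?_⟩
    · rw [mul_comm]; exact (Nat.div_add_mod m N0).symm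
    · intro h
      by_contra hm0
      have : m = 0 := by omega
      rw [this] at h
      simp at h
  have hcore : lam * (q * N0) - q * (ε / 2 * N0) ≤ x (i + n0) (q * N0) ∧
      x (i + n0) (q * N0) ≤ lam * (q * N0) + q * (ε / 2 * N0) + q * D := by
    rcases Nat.eq_zero_or_pos q with h | h
    · subst h
      simp [hz]
    · exact rate_all_blocks hz h1 h2 hblock q (i + n0) (hm (hq h))
  have b1 := h1 i n0 m
  have b2 := h2 i n0 m
  have b3 := h1 (i + n0) (q * N0) r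
  have b4 := h2 (i + n0) (q * N0) r
  rw [← hqr] at b3 b4
  rw [← hnm] at b1 b2
  have p1 := h0 i n0
  have p2 := h0 (i + n0 + q * N0) r
  have u1 := hlin i n0
  have u2 := hlin (i + n0 + q * N0) r
  have hBD : 0 ≤ B + D := by linarith
  have u1' : (n0 : ℝ) * (B + D) ≤ I * (B + D) :=
    mul_le_mul_of_nonneg_right (by exact_mod_cast hn0I) hBD
  have u2' : (r : ℝ) * (B + D) ≤ N0 * (B + D) :=
    mul_le_mul_of_nonneg_right (by exact_mod_cast hr.le) hBD
  have hn : (n : ℝ) = n0 + (q * N0 + r) := by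
    rw [hnm, hqr]; push_cast; ring
  have hqD : (q : ℝ) * D ≤ q * (ε / 4 * N0) :=
    mul_le_mul_of_nonneg_left (by linarith) (by positivity)
  have l1 : lam * (n0 : ℝ) ≤ lam * I := mul_le_mul_of_nonneg_left (by exact_mod_cast hn0I) hlam
  have l2 : lam * (r : ℝ) ≤ lam * N0 := mul_le_mul_of_nonneg_left (by exact_mod_cast hr.le) hlam
  have l0 : 0 ≤ lam * (n0 : ℝ) := by positivity
  have l3 : 0 ≤ lam * (r : ℝ) := by positivity
  have l4 : 0 ≤ lam * (I : ℝ) := by positivity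
  have l5 : 0 ≤ lam * (N0 : ℝ) := by positivity
  have e0 : 0 ≤ ε * (n0 : ℝ) := by positivity
  have e1 : 0 ≤ ε * (r : ℝ) := by positivity
  have e2 : 0 ≤ ε * ((q : ℝ) * N0) := by positivity
  have w1 : 0 ≤ (I : ℝ) * (B + D) := by positivity
  have w2 : 0 ≤ (N0 : ℝ) * (B + D) := by positivity
  rw [abs_le]
  constructor
  · rw [hn]
    nlinarith [hcore.1]
  · rw [hn]
    nlinarith [hcore.2]

end Pool.Agent.H2.MC
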