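import Mathlib
import Pool.Agent.H2.MC.DioA

set_option autoImplicit false

/-!
# The weight: logarithm of the continuant
-/

namespace Pool.Agent.H2.MC

open Filter Pool.Agent.H2.Sturm

/-- The weight: logarithm of the continuant (letters `0` are replaced by `1` to have it additive for all words). -/
noncomputable def wt (w : List ℕ) : ℝ := Real.log (siz (w.map (fun x => max 1 x)))

lemma map_max_pos (w : List ℕ) : ∀ x ∈ w.map (fun x => max 1 x), 0 < x := by
  intro x hx
  rw [List.mem_map] at hx
  obtain ⟨y, _, rfl⟩ := hx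
  exact lt_of_lt_of_le one_pos (le_max_left _ _)

lemma wt_nonneg (w : List ℕ) : 0 ≤ wt w := by
  unfold wt
  apply Real.log_nonneg
  exact_mod_cast siz_pos (map_max_pos w)

lemma wt_append_ge (u v : List ℕ) : wt u + wt v ≤ wt (u ++ v) := by
  unfold wt
  have hu : (0 : ℝ) < siz (u.map (fun x => max 1 x)) := by exact_mod_cast siz_pos (map_max_pos u)
  have hv : (0 : ℝ) < siz (v.map (fun x => max 1 x)) := by exact_mod_cast siz_pos (map_max_pos v)
  rw [← Real.log_mul hu.ne' hv.ne', List.map_append]
  apply Real.log_le_log (by positivity)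
  exact_mod_cast siz_append_ge _ _

lemma wt_append_le (u v : List ℕ) : wt (u ++ v) ≤ wt u + wt v + Real.log 2 := by
  unfold wt
  have hu : (0 : ℝ) < siz (u.map (fun x => max 1 x)) := by exact_mod_cast siz_pos (map_max_pos u)
  have hv : (0 : ℝ) < siz (v.map (fun x => max 1 x)) := by exact_mod_cast siz_pos (map_max_pos v)
  have huv : (0 : ℝ) < siz ((u ++ v).map (fun x => max 1 x)) := by exact_mod_cast siz_pos (map_max_pos (u ++ v))
  rw [← Real.log_mul hu.ne' hv.ne', ← Real.log_mul (by positivity) (by norm_num)]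
  apply Real.log_le_log huv
  rw [List.map_append]
  have := siz_append_le (map_max_pos u) (map_max_pos v)
  have h2 : ((siz (u.map (fun x => max 1 x) ++ v.map (fun x => max 1 x)) : ℕ) : ℝ)
      ≤ ((2 * (siz (u.map (fun x => max 1 x)) * siz (v.map (fun x => max 1 x))) : ℕ) : ℝ) := by exact_mod_cast this
  push_cast at h2
  linarith

lemma wt_eq {w : List ℕ} (h : ∀ x ∈ w, 0 < x) : wt w = Real.log (siz w) := by
  unfold wt
  have : w.map (fun x => max 1 x) = w := by
    have h1 : w.map (fun x => max 1 x) = w.map id := by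
      apply List.map_congr_left
      intro x hx
      exact max_eq_right (h x hx)
    rw [h1, List.map_id]
  rw [this]

lemma wt_growth (w : List ℕ) : ((w.length : ℝ) - 1) / 2 * Real.log 2 ≤ wt w := by
  unfold wt
  have h1 := siz_growth _ (map_max_pos w)
  rw [List.length_map] at h1
  have h2 := exp_half_le w.length h1
  have h3 : (0 : ℝ) < siz (w.map (fun x => max 1 x)) := by exact_mod_cast siz_pos (map_max_pos w)
  rw [← Real.log_exp (((w.length : ℝ) - 1) / 2 * Real.log 2)]
  exact Real.log_le_log (Real.exp_pos _) h2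

lemma wt_reverse (w : List ℕ) : wt w.reverse = wt w := by
  unfold wt
  rw [List.map_reverse, siz_reverse]

lemma wt_singleton {x : ℕ} (h : 0 < x) : wt [x] = Real.log x := by
  rw [wt_eq (by simpa using h)]
  have h2 : siz [x] = x := by unfold siz; rw [cfMat_cons_00]; simp [cfMat_nil]
  rw [h2]

lemma win_one (b : ℕ → ℕ) (i : ℕ) : win b i 1 = [b i] := by
  rw [show (1 : ℕ) = 0 + 1 from rfl, win_succ]; simp

/-- A growth rate of a language is positive. -/
lemma rate_pos {F : ℕ → Set (List ℕ)} (hF : ∀ n, (F n).Nonempty) (hlen : ∀ n, ∀ w ∈ F n, w.length = n) {lam : ℝ}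
    (hlam0 : 0 ≤ lam) (hlam : ∀ ε : ℝ, 0 < ε → ∃ C : ℝ, ∀ n, ∀ w ∈ F n, |wt w - lam * n| ≤ ε * n + C) :
    0 < lam := by
  have hl2 : 0 < Real.log 2 := Real.log_pos (by norm_num)
  obtain ⟨C, hC⟩ := hlam (Real.log 2 / 4) (by positivity)
  by_contra hneg
  have hl0 : lam = 0 := le_antisymm (not_lt.mp hneg) hlam0
  obtain ⟨n, hn⟩ := exists_nat_gt ((C + Real.log 2) / (Real.log 2 / 4))
  obtain ⟨w, hw⟩ := hF n
  have h1 := hC n w hw
  have h2 := wt_growth w
  rw [hlen n w hw] at h2
  rw [hl0, zero_mul, sub_zero] at h1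
  have h3 := le_trans (le_abs_self _) h1
  rw [div_lt_iff₀ (by positivity)] at hn
  linarith

end Pool.Agent.H2.MC
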