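import Mathlib
import Pool.Agent.H2.MC.CombF
import Pool.Agent.H2.MC.RatC
import Pool.Agent.H2.MC.RatD
import Pool.Agent.H2.MC.DioF
import Pool.Agent.H2.MC.Quad
import Pool.Agent.H2.MC.Wt

set_option autoImplicit false

/-!
# Theorem A: all pairs of low joint complexity
-/

namespace Pool.Agent.H2.MC

open Filter Pool.Agent.H2.Sturm

/-- Rates of all windows from the rates of the words of the language which contains the late windows. -/
lemma win_rate {F : ℕ → Set (List ℕ)} {b : ℕ → ℕ} {M : ℕ} (hb0 : ∀ n, 0 < b n) (hM : ∀ n, b n ≤ M) {lam : ℝ}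
    (hlam0 : 0 ≤ lam) (hlam : ∀ ε : ℝ, 0 < ε → ∃ C : ℝ, ∀ n, ∀ w ∈ F n, |wt w - lam * n| ≤ ε * n + C)
    (hev : ∀ n, ∃ N, ∀ i, N ≤ i → win b i n ∈ F n ∨ mir b i n ∈ F n) :
    ∀ ε : ℝ, 0 < ε → ∃ C : ℝ, ∀ i n : ℕ, |Real.log (siz (win b i n)) - lam * n| ≤ ε * n + C := by
  have hlog2 : 0 ≤ Real.log 2 := Real.log_nonneg (by norm_num)
  have key : ∀ ε : ℝ, 0 < ε → ∃ C : ℝ, ∀ i n : ℕ, |wt (win b i n) - lam * n| ≤ ε * n + C := by
    refine rate_all (x := fun i n => wt (win b i n)) (B := Real.log (M + 1)) hlog2 hlam0 (fun i n => wt_nonneg _)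
      ?_ ?_ ?_ ?_
    · intro i m n; rw [win_add]; exact wt_append_ge _ _
    · intro i m n; rw [win_add]; exact wt_append_le _ _
    · intro i
      rw [win_one, wt_singleton (hb0 i)]
      apply Real.log_le_log (by exact_mod_cast hb0 i)
      have : (b i : ℝ) ≤ M := by exact_mod_cast hM i
      linarith
    · intro ε hε
      obtain ⟨C, hC⟩ := hlam ε hε
      refine ⟨C, fun n => ?_⟩
      obtain ⟨N, hN⟩ := hev n
      refine ⟨N, fun i hi => ?_⟩
      rcases hN i hi with h1 | h1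
      · exact hC n _ h1
      · have := hC n _ h1
        rwa [mir, wt_reverse] at this
  intro ε hε
  obtain ⟨C, hC⟩ := key ε hε
  exact ⟨C, fun i n => by rw [← wt_eq (win_pos hb0 i n)]; exact hC i n⟩

theorem thmA {α β : ℝ} (hα : NotQuad α) (hβ : NotQuad β) {c κ : ℝ} (hc0 : 0 ≤ c) (hc1 : c < 1)
    (hκ : κ < 2 / (1 + c))
    (h : ∃ᶠ n : ℕ in atTop, (Occ (pq α) (pq β) n).Finite ∧
      ((Rec (pq α) (pq β) n).ncard : ℝ) +
        2 / (1 - c) * (((Occ (pq α) (pq β) n).ncard : ℝ) - (Rec (pq α) (pq β) n).ncard) ≤ κ * n) :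
    PowerLittlewood c α β := by
  set b := pq α with hb
  set a := pq β with ha
  have hbp : ¬ EvPer b := not_evPer hα
  have hap : ¬ EvPer a := not_evPer hβ
  have hb0 : ∀ n, 0 < b n := pq_pos hα
  have ha0 : ∀ n, 0 < a n := pq_pos hβ
  have hκ2 : κ < 2 := by
    refine lt_of_lt_of_le hκ ?_
    rw [div_le_iff₀ (by linarith)]
    linarith
  have hw2 : 2 ≤ 2 / (1 - c) := by
    rw [le_div_iff₀ (by linarith)]
    linarith
  -- bounded digits
  obtain ⟨n0, hn0, hn0f, _⟩ := (h.and_eventually (eventually_ge_atTop 1)).exists.imp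
    (fun n hn => (⟨hn.2, hn.1.1, trivial⟩ : 1 ≤ n ∧ (Occ b a n).Finite ∧ True))
  obtain ⟨M, hM⟩ := bd_of_Occ_finite hn0 hn0f
  have hc' : ∃ᶠ n : ℕ in atTop, ((Rec b a n).ncard : ℝ) + 2 / (1 - c) * (Tr b a n).ncard ≤ κ * n := by
    refine h.mono (fun n hn => ?_)
    have h1 := occ_card hM n
    have h2 : ((Occ b a n).ncard : ℝ) = (Rec b a n).ncard + (Tr b a n).ncard := by exact_mod_cast h1
    have h3 := hn.2
    rw [h2] at h3
    simpa using h3
  have hcomb := comb_fine hM hbp hap hκ2 hw2 hc'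
  have hfs := freq_slope_w hM hbp hκ2 hw2 hc'
  have hrecEq := recEq hM hbp hap (hfs.mono (fun n hn => hn.1))
  have hF := lang_Rec hM
  have hrec : ∀ n, ∀ w ∈ Rec b a n, ∃ᶠ i in atTop, win b i n = w := by
    intro n w hw
    rw [← (hrecEq n).1] at hw
    exact hw
  have hev : ∀ n, ∃ N, ∀ i, N ≤ i → win b i n ∈ Rec b a n := by
    intro n
    obtain ⟨N, hN⟩ := ev_RecB hM.1 n
    exact ⟨N, fun i hi => Or.inl (hN i hi)⟩
  have hevA : ∀ n, ∃ N, ∀ i, N ≤ i → mir a i n ∈ Rec b a n := by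
    intro n
    obtain ⟨N, hN⟩ := ev_RecA hM.2 n
    exact ⟨N, fun i hi => Or.inr (hN i hi)⟩
  have hcard : ∃ᶠ n : ℕ in atTop, ((Rec b a n).ncard : ℝ) ≤ κ * n := by
    refine hc'.mono (fun n hn => ?_)
    have h1 : (0 : ℝ) ≤ 2 / (1 - c) * (Tr b a n).ncard := by positivity
    linarith
  have hlog2 : 0 ≤ Real.log 2 := Real.log_nonneg (by norm_num)
  obtain ⟨lam, hlam0, hlam⟩ := rate hF hrec hev hκ2 hcard hlog2 wt_nonneg wt_append_ge wt_append_le
  have hlampos : 0 < lam := rate_pos hF.nonempty (fun n w hw => Rec_length hw) hlam0 hlam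
  have hxB := win_rate hb0 hM.1 hlam0 hlam (fun n => (hev n).imp (fun N hN i hi => Or.inl (hN i hi)))
  have hxA := win_rate ha0 hM.2 hlam0 hlam (fun n => (hevA n).imp (fun N hN i hi => Or.inr (hN i hi)))
  refine final_fine hb0 ha0 hlampos ?_ hc0 hc1 hκ hcomb
  intro ε hε
  obtain ⟨C, hC⟩ := hxB ε hε
  obtain ⟨C', hC'⟩ := hxA ε hε
  exact ⟨max C C', fun i n => ⟨(hC i n).trans (by gcongr; exact le_max_left _ _),
    (hC' i n).trans (by gcongr; exact le_max_right _ _)⟩⟩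

end Pool.Agent.H2.MC
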