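import Mathlib
import Pool.Agent.H2.MC.DioA

set_option autoImplicit false

/-!
# Module DioC (110 lines): the power gain for pairs with mirrored words at small distance

`MirrorClose b a`: for every `k` there is `M` such that for every `N` there are `l ≥ N`, `i`, `j` with `(k+1)(i+j) ≤ l + M` and
`win b i l = mir a j l`.

PROOF. `|q α - round (q α)| = nd (q α)` by definition. May assume `0 ≤ c < 1` (replace `c` by `max c 0`). `siz w ≤ (A+1)^|w|` for
a word with letters in `[1, A]` (`Sturm.siz_append_le` or induction with `cfMat_cons_00`: `siz (a :: w) = a siz w + cfMat w 1 0 ≤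
(A+1) siz w` by `Sturm.cfMat_ineq`), and `2^(l/2) ≤ siz w` (`Sturm.siz_growth`). Let `q` be from `mirror`:
`q^(1+c) nd nd = q^c (q nd nd) ≤ (8 s1 s2 s3)^c · 32 s1 s2 / s3 ≤ 256 (s1 s2)^2 s3^(c-1)` with `s1 s2 ≤ (A+1)^(i+j) ≤
(A+1)^((l+M)/(k+1))` and `s3 ≥ 2^((l-1)/2)`. So the logarithm is `≤ log 256 + 2 log (A+1) (l+M)/(k+1) - (1-c) (l-1)/2 · log 2`.
Choose `k` with `2 log (A+1)/(k+1) ≤ (1-c) (log 2)/4`; then this tends to `-∞` with `l → ∞`. `q ≥ s3 ≥ 2^((l-1)/2) → ∞`.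
-/

namespace Pool.Agent.H2.MC

open Filter Pool.Agent.H2.Sturm

/-- Mirrored words of length `l → ∞` at positions `i`, `j` with `(i + j) / l → 0`. -/
def MirrorClose (b a : ℕ → ℕ) : Prop :=
  ∀ k : ℕ, ∃ M : ℕ, ∀ N : ℕ, ∃ l, N ≤ l ∧ ∃ i j : ℕ, (k + 1) * (i + j) ≤ l + M ∧ win b i l = mir a j l

private lemma win_bd {s : ℕ → ℕ} {A : ℕ} (hs : ∀ n, 0 < s n ∧ s n ≤ A) (i l : ℕ) :
    ∀ x ∈ win s i l, 0 < x ∧ x ≤ A := by
  intro x hx
  unfold win at hx
  rw [List.mem_map] at hx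
  obtain ⟨k, -, rfl⟩ := hx
  exact hs _

private lemma siz_le_pow (A : ℕ) (w : List ℕ) (h : ∀ x ∈ w, 0 < x ∧ x ≤ A) :
    siz w ≤ (A + 1) ^ w.length := by
  induction w with
  | nil => simp [siz, cfMat_nil]
  | cons a w ih =>
    have h1 : siz (a :: w) = a * siz w + cfMat w 1 0 := cfMat_cons_00 a w
    have h2 : cfMat w 1 0 ≤ siz w :=
      (cfMat_ineq w (fun x hx => (h x (List.mem_cons_of_mem _ hx)).1)).2.2.1
    have h3 := ih (fun x hx => h x (List.mem_cons_of_mem _ hx))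
    have h4 : a ≤ A := (h a (by simp)).2
    rw [h1, List.length_cons]
    calc a * siz w + cfMat w 1 0 ≤ A * siz w + siz w := Nat.add_le_add (Nat.mul_le_mul_right _ h4) h2
      _ = (A + 1) * siz w := by ring
      _ ≤ (A + 1) * (A + 1) ^ w.length := Nat.mul_le_mul_left _ h3
      _ = (A + 1) ^ (w.length + 1) := by ring

/-- the basic estimate: `Q ^ (1 + c) a b` with `s3 ≤ Q ≤ 8 s12 s3`, `Q a b ≤ 32 s12 / s3` -/
private lemma dioc_est {c Q a b s12 s3 : ℝ} (hc0 : 0 ≤ c) (hc1 : c < 1) (hs12 : 1 ≤ s12)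
    (hs3 : 1 ≤ s3) (hQ1 : s3 ≤ Q) (hQ : Q ≤ 8 * (s12 * s3)) (hab : 0 ≤ a * b)
    (h : Q * a * b ≤ 32 * s12 / s3) :
    Q ^ (1 + c) * a * b ≤ 256 * s12 ^ 2 * s3 ^ (c - 1) := by
  have hQpos : 0 < Q := by linarith
  have hs3pos : 0 < s3 := by linarith
  have hs12pos : 0 < s12 := by linarith
  have h1 : Q ^ (1 + c) = Q ^ c * Q := by
    rw [Real.rpow_add hQpos, Real.rpow_one, mul_comm]
  have h2 : Q ^ c ≤ (8 * (s12 * s3)) ^ c := Real.rpow_le_rpow hQpos.le hQ hc0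
  have h3 : (8 * (s12 * s3)) ^ c = (8 * s12) ^ c * s3 ^ c := by
    rw [← mul_assoc, Real.mul_rpow (by positivity) hs3pos.le]
  have h4 : (8 * s12) ^ c ≤ 8 * s12 := by
    calc (8 * s12) ^ c ≤ (8 * s12) ^ (1 : ℝ) :=
          Real.rpow_le_rpow_of_exponent_le (by linarith) hc1.le
      _ = 8 * s12 := Real.rpow_one _
  have h5 : Q ^ c ≤ 8 * s12 * s3 ^ c := by
    rw [h3] at h2
    exact h2.trans (mul_le_mul_of_nonneg_right h4 (Real.rpow_nonneg hs3pos.le _))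
  have h6 : 0 ≤ Q * a * b := by
    rw [mul_assoc]
    exact mul_nonneg hQpos.le hab
  calc Q ^ (1 + c) * a * b = Q ^ c * (Q * a * b) := by rw [h1]; ring
    _ ≤ (8 * s12 * s3 ^ c) * (32 * s12 / s3) := by
      refine mul_le_mul h5 h h6 ?_
      have := Real.rpow_nonneg hs3pos.le c
      positivity
    _ = 256 * s12 ^ 2 * s3 ^ (c - 1) := by
      rw [Real.rpow_sub hs3pos, Real.rpow_one]
      field_simp
      ring

lemma final_small {α β : ℝ} {A : ℕ} (hα : ∀ n, 0 < pq α n ∧ pq α n ≤ A) (hβ : ∀ n, 0 < pq β n ∧ pq β n ≤ A)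
    (h : MirrorClose (pq α) (pq β)) {c : ℝ} (hc : c < 1) : PowerLittlewood c α β := by
  have hlog2 : 0 < Real.log 2 := Real.log_pos (by norm_num)
  set c0 : ℝ := max c 0 with hc0def
  have hc0 : 0 ≤ c0 := le_max_right _ _
  have hcc0 : c ≤ c0 := le_max_left _ _
  have hc01 : c0 < 1 := max_lt hc (by norm_num)
  set L : ℝ := Real.log (A + 1) with hL
  have hL0 : 0 ≤ L := Real.log_nonneg (by
    have : (0 : ℝ) ≤ A := Nat.cast_nonneg A
    linarith)
  set δ : ℝ := (1 - c0) * Real.log 2 / 4 with hδ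
  have hδ0 : 0 < δ := by
    have : 0 < 1 - c0 := by linarith
    positivity
  obtain ⟨k, hk⟩ := exists_nat_gt (2 * L / δ)
  have hk1 : 2 * L ≤ δ * (k + 1) := by
    rw [div_lt_iff₀ hδ0] at hk
    nlinarith
  obtain ⟨M, hM⟩ := h k
  intro ε hε N
  obtain ⟨N1, hN1⟩ := exists_nat_gt ((Real.log 256 + δ * M + 2 * δ - Real.log ε) / δ)
  have hN1' : Real.log 256 + δ * M + 2 * δ - Real.log ε < δ * N1 := by
    rw [div_lt_iff₀ hδ0] at hN1
    linarith
  obtain ⟨l, hl, i, j, hij, hw⟩ := hM (max N1 (2 * N))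
  have hlN1 : N1 ≤ l := (le_max_left _ _).trans hl
  have hlN : 2 * N ≤ l := (le_max_right _ _).trans hl
  obtain ⟨q, hq1, hq2, hq3⟩ := mirror (fun n => (hα n).1) (fun n => (hβ n).1) hw
  have hb3 := win_bd hα i l
  have hb1 := win_bd hα 0 i
  have hb2 := win_bd hβ 0 j
  have g3 := siz_growth (win (pq α) i l) (fun x hx => (hb3 x hx).1)
  have p3 := siz_pos (l := win (pq α) i l) (fun x hx => (hb3 x hx).1)
  have p1 := siz_pos (l := win (pq α) 0 i) (fun x hx => (hb1 x hx).1)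
  have p2 := siz_pos (l := win (pq β) 0 j) (fun x hx => (hb2 x hx).1)
  have u1 := siz_le_pow A (win (pq α) 0 i) hb1
  have u2 := siz_le_pow A (win (pq β) 0 j) hb2
  rw [win_length] at g3 u1 u2
  generalize siz (win (pq α) i l) = s3 at *
  generalize siz (win (pq α) 0 i) = s1 at *
  generalize siz (win (pq β) 0 j) = s2 at *
  have hqpos : 0 < q := lt_of_lt_of_le p3 hq1
  refine ⟨q, ?_, hqpos, ?_⟩
  · have e1 : N ≤ l / 2 := by omega
    calc N ≤ 2 ^ N := Nat.lt_two_pow_self.le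
      _ ≤ 2 ^ (l / 2) := Nat.pow_le_pow_right (by norm_num) e1
      _ ≤ s3 := g3
      _ ≤ q := hq1
  have hq1R : (s3 : ℝ) ≤ q := by exact_mod_cast hq1
  have p3R : (1 : ℝ) ≤ s3 := by exact_mod_cast p3
  have p12R : (1 : ℝ) ≤ (s1 : ℝ) * s2 := by exact_mod_cast Nat.mul_le_mul p1 p2
  have hq2R : (q : ℝ) ≤ 8 * ((s1 : ℝ) * s2 * s3) := by exact_mod_cast hq2
  have hnn : 0 ≤ nd (q * α) * nd (q * β) := mul_nonneg (nd_nonneg _) (nd_nonneg _)
  have hest := dioc_est hc0 hc01 p12R p3R hq1R hq2R hnn (by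
    rw [← mul_assoc]
    exact hq3)
  -- the logarithm of the bound
  have hX : 256 * ((s1 : ℝ) * s2) ^ 2 * (s3 : ℝ) ^ (c0 - 1) < ε := by
    have s3pos : (0 : ℝ) < s3 := by linarith
    have s12pos : (0 : ℝ) < (s1 : ℝ) * s2 := by linarith
    have hXpos : 0 < 256 * ((s1 : ℝ) * s2) ^ 2 * (s3 : ℝ) ^ (c0 - 1) := by positivity
    rw [← Real.log_lt_log_iff hXpos hε]
    have e1 : Real.log (256 * ((s1 : ℝ) * s2) ^ 2 * (s3 : ℝ) ^ (c0 - 1)) =
        Real.log 256 + 2 * Real.log ((s1 : ℝ) * s2) + (c0 - 1) * Real.log s3 := by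
      rw [Real.log_mul (by positivity) (by positivity), Real.log_mul (by positivity) (by positivity),
        Real.log_pow, Real.log_rpow s3pos]
      push_cast
      ring
    have e2 : Real.log ((s1 : ℝ) * s2) ≤ (i + j : ℕ) * L := by
      have f1 : (s1 : ℝ) * s2 ≤ ((A : ℝ) + 1) ^ (i + j) := by
        rw [pow_add]
        exact_mod_cast Nat.mul_le_mul u1 u2
      have f2 := Real.log_le_log s12pos f1
      rw [Real.log_pow] at f2
      exact f2
    have e3 : ((l : ℝ) - 1) / 2 * Real.log 2 ≤ Real.log s3 := by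
      have f1 : (2 : ℝ) ^ (l / 2) ≤ s3 := by exact_mod_cast g3
      have f2 := Real.log_le_log (by positivity) f1
      rw [Real.log_pow] at f2
      have f3 : ((l : ℝ) - 1) / 2 ≤ ((l / 2 : ℕ) : ℝ) := by
        have f4 : l ≤ 2 * (l / 2) + 1 := by omega
        have f5 : (l : ℝ) ≤ 2 * ((l / 2 : ℕ) : ℝ) + 1 := by exact_mod_cast f4
        linarith
      exact (mul_le_mul_of_nonneg_right f3 hlog2.le).trans f2
    have e4 : 2 * ((i + j : ℕ) * L) ≤ δ * (l + M) := by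
      have f1 : ((k : ℝ) + 1) * (i + j : ℕ) ≤ l + M := by exact_mod_cast hij
      have f2 : (0 : ℝ) ≤ ((i + j : ℕ) : ℝ) := Nat.cast_nonneg _
      calc 2 * ((i + j : ℕ) * L) = (2 * L) * ((i + j : ℕ) : ℝ) := by ring
        _ ≤ (δ * (k + 1)) * ((i + j : ℕ) : ℝ) := mul_le_mul_of_nonneg_right hk1 f2
        _ = δ * (((k : ℝ) + 1) * (i + j : ℕ)) := by ring
        _ ≤ δ * (l + M) := mul_le_mul_of_nonneg_left f1 hδ0.le
    have e5 : (c0 - 1) * Real.log s3 ≤ -(2 * δ * (l - 1)) := by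
      have f1 := mul_le_mul_of_nonneg_left e3 (show 0 ≤ 1 - c0 by linarith)
      have f2 : (1 - c0) * (((l : ℝ) - 1) / 2 * Real.log 2) = 2 * δ * (l - 1) := by
        rw [hδ]
        ring
      linarith
    have e6 : δ * N1 ≤ δ * l := mul_le_mul_of_nonneg_left (by exact_mod_cast hlN1) hδ0.le
    rw [e1]
    linarith
  have hmono : (q : ℝ) ^ (1 + c) * nd (q * α) * nd (q * β) ≤
      (q : ℝ) ^ (1 + c0) * nd (q * α) * nd (q * β) := by
    have f1 : (q : ℝ) ^ (1 + c) ≤ (q : ℝ) ^ (1 + c0) :=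
      Real.rpow_le_rpow_of_exponent_le (by linarith) (by linarith)
    rw [mul_assoc, mul_assoc]
    exact mul_le_mul_of_nonneg_right f1 hnn
  exact lt_of_le_of_lt (hmono.trans hest) hX

end Pool.Agent.H2.MC
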