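import Mathlib

set_option autoImplicit false

/-!
# Module Erg (130 lines, Mathlib only): early visits in ergodic systems

PROOF. Fix `k`; put `m n = n / (k+1) + 1`, so `n ≤ (k+1) (m n)` and `(k+1) j ≤ n` for `j < m n`
(`(k+1)(n/(k+1)) ≤ n`). Let `D n = ⋃ j ∈ range (m n), T^[j] ⁻¹' E n`. `range (K n)` is covered by the blocks
`[s m, (s+1) m)`, `s < K (k+1)`, so `⋃ j ∈ range (K n), T^[j] ⁻¹' E n ⊆ ⋃ s ∈ range (K (k+1)), T^[s m] ⁻¹' D n`, and
`ν (T^[s m] ⁻¹' D n) = ν (D n)` (`MeasurePreserving.iterate`, `.measure_preimage`, `D n` measurable). So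
`c ≤ K (k+1) ν (D n)` for all `n ∈ S` (`measure_biUnion_finset_le`); in particular `ν (D n) ≥ c' := c / (K (k+1) + 1) > 0`
(if `K = 0` then `c ≤ 0`, impossible as `S` is nonempty).
`G = {x | ∃ M, ∀ N, ∃ n ∈ S, N ≤ n ∧ ∃ j, (k+1) j ≤ n + M ∧ T^[j] x ∈ E n}` is measurable (countable unions and
intersections; `MeasurableSet` via `measurability` or `MeasurableSet.iUnion` etc. after rewriting with `Set.setOf_exists`...).
`T ⁻¹' G ⊆ G`: if `T x ∈ G` with `M` then `x ∈ G` with `M + (k+1)`: `j ↦ j+1` (`Function.iterate_succ_apply`).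
So by ergodicity (`Ergodic.ae_empty_or_univ_of_preimage_ae_le` or `..._of_preimage_subset`; finite measure) `ν G = 0` or `G` is
conull. `G ⊇ ⋂ N, ⋃ n ∈ S, n ≥ N, D n` (with `M = 0`), whose measure is `≥ c'`: the sets `U N = ⋃ n ∈ S, n ≥ N, D n`
decrease and have measure `≥ c'` (`S` infinite); `tendsto_measure_iInter_atTop` (finite measure) . So `ν G > 0`, and `G`
is conull. Finally `∀ᵐ x, ∀ k` by `ae_all_iff`.
-/

namespace Pool.Agent.H2.MC

open MeasureTheory

theorem erg {Ω : Type*} [MeasurableSpace Ω] {ν : Measure Ω} [IsProbabilityMeasure ν] {T : Ω → Ω}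
    (hT : Ergodic T ν) {E : ℕ → Set Ω} (hE : ∀ n, MeasurableSet (E n)) {S : Set ℕ} (hS : S.Infinite) {K : ℕ}
    {c : ENNReal} (hc : 0 < c) (h : ∀ n ∈ S, c ≤ ν (⋃ j ∈ Finset.range (K * n), T^[j] ⁻¹' E n)) :
    ∀ᵐ x ∂ν, ∀ k : ℕ, ∃ M : ℕ, ∀ N : ℕ, ∃ n ∈ S, N ≤ n ∧ ∃ j : ℕ, (k + 1) * j ≤ n + M ∧ T^[j] x ∈ E n := by
  rw [ae_all_iff]
  intro k
  have hTm : ∀ j, Measurable (T^[j]) := fun j => hT.measurable.iterate j
  have hMP : ∀ j, MeasurePreserving (T^[j]) ν ν := fun j => hT.toMeasurePreserving.iterate j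
  set m : ℕ → ℕ := fun n => n / (k + 1) + 1 with hm
  set D : ℕ → Set Ω := fun n => ⋃ j ∈ Finset.range (m n), T^[j] ⁻¹' E n with hD
  have hDm : ∀ n, MeasurableSet (D n) := fun n =>
    Finset.measurableSet_biUnion _ (fun j _ => hTm j (hE n))
  have hm1 : ∀ n, n ≤ (k + 1) * m n := by
    intro n
    have h1 : (k + 1) * (n / (k + 1)) + n % (k + 1) = n := Nat.div_add_mod n (k + 1)
    have h2 : n % (k + 1) < k + 1 := Nat.mod_lt n (Nat.succ_pos k)
    have h3 : (k + 1) * m n = (k + 1) * (n / (k + 1)) + (k + 1) := by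
      rw [hm]
      ring
    rw [h3]
    generalize (k + 1) * (n / (k + 1)) = a at *
    omega
  have hm2 : ∀ n j, j < m n → (k + 1) * j ≤ n := by
    intro n j hj
    have h1 : j ≤ n / (k + 1) := Nat.lt_succ_iff.1 hj
    calc (k + 1) * j ≤ (k + 1) * (n / (k + 1)) := Nat.mul_le_mul_left _ h1
      _ ≤ n := Nat.mul_div_le n (k + 1)
  have hcov : ∀ n, (⋃ j ∈ Finset.range (K * n), T^[j] ⁻¹' E n) ⊆
      ⋃ s ∈ Finset.range (K * (k + 1)), T^[s * m n] ⁻¹' D n := by
    intro n x hx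
    rw [Set.mem_iUnion₂] at hx
    obtain ⟨j, hj, hjx⟩ := hx
    have hj' : j < K * n := Finset.mem_range.1 hj
    have hmpos : 0 < m n := Nat.succ_pos _
    rw [Set.mem_iUnion₂]
    refine ⟨j / m n, Finset.mem_range.2 ?_, ?_⟩
    · refine Nat.div_lt_of_lt_mul ?_
      calc j < K * n := hj'
        _ ≤ K * ((k + 1) * m n) := Nat.mul_le_mul_left _ (hm1 n)
        _ = m n * (K * (k + 1)) := by ring
    · show T^[j / m n * m n] x ∈ D n
      rw [hD]
      rw [Set.mem_iUnion₂]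
      refine ⟨j % m n, Finset.mem_range.2 (Nat.mod_lt _ hmpos), ?_⟩
      show T^[j % m n] (T^[j / m n * m n] x) ∈ E n
      rw [← Function.iterate_add_apply, Nat.mod_add_div']
      exact hjx
  have hcD : ∀ n ∈ S, c ≤ ((K * (k + 1) : ℕ) : ENNReal) * ν (D n) := by
    intro n hn
    calc c ≤ ν (⋃ j ∈ Finset.range (K * n), T^[j] ⁻¹' E n) := h n hn
      _ ≤ ν (⋃ s ∈ Finset.range (K * (k + 1)), T^[s * m n] ⁻¹' D n) := measure_mono (hcov n)
      _ ≤ ∑ s ∈ Finset.range (K * (k + 1)), ν (T^[s * m n] ⁻¹' D n) :=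
        measure_biUnion_finset_le _ _
      _ = ∑ s ∈ Finset.range (K * (k + 1)), ν (D n) := by
        refine Finset.sum_congr rfl fun s _ => ?_
        exact (hMP (s * m n)).measure_preimage (hDm n).nullMeasurableSet
      _ = ((K * (k + 1) : ℕ) : ENNReal) * ν (D n) := by
        rw [Finset.sum_const, Finset.card_range, nsmul_eq_mul]
  -- the set of good points
  set G : Set Ω := {x | ∃ M : ℕ, ∀ N : ℕ, ∃ n, n ∈ S ∧ N ≤ n ∧
    ∃ j : ℕ, (k + 1) * j ≤ n + M ∧ T^[j] x ∈ E n} with hG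
  have hGm : MeasurableSet G := by
    refine measurableSet_setOfPred.2 (Measurable.exists fun M => Measurable.forall fun N =>
      Measurable.exists fun n => measurable_const.and (measurable_const.and
        (Measurable.exists fun j => measurable_const.and ?_)))
    exact measurableSet_setOfPred.1 (hTm j (hE n))
  have hGT : T ⁻¹' G ⊆ G := by
    rintro x ⟨M, hM⟩
    refine ⟨M + (k + 1), fun N => ?_⟩
    obtain ⟨n, hn, hNn, j, hj, hjx⟩ := hM N
    refine ⟨n, hn, hNn, j + 1, ?_, ?_⟩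
    · calc (k + 1) * (j + 1) = (k + 1) * j + (k + 1) := by ring
        _ ≤ n + M + (k + 1) := Nat.add_le_add_right hj _
        _ = n + (M + (k + 1)) := by ring
    · rw [Function.iterate_succ_apply]
      exact hjx
  -- the limsup
  set U : ℕ → Set Ω := fun N => ⋃ n ∈ {n | n ∈ S ∧ N ≤ n}, D n with hU
  have hUm : ∀ N, MeasurableSet (U N) := fun N =>
    MeasurableSet.biUnion (Set.to_countable _) (fun n _ => hDm n)
  have hUanti : Antitone U := by
    intro N N' hNN x hx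
    rw [hU, Set.mem_iUnion₂] at hx ⊢
    obtain ⟨n, hn, hx⟩ := hx
    exact ⟨n, ⟨hn.1, hNN.trans hn.2⟩, hx⟩
  have hUG : (⋂ N, U N) ⊆ G := by
    intro x hx
    rw [Set.mem_iInter] at hx
    refine ⟨0, fun N => ?_⟩
    have h1 := hx N
    rw [hU, Set.mem_iUnion₂] at h1
    obtain ⟨n, hn, hx1⟩ := h1
    rw [hD, Set.mem_iUnion₂] at hx1
    obtain ⟨j, hj, hjx⟩ := hx1
    exact ⟨n, hn.1, hn.2, j, hm2 n j (Finset.mem_range.1 hj), hjx⟩
  have hUc : ∀ N, c ≤ ((K * (k + 1) : ℕ) : ENNReal) * ν (U N) := by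
    intro N
    obtain ⟨n, hn, hNn⟩ := hS.exists_gt N
    refine (hcD n hn).trans (mul_le_mul_right (measure_mono ?_) _)
    exact Set.subset_biUnion_of_mem (u := D) (show n ∈ {n | n ∈ S ∧ N ≤ n} from ⟨hn, hNn.le⟩)
  have hlim := tendsto_measure_iInter_atTop (μ := ν) (fun N => (hUm N).nullMeasurableSet) hUanti
    ⟨0, measure_ne_top _ _⟩
  have hlim2 := ENNReal.Tendsto.const_mul (a := ((K * (k + 1) : ℕ) : ENNReal)) hlim
    (Or.inr (ENNReal.natCast_ne_top _))
  have hcL : c ≤ ((K * (k + 1) : ℕ) : ENNReal) * ν (⋂ N, U N) :=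
    ge_of_tendsto' hlim2 hUc
  have hνG : ν G ≠ 0 := by
    intro h0
    have h1 : ν (⋂ N, U N) = 0 := measure_mono_null hUG h0
    rw [h1, mul_zero] at hcL
    exact absurd hc (not_lt.2 hcL)
  rcases hT.ae_empty_or_univ_of_preimage_ae_le hGm.nullMeasurableSet hGT.eventuallyLE
    with h0 | h1
  · exact absurd (by rw [measure_congr h0, measure_empty]) hνG
  · filter_upwards [Filter.eventuallyEq_univ.1 h1] with x hx
    obtain ⟨M, hM⟩ := hx
    exact ⟨M, fun N => by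
      obtain ⟨n, hn, hNn, hj⟩ := hM N
      exact ⟨n, hn, hNn, hj⟩⟩

end Pool.Agent.H2.MC
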