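import Mathlib
import Pool.Agent.H2.MC.Words

set_option autoImplicit false

/-!
# Shift space: basic facts
-/

namespace Pool.Agent.H2.MC

open MeasureTheory

/-- The shift on the space of sequences. -/
def shift (x : ℕ → ℕ) : ℕ → ℕ := fun n => x (n + 1)

lemma shift_iterate (x : ℕ → ℕ) (j n : ℕ) : (shift^[j] x) n = x (j + n) := by
  induction j generalizing x n with
  | zero => simp
  | succ j ih =>
    rw [Function.iterate_succ_apply, ih]
    unfold shift
    congr 1
    omega

lemma win_shift (x : ℕ → ℕ) (j n : ℕ) : win (shift^[j] x) 0 n = win x j n := by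
  rw [win_eq_iff]
  intro t _
  rw [shift_iterate, Nat.zero_add]

lemma mir_shift (x : ℕ → ℕ) (j n : ℕ) : mir (shift^[j] x) 0 n = mir x j n := by
  unfold mir; rw [win_shift]

lemma measurableSet_win_eq (i n : ℕ) (w : List ℕ) : MeasurableSet {x : ℕ → ℕ | win x i n = w} := by
  induction n generalizing i w with
  | zero =>
    by_cases h : w = []
    · subst h; simp
    · have : {x : ℕ → ℕ | win x i 0 = w} = ∅ := by
        ext x; simp only [win_zero, Set.mem_setOf_eq, Set.mem_empty_iff_false, iff_false]
        exact fun h' => h h'.symm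
      rw [this]; exact MeasurableSet.empty
  | succ n ih =>
    cases w with
    | nil =>
      have : {x : ℕ → ℕ | win x i (n + 1) = []} = ∅ := by
        ext x
        simp only [win_succ', Set.mem_setOf_eq, Set.mem_empty_iff_false, iff_false]
        exact List.cons_ne_nil _ _
      rw [this]; exact MeasurableSet.empty
    | cons e w =>
      have : {x : ℕ → ℕ | win x i (n + 1) = e :: w} = (fun x : ℕ → ℕ => x i) ⁻¹' {e} ∩ {x | win x (i + 1) n = w} := by
        ext x
        simp [win_succ']
      rw [this]
      exact (measurable_pi_apply i (measurableSet_singleton e)).inter (ih (i + 1) w)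

/-- Every condition on a window is measurable. -/
lemma measurableSet_win (i n : ℕ) (P : List ℕ → Prop) : MeasurableSet {x : ℕ → ℕ | P (win x i n)} := by
  have : {x : ℕ → ℕ | P (win x i n)} = ⋃ w : {w : List ℕ // P w}, {x | win x i n = w.1} := by
    ext x
    simp only [Set.mem_setOf_eq, Set.mem_iUnion]
    constructor
    · intro h; exact ⟨⟨_, h⟩, rfl⟩
    · rintro ⟨⟨w, hw⟩, h⟩; rw [h]; exact hw
  rw [this]
  exact MeasurableSet.iUnion (fun w => measurableSet_win_eq i n w.1)

lemma measurableSet_mir (j n : ℕ) (P : List ℕ → Prop) : MeasurableSet {x : ℕ → ℕ | P (mir x j n)} :=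
  measurableSet_win j n (fun w => P w.reverse)

end Pool.Agent.H2.MC
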