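import Mathlib
import Pool.Agent.H2.MC.Shift

set_option autoImplicit false

/-!
# Module Mirr (70 lines): mirror images of measures

PROOFS.
* `mirror_prob`: both sides are `∑' w : {w // P w}` of the measures of the single words: `{x | P (win x 0 N)}` is the disjoint
  union over the countable type `{w : List ℕ // P w}` of the measurable sets `{x | win x 0 N = w}`
  (`measureReal..`/`measure_iUnion`, `measurableSet_win_eq`), the same for `mir`.
* `hit_eq`: if `L = 0` both sets are empty. Let `N = L - 1 + n`. For `j < L` the word `mir y j n` is the factor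
  `((mir y 0 N).drop (N - j - n)).take n` of `mir y 0 N` and `win x i n = ((win x 0 N).drop i).take n` for `i < L`. With
  `i = N - j - n = L - 1 - j` the two conditions are `∃ i < L, ((..).drop i).take n = w` for the word of length `N`; apply
  `mirror_prob` with `P v = ∃ i < L, (v.drop i).take n = w`. (Use `win_add`, `mir_add`.)
-/

namespace Pool.Agent.H2.MC

open MeasureTheory

lemma measurableSet_mir_eq (N : ℕ) (w : List ℕ) : MeasurableSet {y : ℕ → ℕ | mir y 0 N = w} :=
  measurableSet_mir 0 N (fun v => v = w)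

lemma measure_split (μ : Measure (ℕ → ℕ)) (f : (ℕ → ℕ) → List ℕ)
    (hf : ∀ w : List ℕ, MeasurableSet {x | f x = w}) (P : List ℕ → Prop) :
    μ {x | P (f x)} = ∑' w : {w : List ℕ // P w}, μ {x | f x = w.1} := by
  have h1 : {x | P (f x)} = ⋃ w : {w : List ℕ // P w}, {x | f x = w.1} := by
    ext x
    simp only [Set.mem_setOf_eq, Set.mem_iUnion]
    constructor
    · intro h; exact ⟨⟨_, h⟩, rfl⟩
    · rintro ⟨⟨w, hw⟩, h⟩; rw [h]; exact hw
  rw [h1]
  refine measure_iUnion ?_ (fun w => hf w.1)
  intro a b hab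
  rw [Function.onFun, Set.disjoint_left]
  intro x hx hy
  apply hab
  apply Subtype.ext
  have hx' : f x = a.1 := hx
  have hy' : f x = b.1 := hy
  rw [← hx', ← hy']

lemma mirror_prob {μ ν : Measure (ℕ → ℕ)}
    (hm : ∀ (n : ℕ) (w : List ℕ), ν {y | mir y 0 n = w} = μ {x | win x 0 n = w}) (P : List ℕ → Prop) (N : ℕ) :
    ν {y | P (mir y 0 N)} = μ {x | P (win x 0 N)} := by
  rw [measure_split ν (fun y => mir y 0 N) (fun w => measurableSet_mir_eq N w) P,
    measure_split μ (fun x => win x 0 N) (fun w => measurableSet_win_eq 0 N w) P]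
  exact tsum_congr (fun w => hm N w.1)

lemma mir_factor (y : ℕ → ℕ) {L : ℕ} (n : ℕ) {j : ℕ} (hj : j < L) :
    ((mir y 0 (L - 1 + n)).drop (L - 1 - j)).take n = mir y j n := by
  have hN : L - 1 + n = j + (n + (L - 1 - j)) := by omega
  rw [hN, mir_add, mir_add, Nat.zero_add, List.append_assoc]
  have h1 : (mir y (j + n) (L - 1 - j)).length = L - 1 - j := mir_length _ _ _
  have h2 : (mir y j n).length = n := mir_length _ _ _
  rw [List.drop_append_of_le_length (by rw [h1]), List.drop_of_length_le (by rw [h1]), List.nil_append,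
    List.take_append_of_le_length (by rw [h2]), List.take_of_length_le (by rw [h2])]

lemma win_factor (x : ℕ → ℕ) {L : ℕ} (n : ℕ) {i : ℕ} (hi : i < L) :
    ((win x 0 (L - 1 + n)).drop i).take n = win x i n := by
  rw [win_drop x 0 (by omega), win_take x _ (by omega), Nat.zero_add]

lemma hit_eq {μ ν : Measure (ℕ → ℕ)}
    (hm : ∀ (n : ℕ) (w : List ℕ), ν {y | mir y 0 n = w} = μ {x | win x 0 n = w}) (L n : ℕ) (w : List ℕ) :
    ν {y | ∃ j < L, mir y j n = w} = μ {x | ∃ i < L, win x i n = w} := by
  have h := mirror_prob hm (fun v => ∃ i < L, (v.drop i).take n = w) (L - 1 + n)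
  have h1 : {y : ℕ → ℕ | ∃ i < L, ((mir y 0 (L - 1 + n)).drop i).take n = w} = {y | ∃ j < L, mir y j n = w} := by
    ext y
    simp only [Set.mem_setOf_eq]
    constructor
    · rintro ⟨i, hi, h⟩
      refine ⟨L - 1 - i, by omega, ?_⟩
      have hj : L - 1 - i < L := by omega
      rw [← mir_factor y n hj]
      have : L - 1 - (L - 1 - i) = i := by omega
      rw [this]
      exact h
    · rintro ⟨j, hj, h⟩
      refine ⟨L - 1 - j, by omega, ?_⟩
      rw [mir_factor y n hj]
      exact h
  have h2 : {x : ℕ → ℕ | ∃ i < L, ((win x 0 (L - 1 + n)).drop i).take n = w} = {x | ∃ i < L, win x i n = w} := by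
    ext x
    simp only [Set.mem_setOf_eq]
    constructor
    · rintro ⟨i, hi, h⟩
      exact ⟨i, hi, by rw [← win_factor x n hi]; exact h⟩
    · rintro ⟨i, hi, h⟩
      exact ⟨i, hi, by rw [win_factor x n hi]; exact h⟩
  rw [← h1, ← h2]
  exact h

end Pool.Agent.H2.MC
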