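import Mathlib
import Pool.Agent.H2.MC.Erg
import Pool.Agent.H2.MC.Mirr
import Pool.Agent.H2.MC.DioC

set_option autoImplicit false

/-!
# Module AeA (120 lines): almost every partner, almost every pair

PROOFS.
* `every_ae`: `erg` with `T = shift`, `E n = {y | mir y 0 n = win b 0 n}`, `S = {n | c ≤ ν {y | ∃ j < K n, mir y j n = win b 0 n}}`
  (infinite by `h`: `Nat.frequently_atTop_iff_infinite`), `mir_shift`. For `y` in the conull set of `erg`: `MirrorClose b y` with
  `l = n`, `i = 0`, the same `j`, `M`. Letters of `b`: for `t` choose `n ∈ S`, `n > t`: the event has positive measure so it meets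
  the conull set of `y` with letters in `[1, A]`; `b t` is a letter of `win b 0 n = mir y j n`.
* `ae_ae`: choose `w n` for `n ∈ S = {n | ∃ w, ..}`. By `erg` (for `μ`, `E n = {x | win x 0 n = w n}`), for `μ`-a.e. `x`: for all
  `k` there is `M` such that `S' = {n ∈ S | ∃ i, (k+1) i ≤ n + M ∧ win x i n = w n}` is infinite. For this `x` and `k` apply
  `erg` to `ν`, `E n = {y | mir y 0 n = w n}`, `S'` (`hit_eq` gives the hypothesis with the same `c`, `K`): for `ν`-a.e. `y` there is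
  `M'` such that for all `N` there are `n ∈ S'`, `n ≥ N`, `j` with `(k+1) j ≤ n + M'`, `mir y j n = w n = win x i n`; so
  `(k+1)(i+j) ≤ 2 n + M + M'`. This gives `MirrorClose x y`: for given `k0` use `k = 2 k0 + 1`: `(2 k0 + 2)(i+j) ≤ 2n + M + M'`, so
  `(k0+1)(i+j) ≤ n + (M + M')`. So for `μ`-a.e. `x`, for `ν`-a.e. `y`: `MirrorClose x y`. The set
  `{p : (ℕ → ℕ) × (ℕ → ℕ) | MirrorClose p.1 p.2}` is measurable (countable operations; for fixed `i, j, l` the set
  `{p | win p.1 i l = mir p.2 j l} = ⋃ w, {p | win p.1 i l = w} ∩ {p | mir p.2 j l = w}`), so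
  `Measure.ae_prod_iff_ae_ae` / `MeasureTheory.Measure.ae_prod_mem_iff_ae_ae_mem` gives the claim.
-/

namespace Pool.Agent.H2.MC

open MeasureTheory Filter

private lemma aea_union (K n : ℕ) (w : List ℕ) :
    (⋃ j ∈ Finset.range (K * n), shift^[j] ⁻¹' {y : ℕ → ℕ | mir y 0 n = w}) = {y | ∃ j < K * n, mir y j n = w} := by
  ext y
  simp [mir_shift]

private lemma aea_union' (K n : ℕ) (w : List ℕ) :
    (⋃ j ∈ Finset.range (K * n), shift^[j] ⁻¹' {x : ℕ → ℕ | win x 0 n = w}) = {x | ∃ i < K * n, win x i n = w} := by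
  ext y
  simp [win_shift]

theorem every_ae {ν : Measure (ℕ → ℕ)} [IsProbabilityMeasure ν] (hν : Ergodic shift ν) {A : ℕ}
    (hA : ∀ᵐ y ∂ν, ∀ n, 0 < y n ∧ y n ≤ A) (b : ℕ → ℕ) {K : ℕ} {c : ENNReal} (hc : 0 < c)
    (h : ∃ᶠ n : ℕ in atTop, c ≤ ν {y | ∃ j < K * n, mir y j n = win b 0 n}) :
    (∀ n, 0 < b n ∧ b n ≤ A) ∧ ∀ᵐ y ∂ν, MirrorClose b y := by
  constructor
  · intro t
    obtain ⟨n, hn, hcn⟩ := (frequently_atTop.mp h) (t + 1)
    have hex : ∃ y : ℕ → ℕ, (∀ n, 0 < y n ∧ y n ≤ A) ∧ ∃ j < K * n, mir y j n = win b 0 n := by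
      by_contra hno
      push Not at hno
      have h0 : ν {y | ∃ j < K * n, mir y j n = win b 0 n} = 0 := by
        refine measure_mono_null ?_ (ae_iff.mp hA)
        rintro y ⟨j, hj, hy⟩
        intro hall
        exact hno y hall j hj hy
      rw [h0] at hcn
      exact absurd hcn (not_le.mpr hc)
    obtain ⟨y, hy, j, -, hj⟩ := hex
    have h1 := (win_eq_mir_iff b y 0 j n).mp hj.symm t (by omega)
    rw [Nat.zero_add] at h1
    rw [h1]
    exact hy _
  · have hS : {n : ℕ | c ≤ ν {y | ∃ j < K * n, mir y j n = win b 0 n}}.Infinite :=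
      Nat.frequently_atTop_iff_infinite.mp h
    have he := erg (T := shift) hν (E := fun n => {y : ℕ → ℕ | mir y 0 n = win b 0 n})
      (fun n => measurableSet_mir 0 n (fun w => w = win b 0 n)) hS (K := K) (c := c) hc
      (by
        intro n hn
        rw [aea_union]
        exact hn)
    filter_upwards [he] with y hy
    intro k
    obtain ⟨M, hM⟩ := hy k
    refine ⟨M, fun N => ?_⟩
    obtain ⟨n, -, hNn, j, hj, hy'⟩ := hM N
    refine ⟨n, hNn, 0, j, by simpa using hj, ?_⟩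
    have h2 : mir (shift^[j] y) 0 n = win b 0 n := hy'
    rw [mir_shift] at h2
    exact h2.symm

private lemma aea_meas : MeasurableSet {p : (ℕ → ℕ) × (ℕ → ℕ) | MirrorClose p.1 p.2} := by
  have hb : ∀ i j l, MeasurableSet {p : (ℕ → ℕ) × (ℕ → ℕ) | win p.1 i l = mir p.2 j l} := by
    intro i j l
    have : {p : (ℕ → ℕ) × (ℕ → ℕ) | win p.1 i l = mir p.2 j l}
        = ⋃ w : List ℕ, ({p : (ℕ → ℕ) × (ℕ → ℕ) | win p.1 i l = w} ∩ {p : (ℕ → ℕ) × (ℕ → ℕ) | mir p.2 j l = w}) := by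
      ext p
      simp only [Set.mem_setOf_eq, Set.mem_iUnion, Set.mem_inter_iff]
      constructor
      · intro hp; exact ⟨_, hp, rfl⟩
      · rintro ⟨w, h1, h2⟩; rw [h1, h2]
    rw [this]
    exact MeasurableSet.iUnion fun w => (measurable_fst (measurableSet_win_eq i l w)).inter
      (measurable_snd (measurableSet_mir j l (fun v => v = w)))
  unfold MirrorClose
  simp only [Set.setOf_forall, Set.setOf_exists, Set.setOf_and]
  refine MeasurableSet.iInter fun k => MeasurableSet.iUnion fun M => MeasurableSet.iInter fun N =>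
    MeasurableSet.iUnion fun l => MeasurableSet.inter (MeasurableSet.const _) ?_
  exact MeasurableSet.iUnion fun i => MeasurableSet.iUnion fun j =>
    MeasurableSet.inter (MeasurableSet.const _) (hb i j l)

theorem ae_ae {μ ν : Measure (ℕ → ℕ)} [IsProbabilityMeasure μ] [IsProbabilityMeasure ν] (hμ : Ergodic shift μ)
    (hν : Ergodic shift ν) (hm : ∀ (n : ℕ) (w : List ℕ), ν {y | mir y 0 n = w} = μ {x | win x 0 n = w})
    {K : ℕ} {c : ENNReal} (hc : 0 < c)
    (h : ∃ᶠ n : ℕ in atTop, ∃ w : List ℕ, w.length = n ∧ c ≤ μ {x | ∃ i < K * n, win x i n = w}) :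
    ∀ᵐ p ∂(μ.prod ν), MirrorClose p.1 p.2 := by
  set S : Set ℕ := {n | ∃ w : List ℕ, w.length = n ∧ c ≤ μ {x | ∃ i < K * n, win x i n = w}} with hSdef
  have hS : S.Infinite := Nat.frequently_atTop_iff_infinite.mp h
  have hch : ∀ n : ℕ, ∃ w : List ℕ, n ∈ S → c ≤ μ {x | ∃ i < K * n, win x i n = w} := by
    intro n
    by_cases hn : n ∈ S
    · obtain ⟨w, -, hw⟩ := hn
      exact ⟨w, fun _ => hw⟩
    · exact ⟨[], fun h' => absurd h' hn⟩
  choose W hW using hch
  rw [Measure.ae_prod_iff_ae_ae aea_meas]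
  have h1 := erg (T := shift) hμ (E := fun n => {x : ℕ → ℕ | win x 0 n = W n})
    (fun n => measurableSet_win_eq 0 n (W n)) hS (K := K) (c := c) hc
    (by
      intro n hn
      rw [aea_union']
      exact hW n hn)
  filter_upwards [h1] with x hx
  have h2 : ∀ᵐ y ∂ν, ∀ k : ℕ, ∃ M : ℕ, ∀ N : ℕ, ∃ l, N ≤ l ∧ ∃ i j : ℕ, (k + 1) * (i + j) ≤ l + M ∧
      win x i l = mir y j l := by
    rw [ae_all_iff]
    intro k
    obtain ⟨M, hM⟩ := hx (2 * k + 1)
    have hS' : {n : ℕ | n ∈ S ∧ ∃ i : ℕ, (2 * k + 1 + 1) * i ≤ n + M ∧ win x i n = W n}.Infinite := by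
      rw [← Nat.frequently_atTop_iff_infinite, frequently_atTop]
      intro N
      obtain ⟨n, hn, hNn, i, hi, hxi⟩ := hM N
      refine ⟨n, hNn, hn, i, hi, ?_⟩
      have h3 : win (shift^[i] x) 0 n = W n := hxi
      rw [win_shift] at h3
      exact h3
    have h4 := erg (T := shift) hν (E := fun n => {y : ℕ → ℕ | mir y 0 n = W n})
      (fun n => measurableSet_mir 0 n (fun w => w = W n)) hS' (K := K) (c := c) hc
      (by
        rintro n ⟨hn, -⟩
        rw [aea_union, hit_eq hm (K * n) n (W n)]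
        exact hW n hn)
    filter_upwards [h4] with y hy
    obtain ⟨M', hM'⟩ := hy (2 * k + 1)
    refine ⟨M + M', fun N => ?_⟩
    obtain ⟨n, ⟨-, i, hi, hwi⟩, hNn, j, hj, hyj⟩ := hM' N
    refine ⟨n, hNn, i, j, ?_, ?_⟩
    · nlinarith [hi, hj]
    · have h5 : mir (shift^[j] y) 0 n = W n := hyj
      rw [mir_shift] at h5
      rw [hwi, h5]
  filter_upwards [h2] with y hy
  exact hy

end Pool.Agent.H2.MC
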