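import Mathlib
import Pool.Agent.H2.MC.Words

set_option autoImplicit false

/-!
# Arnoux–Rauzy words over three letters (images under `W`)
-/

namespace Pool.Agent.H2.MC

/-- The Arnoux–Rauzy blocks with directive sequence `d`: `blk 0 x = W x`, `blk (t+1) (d t) = blk t (d t)`, and
`blk (t+1) x = blk t (d t) ++ blk t x` for `x ≠ d t`. -/
def blk (W : Fin 3 → List ℕ) (d : ℕ → Fin 3) : ℕ → Fin 3 → List ℕ
  | 0 => W
  | t + 1 => fun x => if x = d t then blk W d t x else blk W d t (d t) ++ blk W d t x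

/-- The common prefix of all concatenations of blocks of level `t`. -/
def pre (W : Fin 3 → List ℕ) (d : ℕ → Fin 3) : ℕ → List ℕ
  | 0 => []
  | t + 1 => blk W d t (d t) ++ pre W d t

/-- The language: all factors of blocks. -/
def ARL (W : Fin 3 → List ℕ) (d : ℕ → Fin 3) (n : ℕ) : Set (List ℕ) :=
  {w | w.length = n ∧ ∃ (t : ℕ) (x : Fin 3), w <:+: blk W d t x}

end Pool.Agent.H2.MC
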