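import Mathlib
import Pool.Agent.H2.MC.ArDefs

set_option autoImplicit false

/-!
# Module ArA (150 lines): structure of Arnoux–Rauzy blocks

PROOFS.
* `pre_prefix`: induction on `t`. `B_x = blk t x`, `R = pre t`, `i = d t`; induction hypothesis `R <+: B_x ++ R` for all `x`.
  For `t+1`, `x = i`: `B_i ++ R <+: B_i ++ (B_i ++ R)`. For `x ≠ i`: `B_i ++ R <+: (B_i ++ B_x) ++ (B_i ++ R)` because
  `R <+: B_x ++ R <+: B_x ++ (B_i ++ R)` (`R <+: B_i ++ R` and `List.prefix_append_right_inj`, transitivity).
* `pre_concat`: induction on `u`: `R <+: B_x ++ R <+: B_x ++ (rest ++ R)`.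
* `blk_decomp`: induction on `s`: `blk (t+s+1) x` is `blk (t+s) x` or `blk (t+s) (d (t+s)) ++ blk (t+s) x`; flatten of an append.
* `blk_infix_add`: `blk t x <:+: blk (t+1) x`, induction on `s`.
* `struct_prefix`: `w <:+: blk t' x'`; we may assume `t' ≥ t` (`blk_infix_add`), so by `blk_decomp` `w <:+: (u.map B).flatten`,
  `p ++ w ++ q = (u.map B).flatten`. Prove by induction on `u` (generalising `p`): if `p.length < B_{u_1}.length` (or the list
  is a single block...) then the first block is cut: `w` starts inside the block `x = u_1` at the index `f' = p.length`: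
  `w ++ q = B_x.drop f' ++ rest`, `rest = (u.tail.map B).flatten`; as `w.length ≥ B_x.length + R.length` the word `w` has the
  prefix `B_x.drop f' ++ (first R.length letters of rest)`, and these letters are `R`: both `R` and `rest` (and its prefix of length
  `R.length`, which exists as `w` is long) are prefixes of `rest ++ R` (`pre_concat`), `List.prefix_of_prefix_length_le`. If
  `p.length ≥ B_{u_1}.length` drop the first block from `u` and from `p`. (For `u = []` the word `w` is empty, so
  `R = []` and all blocks are empty by the length hypothesis: the statement holds with any `x`, `f' = 0`... here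
  `w.length ≥ B_x.length + R.length` for all `x`, so `B_x = []`, `R = []`.)
* `struct_suffix`: the same `p ++ w ++ q = (u.map B).flatten`. Let `e = (p ++ w).length`, `n = R.length`. Among the splittings
  `u = u1 ++ u2` with `P = (u1.map B).flatten.length` and `P + n ≤ e` (`u1 = []` is one: `e ≥ w.length ≥ n`) take the longest `u1`
  with `u2 ≠ []` (if `u = []` see above). `u2 = y :: u3`, `g = e - n - P`. If `u3 ≠ []` maximality gives `P + B_y.length + n > e`, so
  `g < B_y.length`; if `u3 = []`, `e ≤ P + B_y.length`, so `g ≤ B_y.length - n ≤ B_y.length`. The text of length `n + g` from `P`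
  to `e` is a prefix of `B_y ++ (u3.map B).flatten`, hence of `B_y ++ (u3.map B).flatten ++ R`, of which `B_y ++ R` is also a
  prefix (`pre_concat`), and `n + g ≤ (B_y ++ R).length`; so the text is `(B_y ++ R).take (n+g)`. It is a suffix of `w` as
  `n + g ≤ n + B_y.length ≤ w.length`. (An induction on `u` from the right, `List.reverseRecOn`, may be simpler.)
-/

namespace Pool.Agent.H2.MC

variable {W : Fin 3 → List ℕ} {d : ℕ → Fin 3}

lemma pre_prefix (t : ℕ) (x : Fin 3) : pre W d t <+: blk W d t x ++ pre W d t := by
  induction t generalizing x with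
  | zero => simp [pre]
  | succ t ih =>
    by_cases h : x = d t
    · subst h
      simp only [pre, blk, if_true]
      exact (List.prefix_append_right_inj _).2 (ih _)
    · simp only [pre, blk, if_neg h]
      rw [List.append_assoc, List.prefix_append_right_inj]
      exact (ih x).trans ((List.prefix_append_right_inj _).2 (ih _))

lemma pre_concat (t : ℕ) (u : List (Fin 3)) : pre W d t <+: (u.map (blk W d t)).flatten ++ pre W d t := by
  induction u with
  | nil => simp
  | cons x u ih =>
    simp only [List.map_cons, List.flatten_cons, List.append_assoc]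
    exact (pre_prefix t x).trans ((List.prefix_append_right_inj _).2 ih)

lemma blk_decomp (t s : ℕ) (x : Fin 3) : ∃ u : List (Fin 3), blk W d (t + s) x = (u.map (blk W d t)).flatten := by
  induction s generalizing x with
  | zero => exact ⟨[x], by simp⟩
  | succ s ih =>
    rw [← Nat.add_assoc]
    obtain ⟨u2, h2⟩ := ih x
    by_cases h : x = d (t + s)
    · refine ⟨u2, ?_⟩
      simp only [blk, if_pos h]
      exact h2
    · obtain ⟨u1, h1⟩ := ih (d (t + s))
      refine ⟨u1 ++ u2, ?_⟩
      simp only [blk, if_neg h]
      rw [h1, h2, List.map_append, List.flatten_append]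

lemma blk_infix_add (t s : ℕ) (x : Fin 3) : blk W d t x <:+: blk W d (t + s) x := by
  induction s with
  | zero => exact List.infix_rfl
  | succ s ih =>
    rw [← Nat.add_assoc]
    refine ih.trans ?_
    by_cases h : x = d (t + s)
    · simp only [blk, if_pos h]
      exact List.infix_rfl
    · simp only [blk, if_neg h]
      exact (List.suffix_append _ _).isInfix

lemma arl_split {n : ℕ} {w : List ℕ} (hw : w ∈ ARL W d n) (t : ℕ) :
    ∃ (u : List (Fin 3)) (p q : List ℕ), p ++ w ++ q = (u.map (blk W d t)).flatten := by
  obtain ⟨_, t', x', hinf⟩ := hw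
  have h1 : w <:+: blk W d (t + t') x' := by
    refine hinf.trans ?_
    have h := blk_infix_add (W := W) (d := d) t' t x'
    rwa [Nat.add_comm t' t] at h
  obtain ⟨u, hu⟩ := blk_decomp (W := W) (d := d) t t' x'
  rw [hu] at h1
  obtain ⟨p, q, h⟩ := h1
  exact ⟨u, p, q, h⟩

lemma struct_prefix_aux {w : List ℕ} (t : ℕ)
    (hl : ∀ x, (blk W d t x).length + (pre W d t).length ≤ w.length) (u : List (Fin 3)) :
    ∀ (p q : List ℕ), p ++ w ++ q = (u.map (blk W d t)).flatten →
    ∃ (x : Fin 3) (f' : ℕ), f' ≤ (blk W d t x).length ∧ (blk W d t x ++ pre W d t).drop f' <+: w := by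
  induction u with
  | nil =>
    intro p q h
    have h0 := congrArg List.length h
    simp only [List.length_append, List.map_nil, List.flatten_nil, List.length_nil] at h0
    have h1 := hl 0
    refine ⟨0, 0, Nat.zero_le _, ?_⟩
    have h2 : blk W d t 0 ++ pre W d t = [] := by
      apply List.eq_nil_of_length_eq_zero
      rw [List.length_append]
      omega
    rw [h2]
    simp
  | cons x u ih =>
    intro p q h
    simp only [List.map_cons, List.flatten_cons] at h
    by_cases hp : (blk W d t x).length ≤ p.length
    · have h1 : blk W d t x <+: p := by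
        refine List.prefix_of_prefix_length_le (l₃ := p ++ w ++ q) ?_ ?_ hp
        · rw [h]; exact List.prefix_append _ _
        · rw [List.append_assoc]; exact List.prefix_append _ _
      obtain ⟨p', rfl⟩ := h1
      refine ih p' q ?_
      rw [List.append_assoc, List.append_assoc] at h
      rw [List.append_assoc]
      exact List.append_cancel_left h
    · have hp' : p.length ≤ (blk W d t x).length := by omega
      refine ⟨x, p.length, hp', ?_⟩
      have h2 := congrArg (List.drop p.length) h
      rw [List.append_assoc, List.drop_left, List.drop_append_of_le_length hp'] at h2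
      rw [List.drop_append_of_le_length hp']
      refine List.prefix_of_prefix_length_le
        (l₃ := List.drop p.length (blk W d t x) ++ ((u.map (blk W d t)).flatten ++ pre W d t)) ?_ ?_ ?_
      · exact (List.prefix_append_right_inj _).2 (pre_concat t u)
      · rw [← List.append_assoc, ← h2, List.append_assoc]
        exact List.prefix_append _ _
      · rw [List.length_append, List.length_drop]
        have := hl x
        omega

lemma struct_prefix {n : ℕ} {w : List ℕ} (hw : w ∈ ARL W d n) (t : ℕ)
    (hl : ∀ x, (blk W d t x).length + (pre W d t).length ≤ w.length) :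
    ∃ (x : Fin 3) (f' : ℕ), f' ≤ (blk W d t x).length ∧ (blk W d t x ++ pre W d t).drop f' <+: w := by
  obtain ⟨u, p, q, h⟩ := arl_split hw t
  exact struct_prefix_aux t hl u p q h

lemma struct_suffix_aux (t : ℕ) (u : List (Fin 3)) :
    ∀ (v q : List ℕ), (pre W d t).length ≤ v.length → v ++ q = (u.map (blk W d t)).flatten →
    ∃ (y : Fin 3) (g : ℕ), g ≤ (blk W d t y).length ∧
      (blk W d t y ++ pre W d t).take ((pre W d t).length + g) <:+ v := by
  induction u with
  | nil =>
    intro v q hn h
    have h0 := congrArg List.length h
    simp only [List.length_append, List.map_nil, List.flatten_nil, List.length_nil] at h0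
    refine ⟨0, 0, Nat.zero_le _, ?_⟩
    have h1 : (pre W d t).length + 0 = 0 := by omega
    rw [h1, List.take_zero]
    exact List.nil_suffix
  | cons x u ih =>
    intro v q hn h
    simp only [List.map_cons, List.flatten_cons] at h
    by_cases hp : (blk W d t x).length + (pre W d t).length ≤ v.length
    · have h1 : blk W d t x <+: v := by
        refine List.prefix_of_prefix_length_le (l₃ := v ++ q) ?_ (List.prefix_append _ _) (by omega)
        rw [h]; exact List.prefix_append _ _
      obtain ⟨v', rfl⟩ := h1
      rw [List.append_assoc] at h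
      rw [List.length_append] at hp
      obtain ⟨y, g, hg, hy⟩ := ih v' q (by omega) (List.append_cancel_left h)
      exact ⟨y, g, hg, hy.trans (List.suffix_append _ _)⟩
    · refine ⟨x, v.length - (pre W d t).length, by omega, ?_⟩
      have h1 : v <+: blk W d t x ++ pre W d t := by
        refine List.prefix_of_prefix_length_le
          (l₃ := blk W d t x ++ ((u.map (blk W d t)).flatten ++ pre W d t)) ?_ ?_ ?_
        · rw [← List.append_assoc, ← h, List.append_assoc]
          exact List.prefix_append _ _
        · exact (List.prefix_append_right_inj _).2 (pre_concat t u)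
        · rw [List.length_append]
          omega
      have h2 : (pre W d t).length + (v.length - (pre W d t).length) = v.length := by omega
      rw [h2, ← List.prefix_iff_eq_take.1 h1]

lemma struct_suffix {n : ℕ} {w : List ℕ} (hw : w ∈ ARL W d n) (t : ℕ)
    (hl : ∀ x, (blk W d t x).length + (pre W d t).length ≤ w.length) :
    ∃ (y : Fin 3) (g : ℕ), g ≤ (blk W d t y).length ∧
      (blk W d t y ++ pre W d t).take ((pre W d t).length + g) <:+ w := by
  obtain ⟨u, p, q, h⟩ := arl_split hw t
  have h0 := hl 0
  obtain ⟨y, g, hg, hy⟩ := struct_suffix_aux (W := W) (d := d) t u (p ++ w) q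
    (by rw [List.length_append]; omega) h
  refine ⟨y, g, hg, ?_⟩
  refine List.suffix_of_suffix_length_le hy (List.suffix_append _ _) ?_
  have h1 := hl y
  refine (List.length_take_le _ _).trans ?_
  omega

end Pool.Agent.H2.MC
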