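import Mathlib
import Pool.Agent.H2.MC.ArA

set_option autoImplicit false

/-!
# Module ArB (130 lines): mirrored words in Arnoux–Rauzy pairs

PROOF. Let `R = pre t`, `n = R.length`, `B_x = blk t x`. Take `N` large (`N ≥ B_x.length + n` for all `x`), `struct_prefix` for
`win b i0 N` and `struct_suffix` for `mir a j0 N` give `x, f'`, `y, g`. Put `f = B_x.length - f'`, `g' = B_y.length - g`, `Zx = B_x ++ R`,
`Zy = B_y ++ R`. So `win b i0 (f+n) = Zx.drop f'`, `mir a j0 (n+g) = Zy.take (n+g)` (prefixes of `win b i0 N` are `win b i0 m`,
`win_take`; suffixes of `mir a j0 N` are `mir a j0 m`, `mir_drop`). `R <+: Zx`, `R <+: Zy` (`pre_prefix`).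
OPTION 1: `win b (i0+f) n = R = mir a (j0+g) n`: (`Zx.drop f'` minus its first `f` letters is `Zx.drop B_x.length = R`;
`mir a (j0+g) n = (mir a j0 (n+g)).take n = Zy.take n = R`, `mir_take`).
OPTION 2 (`d = f'+g'`): if `d ≤ n`, `l = n-d`: `win b i0 (n-f') = R.drop f'` (first `n-f'` letters of `Zx.drop f'`, `R <+: Zx`),
`mir a j0 (n-g') = ` last `n-g'` letters of `Zy.take (n+g)` `= (Zy.take (n+g)).drop B_y.length = R.take (n-g')` (`n+g-B_y.length = n-g'`);
so `win b i0 l = (R.drop f').take l = (R.take (n-g')).drop f' = mir a j0 l`. If `d > n` the statement is trivial (`n - d = 0`).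
IF `x ≠ y`: `T = B_x.length + B_y.length ≤ Bn`, option 2 with `d = f'+g'` and option 1 with `(i, j) = (i0+f, j0+g)`:
`i+j+d = i0+j0+f+g+f'+g' = i0+j0+T`.
IF `x = y`, `L = B_x.length`, `Z = B_x ++ R`, `T = L ≤ Bn` (use some other letter): if `f' ≤ g`: `δ = g-f'`: `(i, j) = (i0+δ, j0)`:
`win b (i0+δ) n = (Z.drop g).take n = mir a j0 n` (last `n` letters of `Z.take (n+g)`), and option 2 with `d = f'+g' = L-δ`. If
`f' > g`: `δ = f'-g`, `d = δ`: (if `δ ≤ n`) `win b i0 (n-δ) = (Z.drop f').take (n-δ)`, which is the end of `Z.take (n+g)`:
`mir a j0 (n-δ)`; and option 1 with `f + g = L-δ`.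
-/

namespace Pool.Agent.H2.MC

variable {W : Fin 3 → List ℕ} {d : ℕ → Fin 3}

lemma ar_pairs {b a : ℕ → ℕ} {i0 j0 : ℕ} (hb : ∀ n, win b i0 n ∈ ARL W d n) (ha : ∀ n, mir a j0 n ∈ ARL W d n)
    (t Bn : ℕ) (hB : ∀ x y, x ≠ y → (blk W d t x).length + (blk W d t y).length ≤ Bn) :
    ∃ e T i j : ℕ, T ≤ Bn ∧ win b i0 ((pre W d t).length - e) = mir a j0 ((pre W d t).length - e) ∧
      win b i (pre W d t).length = mir a j (pre W d t).length ∧ i + j + e ≤ i0 + j0 + T := by
  have hN : ∀ x, (blk W d t x).length + (pre W d t).length ≤
      (∑ x, (blk W d t x).length) + (pre W d t).length := fun x =>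
    Nat.add_le_add_right (Finset.single_le_sum (f := fun x => (blk W d t x).length)
      (fun _ _ => Nat.zero_le _) (Finset.mem_univ x)) _
  obtain ⟨x, f', hf', hx⟩ := struct_prefix (hb ((∑ x, (blk W d t x).length) + (pre W d t).length)) t
    (by intro x; rw [win_length]; exact hN x)
  obtain ⟨y, g, hg, hy⟩ := struct_suffix (ha ((∑ x, (blk W d t x).length) + (pre W d t).length)) t
    (by intro x; rw [mir_length]; exact hN x)
  have hxN := hN x
  have hyN := hN y
  generalize (∑ x, (blk W d t x).length) + (pre W d t).length = N at hx hy hxN hyN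
  have hpx := pre_prefix (W := W) (d := d) t x
  have hpy := pre_prefix (W := W) (d := d) t y
  have hLx := hB x
  have hLy := hB y
  -- the sizes
  have hRx : pre W d t = (blk W d t x ++ pre W d t).take (pre W d t).length := List.prefix_iff_eq_take.1 hpx
  have hRy : pre W d t = (blk W d t y ++ pre W d t).take (pre W d t).length := List.prefix_iff_eq_take.1 hpy
  have hwx : win b i0 ((blk W d t x).length - f' + (pre W d t).length) =
      (blk W d t x ++ pre W d t).drop f' := by
    have h1 := List.prefix_iff_eq_take.1 hx
    have h2 : ((blk W d t x ++ pre W d t).drop f').length =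
        (blk W d t x).length - f' + (pre W d t).length := by
      rw [List.length_drop, List.length_append]; omega
    rw [h2, win_take b i0 (by omega)] at h1
    exact h1.symm
  have hmy : mir a j0 ((pre W d t).length + g) =
      (blk W d t y ++ pre W d t).take ((pre W d t).length + g) := by
    have h1 := List.suffix_iff_eq_drop.1 hy
    have h2 : ((blk W d t y ++ pre W d t).take ((pre W d t).length + g)).length =
        (pre W d t).length + g := by
      rw [List.length_take, List.length_append]; omega
    rw [h2, mir_length, mir_drop a j0 (by omega)] at h1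
    exact h1.symm
  -- the general values
  have hwl : ∀ δ l : ℕ, δ + l ≤ (blk W d t x).length - f' + (pre W d t).length →
      win b (i0 + δ) l = ((blk W d t x ++ pre W d t).drop (f' + δ)).take l := by
    intro δ l h
    have h1 := win_drop b i0 (m := δ) (n := (blk W d t x).length - f' + (pre W d t).length) (by omega)
    have h2 := win_take b (i0 + δ) (m := l)
      (n := (blk W d t x).length - f' + (pre W d t).length - δ) (by omega)
    rw [← h2, ← h1, hwx, List.drop_drop]
  have hml : ∀ δ l : ℕ, δ + l ≤ (pre W d t).length + g →
      mir a (j0 + δ) l = ((blk W d t y ++ pre W d t).drop ((pre W d t).length + g - (δ + l))).take l := by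
    intro δ l h
    have h1 := mir_drop a j0 (m := δ + l) (n := (pre W d t).length + g) h
    have h2 := mir_take a j0 (m := δ) (n := δ + l) (by omega)
    have h3 : δ + l - δ = l := by omega
    rw [h3] at h2
    rw [← h2, ← h1, hmy, List.drop_take, List.take_take]
    congr 1
    omega
  -- option 1
  have o1 : win b (i0 + ((blk W d t x).length - f')) (pre W d t).length =
      mir a (j0 + g) (pre W d t).length := by
    rw [hwl _ _ (le_refl _), hml _ _ (by omega)]
    have e1 : f' + ((blk W d t x).length - f') = (blk W d t x).length := by omega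
    have e2 : (pre W d t).length + g - (g + (pre W d t).length) = 0 := by omega
    rw [e1, e2, List.drop_left, List.take_length, List.drop_zero, ← hRy]
  -- option 2
  have o2 : win b i0 ((pre W d t).length - (f' + ((blk W d t y).length - g))) =
      mir a j0 ((pre W d t).length - (f' + ((blk W d t y).length - g))) := by
    rcases Nat.lt_or_ge (pre W d t).length (f' + ((blk W d t y).length - g)) with h | h
    · have e0 : (pre W d t).length - (f' + ((blk W d t y).length - g)) = 0 := by omega
      rw [e0, win_zero, mir_zero]
    · have a1 := hwl 0 ((pre W d t).length - (f' + ((blk W d t y).length - g))) (by omega)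
      have a2 := hml 0 ((pre W d t).length - (f' + ((blk W d t y).length - g))) (by omega)
      rw [Nat.add_zero] at a1 a2
      rw [a1, a2]
      have e1 : (pre W d t).length + g - (0 + ((pre W d t).length - (f' + ((blk W d t y).length - g)))) =
          (blk W d t y).length + f' := by omega
      rw [e1, Nat.add_zero]
      have e3 : (blk W d t y ++ pre W d t).drop ((blk W d t y).length + f') = (pre W d t).drop f' := by
        rw [← List.drop_drop, List.drop_left]
      rw [e3]
      have e2 : (pre W d t).drop f' =
          ((blk W d t x ++ pre W d t).drop f').take ((pre W d t).length - f') := by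
        conv_lhs => rw [hRx]
        rw [List.drop_take]
      rw [e2, List.take_take]
      congr 1
      omega
  by_cases hxy : x = y
  · subst hxy
    obtain ⟨z, hz⟩ : ∃ z : Fin 3, x ≠ z := by
      by_cases h : x = 0
      · exact ⟨1, by rw [h]; decide⟩
      · exact ⟨0, h⟩
    have hz' := hLx z hz
    rcases Nat.lt_or_ge g f' with h | h
    · refine ⟨f' - g, (blk W d t x).length, i0 + ((blk W d t x).length - f'), j0 + g, by omega, ?_, o1,
        by omega⟩
      rcases Nat.lt_or_ge (pre W d t).length (f' - g) with h' | h'
      · have e0 : (pre W d t).length - (f' - g) = 0 := by omega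
        rw [e0, win_zero, mir_zero]
      · have a1 := hwl 0 ((pre W d t).length - (f' - g)) (by omega)
        have a2 := hml 0 ((pre W d t).length - (f' - g)) (by omega)
        rw [Nat.add_zero] at a1 a2
        rw [a1, a2]
        congr 2
        omega
    · refine ⟨f' + ((blk W d t x).length - g), (blk W d t x).length, i0 + (g - f'), j0, by omega, o2, ?_,
        by omega⟩
      have a1 := hwl (g - f') (pre W d t).length (by omega)
      have a2 := hml 0 (pre W d t).length (by omega)
      rw [Nat.add_zero] at a2
      rw [a1, a2]
      congr 2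
      omega
  · have h := hLx y hxy
    exact ⟨f' + ((blk W d t y).length - g), (blk W d t x).length + (blk W d t y).length,
      i0 + ((blk W d t x).length - f'), j0 + g, h, o2, o1, by omega⟩

end Pool.Agent.H2.MC
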