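import Mathlib
import Pool.Agent.H2.MC.ArDefs

set_option autoImplicit false

/-!
# Module ArC (120 lines): good levels

Let `L t x = (blk t x).length`, `n t = (pre t).length`.
* `pre_length`: `2 n_t + Σ_x |W x| = Σ_x L_t x`: induction: `n_{t+1} = n_t + L_t(d t)`, and `Σ_x L_{t+1} x = Σ_x L_t x + 2 L_t (d t)`
  (`Fin.sum_univ_three`, cases on `d t`).
* `pre_tendsto`: `n_{t+1} ≥ n_t + 1` as the blocks are not empty (`hW`, induction: `L_t x ≥ 1`).
* `good_level`: there are infinitely many `t` such that `L_t x ≤ L_t (d t)` for all `x` (the longest block is chosen). Suppose not, for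
  all `t ≥ t0`. Let `M` be the letter with `L_{t0} M` maximal, and `t1 ≥ t0` the first `t ≥ t0` with `d t = M` (`hd`). For `t0 ≤ t < t1`
  `L_{t+1} M = L_t M + L_t (d t)` and `L_{t+1} x ≤ L_t x + L_t (d t)` for every `x`, so `L_t x ≤ L_t M` is preserved up to `t = t1`; so the longest
  block is chosen at `t1`. Contradiction. At such a `t`, with `M = d t`, `j, k` the other letters: `L_{t+1} M = L_t M`, `L_{t+1} j = L_t j + L_t M`,
  `L_{t+1} k = L_t k + L_t M`; `Σ' = 3 L_t M + L_t j + L_t k ≤ 5 L_t M`; for `x ≠ y` `L_{t+1} x + L_{t+1} y ≤ Σ' - L_t M` (the third one is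
  `≥ L_t M`) `≤ (4/5) Σ' = (4/5)(2 n_{t+1} + Σ|W|)`: `5 (L' x + L' y) ≤ 8 n_{t+1} + 4 Σ |W x|`.
-/

namespace Pool.Agent.H2.MC

open Filter

variable {W : Fin 3 → List ℕ} {d : ℕ → Fin 3}

private lemma blk_succ_length (t : ℕ) (x : Fin 3) :
    (blk W d (t + 1) x).length =
      if x = d t then (blk W d t x).length else (blk W d t (d t)).length + (blk W d t x).length := by
  simp only [blk]
  split_ifs with h
  · rfl
  · rw [List.length_append]

lemma pre_length (t : ℕ) : 2 * (pre W d t).length + ∑ x, (W x).length = ∑ x, (blk W d t x).length := by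
  induction t with
  | zero => simp [pre, blk]
  | succ t ih =>
    have h1 : (pre W d (t + 1)).length = (blk W d t (d t)).length + (pre W d t).length := by
      simp only [pre, List.length_append]
    rw [h1]
    simp only [Fin.sum_univ_three, blk_succ_length] at ih ⊢
    generalize d t = M at *
    fin_cases M <;> simp <;> omega

private lemma blk_pos (hW : ∀ x, W x ≠ []) (t : ℕ) : ∀ x, 1 ≤ (blk W d t x).length := by
  induction t with
  | zero =>
    intro x
    exact List.length_pos_of_ne_nil (hW x)
  | succ t ih =>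
    intro x
    rw [blk_succ_length]
    have h1 := ih x
    split_ifs
    · exact h1
    · omega

lemma pre_tendsto (hW : ∀ x, W x ≠ []) (t : ℕ) : t ≤ (pre W d t).length := by
  induction t with
  | zero => exact Nat.zero_le _
  | succ t ih =>
    have h1 : (pre W d (t + 1)).length = (blk W d t (d t)).length + (pre W d t).length := by
      simp only [pre, List.length_append]
    have h2 := blk_pos (d := d) hW t (d t)
    omega

private lemma longest (hd : ∀ x, ∃ᶠ t in atTop, d t = x) :
    ∃ᶠ t in atTop, ∀ x, (blk W d t x).length ≤ (blk W d t (d t)).length := by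
  rw [frequently_atTop]
  intro t0
  obtain ⟨M, hM⟩ := Finite.exists_max (fun x => (blk W d t0 x).length)
  have h1 : ∃ s, d (t0 + s) = M := by
    obtain ⟨t, ht, hdt⟩ := (frequently_atTop.1 (hd M)) t0
    exact ⟨t - t0, by rw [Nat.add_sub_cancel' ht]; exact hdt⟩
  classical
  have key : ∀ s, (∀ r, r < s → d (t0 + r) ≠ M) →
      ∀ x, (blk W d (t0 + s) x).length ≤ (blk W d (t0 + s) M).length := by
    intro s
    induction s with
    | zero => intro _ x; exact hM x
    | succ s ih =>
      intro hr x
      have h2 := ih (fun r hrs => hr r (by omega))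
      have h3 := hr s (by omega)
      have h4 := h2 x
      have h5 := h2 (d (t0 + s))
      rw [show t0 + (s + 1) = (t0 + s) + 1 by omega, blk_succ_length, blk_succ_length,
        if_neg (Ne.symm h3)]
      split_ifs <;> omega
  refine ⟨t0 + Nat.find h1, by omega, ?_⟩
  rw [Nat.find_spec h1]
  exact key (Nat.find h1) (fun r hr => Nat.find_min h1 hr)

lemma good_level (hW : ∀ x, W x ≠ []) (hd : ∀ x, ∃ᶠ t in atTop, d t = x) :
    ∃ᶠ t in atTop, ∀ x y, x ≠ y →
      5 * ((blk W d t x).length + (blk W d t y).length) ≤ 8 * (pre W d t).length + 4 * ∑ x, (W x).length := by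
  have h := longest (W := W) hd
  rw [frequently_atTop] at h ⊢
  intro a
  obtain ⟨t, ht, hP⟩ := h a
  refine ⟨t + 1, by omega, ?_⟩
  intro x y hxy
  have h1 := pre_length (W := W) (d := d) (t + 1)
  have h0 := hP 0
  have h01 := hP 1
  have h02 := hP 2
  have h2 : 5 * ((blk W d (t + 1) x).length + (blk W d (t + 1) y).length) ≤
      4 * ∑ x, (blk W d (t + 1) x).length := by
    clear h1 hP
    simp only [Fin.sum_univ_three, blk_succ_length]
    generalize d t = M at *
    fin_cases M <;> fin_cases x <;> fin_cases y <;> simp at * <;> omega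
  omega

end Pool.Agent.H2.MC
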