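import Mathlib
import Pool.Agent.H2.MC.RatA
import Pool.Agent.H2.MC.ArA
import Pool.Agent.H2.MC.ArC

set_option autoImplicit false

/-!
# Module ArD (150 lines): the language and its growth rate

PROOFS.
* `lang_ARL`: `fin`: letters come from the words `W x` (induction on `t`: every letter of `blk t x` is a letter of some `W y`), finitely
  many letters; words of fixed length. `ne`: `[]`. `len`: by definition. `pre`, `suf`: prefixes and suffixes of factors. `exr`, `exl`:
  `w <:+: blk t x`. Choose `t1 > t`... with `d t1 = y ≠ x` and then `t2 > t1` with `d t2 = x`: `blk (t1+1) x = blk t1 y ++ blk t1 x`, and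
  `blk t2' z = blk t2 x ++ blk t2 z` for `z ≠ x` (level `t2+1`): there `blk t1 x` (which contains `blk t x`, `blk_infix_add`) is preceded by
  the nonempty `blk t1 y` and followed by the nonempty `blk t2 z` (`blk (t1+1) x` is a suffix of `blk t2 x`: all later levels add on the
  left). So `w` has a letter before and after it inside a block of the level `t2+1`.
* `rate_of_rec` (general; `F` a language, `f` almost additive): suppose there are infinitely many `n` and `R ∈ F n` contained in every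
  word of `F (4 n)`. `L` from `upper`, `l` from `lower`. Let `ε > 0`, `C, C'` the constants. For such an `n` take `w ∈ F (4n)` with
  `L·4n - D ≤ f w`, `w = u ++ R ++ v` (`|u| + |v| = 3n`, factors of `w` are in `F`): `f w ≤ f u + f R + f v + 2D ≤ (L+ε) 3n + 2C + 2D + f R`, so
  `f R ≥ L n - 3ε n - (2C+3D)`. Take `w' ∈ F (4n)` with `f w' ≤ l·4n`: `f R ≤ f w' - f u' - f v' ≤ 4 l n - (l-ε) 3n + 2C' = l n + 3ε n + 2C'`.
  So `(L - l) n ≤ 6 ε n + C''` for infinitely many `n`, `L ≤ l + 6ε`, all `ε`: `L ≤ l`. Then `lam = L` works (as in `rate`, RatC.lean).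
* `rate_ARL`: for the levels `t` of `good_level`, `n = |pre t|` large: every word `w ∈ ARL (4n)` satisfies the length hypothesis of
  `struct_prefix` (`L x ≤ (8n + 4Σ)/5 ≤ 3n` for large `n`; use some `y ≠ x`), and `(blk t x ++ pre t).drop f' = (blk t x).drop f' ++ pre t` is
  a prefix of `w`, so `w` contains `pre t`. `pre t ∈ ARL n`: `pre t <:+: pre (t+1) = blk t (d t) ++ pre t`...; simplest: every word of
  `ARL (4n)` contains `pre t` and `ARL (4n)` is not empty (`Lang.nonempty`), so `pre t` is a factor of a block.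
-/

namespace Pool.Agent.H2.MC

open Filter

private lemma fac_mem {F : ℕ → Set (List ℕ)} (hF : Lang F) {n : ℕ} {w s R t : List ℕ} (hw : w ∈ F n)
    (h : s ++ R ++ t = w) : s ∈ F s.length ∧ t ∈ F t.length ∧ s.length + R.length + t.length = n := by
  have hlen := hF.len n w hw
  have h1 : s.length + R.length + t.length = n := by
    rw [← hlen, ← h]
    simp only [List.length_append]
  refine ⟨?_, ?_, h1⟩
  · have h2 : w ∈ F (s.length + (R.length + t.length)) := by
      rw [← Nat.add_assoc, h1]; exact hw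
    have h3 := hF.take_mem h2
    rw [← h, List.append_assoc, List.take_left] at h3
    exact h3
  · have h2 : w ∈ F ((s ++ R).length + t.length) := by
      rw [List.length_append, h1]; exact hw
    have h3 := hF.drop_mem h2
    rw [← h, List.drop_left] at h3
    exact h3

lemma rate_of_rec {F : ℕ → Set (List ℕ)} (hF : Lang F)
    (hR : ∃ᶠ n : ℕ in atTop, ∃ R ∈ F n, ∀ w ∈ F (4 * n), R <:+: w)
    {f : List ℕ → ℝ} {D : ℝ} (hD : 0 ≤ D) (h0 : ∀ u, 0 ≤ f u)
    (h1 : ∀ u v, f u + f v ≤ f (u ++ v)) (h2 : ∀ u v, f (u ++ v) ≤ f u + f v + D) :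
    ∃ lam : ℝ, 0 ≤ lam ∧ ∀ ε : ℝ, 0 < ε → ∃ C : ℝ, ∀ n, ∀ w ∈ F n, |f w - lam * n| ≤ ε * n + C := by
  obtain ⟨L, hL0, hL1, hL2⟩ := upper hF hD h0 h2
  obtain ⟨l, hl0, hl1, hl2⟩ := lower hF hD h0 h1 h2
  have hLl : L ≤ l := by
    by_contra hcon
    push Not at hcon
    have hε : 0 < (L - l) / 12 := by linarith
    obtain ⟨C, hC⟩ := hL2 _ hε
    obtain ⟨C', hC'⟩ := hl2 _ hε
    obtain ⟨N, hN⟩ := exists_nat_gt ((2 * C + 3 * D + 2 * C') / ((L - l) / 2))
    obtain ⟨n, hn, R, hRF, hR'⟩ := (frequently_atTop.1 hR) N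
    have hRl : R.length = n := hF.len n R hRF
    have hnN : (2 * C + 3 * D + 2 * C') < (n : ℝ) * ((L - l) / 2) := by
      have h3 : (N : ℝ) ≤ n := by exact_mod_cast hn
      have h4 := hN.trans_le h3
      rwa [div_lt_iff₀ (by linarith)] at h4
    obtain ⟨w, hw, hwf⟩ := hL1 (4 * n)
    obtain ⟨w', hw', hwf'⟩ := hl1 (4 * n)
    obtain ⟨s, t, hst⟩ := hR' w hw
    obtain ⟨s', t', hst'⟩ := hR' w' hw'
    obtain ⟨m1, m2, m3⟩ := fac_mem hF hw hst
    obtain ⟨k1, k2, k3⟩ := fac_mem hF hw' hst'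
    have a1 := hC _ s m1
    have a2 := hC _ t m2
    have b1 := hC' _ s' k1
    have b2 := hC' _ t' k2
    have c1 := h2 (s ++ R) t
    have c2 := h2 s R
    have d1 := h1 (s' ++ R) t'
    have d2 := h1 s' R
    rw [hst] at c1
    rw [hst'] at d1
    rw [hRl] at m3 k3
    have m4 : (s.length : ℝ) + t.length = 3 * n := by
      have : s.length + t.length = 3 * n := by omega
      exact_mod_cast this
    have k4 : (s'.length : ℝ) + t'.length = 3 * n := by
      have : s'.length + t'.length = 3 * n := by omega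
      exact_mod_cast this
    push_cast at hwf hwf'
    have e1 : (L + (L - l) / 12) * (s.length : ℝ) + (L + (L - l) / 12) * (t.length : ℝ) =
        (L + (L - l) / 12) * (3 * n) := by rw [← m4]; ring
    have e2 : (l - (L - l) / 12) * (s'.length : ℝ) + (l - (L - l) / 12) * (t'.length : ℝ) =
        (l - (L - l) / 12) * (3 * n) := by rw [← k4]; ring
    nlinarith
  refine ⟨L, hL0, fun ε hε => ?_⟩
  obtain ⟨C, hC⟩ := hL2 ε hε
  obtain ⟨C', hC'⟩ := hl2 ε hε
  refine ⟨max C C', fun n w hw => ?_⟩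
  have h3 := hC n w hw
  have h4 := hC' n w hw
  have h5 : L * n ≤ l * n := mul_le_mul_of_nonneg_right hLl (Nat.cast_nonneg n)
  have h6 := le_max_left C C'
  have h7 := le_max_right C C'
  rw [abs_le]
  constructor <;> nlinarith

variable {W : Fin 3 → List ℕ} {d : ℕ → Fin 3}

private lemma blk_ne (hW : ∀ x, W x ≠ []) (t : ℕ) : ∀ x, blk W d t x ≠ [] := by
  induction t with
  | zero => exact hW
  | succ t ih =>
    intro x
    simp only [blk]
    split_ifs
    · exact ih x
    · intro h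
      exact ih x (List.append_eq_nil_iff.1 h).2

private lemma blk_letters (t : ℕ) : ∀ x, ∀ e ∈ blk W d t x, ∃ y, e ∈ W y := by
  induction t with
  | zero => exact fun x e he => ⟨x, he⟩
  | succ t ih =>
    intro x e he
    simp only [blk] at he
    split_ifs at he
    · exact ih x e he
    · rcases List.mem_append.1 he with h | h
      · exact ih _ e h
      · exact ih _ e h

private lemma lett_bd (W : Fin 3 → List ℕ) : ∃ M, ∀ y, ∀ e ∈ W y, e ≤ M := by
  refine ⟨∑ y, (W y).sum, fun y e he => ?_⟩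
  refine (List.single_le_sum (fun _ _ => Nat.zero_le _) e he).trans ?_
  exact Finset.single_le_sum (f := fun y => (W y).sum) (fun _ _ => Nat.zero_le _) (Finset.mem_univ y)

private lemma words_fin (M n : ℕ) : {w : List ℕ | w.length = n ∧ ∀ e ∈ w, e ≤ M}.Finite := by
  have h1 := (List.finite_length_eq (Fin (M + 1)) n).image (List.map (fun k : Fin (M + 1) => (k : ℕ)))
  refine h1.subset ?_
  rintro w ⟨hw, hM⟩
  refine ⟨w.map (Fin.ofNat (M + 1)), ?_, ?_⟩
  · show (w.map (Fin.ofNat (M + 1))).length = n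
    rw [List.length_map, hw]
  · rw [List.map_map]
    conv_rhs => rw [← List.map_id w]
    apply List.map_congr_left
    intro e he
    have h2 := hM e he
    simp only [Function.comp, id, Fin.val_ofNat]
    exact Nat.mod_eq_of_lt (by omega)

lemma lang_ARL (hW : ∀ x, W x ≠ []) (hd : ∀ x, ∃ᶠ t in atTop, d t = x) : Lang (ARL W d) := by
  constructor
  · intro n
    obtain ⟨M, hM⟩ := lett_bd W
    refine (words_fin M n).subset ?_
    rintro w ⟨hw, t, x, h⟩
    refine ⟨hw, fun e he => ?_⟩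
    obtain ⟨y, hy⟩ := blk_letters (d := d) t x e (h.subset he)
    exact hM y e hy
  · exact ⟨[], rfl, 0, 0, List.nil_infix⟩
  · exact fun n w hw => hw.1
  · rintro n w e ⟨hw, t, x, h⟩
    refine ⟨by simpa using hw, t, x, (List.prefix_append w [e]).isInfix.trans h⟩
  · rintro n w e ⟨hw, t, x, h⟩
    refine ⟨by simpa using hw, t, x, (List.suffix_cons e w).isInfix.trans h⟩
  · rintro n w ⟨hw, t, x, h⟩
    obtain ⟨t2, ht2, hd2⟩ := (frequently_atTop.1 (hd x)) t
    obtain ⟨k, rfl⟩ := Nat.exists_eq_add_of_le ht2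
    obtain ⟨p, q, hpq⟩ := h.trans (blk_infix_add (W := W) (d := d) t k x)
    obtain ⟨z, hz⟩ : ∃ z : Fin 3, z ≠ x := exists_ne x
    have h3 : blk W d (t + k + 1) z = blk W d (t + k) x ++ blk W d (t + k) z := by
      simp only [blk, hd2, if_neg hz]
    have h4 : q ++ blk W d (t + k) z ≠ [] := fun h5 =>
      blk_ne hW (t + k) z (List.append_eq_nil_iff.1 h5).2
    obtain ⟨e, q', hq'⟩ := List.exists_cons_of_ne_nil h4
    refine ⟨e, by simp [hw], t + k + 1, z, p, q', ?_⟩
    rw [h3, ← hpq, List.append_assoc (p ++ w), hq']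
    simp
  · rintro n w ⟨hw, t, x, h⟩
    obtain ⟨y, hy⟩ : ∃ y : Fin 3, y ≠ x := exists_ne x
    obtain ⟨t1, ht1, hd1⟩ := (frequently_atTop.1 (hd y)) t
    obtain ⟨k, rfl⟩ := Nat.exists_eq_add_of_le ht1
    obtain ⟨p, q, hpq⟩ := h.trans (blk_infix_add (W := W) (d := d) t k x)
    have h3 : blk W d (t + k + 1) x = blk W d (t + k) y ++ blk W d (t + k) x := by
      simp only [blk, hd1, if_neg (Ne.symm hy)]
    have h4 : blk W d (t + k) y ++ p ≠ [] := fun h5 =>
      blk_ne hW (t + k) y (List.append_eq_nil_iff.1 h5).1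
    obtain ⟨p', e, hp'⟩ : ∃ p' e, blk W d (t + k) y ++ p = p' ++ [e] :=
      ⟨_, _, (List.dropLast_append_getLast h4).symm⟩
    refine ⟨e, by simp [hw], t + k + 1, x, p', q, ?_⟩
    have h6 : blk W d (t + k) y ++ (p ++ w ++ q) = (blk W d (t + k) y ++ p) ++ w ++ q := by
      simp only [List.append_assoc]
    rw [h3, ← hpq, h6, hp']
    simp

lemma rate_ARL (hW : ∀ x, W x ≠ []) (hd : ∀ x, ∃ᶠ t in atTop, d t = x)
    {f : List ℕ → ℝ} {D : ℝ} (hD : 0 ≤ D) (h0 : ∀ u, 0 ≤ f u)
    (h1 : ∀ u v, f u + f v ≤ f (u ++ v)) (h2 : ∀ u v, f (u ++ v) ≤ f u + f v + D) :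
    ∃ lam : ℝ, 0 ≤ lam ∧ ∀ ε : ℝ, 0 < ε → ∃ C : ℝ, ∀ n, ∀ w ∈ ARL W d n, |f w - lam * n| ≤ ε * n + C := by
  refine rate_of_rec (lang_ARL hW hd) ?_ hD h0 h1 h2
  rw [frequently_atTop]
  intro N
  obtain ⟨t, ht, hgood⟩ := (frequently_atTop.1 (good_level hW hd)) (N + 4 * ∑ x, (W x).length)
  have hn := pre_tendsto (d := d) hW t
  have key : ∀ w ∈ ARL W d (4 * (pre W d t).length), pre W d t <:+: w := by
    intro w hw
    have hl : ∀ x, (blk W d t x).length + (pre W d t).length ≤ w.length := by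
      intro x
      obtain ⟨y, hy⟩ : ∃ y : Fin 3, y ≠ x := exists_ne x
      have h3 := hgood x y (Ne.symm hy)
      have h4 := hw.1
      omega
    obtain ⟨x, f', hf', hp⟩ := struct_prefix hw t hl
    rw [List.drop_append_of_le_length hf'] at hp
    exact (List.suffix_append _ _).isInfix.trans hp.isInfix
  refine ⟨(pre W d t).length, by omega, pre W d t, ?_, key⟩
  obtain ⟨w, hw⟩ := (lang_ARL hW hd).nonempty (4 * (pre W d t).length)
  obtain ⟨_, t', x', h'⟩ := id hw
  exact ⟨rfl, t', x', (key w hw).trans h'⟩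

end Pool.Agent.H2.MC
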