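import Mathlib
import Pool.Agent.H2.MC.DioA

set_option autoImplicit false

/-!
# Module DioB (120 lines): the power gain for pairs with mirrored words of proportional length

PROOF. `|q α - round (q α)| = nd (q α)` by definition. We may assume `c ≥ 0` (replace `c` by `max c 0`: `(2-κ)/(2+κ) > 0`;
`q ^ (1+c) ≤ q ^ (1 + max c 0)` for `q ≥ 1`). The hypothesis `h` with `l ≤ n` gives `0 ≤ κ n + 3` for arbitrarily large `n`, so
`κ ≥ 0` and `2 + κ > 0`. Put `τ = (1 - κ/2) - c (1 + κ/2) > 0` (from `c < (2-κ)/(2+κ)`). Choose `ε > 0` with `ε (2 + κ) · 4 ≤ lam τ / 2`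
or so, let `C ≥ 0` be the constant of `hr` for this `ε`. For `n` large and `i, j, l` from `h`: `i + j ≤ (κ/2) n + 3/2 - n + l`, in
particular `l ≥ (1-κ/2) n - 3/2`, `i + j ≤ (κ/2) n + 3/2` and `i + j ≤ n + 2`. Let `q` be from `mirror`. With `s = log siz`:
`log (q · nd · nd) ≤ log 32 + s(win α 0 i) + s(win β 0 j) - s(win α i l) ≤ log 32 + lam (i+j-l) + ε (i+j+l) + 3C
 ≤ log 32 + lam (-(1-κ/2) n + 3/2) + ε (2 n + 3) + 3 C`,
`log q ≤ log 8 + lam (i+j+l) + ε (i+j+l) + 3C ≤ log 8 + lam ((κ/2) n + 3/2 - n + 2l) + ε(2n+3) + 3C ≤ log 8 + lam ((1+κ/2) n + 3/2) + ...`.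
So `log (q^c · q · nd · nd) ≤ C' - lam τ n + 4 ε n (1+c)` which tends to `-∞` (`c ≤ 1`). (To avoid `log 0` bound the product by
`exp` of the right side: `siz = exp (log siz)`.) And `q ≥ siz (win α i l) ≥ exp (lam l - ε l - C) → ∞` (or `Sturm.siz_growth`:
`2 ^ (l/2) ≤ siz`), so `q ≥ N` for large `n`. `q ^ (1+c) = q * q ^ c` (`Real.rpow_add`, `q > 0`).
-/

namespace Pool.Agent.H2.MC

open Filter Pool.Agent.H2.Sturm

lemma final_prop {α β : ℝ} (hα : ∀ n, 0 < pq α n) (hβ : ∀ n, 0 < pq β n) {lam : ℝ} (hlam : 0 < lam)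
    (hr : ∀ ε : ℝ, 0 < ε → ∃ C : ℝ, ∀ i n : ℕ, |Real.log (siz (win (pq α) i n)) - lam * n| ≤ ε * n + C ∧
      |Real.log (siz (win (pq β) i n)) - lam * n| ≤ ε * n + C)
    {κ : ℝ} (hκ : κ < 2)
    (h : ∃ᶠ n : ℕ in atTop, ∃ i j l : ℕ, l ≤ n ∧ win (pq α) i l = mir (pq β) j l ∧
      2 * ((i : ℝ) + j + ((n : ℝ) - l)) ≤ κ * n + 3)
    {c : ℝ} (hc : c < (2 - κ) / (2 + κ)) : PowerLittlewood c α β := by
  have hκ0 : 0 ≤ κ := by
    by_contra hneg
    push Not at hneg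
    obtain ⟨n0, hn0⟩ := exists_nat_gt (3 / (-κ))
    obtain ⟨n, ⟨i, j, l, hl, -, h2⟩, hn⟩ := (h.and_eventually (eventually_ge_atTop n0)).exists
    have hnn : (n0 : ℝ) ≤ n := by exact_mod_cast hn
    have h3 : 3 < -κ * n := by
      rw [div_lt_iff₀ (by linarith)] at hn0
      nlinarith
    have hl' : (l : ℝ) ≤ n := by exact_mod_cast hl
    have h4 := Nat.cast_nonneg (α := ℝ) i
    have h5 := Nat.cast_nonneg (α := ℝ) j
    linarith
  set c1 : ℝ := max c 0 with hc1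
  have hc10 : 0 ≤ c1 := le_max_right _ _
  have hcc1 : c ≤ c1 := le_max_left _ _
  have h2κ : 0 < 2 + κ := by linarith
  have hpos : 0 < (2 - κ) / (2 + κ) := div_pos (by linarith) h2κ
  have hc1lt : c1 < (2 - κ) / (2 + κ) := max_lt hc hpos
  have hτ' : c1 * (2 + κ) < 2 - κ := by rwa [lt_div_iff₀ h2κ] at hc1lt
  set τ : ℝ := (1 - κ / 2) - c1 * (1 + κ / 2) with hτdef
  have hτ : 0 < τ := by rw [hτdef]; linarith
  set ε1 : ℝ := lam * τ / (4 * (1 + c1)) with hε1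
  have hε1pos : 0 < ε1 := by positivity
  have hε1e : ε1 * (1 + c1) = lam * τ / 4 := by
    rw [hε1]
    field_simp
  obtain ⟨C, hC⟩ := hr ε1 hε1pos
  intro ε0 hε0 N
  set δ : ℝ := 1 - κ / 2 with hδ
  have hδ0 : 0 < δ := by rw [hδ]; linarith
  set K0 : ℝ := c1 * Real.log 8 + Real.log 32 + lam * (3 / 2) * (1 + c1) + 3 / 8 * (lam * τ)
    + 3 * C * (1 + c1) with hK0
  have hlt : 0 < lam * τ / 2 := by positivity
  obtain ⟨n0, hn0⟩ := exists_nat_gt (max ((K0 - Real.log ε0) / (lam * τ / 2)) ((2 * N + 3 / 2) / δ))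
  have hn1 : (K0 - Real.log ε0) < n0 * (lam * τ / 2) := by
    have := (le_max_left _ _).trans_lt hn0
    rwa [div_lt_iff₀ hlt] at this
  have hn2 : 2 * (N : ℝ) + 3 / 2 < n0 * δ := by
    have := (le_max_right _ _).trans_lt hn0
    rwa [div_lt_iff₀ hδ0] at this
  obtain ⟨n, ⟨i, j, l, hl, hm, h2⟩, hn⟩ := (h.and_eventually (eventually_ge_atTop n0)).exists
  obtain ⟨q, hq1, hq2, hq3⟩ := mirror hα hβ hm
  have hnn : (n0 : ℝ) ≤ n := by exact_mod_cast hn
  have hl' : (l : ℝ) ≤ n := by exact_mod_cast hl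
  have hi0 := Nat.cast_nonneg (α := ℝ) i
  have hj0 := Nat.cast_nonneg (α := ℝ) j
  have hl0 := Nat.cast_nonneg (α := ℝ) l
  have hN0 := Nat.cast_nonneg (α := ℝ) n
  have hA1 : 1 ≤ siz (win (pq α) i l) := siz_pos (win_pos hα i l)
  have hB1 : 1 ≤ siz (win (pq α) 0 i) := siz_pos (win_pos hα 0 i)
  have hD1 : 1 ≤ siz (win (pq β) 0 j) := siz_pos (win_pos hβ 0 j)
  have hgrow := siz_growth (win (pq α) i l) (win_pos hα i l)
  rw [win_length] at hgrow
  have ha := abs_le.mp (hC i l).1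
  have hb := abs_le.mp (hC 0 i).1
  have hd := abs_le.mp (hC 0 j).2
  have hA : (0 : ℝ) < siz (win (pq α) i l) := by exact_mod_cast hA1
  have hB : (0 : ℝ) < siz (win (pq α) 0 i) := by exact_mod_cast hB1
  have hD : (0 : ℝ) < siz (win (pq β) 0 j) := by exact_mod_cast hD1
  have hq2' : (q : ℝ) ≤ 8 * ((siz (win (pq α) 0 i) : ℝ) * siz (win (pq β) 0 j) * siz (win (pq α) i l)) := by
    exact_mod_cast hq2
  -- the size of `q`
  have hlN : 2 * N ≤ l := by
    have h3 : 2 * (N : ℝ) ≤ l := by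
      have h4 : (n0 : ℝ) * δ ≤ n * δ := mul_le_mul_of_nonneg_right hnn hδ0.le
      rw [hδ] at h4 hn2
      linarith
    exact_mod_cast h3
  have hqN : N < q := by
    have h3 : N ≤ l / 2 := by omega
    calc N < 2 ^ N := Nat.lt_two_pow_self
      _ ≤ 2 ^ (l / 2) := Nat.pow_le_pow_right (by norm_num) h3
      _ ≤ siz (win (pq α) i l) := hgrow
      _ ≤ q := hq1
  have hqpos : 0 < q := by omega
  refine ⟨q, hqN.le, hqpos, ?_⟩
  set A : ℝ := (siz (win (pq α) i l) : ℝ) with hAd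
  set B : ℝ := (siz (win (pq α) 0 i) : ℝ) with hBd
  set D : ℝ := (siz (win (pq β) 0 j) : ℝ) with hDd
  have hq0' : (0 : ℝ) < q := by exact_mod_cast hqpos
  have hq1' : (1 : ℝ) ≤ q := by exact_mod_cast hqpos
  have hnd1 : 0 ≤ nd ((q : ℝ) * α) := abs_nonneg _
  have hnd2 : 0 ≤ nd ((q : ℝ) * β) := abs_nonneg _
  have e1 : (8 * (B * D * A)) ^ c1 * (32 * B * D / A) =
      Real.exp (c1 * (Real.log 8 + (Real.log B + Real.log D + Real.log A))
        + (Real.log 32 + Real.log B + Real.log D - Real.log A)) := by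
    rw [Real.exp_add]
    congr 1
    · rw [Real.rpow_def_of_pos (by positivity)]
      congr 1
      rw [Real.log_mul (by norm_num) (by positivity), Real.log_mul (by positivity) hA.ne',
        Real.log_mul hB.ne' hD.ne']
      ring
    · rw [← Real.exp_log (show (0 : ℝ) < 32 * B * D / A by positivity)]
      congr 1
      rw [Real.log_div (by positivity) hA.ne', Real.log_mul (by positivity) hD.ne',
        Real.log_mul (by norm_num) hB.ne']
  have hmain : (q : ℝ) ^ (1 + c) * nd ((q : ℝ) * α) * nd ((q : ℝ) * β)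
      ≤ (8 * (B * D * A)) ^ c1 * (32 * B * D / A) := by
    have h3 : (q : ℝ) ^ (1 + c) ≤ (q : ℝ) ^ (1 + c1) :=
      Real.rpow_le_rpow_of_exponent_le hq1' (by linarith)
    have h4 : (q : ℝ) ^ (1 + c1) = q * (q : ℝ) ^ c1 := by
      rw [Real.rpow_add hq0', Real.rpow_one]
    have h5 : (q : ℝ) ^ c1 ≤ (8 * (B * D * A)) ^ c1 := Real.rpow_le_rpow hq0'.le hq2' hc10
    have h6 : (0 : ℝ) ≤ (q : ℝ) ^ c1 := Real.rpow_nonneg hq0'.le _
    calc (q : ℝ) ^ (1 + c) * nd ((q : ℝ) * α) * nd ((q : ℝ) * β)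
        ≤ (q : ℝ) ^ (1 + c1) * nd ((q : ℝ) * α) * nd ((q : ℝ) * β) :=
          mul_le_mul_of_nonneg_right (mul_le_mul_of_nonneg_right h3 hnd1) hnd2
      _ = (q : ℝ) ^ c1 * ((q : ℝ) * nd ((q : ℝ) * α) * nd ((q : ℝ) * β)) := by rw [h4]; ring
      _ ≤ (8 * (B * D * A)) ^ c1 * (32 * B * D / A) :=
          mul_le_mul h5 hq3 (by positivity) (by positivity)
  have hexp : c1 * (Real.log 8 + (Real.log B + Real.log D + Real.log A))
        + (Real.log 32 + Real.log B + Real.log D - Real.log A) < Real.log ε0 := by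
    have hxl : ((i : ℝ) + j) - l ≤ (κ / 2 - 1) * n + 3 / 2 := by linarith
    have hxl2 : ((i : ℝ) + j) + l ≤ (κ / 2 + 1) * n + 3 / 2 := by linarith
    have hκn : κ * n ≤ 2 * n := mul_le_mul_of_nonneg_right hκ.le hN0
    have hxl3 : ((i : ℝ) + j) + l ≤ 2 * n + 3 / 2 := by linarith
    have s1 : (1 + c1) * (Real.log B + Real.log D)
        ≤ (1 + c1) * ((lam + ε1) * ((i : ℝ) + j) + 2 * C) :=
      mul_le_mul_of_nonneg_left (by linarith [hb.2, hd.2]) (by linarith)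
    have s2 : c1 * Real.log A ≤ c1 * ((lam + ε1) * l + C) :=
      mul_le_mul_of_nonneg_left (by linarith [ha.2]) hc10
    have s3 : -Real.log A ≤ -(lam - ε1) * l + C := by linarith [ha.1]
    have s4 : lam * ((((i : ℝ) + j) - l) + c1 * (((i : ℝ) + j) + l))
        ≤ lam * (-τ * n + 3 / 2 * (1 + c1)) := by
      apply mul_le_mul_of_nonneg_left _ hlam.le
      have h3 := mul_le_mul_of_nonneg_left hxl2 hc10
      rw [hτdef, hδ]
      linarith
    have s5 : ε1 * (1 + c1) * (((i : ℝ) + j) + l) ≤ lam * τ / 4 * (2 * n + 3 / 2) := by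
      rw [hε1e]
      exact mul_le_mul_of_nonneg_left hxl3 (by positivity)
    have s6 : (n0 : ℝ) * (lam * τ / 2) ≤ n * (lam * τ / 2) := mul_le_mul_of_nonneg_right hnn hlt.le
    rw [hK0] at hn1
    linarith
  calc (q : ℝ) ^ (1 + c) * |(q : ℝ) * α - (round ((q : ℝ) * α) : ℝ)|
      * |(q : ℝ) * β - (round ((q : ℝ) * β) : ℝ)|
      = (q : ℝ) ^ (1 + c) * nd ((q : ℝ) * α) * nd ((q : ℝ) * β) := rfl
    _ ≤ _ := hmain
    _ = _ := e1
    _ < Real.exp (Real.log ε0) := Real.exp_lt_exp.mpr hexp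
    _ = ε0 := Real.exp_log hε0

end Pool.Agent.H2.MC
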