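import Mathlib
import Pool.Agent.H2.MC.DioC

set_option autoImplicit false

/-!
# Module Gen (170 lines): generic pairs

`s` is a recurrent sequence. `X s`: sequences all of whose words occur in `s`; `Y s`: sequences all of whose mirrored words occur
in `s` (both with the product topology).

`left_ext`: for every `N` there is `y` in `Y s` with `y t = s (N - 1 - t)` for `t < N`. Proof: by recurrence there is for every
`L` a `P ≥ 1` with `win s P L = win s 0 L`; put `L_0 = N`, `L_{k+1} = P(L_k) + L_k > L_k`. So `s (L_{k+1} - 1 - t) = s (L_k - 1 - t)` for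
`t < L_k`: (`L_{k+1} - 1 - t = P + (L_k - 1 - t)`). Define `y t = s (L_{t+1} - 1 - t)` (`L_{t+1} > t`); then `y t = s (L_k - 1 - t)`
for every `k ≥ t+1`, and for every `k` with `L_k > t`. `mir y j n`: take `k` with `L_k ≥ j + n`: `mir y j n = win s (L_k - j - n) n`
(`mir y j n` reads `y (j+n-1), ..., y j` = `s (L_k - j - n), ..., s (L_k - 1 - j)`).

`generic`: for fixed `k`, `N` let `O k N = {p | ∃ l ≥ N, ∃ i j, (k+1)(i+j) ≤ l ∧ win p.1 i l = mir p.2 j l}`.
* open: for fixed `i, j, l` the condition depends on finitely many coordinates (continuous map to a discrete space: the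
  condition is `∀ t < l, p.1 (i+t) = p.2 (j + (l-1-t))`, `win_eq_mir_iff`; each equality is a clopen condition as `ℕ` is discrete:
  `isClopen_discrete`, or `isOpen_eq`-like: `(continuous ..).isOpen_preimage` of the diagonal).
* dense: let `(x, y) ∈ X × Y` and `m` be given; it suffices to find `(x', y') ∈ O k N` which agree with `x`, `y` up to `m` (a basis of
  neighbourhoods in the product topology: `isOpen_pi_iff` or use that a basic open set restricts finitely many
  coordinates). `win x 0 m = win s p1 m`, `mir y 0 m = win s p2' m`, by recurrence there is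
  `p2 ≥ p1 + m + N + (k+1) 2 m` with `win s p2 m = win s p2' m`. Put `l = p2 - p1 - m`, `x' = fun t => s (p1 + t)` (in `X s`), `y'` from
  `left_ext` with `N := p2 + m`: `y' t = s (p2 + m - 1 - t)` for `t < p2 + m`. Then `x'` agrees with `x` and `y'` agrees with `y` up to `m`,
  and `win x' m l = win s (p1+m) l = mir y' m l` (`mir y' m l` reads `y' (m+l-1), ..., y' m` = `s (p2 - l), ..., s (p2 - 1)`,
  `p2 - l = p1 + m`). So `i = j = m`, `(k+1)(2m) ≤ l`, `N ≤ l`.
The intersection of the `O k N` is residual (`residual` contains countable intersections of open dense sets: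
`mem_residual`, `residual_of_dense_open`, `countable_iInter_mem`), and it is contained in the set in question (`M = 0`).
-/

namespace Pool.Agent.H2.MC

open Filter Topology

/-- Sequences all of whose words occur in `s`. -/
def XS (s : ℕ → ℕ) : Set (ℕ → ℕ) := {x | ∀ i n, ∃ p, win s p n = win x i n}

/-- Sequences all of whose mirrored words occur in `s`. -/
def YS (s : ℕ → ℕ) : Set (ℕ → ℕ) := {y | ∀ j n, ∃ p, win s p n = mir y j n}

lemma left_ext {s : ℕ → ℕ} (hs : ∀ i n, ∃ᶠ p in atTop, win s p n = win s i n) (N : ℕ) :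
    ∃ y ∈ YS s, ∀ t < N, y t = s (N - 1 - t) := by
  have hP : ∀ L : ℕ, ∃ P : ℕ, 1 ≤ P ∧ win s P L = win s 0 L := by
    intro L
    obtain ⟨P, h1, h2⟩ := frequently_atTop.mp (hs 0 L) 1
    exact ⟨P, h1, h2⟩
  choose P hP1 hP2 using hP
  -- the sequence of lengths
  let L : ℕ → ℕ := fun k => Nat.rec N (fun _ M => P M + M) k
  have hL0 : L 0 = N := rfl
  have hLs : ∀ k, L (k + 1) = P (L k) + L k := fun k => rfl
  have hLk : ∀ k, k ≤ L k := by
    intro k
    induction k with
    | zero => exact Nat.zero_le _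
    | succ k ih =>
      rw [hLs]
      have := hP1 (L k)
      omega
  have hmono : Monotone L := by
    apply monotone_nat_of_le_succ
    intro k
    rw [hLs]
    omega
  have hstep : ∀ k t, t < L k → s (L (k + 1) - 1 - t) = s (L k - 1 - t) := by
    intro k t ht
    have h := (win_eq_iff s s (P (L k)) 0 (L k)).mp (hP2 (L k)) (L k - 1 - t) (by omega)
    have e1 : L (k + 1) - 1 - t = P (L k) + (L k - 1 - t) := by
      rw [hLs]; omega
    rw [e1, h, Nat.zero_add]
  have hsteps : ∀ d k t, t < L k → s (L (k + d) - 1 - t) = s (L k - 1 - t) := by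
    intro d k t ht
    induction d with
    | zero => rfl
    | succ d ih =>
      have h1 : t < L (k + d) := lt_of_lt_of_le ht (hmono (Nat.le_add_right k d))
      have h2 := hstep (k + d) t h1
      rw [← Nat.add_assoc, h2, ih]
  let y : ℕ → ℕ := fun t => s (L (t + 1) - 1 - t)
  have hy : ∀ k t, t < L k → y t = s (L k - 1 - t) := by
    intro k t ht
    have h1 := hsteps (t + 1) k t ht
    have h2 := hsteps k (t + 1) t (lt_of_lt_of_le (Nat.lt_succ_self t) (hLk (t + 1)))
    rw [Nat.add_comm (t + 1) k] at h2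
    show s (L (t + 1) - 1 - t) = s (L k - 1 - t)
    rw [← h1, ← h2]
  refine ⟨y, ?_, ?_⟩
  · intro j n
    refine ⟨L (j + n) - j - n, ?_⟩
    rw [win_eq_mir_iff]
    intro t ht
    have hk := hLk (j + n)
    have h1 : j + (n - 1 - t) < L (j + n) := by omega
    rw [hy (j + n) _ h1]
    congr 1
    omega
  · intro t ht
    have := hy 0 t (by rw [hL0]; exact ht)
    rw [this, hL0]

/-- The pairs with mirrored words of length at least `N` and ratio at least `k + 1`. -/
private def OO (s : ℕ → ℕ) (k N : ℕ) : Set (XS s × YS s) :=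
  {p | ∃ l, N ≤ l ∧ ∃ i j : ℕ, (k + 1) * (i + j) ≤ l ∧ win p.1.1 i l = mir p.2.1 j l}

private lemma isOpen_eq_coord (s : ℕ → ℕ) (a b : ℕ) :
    IsOpen {p : XS s × YS s | p.1.1 a = p.2.1 b} := by
  have hc : Continuous (fun p : XS s × YS s => (p.1.1 a, p.2.1 b)) := by
    apply Continuous.prodMk
    · exact (continuous_apply a).comp (continuous_subtype_val.comp continuous_fst)
    · exact (continuous_apply b).comp (continuous_subtype_val.comp continuous_snd)
  exact (isOpen_discrete {q : ℕ × ℕ | q.1 = q.2}).preimage hc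

private lemma isOpen_word (s : ℕ → ℕ) (i j l : ℕ) :
    IsOpen {p : XS s × YS s | win p.1.1 i l = mir p.2.1 j l} := by
  have h : {p : XS s × YS s | win p.1.1 i l = mir p.2.1 j l}
      = ⋂ t ∈ Finset.range l, {p : XS s × YS s | p.1.1 (i + t) = p.2.1 (j + (l - 1 - t))} := by
    ext p
    simp only [Set.mem_setOf_eq, Set.mem_iInter, Finset.mem_range]
    exact win_eq_mir_iff p.1.1 p.2.1 i j l
  rw [h]
  exact isOpen_biInter_finset (fun t _ => isOpen_eq_coord s (i + t) (j + (l - 1 - t)))

private lemma isOpen_OO (s : ℕ → ℕ) (k N : ℕ) : IsOpen (OO s k N) := by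
  rw [isOpen_iff_mem_nhds]
  rintro p ⟨l, hl, i, j, hij, hw⟩
  apply Filter.mem_of_superset ((isOpen_word s i j l).mem_nhds hw)
  intro p' hp'
  exact ⟨l, hl, i, j, hij, hp'⟩

private lemma approx {s : ℕ → ℕ} (hs : ∀ i n, ∃ᶠ p in atTop, win s p n = win s i n) (k N m : ℕ)
    (p : XS s × YS s) : ∃ p' ∈ OO s k N, (∀ t < m, p'.1.1 t = p.1.1 t) ∧ ∀ t < m, p'.2.1 t = p.2.1 t := by
  obtain ⟨p1, h1⟩ := p.1.2 0 m
  obtain ⟨p2', h2'⟩ := p.2.2 0 m
  obtain ⟨p2, hp2, h2⟩ := frequently_atTop.mp (hs p2' m) (p1 + m + N + (k + 1) * (m + m))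
  obtain ⟨y, hyY, hy⟩ := left_ext hs (p2 + m)
  have hx : (fun t => s (p1 + t)) ∈ XS s := by
    intro i n
    refine ⟨p1 + i, ?_⟩
    rw [win_eq_iff]
    intro t _
    show s (p1 + i + t) = s (p1 + (i + t))
    rw [Nat.add_assoc]
  refine ⟨(⟨_, hx⟩, ⟨y, hyY⟩), ?_, ?_, ?_⟩
  · refine ⟨p2 - p1 - m, by omega, m, m, by omega, ?_⟩
    rw [win_eq_mir_iff]
    intro t ht
    show s (p1 + (m + t)) = y (m + (p2 - p1 - m - 1 - t))
    rw [hy _ (by omega)]
    congr 1
    omega
  · intro t ht
    have h := (win_eq_iff s p.1.1 p1 0 m).mp h1 t ht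
    show s (p1 + t) = p.1.1 t
    rw [h, Nat.zero_add]
  · intro t ht
    rw [h2'] at h2
    have h := (win_eq_mir_iff s p.2.1 p2 0 m).mp h2 (m - 1 - t) (by omega)
    show y t = p.2.1 t
    rw [hy t (by omega)]
    have e1 : p2 + m - 1 - t = p2 + (m - 1 - t) := by omega
    have e2 : 0 + (m - 1 - (m - 1 - t)) = t := by omega
    rw [e1, h, e2]

private lemma dense_OO {s : ℕ → ℕ} (hs : ∀ i n, ∃ᶠ p in atTop, win s p n = win s i n) (k N : ℕ) :
    Dense (OO s k N) := by
  intro p
  choose q hq1 hq2 hq3 using fun m => approx hs k N m p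
  have ht : Tendsto q atTop (𝓝 p) := by
    have h1 : Tendsto (fun m => (q m).1) atTop (𝓝 p.1) := by
      rw [tendsto_subtype_rng, tendsto_pi_nhds]
      intro c
      apply tendsto_const_nhds.congr'
      filter_upwards [eventually_gt_atTop c] with m hm
      exact (hq2 m c hm).symm
    have h2 : Tendsto (fun m => (q m).2) atTop (𝓝 p.2) := by
      rw [tendsto_subtype_rng, tendsto_pi_nhds]
      intro c
      apply tendsto_const_nhds.congr'
      filter_upwards [eventually_gt_atTop c] with m hm
      exact (hq3 m c hm).symm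
    exact h1.prodMk_nhds h2
  exact mem_closure_of_tendsto ht (Eventually.of_forall hq1)

theorem generic {s : ℕ → ℕ} (hs : ∀ i n, ∃ᶠ p in atTop, win s p n = win s i n) :
    ∀ᶠ p : XS s × YS s in residual (XS s × YS s), MirrorClose p.1.1 p.2.1 := by
  have h : ∀ᶠ p : XS s × YS s in residual (XS s × YS s), ∀ k N, p ∈ OO s k N := by
    rw [eventually_countable_forall]
    intro k
    rw [eventually_countable_forall]
    intro N
    exact residual_of_dense_open (isOpen_OO s k N) (dense_OO hs k N)
  filter_upwards [h] with p hp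
  intro k
  refine ⟨0, fun N => ?_⟩
  obtain ⟨l, hl, i, j, hij, hw⟩ := hp k N
  exact ⟨l, hl, i, j, hij, hw⟩

end Pool.Agent.H2.MC
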