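import Mathlib
import Pool.Agent.H2.MC.Words

set_option autoImplicit false

/-!
# Module TowA (120 lines): words which end a periodic run

`Br n s D` : the word `D` (of length `n`) has a period `p` with `4 p ≤ n` up to the index `n - s`, and the letter at `n - s` breaks
this period. (`D.getD t 0` is the letter at the index `t`.)

`br_unique`: let `s < s'`, both `≤ n/2`, `Br n s D` with `p`, `Br n s' D` with `p'`. Put `x = n - s'`; `x < n - s`, `x ≥ n/2 ≥ p + p'`.
`D[x] = D[x-p]` (period `p`, as `x < n-s`) `= D[x-p-p']` (period `p'` below `n - s'`, as `x - p < n - s'`), and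
`D[x-p'] = D[x-p'-p]` (period `p`, as `x - p' < n - s`). So `D[x] = D[x-p']`: contradiction to `Br n s' D`.

`break_word`: `x` is not eventually periodic and `x (t+p) = x t` for `t + p < n`. Let `e ≥ n` be least with
`x e ≠ x (e-p)` (exists, otherwise `x (t+p) = x t` for all large `t`: `EvPer`). So `x (t+p) = x t` for `t + p < e`.
`D = win x (e-n+s) n`, it ends at the position `e+s`; its letter at the index `n-s` is `x e`. `Br n s D` with `p`.
With `m = n/2 ≤ n - s`: `D.take m = win x (e-n+s) m`; with `i = (e-n+s) % p < p ≤ n/4 ≤ m`.. (`i < m` as `p ≤ n/4`, `n ≥ 4`):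
`win x i m = win x (e-n+s) m` by the periodicity (all positions are `< e`: `e-n+s+m ≤ e`).
-/

namespace Pool.Agent.H2.MC

/-- The word `D` of length `n` ends a periodic run at the index `n - s`. -/
def Br (n s : ℕ) (D : List ℕ) : Prop :=
  ∃ p : ℕ, 0 < p ∧ 4 * p ≤ n ∧ (∀ t, t + p < n - s → D.getD (t + p) 0 = D.getD t 0) ∧
    D.getD (n - s) 0 ≠ D.getD (n - s - p) 0

private lemma br_lt {n s s' : ℕ} {D : List ℕ} (hs' : 2 * s' ≤ n) (h : Br n s D) (h' : Br n s' D)
    (hlt : s < s') : False := by
  obtain ⟨p, hp, hpn, h1, -⟩ := h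
  obtain ⟨p', hp', hpn', h1', h2'⟩ := h'
  have e1 : D.getD (n - s') 0 = D.getD (n - s' - p) 0 := by
    have := h1 (n - s' - p) (by omega)
    rwa [show n - s' - p + p = n - s' by omega] at this
  have e2 : D.getD (n - s' - p) 0 = D.getD (n - s' - p - p') 0 := by
    have := h1' (n - s' - p - p') (by omega)
    rwa [show n - s' - p - p' + p' = n - s' - p by omega] at this
  have e3 : D.getD (n - s' - p') 0 = D.getD (n - s' - p' - p) 0 := by
    have := h1 (n - s' - p' - p) (by omega)
    rwa [show n - s' - p' - p + p = n - s' - p' by omega] at this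
  rw [show n - s' - p' - p = n - s' - p - p' by omega] at e3
  exact h2' (by rw [e1, e2, e3])

lemma br_unique {n s s' : ℕ} {D : List ℕ} (hs : 2 * s ≤ n) (hs' : 2 * s' ≤ n) (h : Br n s D) (h' : Br n s' D) :
    s = s' := by
  rcases lt_trichotomy s s' with hlt | heq | hgt
  · exact (br_lt hs' h h' hlt).elim
  · exact heq
  · exact (br_lt hs h' h hgt).elim

private lemma win_getD (x : ℕ → ℕ) (i n t : ℕ) (h : t < n) : (win x i n).getD t 0 = x (i + t) := by
  have h1 : t < (win x i n).length := by rw [win_length]; exact h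
  rw [List.getD_eq_getElem _ _ h1, win_getElem]

private lemma per_mul {x : ℕ → ℕ} {e p : ℕ} (h : ∀ t, t + p < e → x (t + p) = x t) (k t : ℕ)
    (hk : t + k * p < e) : x (t + k * p) = x t := by
  induction k with
  | zero => simp
  | succ k ih =>
    have e1 : t + (k + 1) * p = (t + k * p) + p := by ring
    rw [e1] at hk ⊢
    rw [h _ hk]
    exact ih (by omega)

lemma break_word {x : ℕ → ℕ} (hx : ¬ EvPer x) {n p s : ℕ} (hp : 0 < p) (hpn : 4 * p ≤ n)
    (hper : ∀ t, t + p < n → x (t + p) = x t) (hs : 1 ≤ s) (hsn : 2 * s ≤ n) :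
    ∃ D : List ℕ, D.length = n ∧ (∃ i, win x i n = D) ∧ Br n s D ∧
      ∃ i < n / 2, win x i (n / 2) = D.take (n / 2) := by
  classical
  have hex : ∃ e, n ≤ e ∧ x e ≠ x (e - p) := by
    by_contra hcon
    push Not at hcon
    apply hx
    refine ⟨n, p, hp, fun t ht => ?_⟩
    have := hcon (t + p) (by omega)
    rwa [Nat.add_sub_cancel] at this
  obtain ⟨hne, hbr⟩ := Nat.find_spec hex
  have hmin := fun m hm => Nat.find_min hex (m := m) hm
  generalize Nat.find hex = e at hne hbr hmin
  have hall : ∀ t, t + p < e → x (t + p) = x t := by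
    intro t ht
    by_cases htn : t + p < n
    · exact hper t htn
    · by_contra hcon
      apply hmin (t + p) ht
      refine ⟨by omega, ?_⟩
      rwa [Nat.add_sub_cancel]
  refine ⟨win x (e - n + s) n, win_length _ _ _, ⟨_, rfl⟩, ⟨p, hp, hpn, ?_, ?_⟩, ?_⟩
  · intro t ht
    rw [win_getD _ _ _ _ (by omega), win_getD _ _ _ _ (by omega), ← Nat.add_assoc]
    exact hall _ (by omega)
  · rw [win_getD _ _ _ _ (by omega), win_getD _ _ _ _ (by omega)]
    rw [show e - n + s + (n - s) = e by omega, show e - n + s + (n - s - p) = e - p by omega]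
    exact hbr
  · refine ⟨(e - n + s) % p, ?_, ?_⟩
    · have := Nat.mod_lt (e - n + s) hp
      omega
    · rw [win_take _ _ (Nat.div_le_self n 2), win_eq_iff]
      intro t ht
      have hdm := Nat.mod_add_div (e - n + s) p
      have hpm := per_mul hall ((e - n + s) / p) ((e - n + s) % p + t) (by
        rw [Nat.mul_comm ((e - n + s) / p) p]
        omega)
      rw [← hpm]
      congr 1
      rw [Nat.mul_comm ((e - n + s) / p) p]
      omega

end Pool.Agent.H2.MC
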