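import Mathlib
import Pool.Agent.H2.MC.TowA
import Pool.Agent.H2.MC.Shift

set_option autoImplicit false

/-!
# Module TowB (180 lines): linear complexity forces a tower, aperiodic case

`Q n = {w | w.length = n ∧ μ {x | win x 0 n = w} ≠ 0}`. The measure `μ` is invariant under the shift.

PROOF of `tower_scale` (one scale `n ≥ 4`, `ncard (Q n) ≤ C n`, `Q n` finite). For a.e. `x` all factors are charged:
`∀ i n, win x i n ∈ Q n` (`ae_all_iff`; for fixed `i`, `n` the set of `x` with `win x i n ∉ Q n` is the countable union over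
the words `w` of length `n` with `μ {win x 0 n = w} = 0` of `{x | win x i n = w} = shift^[i] ⁻¹' {x | win x 0 n = w}`, of measure 0:
`MeasurePreserving.iterate`), and `x` is not eventually periodic (`hap`).
Let `E = {x | ∃ p, 0 < p ∧ 4p ≤ n ∧ ∀ t, t + p < n → x (t+p) = x t}` (measurable: it only depends on `win x 0 n`;
`measurableSet_win`).
CASE 1: `μ E ≥ 1/2`. The sets `{D ∈ Q n | Br n s D}`, `1 ≤ s ≤ n/2`, are pairwise disjoint subsets of `Q n` (`br_unique`), so one
of them, for some `s`, has at most `C n / (n/2)` elements, hence at most `3 C` (`n/2 ≥ n/3` for `n ≥ 2`, natural division). By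
`break_word` a.e. `x ∈ E` lies in `⋃ D ∈ {D ∈ Q n | Br n s D}, {x | ∃ i < n/2, win x i (n/2) = D.take (n/2)}`, so one of these sets
has measure `≥ 1/(6 C)` (`measure_biUnion_finset_le`; `C ≥ 1` as `Q n` is not empty): conclusion with `m = n/2`.
CASE 2: `μ E < 1/2`, so `μ Eᶜ ≥ 1/2`. Up to measure 0, `Eᶜ` is the union of the sets `{x | win x 0 n = w}` for the at most `C n`
words `w ∈ Q n` without a period `p`, `4p ≤ n`, so one of them has measure `≥ 1/(2 C n)`. The sets `shift^[i] ⁻¹' {x | win x 0 n = w}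
= {x | win x i n = w}`, `i < n/4`, are pairwise disjoint (if `win x i n = win x i' n`, `i < i' < n/4`, then `w` has the period
`i' - i`) and have the same measure, so `μ {x | ∃ i < n, win x i n = w} ≥ (n/4) / (2 C n) ≥ 1/(16 C)` for `n ≥ 4` (`n/4 ≥ n/8`):
conclusion with `m = n`.
In both cases: there are `m` with `n/2 ≤ m` and `w` of length `m` with `μ {x | ∃ i < m, win x i m = w} ≥ 1/(16 C)`.
`tower_aper`: from this by `frequently_atTop`.
-/

namespace Pool.Agent.H2.MC

open MeasureTheory Filter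

private def tw (m : ℕ) (w : List ℕ) : Set (ℕ → ℕ) := {x | ∃ i < m, win x i m = w}

private def chg (μ : Measure (ℕ → ℕ)) (n : ℕ) : Set (List ℕ) :=
  {w : List ℕ | w.length = n ∧ μ {x | win x 0 n = w} ≠ 0}

private lemma getD_win (x : ℕ → ℕ) (i n t : ℕ) (h : t < n) : (win x i n).getD t 0 = x (i + t) := by
  have h1 : t < (win x i n).length := by rw [win_length]; exact h
  rw [List.getD_eq_getElem _ _ h1, win_getElem]

private lemma meas_win {μ : Measure (ℕ → ℕ)} (hT : MeasurePreserving shift μ μ) (i n : ℕ) (w : List ℕ) :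
    μ {x | win x i n = w} = μ {x | win x 0 n = w} := by
  have h1 : {x : ℕ → ℕ | win x i n = w} = (shift^[i]) ⁻¹' {x | win x 0 n = w} := by
    ext x
    simp only [Set.mem_setOf_eq, Set.mem_preimage]
    rw [win_shift]
  rw [h1]
  exact (hT.iterate i).measure_preimage (measurableSet_win_eq 0 n w).nullMeasurableSet

private lemma ae_chg {μ : Measure (ℕ → ℕ)} (hT : MeasurePreserving shift μ μ) :
    ∀ᵐ x ∂μ, ∀ i n, win x i n ∈ chg μ n := by
  rw [ae_all_iff]
  intro i
  rw [ae_all_iff]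
  intro n
  rw [ae_iff]
  refine measure_mono_null (t := ⋃ w : {w : List ℕ // μ {x | win x 0 n = w} = 0}, {x | win x i n = w.1}) ?_ ?_
  · intro x hx
    simp only [chg, Set.mem_setOf_eq, win_length, true_and, not_not] at hx
    simp only [Set.mem_iUnion, Set.mem_setOf_eq]
    exact ⟨⟨win x i n, hx⟩, rfl⟩
  · rw [measure_iUnion_null_iff]
    rintro ⟨w, hw⟩
    rw [meas_win hT]
    exact hw

private def perW (n : ℕ) (w : List ℕ) : Prop :=
  ∃ p, 0 < p ∧ 4 * p ≤ n ∧ ∀ t, t + p < n → w.getD (t + p) 0 = w.getD t 0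

private lemma meas_tw (m : ℕ) (w : List ℕ) : MeasurableSet (tw m w) := by
  have : tw m w = ⋃ i : {i : ℕ // i < m}, {x | win x i.1 m = w} := by
    ext x
    simp [tw]
  rw [this]
  exact MeasurableSet.iUnion (fun i => measurableSet_win_eq i.1 m w)

private lemma bound_periodic {μ : Measure (ℕ → ℕ)} [IsProbabilityMeasure μ] (hT : MeasurePreserving shift μ μ)
    (hap : ∀ᵐ x ∂μ, ¬ EvPer x) {C n : ℕ} (hn : 4 ≤ n) (hfin : (chg μ n).Finite)
    (hcard : (chg μ n).ncard ≤ C * n) {c : ℝ} (hc : 0 ≤ c)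
    (h : ∀ w : List ℕ, w.length = n / 2 → μ.real (tw (n / 2) w) ≤ c) :
    μ.real {x | perW n (win x 0 n)} ≤ 3 * C * c := by
  classical
  -- one break position with few words
  obtain ⟨s, hs1, hs2, hs3⟩ : ∃ s, 1 ≤ s ∧ 2 * s ≤ n ∧
      (hfin.toFinset.filter (fun D => Br n s D)).card ≤ 3 * C := by
    by_contra hcon
    push Not at hcon
    have hdis : ∀ s ∈ Finset.Icc 1 (n / 2), ∀ s' ∈ Finset.Icc 1 (n / 2), s ≠ s' →
        Disjoint (hfin.toFinset.filter (fun D => Br n s D)) (hfin.toFinset.filter (fun D => Br n s' D)) := by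
      intro s hs s' hs' hne
      rw [Finset.disjoint_left]
      intro D hD hD'
      rw [Finset.mem_filter] at hD hD'
      rw [Finset.mem_Icc] at hs hs'
      exact hne (br_unique (by omega) (by omega) hD.2 hD'.2)
    have h1 := Finset.card_biUnion hdis
    have h2 : ((Finset.Icc 1 (n / 2)).biUnion (fun s => hfin.toFinset.filter (fun D => Br n s D))).card ≤ C * n := by
      refine le_trans (Finset.card_le_card (t := hfin.toFinset) ?_) ?_
      · intro D hD
        rw [Finset.mem_biUnion] at hD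
        obtain ⟨s, -, hD⟩ := hD
        exact (Finset.mem_filter.mp hD).1
      · rw [← Set.ncard_eq_toFinset_card _ hfin]
        exact hcard
    rw [h1] at h2
    have h3 : ∑ s ∈ Finset.Icc 1 (n / 2), (3 * C + 1) ≤
        ∑ s ∈ Finset.Icc 1 (n / 2), (hfin.toFinset.filter (fun D => Br n s D)).card := by
      refine Finset.sum_le_sum (fun s hs => ?_)
      rw [Finset.mem_Icc] at hs
      exact hcon s hs.1 (by omega)
    rw [Finset.sum_const, Nat.card_Icc, smul_eq_mul] at h3
    have h4 : n ≤ 3 * (n / 2) := by omega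
    have h5 : 1 ≤ n / 2 := by omega
    have h6 : C * n ≤ C * (3 * (n / 2)) := Nat.mul_le_mul_left _ h4
    have h7 : (n / 2 + 1 - 1) * (3 * C + 1) = C * (3 * (n / 2)) + n / 2 := by
      rw [Nat.add_sub_cancel]; ring
    omega
  set F := hfin.toFinset.filter (fun D => Br n s D) with hF
  have hsub : ∀ᵐ x ∂μ, x ∈ {x | perW n (win x 0 n)} → x ∈ ⋃ D ∈ F, tw (n / 2) (D.take (n / 2)) := by
    filter_upwards [ae_chg hT, hap] with x hx hxp hxE
    obtain ⟨p, hp, hpn, hper⟩ := hxE
    have hper' : ∀ t, t + p < n → x (t + p) = x t := by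
      intro t ht
      have := hper t ht
      rw [getD_win _ _ _ _ ht, getD_win _ _ _ _ (by omega), Nat.zero_add, Nat.zero_add] at this
      exact this
    obtain ⟨D, hD1, ⟨i, hi⟩, hD3, hD4⟩ := break_word hxp hp hpn hper' hs1 hs2
    simp only [Set.mem_iUnion]
    refine ⟨D, ?_, hD4⟩
    rw [hF, Finset.mem_filter, Set.Finite.mem_toFinset]
    exact ⟨hi ▸ hx i n, hD3⟩
  have h1 : μ.real {x | perW n (win x 0 n)} ≤ μ.real (⋃ D ∈ F, tw (n / 2) (D.take (n / 2))) := by
    have := measure_mono_ae (μ := μ) (s := {x | perW n (win x 0 n)})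
      (t := ⋃ D ∈ F, tw (n / 2) (D.take (n / 2))) hsub
    exact ENNReal.toReal_mono (measure_ne_top _ _) this
  refine h1.trans ((measureReal_biUnion_finset_le F _).trans ?_)
  refine le_trans (Finset.sum_le_sum (g := fun _ => c) (fun D hD => ?_)) ?_
  · rw [hF, Finset.mem_filter, Set.Finite.mem_toFinset] at hD
    apply h
    rw [List.length_take, hD.1.1]
    omega
  · rw [Finset.sum_const, nsmul_eq_mul]
    have h8 : ((F.card : ℕ) : ℝ) ≤ 3 * C := by exact_mod_cast hs3
    exact mul_le_mul_of_nonneg_right h8 hc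

private lemma bound_nonper {μ : Measure (ℕ → ℕ)} [IsProbabilityMeasure μ] (hT : MeasurePreserving shift μ μ)
    {C n : ℕ} (hn : 4 ≤ n) (hfin : (chg μ n).Finite)
    (hcard : (chg μ n).ncard ≤ C * n) {c : ℝ} (hc : 0 ≤ c)
    (h : ∀ w : List ℕ, w.length = n → μ.real (tw n w) ≤ c) :
    μ.real {x | ¬ perW n (win x 0 n)} ≤ 8 * C * c := by
  classical
  set F := hfin.toFinset.filter (fun w => ¬ perW n w) with hF
  have hsub : ∀ᵐ x ∂μ, x ∈ {x | ¬ perW n (win x 0 n)} → x ∈ ⋃ w ∈ F, {x | win x 0 n = w} := by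
    filter_upwards [ae_chg hT] with x hx hxE
    simp only [Set.mem_iUnion]
    refine ⟨win x 0 n, ?_, rfl⟩
    rw [hF, Finset.mem_filter, Set.Finite.mem_toFinset]
    exact ⟨hx 0 n, hxE⟩
  have h1 : μ.real {x | ¬ perW n (win x 0 n)} ≤ μ.real (⋃ w ∈ F, {x | win x 0 n = w}) := by
    have := measure_mono_ae (μ := μ) (s := {x | ¬ perW n (win x 0 n)})
      (t := ⋃ w ∈ F, {x | win x 0 n = w}) hsub
    exact ENNReal.toReal_mono (measure_ne_top _ _) this
  have h2 : μ.real (⋃ w ∈ F, {x : ℕ → ℕ | win x 0 n = w}) ≤ ∑ w ∈ F, μ.real {x | win x 0 n = w} :=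
    measureReal_biUnion_finset_le F _
  have h3 : ∀ w ∈ F, ((n / 4 : ℕ) : ℝ) * μ.real {x | win x 0 n = w} ≤ c := by
    intro w hw
    rw [hF, Finset.mem_filter, Set.Finite.mem_toFinset] at hw
    have hdis : (↑(Finset.range (n / 4)) : Set ℕ).PairwiseDisjoint (fun i => {x : ℕ → ℕ | win x i n = w}) := by
      have key : ∀ i j : ℕ, i < j → j < n / 4 → Disjoint {x : ℕ → ℕ | win x i n = w} {x : ℕ → ℕ | win x j n = w} := by
        intro i j hij hj
        rw [Set.disjoint_left]
        intro x hxi hxj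
        simp only [Set.mem_setOf_eq] at hxi hxj
        apply hw.2
        refine ⟨j - i, by omega, by omega, fun t ht => ?_⟩
        have e1 : w.getD (t + (j - i)) 0 = x (i + (t + (j - i))) := by
          rw [← hxi]; exact getD_win _ _ _ _ ht
        have e2 : w.getD t 0 = x (j + t) := by
          rw [← hxj]; exact getD_win _ _ _ _ (by omega)
        rw [e1, e2]
        congr 1
        omega
      intro i hi j hj hne
      rw [Finset.mem_coe, Finset.mem_range] at hi hj
      rcases Nat.lt_or_gt_of_ne hne with h' | h'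
      · exact key i j h' hj
      · exact (key j i h' hi).symm
    have e3 : μ.real (⋃ i ∈ Finset.range (n / 4), {x : ℕ → ℕ | win x i n = w}) =
        ∑ i ∈ Finset.range (n / 4), μ.real {x : ℕ → ℕ | win x i n = w} :=
      measureReal_biUnion_finset hdis (fun i _ => measurableSet_win_eq i n w)
    have e4 : ∀ i ∈ Finset.range (n / 4), μ.real {x : ℕ → ℕ | win x i n = w} = μ.real {x | win x 0 n = w} := by
      intro i _
      unfold Measure.real
      rw [meas_win hT]
    rw [Finset.sum_congr rfl e4, Finset.sum_const, Finset.card_range, nsmul_eq_mul] at e3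
    rw [← e3]
    refine le_trans (measureReal_mono ?_) (h w hw.1.1)
    intro x hx
    simp only [Set.mem_iUnion, Finset.mem_range, Set.mem_setOf_eq] at hx
    obtain ⟨i, hi, hx⟩ := hx
    exact ⟨i, by omega, hx⟩
  have h4 : ((n / 4 : ℕ) : ℝ) * ∑ w ∈ F, μ.real {x : ℕ → ℕ | win x 0 n = w} ≤ (C * n : ℕ) * c := by
    rw [Finset.mul_sum]
    refine le_trans (Finset.sum_le_sum h3) ?_
    rw [Finset.sum_const, nsmul_eq_mul]
    refine mul_le_mul_of_nonneg_right ?_ hc
    have : F.card ≤ C * n := by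
      refine le_trans (Finset.card_filter_le _ _) ?_
      rw [← Set.ncard_eq_toFinset_card _ hfin]
      exact hcard
    exact_mod_cast this
  have hq : (0 : ℝ) < ((n / 4 : ℕ) : ℝ) := by
    have : 0 < n / 4 := by omega
    exact_mod_cast this
  have h5 : ((C * n : ℕ) : ℝ) * c ≤ ((n / 4 : ℕ) : ℝ) * (8 * C * c) := by
    have h6 : (n : ℝ) ≤ 8 * ((n / 4 : ℕ) : ℝ) := by
      have : n ≤ 8 * (n / 4) := by omega
      exact_mod_cast this
    push_cast
    have h7 : (0 : ℝ) ≤ C * c := by positivity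
    nlinarith
  exact h1.trans (h2.trans (le_of_mul_le_mul_left (h4.trans h5) hq))

lemma tower_scale {μ : Measure (ℕ → ℕ)} [IsProbabilityMeasure μ] (hT : MeasurePreserving shift μ μ)
    (hap : ∀ᵐ x ∂μ, ¬ EvPer x) {C n : ℕ} (hn : 4 ≤ n)
    (hfin : ({w : List ℕ | w.length = n ∧ μ {x | win x 0 n = w} ≠ 0}).Finite)
    (hcard : ({w : List ℕ | w.length = n ∧ μ {x | win x 0 n = w} ≠ 0}).ncard ≤ C * n) :
    ∃ (m : ℕ) (w : List ℕ), n / 2 ≤ m ∧ w.length = m ∧ (16 * (C : ENNReal))⁻¹ ≤ μ {x | ∃ i < m, win x i m = w} := by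
  by_contra hcon
  push Not at hcon
  have hC : 1 ≤ C := by
    rcases Nat.eq_zero_or_pos C with h0 | h0
    · exfalso
      rw [h0, Nat.zero_mul] at hcard
      have he : {w : List ℕ | w.length = n ∧ μ {x | win x 0 n = w} ≠ 0} = ∅ :=
        (Set.ncard_eq_zero hfin).mp (Nat.le_zero.mp hcard)
      obtain ⟨x, hx⟩ := (ae_chg hT).exists
      have := hx 0 n
      have h2 : win x 0 n ∈ {w : List ℕ | w.length = n ∧ μ {x | win x 0 n = w} ≠ 0} := this
      rw [he] at h2
      exact h2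
    · exact h0
  have hCr : (0 : ℝ) < C := by exact_mod_cast hC
  have htop : (16 * (C : ENNReal))⁻¹ ≠ ⊤ := by
    rw [Ne, ENNReal.inv_eq_top]
    simp only [mul_eq_zero, not_or]
    exact ⟨by norm_num, by exact_mod_cast (by omega : C ≠ 0)⟩
  have hreal : ((16 * (C : ENNReal))⁻¹).toReal = (16 * (C : ℝ))⁻¹ := by
    rw [ENNReal.toReal_inv, ENNReal.toReal_mul]
    simp
  have hb : ∀ (m : ℕ) (w : List ℕ), n / 2 ≤ m → w.length = m → μ.real (tw m w) ≤ (16 * (C : ℝ))⁻¹ := by
    intro m w hm hw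
    rw [← hreal]
    exact ENNReal.toReal_mono htop (hcon m w hm hw).le
  have hc : (0 : ℝ) ≤ (16 * (C : ℝ))⁻¹ := by positivity
  have h1 := bound_periodic hT hap hn hfin hcard hc (fun w hw => hb (n / 2) w le_rfl hw)
  have h2 := bound_nonper hT hn hfin hcard hc (fun w hw => hb n w (Nat.div_le_self n 2) hw)
  have h3 : MeasurableSet {x : ℕ → ℕ | perW n (win x 0 n)} := measurableSet_win 0 n (perW n)
  have h4 : μ.real {x : ℕ → ℕ | ¬ perW n (win x 0 n)} = 1 - μ.real {x : ℕ → ℕ | perW n (win x 0 n)} := by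
    have := probReal_compl_eq_one_sub (μ := μ) h3
    rw [← this]
    rfl
  have h5 : (C : ℝ) * (16 * (C : ℝ))⁻¹ = 1 / 16 := by
    field_simp
  have h6 : 3 * (C : ℝ) * (16 * (C : ℝ))⁻¹ = 3 / 16 := by
    rw [mul_assoc, h5]; norm_num
  have h7 : 8 * (C : ℝ) * (16 * (C : ℝ))⁻¹ = 1 / 2 := by
    rw [mul_assoc, h5]; norm_num
  rw [h6] at h1
  rw [h7, h4] at h2
  linarith

lemma tower_aper {μ : Measure (ℕ → ℕ)} [IsProbabilityMeasure μ] (hT : MeasurePreserving shift μ μ)
    (hap : ∀ᵐ x ∂μ, ¬ EvPer x) {C : ℕ}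
    (h : ∃ᶠ n : ℕ in atTop, ({w : List ℕ | w.length = n ∧ μ {x | win x 0 n = w} ≠ 0}).Finite ∧
      ({w : List ℕ | w.length = n ∧ μ {x | win x 0 n = w} ≠ 0}).ncard ≤ C * n) :
    ∃ c : ENNReal, 0 < c ∧ ∃ᶠ m : ℕ in atTop, ∃ w : List ℕ, w.length = m ∧ c ≤ μ {x | ∃ i < m, win x i m = w} := by
  refine ⟨(16 * (C : ENNReal))⁻¹, ?_, ?_⟩
  · rw [ENNReal.inv_pos]
    exact ENNReal.mul_ne_top (by norm_num) (ENNReal.natCast_ne_top C)
  · rw [frequently_atTop] at h ⊢
    intro N
    obtain ⟨n, hn, hfin, hcard⟩ := h (2 * N + 4)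
    obtain ⟨m, w, hm, hw, hμ⟩ := tower_scale hT hap (by omega) hfin hcard
    exact ⟨m, by omega, w, hw, hμ⟩

end Pool.Agent.H2.MC
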