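import Mathlib
import Pool.Agent.H2.MC.TowB

set_option autoImplicit false

/-!
# Module TowC (110 lines): linear complexity forces a tower, general ergodic case

PROOF. The set `G = {x | EvPer x}` is measurable (countable unions and intersections of coordinate conditions) and
`shift ⁻¹' G = G`, so by ergodicity it has measure `0` or `1` (`Ergodic.measure_self_or_compl..`,
`Ergodic.ae_empty_or_univ`). If `0`: `tower_aper` (`hμ.toMeasurePreserving`). If it is conull: `G = ⋃ N p, G N p`,
`G N p = {x | ∀ n ≥ N, x (n+p) = x n}`, so `μ (G N p) > 0` for some `N`, `p > 0`; `G N p = shift^[N] ⁻¹' (G 0 p)`, so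
`μ (G 0 p) = μ (G N p) > 0`. `G 0 p` is countable (`x ∈ G 0 p` is determined by its first `p` letters: injection into
`Fin p → ℕ`, or into lists by `win x 0 p`), so it contains a point `z` with `μ {z} > 0` (a countable union of null sets is null).
Then for every `m ≥ 1` the word `w = win z 0 m` satisfies `μ {x | ∃ i < m, win x i m = w} ≥ μ {z} > 0` (`i = 0`): `c = μ {z}`.
-/

namespace Pool.Agent.H2.MC

open MeasureTheory Filter

private def perSet (N p : ℕ) : Set (ℕ → ℕ) := {x | ∀ n, N ≤ n → x (n + p) = x n}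

private lemma measurable_perSet (N p : ℕ) : MeasurableSet (perSet N p) := by
  have : perSet N p = ⋂ n : ℕ, {x : ℕ → ℕ | N ≤ n → x (n + p) = x n} := by
    ext x
    simp [perSet]
  rw [this]
  refine MeasurableSet.iInter fun n => ?_
  by_cases h : N ≤ n
  · have h2 : {x : ℕ → ℕ | N ≤ n → x (n + p) = x n} = {x : ℕ → ℕ | x (n + p) = x n} := by
      ext x
      simp [h]
    rw [h2]
    exact measurableSet_eq_fun (measurable_pi_apply _) (measurable_pi_apply _)
  · have h2 : {x : ℕ → ℕ | N ≤ n → x (n + p) = x n} = Set.univ := by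
      ext x
      simp [h]
    rw [h2]
    exact MeasurableSet.univ

private lemma evPer_eq : {x : ℕ → ℕ | EvPer x} = ⋃ N : ℕ, ⋃ p : {p : ℕ // 0 < p}, perSet N p.1 := by
  ext x
  simp only [Set.mem_setOf_eq, Set.mem_iUnion, perSet, EvPer]
  constructor
  · rintro ⟨N, p, hp, h⟩
    exact ⟨N, ⟨p, hp⟩, h⟩
  · rintro ⟨N, ⟨p, hp⟩, h⟩
    exact ⟨N, p, hp, h⟩

private lemma shift_preimage_evPer : shift ⁻¹' {x : ℕ → ℕ | EvPer x} = {x : ℕ → ℕ | EvPer x} := by
  ext x
  simp only [Set.mem_preimage, Set.mem_setOf_eq]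
  constructor
  · rintro ⟨N, p, hp, h⟩
    refine ⟨N + 1, p, hp, fun n hn => ?_⟩
    obtain ⟨m, rfl⟩ : ∃ m, n = m + 1 := ⟨n - 1, by omega⟩
    have h1 := h m (by omega)
    unfold shift at h1
    have e : m + 1 + p = m + p + 1 := by omega
    rw [e]
    exact h1
  · rintro ⟨N, p, hp, h⟩
    refine ⟨N, p, hp, fun n hn => ?_⟩
    have h1 := h (n + 1) (by omega)
    unfold shift
    have e : n + p + 1 = n + 1 + p := by omega
    rw [e]
    exact h1

private lemma perSet_preimage (N p : ℕ) : shift^[N] ⁻¹' (perSet 0 p) = perSet N p := by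
  ext x
  simp only [Set.mem_preimage, perSet, Set.mem_setOf_eq, shift_iterate]
  constructor
  · intro h n hn
    have h1 := h (n - N) (Nat.zero_le _)
    have e1 : N + (n - N + p) = n + p := by omega
    have e2 : N + (n - N) = n := by omega
    rw [e1, e2] at h1
    exact h1
  · intro h n _
    have h1 := h (N + n) (Nat.le_add_right _ _)
    have e1 : N + (n + p) = N + n + p := by omega
    rw [e1]
    exact h1

private lemma perSet_mod {x : ℕ → ℕ} {p : ℕ} (hx : x ∈ perSet 0 p) (n : ℕ) : x n = x (n % p) := by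
  have h1 : ∀ q r : ℕ, x (r + p * q) = x r := by
    intro q
    induction q with
    | zero => intro r; simp
    | succ q ih =>
      intro r
      have h2 := hx (r + p * q) (Nat.zero_le _)
      have e : r + p * (q + 1) = r + p * q + p := by ring
      rw [e, h2, ih]
  have h3 := h1 (n / p) (n % p)
  rw [Nat.mod_add_div] at h3
  exact h3

private lemma perSet_countable {p : ℕ} (hp : 0 < p) : (perSet 0 p).Countable := by
  refine Set.MapsTo.countable_of_injOn (f := fun (x : ℕ → ℕ) (i : Fin p) => x i.1) (t := Set.univ)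
    (fun _ _ => Set.mem_univ _) ?_ (Set.to_countable _)
  intro x hx y hy hxy
  funext n
  rw [perSet_mod hx n, perSet_mod hy n]
  exact congrFun hxy ⟨n % p, Nat.mod_lt n hp⟩

theorem tower {μ : Measure (ℕ → ℕ)} [IsProbabilityMeasure μ] (hT : Ergodic shift μ) {C : ℕ}
    (h : ∃ᶠ n : ℕ in atTop, ({w : List ℕ | w.length = n ∧ μ {x | win x 0 n = w} ≠ 0}).Finite ∧
      ({w : List ℕ | w.length = n ∧ μ {x | win x 0 n = w} ≠ 0}).ncard ≤ C * n) :
    ∃ c : ENNReal, 0 < c ∧ ∃ᶠ m : ℕ in atTop, ∃ w : List ℕ, w.length = m ∧ c ≤ μ {x | ∃ i < m, win x i m = w} := by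
  have hG : MeasurableSet {x : ℕ → ℕ | EvPer x} := by
    rw [evPer_eq]
    exact MeasurableSet.iUnion fun N => MeasurableSet.iUnion fun p => measurable_perSet N p.1
  rcases hT.toPreErgodic.prob_eq_zero_or_one hG shift_preimage_evPer with h0 | h1
  · have hap : ∀ᵐ x ∂μ, ¬ EvPer x := by
      rw [ae_iff]
      have e : {a : ℕ → ℕ | ¬¬EvPer a} = {x : ℕ → ℕ | EvPer x} := by
        ext x
        simp
      rw [e]
      exact h0
    exact tower_aper hT.toMeasurePreserving hap h
  · have hex : ∃ (N p : ℕ), 0 < p ∧ μ (perSet N p) ≠ 0 := by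
      by_contra hcon
      push Not at hcon
      have h2 : μ {x : ℕ → ℕ | EvPer x} = 0 := by
        rw [evPer_eq]
        exact measure_iUnion_null fun N => measure_iUnion_null fun p => hcon N p.1 p.2
      rw [h2] at h1
      exact zero_ne_one h1
    obtain ⟨N, p, hp, hμ⟩ := hex
    have h2 : μ (perSet 0 p) ≠ 0 := by
      have h3 := (hT.toMeasurePreserving.iterate N).measure_preimage
        (measurable_perSet 0 p).nullMeasurableSet
      rw [perSet_preimage] at h3
      rw [← h3]
      exact hμ
    have h4 : ∃ z ∈ perSet 0 p, μ {z} ≠ 0 := by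
      by_contra hcon
      push Not at hcon
      apply h2
      have h5 : μ (⋃ z ∈ perSet 0 p, {z}) = 0 :=
        (measure_biUnion_null_iff (perSet_countable hp)).2 hcon
      rwa [Set.biUnion_of_singleton] at h5
    obtain ⟨z, -, hz⟩ := h4
    refine ⟨μ {z}, pos_iff_ne_zero.mpr hz, ?_⟩
    refine Filter.Eventually.frequently ?_
    filter_upwards [eventually_ge_atTop 1] with m hm
    refine ⟨win z 0 m, by simp [win], measure_mono ?_⟩
    intro x hx
    rw [Set.mem_singleton_iff] at hx
    subst hx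
    exact ⟨0, by omega, rfl⟩

end Pool.Agent.H2.MC
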