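import Mathlib
import Pool.Agent.H2.MC.AeA
import Pool.Agent.H2.MC.TowC
import Pool.Agent.H2.MC.Gen

set_option autoImplicit false

/-!
# Theorems B, C, D: almost every partner, almost every pair, generic pairs
-/

namespace Pool.Agent.H2.MC

open Filter MeasureTheory

theorem thmB {ν : Measure (ℕ → ℕ)} [IsProbabilityMeasure ν] (hν : Ergodic shift ν) {A : ℕ}
    (hA : ∀ᵐ y ∂ν, ∀ n, 0 < y n ∧ y n ≤ A) (b : ℕ → ℕ) {K : ℕ} {c0 : ENNReal} (hc0 : 0 < c0)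
    (h : ∃ᶠ n : ℕ in atTop, c0 ≤ ν {y | ∃ j < K * n, mir y j n = win b 0 n}) :
    ∀ᵐ y ∂ν, ∀ α β : ℝ, pq α = b → pq β = y → ∀ c < 1, PowerLittlewood c α β := by
  obtain ⟨hb, hae⟩ := every_ae hν hA b hc0 h
  filter_upwards [hA, hae] with y hy hm α β hα hβ c hc
  exact final_small (A := A) (by rw [hα]; exact hb) (by rw [hβ]; exact hy) (by rw [hα, hβ]; exact hm) hc

theorem thmC {μ ν : Measure (ℕ → ℕ)} [IsProbabilityMeasure μ] [IsProbabilityMeasure ν] (hμ : Ergodic shift μ)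
    (hν : Ergodic shift ν) (hm : ∀ (n : ℕ) (w : List ℕ), ν {y | mir y 0 n = w} = μ {x | win x 0 n = w})
    {A : ℕ} (hA : ∀ᵐ x ∂μ, ∀ n, 0 < x n ∧ x n ≤ A)
    (h : (∃ C : ℕ, ∃ᶠ n : ℕ in atTop, ({w : List ℕ | w.length = n ∧ μ {x | win x 0 n = w} ≠ 0}).Finite ∧
        ({w : List ℕ | w.length = n ∧ μ {x | win x 0 n = w} ≠ 0}).ncard ≤ C * n) ∨
      ∃ (K : ℕ) (c0 : ENNReal), 0 < c0 ∧ ∃ᶠ n : ℕ in atTop, ∃ w : List ℕ, w.length = n ∧
        c0 ≤ μ {x | ∃ i < K * n, win x i n = w}) :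
    ∀ᵐ p ∂(μ.prod ν), ∀ α β : ℝ, pq α = p.1 → pq β = p.2 → ∀ c < 1, PowerLittlewood c α β := by
  have h' : ∃ (K : ℕ) (c0 : ENNReal), 0 < c0 ∧ ∃ᶠ n : ℕ in atTop, ∃ w : List ℕ, w.length = n ∧
        c0 ≤ μ {x | ∃ i < K * n, win x i n = w} := by
    rcases h with ⟨C, hC⟩ | h
    · obtain ⟨c0, hc0, hf⟩ := tower hμ hC
      exact ⟨1, c0, hc0, by simpa using hf⟩
    · exact h
  obtain ⟨K, c0, hc0, hf⟩ := h'
  have hae := ae_ae hμ hν hm hc0 hf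
  -- the letters of `ν`
  have hAν : ∀ᵐ y ∂ν, ∀ n, 0 < y n ∧ y n ≤ A := by
    have h1 : ∀ n, ν {y : ℕ → ℕ | ¬ ∀ t < n, 0 < y t ∧ y t ≤ A} = 0 := by
      intro n
      have e1 : {y : ℕ → ℕ | ¬ ∀ t < n, 0 < y t ∧ y t ≤ A} = {y | ¬ ∀ e ∈ mir y 0 n, 0 < e ∧ e ≤ A} := by
        ext y
        simp [mir, win, List.mem_reverse, List.mem_map]
      have e2 : {x : ℕ → ℕ | ¬ ∀ t < n, 0 < x t ∧ x t ≤ A} = {x | ¬ ∀ e ∈ win x 0 n, 0 < e ∧ e ≤ A} := by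
        ext y
        simp [win, List.mem_map]
      rw [e1, mirror_prob hm (fun w => ¬ ∀ e ∈ w, 0 < e ∧ e ≤ A) n, ← e2]
      have h2 : ∀ᵐ x ∂μ, ∀ t < n, 0 < x t ∧ x t ≤ A := hA.mono (fun x hx t _ => hx t)
      exact h2
    have h3 : ∀ᵐ y ∂ν, ∀ n, ∀ t < n, 0 < y t ∧ y t ≤ A := by
      rw [ae_all_iff]
      intro n
      exact h1 n
    exact h3.mono (fun y hy n => hy (n + 1) n (Nat.lt_succ_self n))
  have hA1 : ∀ᵐ p ∂(μ.prod ν), ∀ n, 0 < p.1 n ∧ p.1 n ≤ A :=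
    Measure.quasiMeasurePreserving_fst.ae hA
  have hA2 : ∀ᵐ p ∂(μ.prod ν), ∀ n, 0 < p.2 n ∧ p.2 n ≤ A :=
    Measure.quasiMeasurePreserving_snd.ae hAν
  filter_upwards [hae, hA1, hA2] with p hp h1 h2 α β hα hβ c hc
  exact final_small (A := A) (by rw [hα]; exact h1) (by rw [hβ]; exact h2) (by rw [hα, hβ]; exact hp) hc

theorem thmD {s : ℕ → ℕ} (hs : ∀ i n, ∃ᶠ p in atTop, win s p n = win s i n) {A : ℕ}
    (hA : ∀ n, 0 < s n ∧ s n ≤ A) :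
    ∀ᶠ p : XS s × YS s in residual (XS s × YS s), ∀ α β : ℝ, pq α = p.1.1 → pq β = p.2.1 →
      ∀ c < 1, PowerLittlewood c α β := by
  filter_upwards [generic hs] with p hp α β hα hβ c hc
  refine final_small (A := A) ?_ ?_ (by rw [hα, hβ]; exact hp) hc
  · rw [hα]
    intro n
    obtain ⟨q, hq⟩ := p.1.2 n 1
    have : s q = p.1.1 n := by
      rw [win_eq_iff] at hq
      simpa using hq 0 Nat.one_pos
    rw [← this]; exact hA q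
  · rw [hβ]
    intro n
    obtain ⟨q, hq⟩ := p.2.2 n 1
    have : s q = p.2.1 n := by
      have h1 : mir p.2.1 n 1 = [p.2.1 n] := by rw [show (1 : ℕ) = 0 + 1 from rfl, mir_succ]; simp
      have h2 : win s q 1 = [s q] := by rw [show (1 : ℕ) = 0 + 1 from rfl, win_succ]; simp
      rw [h1, h2] at hq
      simpa using hq
    rw [← this]; exact hA q

end Pool.Agent.H2.MC
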