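import Mathlib
import Pool.Agent.H2.MC.ArB
import Pool.Agent.H2.MC.ArC
import Pool.Agent.H2.MC.ArD
import Pool.Agent.H2.MC.ThmA

set_option autoImplicit false

/-!
# Theorem E: all pairs in an Arnoux–Rauzy subshift over three letters
-/

namespace Pool.Agent.H2.MC

open Filter Pool.Agent.H2.Sturm

/-- Positivity of all partial quotients from the positivity of the late ones. -/
lemma pq_pos_of_late {x : ℝ} {k : ℕ} (h : ∀ i, k ≤ i → 0 < pq x i) (n : ℕ) : 0 < pq x n := by
  have h1 : ∀ i, 0 < cfDigit x (k + 1 + i) := by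
    intro i
    have e : k + 1 + i = (k + i) + 1 := by omega
    rw [e, cfDigit_pq]
    exact_mod_cast h (k + i) (by omega)
  have h2 := one_lt_cq h1 n
  have h3 : cfDigit x (n + 1) = (pq x n : ℤ) := cfDigit_pq x n
  rw [cfDigit_eq] at h3
  have h4 : (1 : ℤ) ≤ ⌊cq x (n + 1)⌋ := by rw [Int.le_floor]; push_cast; exact h2.le
  rw [h3] at h4
  exact_mod_cast h4

/-- A larger exponent is better. -/
lemma PowerLittlewood.mono {c c' α β : ℝ} (h : PowerLittlewood c' α β) (hc : c ≤ c') : PowerLittlewood c α β := by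
  intro ε hε N
  obtain ⟨q, hqN, hq0, hq⟩ := h ε hε N
  refine ⟨q, hqN, hq0, lt_of_le_of_lt ?_ hq⟩
  have h1 : (1 : ℝ) ≤ q := by exact_mod_cast hq0
  have h2 : (q : ℝ) ^ (1 + c) ≤ (q : ℝ) ^ (1 + c') := Real.rpow_le_rpow_of_exponent_le h1 (by linarith)
  gcongr

theorem thmE {W : Fin 3 → List ℕ} {d : ℕ → Fin 3} (hW : ∀ x, W x ≠ []) (hW0 : ∀ x, ∀ e ∈ W x, 0 < e)
    (hd : ∀ x, ∃ᶠ t in atTop, d t = x) {α β : ℝ} {i0 j0 : ℕ}
    (hα : ∀ i n, i0 ≤ i → win (pq α) i n ∈ ARL W d n) (hβ : ∀ j n, j0 ≤ j → mir (pq β) j n ∈ ARL W d n)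
    {c : ℝ} (hc : c < 1 / 4) : PowerLittlewood c α β := by
  -- letters of the language are positive
  have hpos : ∀ (t : ℕ) (x : Fin 3), ∀ e ∈ blk W d t x, 0 < e := by
    intro t
    induction t with
    | zero => exact hW0
    | succ t ih =>
      intro x e he
      unfold blk at he
      split_ifs at he with hx
      · exact ih x e he
      · rcases List.mem_append.mp he with h1 | h1
        · exact ih _ e h1
        · exact ih _ e h1
  have hposL : ∀ n, ∀ w ∈ ARL W d n, ∀ e ∈ w, 0 < e := by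
    rintro n w ⟨_, t, x, hx⟩ e he
    exact hpos t x e (hx.subset he)
  set b := pq α with hb
  set a := pq β with ha
  have hb0 : ∀ n, 0 < b n := by
    refine pq_pos_of_late (k := i0) (fun i hi => ?_)
    have h1 := hposL 1 _ (hα i 1 hi) (b i)
    rw [win_one] at h1
    exact h1 (by simp)
  have ha0 : ∀ n, 0 < a n := by
    refine pq_pos_of_late (k := j0) (fun i hi => ?_)
    have h1 := hposL 1 _ (hβ i 1 hi) (a i)
    rw [mir, win_one] at h1
    exact h1 (by simp)
  have hF := lang_ARL (W := W) (d := d) hW hd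
  -- bounded letters
  obtain ⟨M, hM⟩ : ∃ M : ℕ, (∀ n, b n ≤ M) ∧ ∀ n, a n ≤ M := by
    have hbd : ∃ B : ℕ, ∀ w ∈ ARL W d 1, ∀ e ∈ w, e ≤ B := by
      have hfin := hF.fin 1
      obtain ⟨B, hB⟩ : ∃ B : ℕ, ∀ w ∈ ARL W d 1, w.sum ≤ B := by
        obtain ⟨B, hB⟩ := (hfin.image List.sum).bddAbove
        exact ⟨B, fun w hw => hB ⟨w, hw, rfl⟩⟩
      exact ⟨B, fun w hw e he => (List.single_le_sum (by simp) e he).trans (hB w hw)⟩
    obtain ⟨B, hB⟩ := hbd
    refine ⟨max B (max ((Finset.range i0).sup b) ((Finset.range j0).sup a)), fun n => ?_, fun n => ?_⟩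
    · by_cases hn : i0 ≤ n
      · have h1 := hB _ (hα n 1 hn) (b n) (by rw [win_one]; simp)
        exact h1.trans (le_max_left _ _)
      · have h1 : b n ≤ (Finset.range i0).sup b := Finset.le_sup (f := b) (Finset.mem_range.mpr (by omega))
        exact h1.trans ((le_max_left _ _).trans (le_max_right _ _))
    · by_cases hn : j0 ≤ n
      · have h1 := hB _ (hβ n 1 hn) (a n) (by rw [mir, win_one]; simp)
        exact h1.trans (le_max_left _ _)
      · have h1 : a n ≤ (Finset.range j0).sup a := Finset.le_sup (f := a) (Finset.mem_range.mpr (by omega))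
        exact h1.trans ((le_max_right _ _).trans (le_max_right _ _))
  have hlog2 : 0 ≤ Real.log 2 := Real.log_nonneg (by norm_num)
  obtain ⟨lam, hlam0, hlam⟩ := rate_ARL (W := W) (d := d) hW hd hlog2 wt_nonneg wt_append_ge wt_append_le
  have hlampos : 0 < lam := rate_pos hF.nonempty hF.len hlam0 hlam
  have hxB := win_rate hb0 hM.1 hlam0 hlam (fun n => ⟨i0, fun i hi => Or.inl (hα i n hi)⟩)
  have hxA := win_rate ha0 hM.2 hlam0 hlam (fun n => ⟨j0, fun i hi => Or.inr (hβ i n hi)⟩)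
  -- exponent
  set c0 : ℝ := max c 0 with hc0
  have hc00 : 0 ≤ c0 := le_max_right _ _
  have hc04 : c0 < 1 / 4 := max_lt hc (by norm_num)
  have hlt : (8 : ℝ) / 5 < 2 / (1 + c0) := by
    rw [lt_div_iff₀ (by linarith)]
    linarith
  obtain ⟨κ, hκ1, hκ2⟩ := exists_between hlt
  refine PowerLittlewood.mono (c' := c0) ?_ (le_max_left _ _)
  refine final_fine hb0 ha0 hlampos ?_ hc00 (by linarith) hκ2 ?_
  · intro ε hε
    obtain ⟨C, hC⟩ := hxB ε hε
    obtain ⟨C', hC'⟩ := hxA ε hε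
    exact ⟨max C C', fun i n => ⟨(hC i n).trans (by gcongr; exact le_max_left _ _),
      (hC' i n).trans (by gcongr; exact le_max_right _ _)⟩⟩
  · -- the scales
    set S : ℕ := ∑ x, (W x).length with hS
    set K : ℕ := i0 + j0 with hK
    rw [Filter.frequently_atTop]
    intro N
    -- a large bound
    obtain ⟨N1, hN1⟩ := exists_nat_gt (((4 : ℝ) / 5 * S + 2 / (1 - c0) * K) / (κ - 8 / 5))
    obtain ⟨t, ht, hgood⟩ := (Filter.frequently_atTop.mp (good_level (W := W) (d := d) hW hd)) (max N N1)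
    set n := (pre W d t).length with hn
    have hnt : t ≤ n := pre_tendsto hW t
    refine ⟨n, ((le_max_left _ _).trans ht).trans hnt, ?_⟩
    set Bn : ℕ := (8 * n + 4 * S) / 5 with hBn
    obtain ⟨e, T, i, j, hT, h1, h2, h3⟩ := ar_pairs (i0 := i0) (j0 := j0) (fun n => hα i0 n le_rfl)
      (fun n => hβ j0 n le_rfl) t Bn (fun x y hxy => by
        rw [hBn, Nat.le_div_iff_mul_le (by norm_num)]
        have := hgood x y hxy
        omega)
    refine ⟨K, e, T, i0, j0, i, j, ?_, le_rfl, h1, h2, h3⟩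
    have hT' : 5 * T ≤ 8 * n + 4 * S := by omega
    have hT'' : 5 * (T : ℝ) ≤ 8 * n + 4 * S := by exact_mod_cast hT'
    have hnN1 : (N1 : ℝ) ≤ n := by exact_mod_cast ((le_max_right _ _).trans ht).trans hnt
    rw [div_lt_iff₀ (by linarith)] at hN1
    have hk : (N1 : ℝ) * (κ - 8 / 5) ≤ n * (κ - 8 / 5) := mul_le_mul_of_nonneg_right hnN1 (by linarith)
    linarith

end Pool.Agent.H2.MC
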